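import Pool.Agent.Lib.Sqf4.Defs

set_option autoImplicit false

namespace Pool.Agent.Lib.Sqf4

open Polynomial Matrix

noncomputable section

private theorem Alg_dvd {m N : ℤ} (hm : m ≠ 0) {t : ℂ} (ht : IsIntegral ℤ t)
    (h : (N : ℂ) = m * t) : m ∣ N := by
  have hmC : (m : ℂ) ≠ 0 := by exact_mod_cast hm
  have h1 : t = algebraMap ℚ ℂ ((N : ℚ) / m) := by
    rw [map_div₀, map_intCast, map_intCast, h]
    field_simp
  have h2 : IsIntegral ℤ ((N : ℚ) / m) := by
    rw [h1] at ht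
    exact (isIntegral_algebraMap_iff (algebraMap ℚ ℂ).injective).mp ht
  obtain ⟨y, hy⟩ := IsIntegrallyClosed.isIntegral_iff.mp h2
  refine ⟨y, ?_⟩
  have hmQ : (m : ℚ) ≠ 0 := by exact_mod_cast hm
  have h3 : (N : ℚ) = m * y := by
    have h4 : ((y : ℤ) : ℚ) = (N : ℚ) / m := by simpa using hy
    rw [h4]; field_simp
  exact_mod_cast h3

private theorem Alg_root {f : ℤ[X]} {d : ℕ} {θ : Fin d → ℂ} (h : Rts f d θ) (σ : Fin d) :
    θ σ ^ d = - ∑ i : Fin d, θ σ ^ (i : ℕ) * ((f.coeff i : ℤ) : ℂ) := by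
  have h1 := h.root σ
  have h2 : f.map (Int.castRingHom ℂ) = X ^ d + ∑ i ∈ Finset.range d,
      C ((f.map (Int.castRingHom ℂ)).coeff i) * X ^ i := by
    have hm := (h.monic.map (Int.castRingHom ℂ)).as_sum
    rw [h.monic.natDegree_map, h.deg] at hm
    exact hm
  rw [h2] at h1
  simp only [eval_add, eval_pow, eval_X, eval_finsetSum, eval_mul, eval_C, coeff_map] at h1
  rw [Finset.sum_range] at h1
  rw [eq_neg_iff_add_eq_zero, ← h1]
  congr 1
  apply Finset.sum_congr rfl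
  intro i _
  rw [mul_comm]
  simp

private theorem Alg_comp {f : ℤ[X]} {d : ℕ} {θ : Fin d → ℂ} (h : Rts f d θ) :
    Matrix.vandermonde θ * (comp f d).map (Int.cast : ℤ → ℂ)
      = Matrix.diagonal θ * Matrix.vandermonde θ := by
  ext σ j
  rw [Matrix.diagonal_mul, Matrix.mul_apply]
  simp only [Matrix.vandermonde_apply, Matrix.map_apply, comp, Matrix.of_apply]
  by_cases hj : (j : ℕ) + 1 = d
  · simp only [hj, if_true]
    have : θ σ * θ σ ^ (j : ℕ) = θ σ ^ d := by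
      rw [← pow_succ', hj]
    rw [this, Alg_root h σ, ← Finset.sum_neg_distrib]
    apply Finset.sum_congr rfl
    intro i _
    push_cast
    ring
  · simp only [hj, if_false]
    have hj2 : (j : ℕ) + 1 < d := by have := j.2; omega
    rw [Finset.sum_eq_single (⟨(j : ℕ) + 1, hj2⟩ : Fin d)]
    · simp [pow_succ']
    · intro i _ hi
      have : ¬ (i : ℕ) = (j : ℕ) + 1 := by
        intro h2; apply hi; ext; exact h2
      simp [this]
    · intro h2; exact absurd (Finset.mem_univ _) h2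

private theorem Alg_map_pow {d : ℕ} (A : Matrix (Fin d) (Fin d) ℤ) (k : ℕ) :
    (A ^ k).map (Int.cast : ℤ → ℂ) = (A.map (Int.cast : ℤ → ℂ)) ^ k :=
  map_pow (Int.castRingHom ℂ).mapMatrix A k

private theorem Alg_pow {f : ℤ[X]} {d : ℕ} {θ : Fin d → ℂ} (h : Rts f d θ) (k : ℕ) :
    Matrix.vandermonde θ * ((comp f d) ^ k).map (Int.cast : ℤ → ℂ)
      = Matrix.diagonal (fun σ => θ σ ^ k) * Matrix.vandermonde θ := by
  rw [Alg_map_pow]
  induction k with
  | zero => simp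
  | succ k ih =>
    rw [pow_succ, ← Matrix.mul_assoc, ih, Matrix.mul_assoc, Alg_comp h, ← Matrix.mul_assoc,
      Matrix.diagonal_mul_diagonal]
    simp only [pow_succ]

private theorem Alg_mm {f : ℤ[X]} {d : ℕ} {θ : Fin d → ℂ} (h : Rts f d θ) (a : Fin d → ℤ) :
    Matrix.vandermonde θ * (mm f a).map (Int.cast : ℤ → ℂ)
      = Matrix.diagonal (al θ a) * Matrix.vandermonde θ := by
  have h1 : (mm f a).map (Int.cast : ℤ → ℂ)
      = ∑ j : Fin d, (a j : ℂ) • ((comp f d) ^ (j : ℕ)).map (Int.cast : ℤ → ℂ) := by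
    ext i k
    simp only [mm, Matrix.sum_apply, Matrix.map_apply, Matrix.smul_apply, smul_eq_mul]
    push_cast
    rfl
  rw [h1, Matrix.mul_sum]
  have h2 : ∀ j : Fin d, Matrix.vandermonde θ *
      ((a j : ℂ) • ((comp f d) ^ (j : ℕ)).map (Int.cast : ℤ → ℂ))
      = (a j : ℂ) • (Matrix.diagonal (fun σ => θ σ ^ (j : ℕ)) * Matrix.vandermonde θ) := by
    intro j
    rw [Matrix.mul_smul, Alg_pow h]
  rw [Finset.sum_congr rfl (fun j _ => h2 j)]
  ext σ k
  simp only [Matrix.sum_apply, Matrix.smul_apply, Matrix.diagonal_mul, smul_eq_mul, al]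
  rw [Finset.sum_mul]
  apply Finset.sum_congr rfl
  intro j _
  ring

private theorem Alg_vdet {d : ℕ} {θ : Fin d → ℂ} (h : Function.Injective θ) :
    (Matrix.vandermonde θ).det ≠ 0 :=
  Matrix.det_vandermonde_ne_zero_iff.mpr h

private def AlgPoly {d : ℕ} (a : Fin d → ℤ) : ℤ[X] := ∑ j : Fin d, C (a j) * X ^ (j : ℕ)

private theorem AlgPoly_coeff {d : ℕ} (a : Fin d → ℤ) (i : Fin d) :
    (AlgPoly a).coeff i = a i := by
  simp only [AlgPoly, finsetSum_coeff, coeff_C_mul, coeff_X_pow]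
  rw [Finset.sum_eq_single i]
  · simp
  · intro j _ hj
    have : ¬ (i : ℕ) = (j : ℕ) := by
      intro h2; apply hj; ext; exact h2.symm
    simp [this]
  · intro h2; exact absurd (Finset.mem_univ _) h2

private theorem AlgPoly_deg {d : ℕ} [NeZero d] (a : Fin d → ℤ) :
    (AlgPoly a).natDegree < d := by
  have hd : 0 < d := Nat.pos_of_ne_zero (NeZero.ne d)
  refine Nat.lt_of_le_pred hd ?_
  apply natDegree_sum_le_of_forall_le
  intro i _
  refine (natDegree_C_mul_X_pow_le _ _).trans ?_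
  exact Nat.le_pred_of_lt i.2

private theorem AlgPoly_eval {d : ℕ} (θ : Fin d → ℂ) (a : Fin d → ℤ) (σ : Fin d) :
    aeval (θ σ) (AlgPoly a) = al θ a σ := by
  simp [AlgPoly, al]

private theorem Alg_al_ne {f : ℤ[X]} {d : ℕ} [NeZero d] {θ : Fin d → ℂ} (h : Rts f d θ)
    (a : Fin d → ℤ) (ha : a ≠ 0) (σ : Fin d) : al θ a σ ≠ 0 := by
  intro hz
  rw [← AlgPoly_eval] at hz
  have hg := h.monic
  have hzr : aeval (θ σ) f = 0 := by
    have := h.root σ
    rw [eval_map] at this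
    exact this
  have hirrQ : Irreducible (f.map (Int.castRingHom ℚ)) :=
    (IsPrimitive.Int.irreducible_iff_irreducible_map_cast hg.isPrimitive).mp h.irr
  have hz1 : aeval (θ σ) (f.map (Int.castRingHom ℚ)) = 0 := by
    have := aeval_map_algebraMap ℚ (θ σ) f
    rw [← hzr, ← this]; rfl
  have hz2 : aeval (θ σ) ((AlgPoly a).map (Int.castRingHom ℚ)) = 0 := by
    have := aeval_map_algebraMap ℚ (θ σ) (AlgPoly a)
    rw [← hz, ← this]; rfl
  have hdvd : f.map (Int.castRingHom ℚ) ∣ (AlgPoly a).map (Int.castRingHom ℚ) := by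
    have h1 : minpoly ℚ (θ σ) ∣ (AlgPoly a).map (Int.castRingHom ℚ) := minpoly.dvd ℚ _ hz2
    have h2 := minpoly.eq_of_irreducible_of_monic hirrQ hz1 (hg.map _)
    rwa [← h2] at h1
  have hA0 : AlgPoly a ≠ 0 := by
    intro h0
    apply ha
    funext i
    rw [← AlgPoly_coeff a i, h0]
    simp
  have hAne : (AlgPoly a).map (Int.castRingHom ℚ) ≠ 0 := by
    rw [Ne, Polynomial.map_eq_zero_iff (RingHom.injective_int _)]
    exact hA0
  have h3 := natDegree_le_of_dvd hdvd hAne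
  rw [hg.natDegree_map, natDegree_map_eq_of_injective (RingHom.injective_int _), h.deg] at h3
  have h4 := AlgPoly_deg a
  omega

/-- THE NORM is a non-zero integer.  PROOF: `V * mm f a = diagonal (al θ a) * V` for the
Vandermonde matrix `V` (see PQ), so `det (mm f a) = ∏ al θ a σ`.  Non-zero: `f` irreducible of
degree `d > deg A`, `A = ∑ a_j X^j ≠ 0`, so no root `θ σ` of `f` is a root of `A`
(`minpoly`/coprimality over `ℚ`: `f` irreducible over `ℤ` monic, hence over `ℚ`). -/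
theorem norm_ne {f : ℤ[X]} {d : ℕ} [NeZero d] {θ : Fin d → ℂ} (h : Rts f d θ)
    (a : Fin d → ℤ) (ha : a ≠ 0) :
    (mm f a).det ≠ 0 ∧ ((mm f a).det : ℂ) = ∏ σ, al θ a σ := by
  have h1 : ((mm f a).det : ℂ) = ∏ σ, al θ a σ := by
    have h2 := congrArg Matrix.det (Alg_mm h a)
    rw [Matrix.det_mul, Matrix.det_mul, Matrix.det_diagonal, mul_comm] at h2
    have h3 := mul_right_cancel₀ (Alg_vdet h.inj) h2
    rw [← h3]
    exact (Int.castRingHom ℂ).map_det (mm f a)
  refine ⟨?_, h1⟩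
  intro h0
  rw [h0, Int.cast_zero] at h1
  obtain ⟨σ, _, hσ⟩ := Finset.prod_eq_zero_iff.mp h1.symm
  exact Alg_al_ne h a ha σ hσ

private theorem Alg_core {S : Type*} [CommRing S] {d : ℕ} (t c α : Fin d → S) (n p D : S)
    (hD : D = ∑ τ, c τ * ∏ ρ ∈ Finset.univ.erase τ, (n - t ρ))
    (hf : p ^ 2 ∣ ∏ ρ, (n - t ρ))
    (hα : ∀ τ, p ∣ α τ * ∏ ρ ∈ Finset.univ.erase τ, (n - t ρ)) :
    p ∣ D * ∏ ρ, α ρ ∧
    ∀ σ, p ^ 2 ∣ D ^ 2 * ((n - t σ) * (∏ ρ ∈ Finset.univ.erase σ, α ρ) ^ 2) := by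
  classical
  constructor
  · rw [hD, Finset.sum_mul]
    apply Finset.dvd_sum
    intro τ _
    rw [← Finset.mul_prod_erase Finset.univ α (Finset.mem_univ τ)]
    have h1 := (hα τ).mul_left (c τ * ∏ ρ ∈ Finset.univ.erase τ, α ρ)
    refine h1.trans (dvd_of_eq ?_)
    ring
  · intro σ
    have hσ : ∀ τ, p ∣ (∏ ρ ∈ Finset.univ.erase τ, (n - t ρ)) * (∏ ρ ∈ Finset.univ.erase σ, α ρ)
        ∨ τ = σ := by
      intro τ
      by_cases hτ : τ = σ
      · right; exact hτ
      · left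
        have hmem : τ ∈ Finset.univ.erase σ := Finset.mem_erase.mpr ⟨hτ, Finset.mem_univ _⟩
        rw [← Finset.mul_prod_erase (Finset.univ.erase σ) α hmem]
        have h1 := (hα τ).mul_right (∏ ρ ∈ (Finset.univ.erase σ).erase τ, α ρ)
        refine h1.trans (dvd_of_eq ?_)
        ring
    have hσσ : p ^ 2 ∣ (∏ ρ ∈ Finset.univ.erase σ, (n - t ρ)) * (n - t σ) := by
      rw [mul_comm, Finset.mul_prod_erase Finset.univ (fun ρ => n - t ρ) (Finset.mem_univ σ)]
      exact hf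
    rw [hD, sq (∑ τ, _), Finset.sum_mul_sum, Finset.sum_mul]
    apply Finset.dvd_sum
    intro τ _
    rw [Finset.sum_mul]
    apply Finset.dvd_sum
    intro τ' _
    rcases hσ τ with h1 | h1
    · rcases hσ τ' with h2 | h2
      · obtain ⟨u, hu⟩ := h1
        obtain ⟨v, hv⟩ := h2
        refine ⟨c τ * c τ' * (n - t σ) * (u * v), ?_⟩
        linear_combination (c τ * c τ' * (n - t σ) *
          ((∏ ρ ∈ Finset.univ.erase τ', (n - t ρ)) * (∏ ρ ∈ Finset.univ.erase σ, α ρ))) * hu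
          + (c τ * c τ' * (n - t σ) * (p * u)) * hv
      · rw [h2]
        obtain ⟨u, hu⟩ := hσσ
        refine ⟨c τ * (∏ ρ ∈ Finset.univ.erase τ, (n - t ρ)) * c σ *
          (∏ ρ ∈ Finset.univ.erase σ, α ρ) ^ 2 * u, ?_⟩
        linear_combination (c τ * (∏ ρ ∈ Finset.univ.erase τ, (n - t ρ)) * c σ *
          (∏ ρ ∈ Finset.univ.erase σ, α ρ) ^ 2) * hu
    · rw [h1]
      obtain ⟨u, hu⟩ := hσσ
      refine ⟨c τ' * (∏ ρ ∈ Finset.univ.erase τ', (n - t ρ)) * c σ *
        (∏ ρ ∈ Finset.univ.erase σ, α ρ) ^ 2 * u, ?_⟩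
      linear_combination (c τ' * (∏ ρ ∈ Finset.univ.erase τ', (n - t ρ)) * c σ *
        (∏ ρ ∈ Finset.univ.erase σ, α ρ) ^ 2) * hu

/-- `∏_(ρ ≠ σ) (X - θ_ρ)` -/
private def Algq {d : ℕ} (θ : Fin d → ℂ) (σ : Fin d) : ℂ[X] :=
  ∏ ρ ∈ Finset.univ.erase σ, (X - C (θ ρ))

private theorem Algq_eval {d : ℕ} (θ : Fin d → ℂ) (σ : Fin d) (z : ℂ) :
    (Algq θ σ).eval z = ∏ ρ ∈ Finset.univ.erase σ, (z - θ ρ) := by
  simp [Algq, eval_prod]

private theorem Algq_deg {d : ℕ} [NeZero d] (θ : Fin d → ℂ) (σ : Fin d) :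
    (Algq θ σ).degree < (d : ℕ) := by
  have h1 : (Algq θ σ).degree = ((d - 1 : ℕ) : WithBot ℕ) := by
    have h2 : (Algq θ σ).natDegree = d - 1 := by
      rw [Algq, natDegree_prod_of_monic _ _ (fun ρ _ => monic_X_sub_C _)]
      simp
    have h3 : (Algq θ σ) ≠ 0 :=
      (monic_prod_of_monic _ _ (fun ρ _ => monic_X_sub_C _)).ne_zero
    rw [degree_eq_natDegree h3, h2]
  rw [h1]
  have hd : 0 < d := Nat.pos_of_ne_zero (NeZero.ne d)
  exact_mod_cast Nat.sub_lt hd one_pos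

private theorem Alg_lagrange {d : ℕ} [NeZero d] (θ : Fin d → ℂ) (hθ : Function.Injective θ)
    (B : ℂ[X]) (hB : B.degree < (d : ℕ)) :
    C (∏ σ, (Algq θ σ).eval (θ σ)) * B = ∑ σ, C (B.eval (θ σ) *
      ∏ ρ ∈ Finset.univ.erase σ, (Algq θ ρ).eval (θ ρ)) * Algq θ σ := by
  classical
  apply eq_of_degrees_lt_of_eval_index_eq (v := θ) Finset.univ hθ.injOn
  · rw [Finset.card_univ, Fintype.card_fin]
    rw [← smul_eq_C_mul]
    exact lt_of_le_of_lt (degree_smul_le _ _) hB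
  · rw [Finset.card_univ, Fintype.card_fin]
    refine lt_of_le_of_lt (degree_sum_le _ _) ?_
    rw [Finset.sup_lt_iff (WithBot.bot_lt_coe _)]
    intro σ _
    rw [← smul_eq_C_mul]
    exact lt_of_le_of_lt (degree_smul_le _ _) (Algq_deg θ σ)
  · intro τ _
    rw [eval_mul, eval_C, eval_finsetSum, Finset.sum_eq_single τ]
    · rw [eval_mul, eval_C, ← Finset.mul_prod_erase Finset.univ (fun σ => (Algq θ σ).eval (θ σ))
        (Finset.mem_univ τ)]
      ring
    · intro σ _ hσ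
      rw [eval_mul, Algq_eval θ σ (θ τ)]
      have : τ ∈ Finset.univ.erase σ := Finset.mem_erase.mpr ⟨hσ.symm, Finset.mem_univ _⟩
      rw [Finset.prod_eq_zero (f := fun ρ => θ τ - θ ρ) this (sub_self _), mul_zero]
    · intro h2; exact absurd (Finset.mem_univ _) h2

private theorem Alg_fprod {f : ℤ[X]} {d : ℕ} [NeZero d] {θ : Fin d → ℂ} (h : Rts f d θ) :
    f.map (Int.castRingHom ℂ) = ∏ σ, (X - C (θ σ)) := by
  classical
  have hm := h.monic.map (Int.castRingHom ℂ)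
  have hp : (∏ σ : Fin d, (X - C (θ σ)) : ℂ[X]).Monic :=
    monic_prod_of_monic _ _ (fun ρ _ => monic_X_sub_C _)
  have hd1 : (f.map (Int.castRingHom ℂ)).natDegree = d := by
    rw [h.monic.natDegree_map, h.deg]
  have hd2 : (∏ σ : Fin d, (X - C (θ σ)) : ℂ[X]).natDegree = d := by
    rw [natDegree_prod_of_monic _ _ (fun ρ _ => monic_X_sub_C _)]
    simp
  apply eq_of_degree_sub_lt_of_eval_index_eq (v := θ) Finset.univ h.inj.injOn
  · rw [Finset.card_univ, Fintype.card_fin]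
    have h1 : (f.map (Int.castRingHom ℂ)).degree = ((d : ℕ) : WithBot ℕ) := by
      rw [degree_eq_natDegree hm.ne_zero, hd1]
    have h2 : (∏ σ : Fin d, (X - C (θ σ)) : ℂ[X]).degree = ((d : ℕ) : WithBot ℕ) := by
      rw [degree_eq_natDegree hp.ne_zero, hd2]
    rw [← h1]
    apply degree_sub_lt
    · rw [h1, h2]
    · exact hm.ne_zero
    · rw [hm.leadingCoeff, hp.leadingCoeff]
  · intro τ _
    rw [h.root τ, eval_prod]
    symm
    apply Finset.prod_eq_zero (Finset.mem_univ τ)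
    simp

/-- the coefficients of `f'` -/
private def Algd (f : ℤ[X]) (d : ℕ) : Fin d → ℤ := fun j => (derivative f).coeff j

private theorem Algd_al {f : ℤ[X]} {d : ℕ} [NeZero d] {θ : Fin d → ℂ} (h : Rts f d θ)
    (σ : Fin d) : al θ (Algd f d) σ = (Algq θ σ).eval (θ σ) := by
  classical
  have hd : 0 < d := Nat.pos_of_ne_zero (NeZero.ne d)
  have h1 : al θ (Algd f d) σ = ((derivative f).map (Int.castRingHom ℂ)).eval (θ σ) := by
    have h2 : (derivative f).natDegree < d := by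
      rw [← h.deg]
      apply natDegree_derivative_lt
      rw [h.deg]; omega
    rw [eval_map, eval₂_eq_sum_range' _ h2, Finset.sum_range]
    rfl
  rw [h1, ← derivative_map, Alg_fprod h, ← Finset.mul_prod_erase Finset.univ
    (fun σ => (X - C (θ σ) : ℂ[X])) (Finset.mem_univ σ), derivative_mul]
  simp [Algq]

private theorem Alg_conj {f : ℤ[X]} {d : ℕ} {θ : Fin d → ℂ} (h : Rts f d θ) (a : Fin d → ℤ) :
    Matrix.vandermonde θ * (adjugate (mm f a)).map (Int.cast : ℤ → ℂ)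
      = Matrix.diagonal (fun σ => ∏ ρ ∈ Finset.univ.erase σ, al θ a ρ)
        * Matrix.vandermonde θ := by
  classical
  set V := Matrix.vandermonde θ with hV
  have h0 : (adjugate (mm f a)).map (Int.cast : ℤ → ℂ)
      = adjugate ((mm f a).map (Int.cast : ℤ → ℂ)) :=
    (Int.castRingHom ℂ).map_adjugate (mm f a)
  rw [h0]
  have h1 := congrArg adjugate (Alg_mm h a)
  rw [← hV, adjugate_mul_distrib, adjugate_mul_distrib, adjugate_diagonal] at h1
  have h2 : V.det • (V * adjugate ((mm f a).map (Int.cast : ℤ → ℂ)))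
      = V.det • (Matrix.diagonal (fun σ => ∏ ρ ∈ Finset.univ.erase σ, al θ a ρ) * V) := by
    calc V.det • (V * adjugate ((mm f a).map (Int.cast : ℤ → ℂ)))
        = V * (adjugate ((mm f a).map (Int.cast : ℤ → ℂ)) * adjugate V) * V := by
          rw [Matrix.mul_assoc, Matrix.mul_assoc, adjugate_mul, Matrix.mul_smul, Matrix.mul_one,
            Matrix.mul_smul]
      _ = V * (adjugate V * Matrix.diagonal (fun σ => ∏ ρ ∈ Finset.univ.erase σ, al θ a ρ))
            * V := by rw [h1]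
      _ = _ := by
          rw [← Matrix.mul_assoc, mul_adjugate, Matrix.smul_mul, Matrix.one_mul, Matrix.smul_mul]
  exact smul_right_injective _ (Alg_vdet h.inj) h2

private theorem Alg_b {f : ℤ[X]} {d : ℕ} [NeZero d] {θ : Fin d → ℂ} (h : Rts f d θ)
    (a : Fin d → ℤ) (n : ℤ) : ∃ b : Fin d → ℤ, ∀ σ,
      al θ b σ = ((n : ℂ) - θ σ) * (∏ ρ ∈ Finset.univ.erase σ, al θ a ρ) ^ 2 := by
  classical
  have hT := Alg_comp h
  have hA := Alg_conj h a
  set V := Matrix.vandermonde θ with hV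
  set E : Matrix (Fin d) (Fin d) ℤ := n • 1 - comp f d with hE
  have hEV : V * E.map (Int.cast : ℤ → ℂ) = Matrix.diagonal (fun σ => (n : ℂ) - θ σ) * V := by
    have h1 : E.map (Int.cast : ℤ → ℂ) = (n : ℂ) • 1 - (comp f d).map (Int.cast : ℤ → ℂ) := by
      ext i j
      simp only [hE, Matrix.map_apply, Matrix.sub_apply, Matrix.smul_apply, Matrix.one_apply,
        smul_eq_mul]
      push_cast
      rfl
    rw [h1, Matrix.mul_sub, hT, Matrix.mul_smul, Matrix.mul_one]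
    ext σ j
    simp only [Matrix.sub_apply, Matrix.smul_apply, Matrix.diagonal_mul, smul_eq_mul]
    ring
  have hall : V * (E * (adjugate (mm f a) * adjugate (mm f a))).map (Int.cast : ℤ → ℂ)
      = Matrix.diagonal (fun σ => ((n : ℂ) - θ σ) *
        (∏ ρ ∈ Finset.univ.erase σ, al θ a ρ) ^ 2) * V := by
    have h1 : (E * (adjugate (mm f a) * adjugate (mm f a))).map (Int.cast : ℤ → ℂ)
        = E.map (Int.cast : ℤ → ℂ) * ((adjugate (mm f a)).map (Int.cast : ℤ → ℂ)
          * (adjugate (mm f a)).map (Int.cast : ℤ → ℂ)) := by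
      have h2 := map_mul (Int.castRingHom ℂ).mapMatrix E (adjugate (mm f a) * adjugate (mm f a))
      have h3 := map_mul (Int.castRingHom ℂ).mapMatrix (adjugate (mm f a)) (adjugate (mm f a))
      rw [h3] at h2
      exact h2
    rw [h1, ← Matrix.mul_assoc, hEV, Matrix.mul_assoc, ← Matrix.mul_assoc V, hA, Matrix.mul_assoc,
      hA, ← Matrix.mul_assoc, ← Matrix.mul_assoc, Matrix.diagonal_mul_diagonal,
      Matrix.diagonal_mul_diagonal]
    congr 2
    funext σ
    ring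
  refine ⟨fun j => (E * (adjugate (mm f a) * adjugate (mm f a))) j 0, ?_⟩
  intro σ
  have h1 := congrFun (congrFun hall σ) 0
  rw [Matrix.diagonal_mul, Matrix.mul_apply] at h1
  have h2 : V σ 0 = 1 := by simp [hV, Matrix.vandermonde_apply]
  rw [h2, mul_one] at h1
  rw [← h1]
  simp only [al]
  apply Finset.sum_congr rfl
  intro j _
  rw [Matrix.map_apply, hV, Matrix.vandermonde_apply, mul_comm]

private theorem Alg_int_root {f : ℤ[X]} {d : ℕ} {θ : Fin d → ℂ} (h : Rts f d θ) (σ : Fin d) :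
    IsIntegral ℤ (θ σ) := by
  refine ⟨f, h.monic, ?_⟩
  have := h.root σ
  rw [eval_map] at this
  exact this

private theorem Algq_int {f : ℤ[X]} {d : ℕ} {θ : Fin d → ℂ} (h : Rts f d θ) (σ : Fin d) (j : ℕ) :
    IsIntegral ℤ ((Algq θ σ).coeff j) := by
  classical
  have h1 : Algq θ σ ∈ Polynomial.lifts (algebraMap (integralClosure ℤ ℂ) ℂ) := by
    rw [Algq]
    apply prod_mem
    intro ρ _
    rw [Polynomial.mem_lifts]
    refine ⟨X - C ⟨θ ρ, Alg_int_root h ρ⟩, ?_⟩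
    rw [Polynomial.map_sub, map_X, map_C]
    rfl
  rw [Polynomial.lifts_iff_coeff_lifts] at h1
  obtain ⟨x, hx⟩ := h1 j
  rw [← hx]
  exact x.2

/-- THE FACTORISATION `p^2 β = (n - θ) (α*)^2`.  `D0` = an integer `≥ 1` such that every prime
dividing `f(n)` and `f'(n)` is at most `D0` (`U f + V f' = D0` with `U, V ∈ ℤ[X]`; `f` is
separable over `ℚ`).

PROOF.  `D = N(f'(θ))`, `q_σ = ∏_(ρ ≠ σ) (X - θ_ρ)`, Lagrange: `D b_j = ∑ (D / f'(θ_σ)) b(θ_σ) (q_σ)_j`
for `b ∈ ℤ^d`; `D = ∑ (D / f'(θ_σ)) q_σ(n)`.  In the algebraic integers `q_σ(n) α_σ ≡ 0` modulo `p`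
and `q_σ(n) (n - θ_σ) ≡ 0` modulo `p^2`, so `D^2 (n - θ_σ) (α*_σ)^2 ≡ 0` modulo `p^2`, and
`D ∏ α_σ ≡ 0` modulo `p`.  `D0 = |D|`. -/
theorem exists_sol {f : ℤ[X]} {d : ℕ} [NeZero d] {θ : Fin d → ℂ} (h : Rts f d θ) :
    ∃ D0 : ℕ, ∀ p : ℕ, p.Prime → D0 < p → ∀ n : ℤ, ((p : ℤ) ^ 2 ∣ f.eval n) →
      ∀ a : Fin d → ℤ, a ≠ 0 → ((p : ℤ) ∣ ∑ j, a j * n ^ (j : ℕ)) →
        ((p : ℤ) ∣ (mm f a).det) ∧ ∃ β : Fin d → ℤ, Sol θ p n a β := by
  classical
  have hne : Algd f d ≠ 0 := by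
    intro h0
    have hd : 0 < d := Nat.pos_of_ne_zero (NeZero.ne d)
    have h1 := Algd_al h ⟨0, hd⟩
    rw [h0, Algq_eval] at h1
    have h2 : al θ (0 : Fin d → ℤ) ⟨0, hd⟩ = 0 := by simp [al]
    rw [h2] at h1
    obtain ⟨ρ, hρ, hρ0⟩ := Finset.prod_eq_zero_iff.mp h1.symm
    exact (Finset.mem_erase.mp hρ).1 (h.inj (sub_eq_zero.mp hρ0)).symm
  obtain ⟨hD0, hDc⟩ := norm_ne h (Algd f d) hne
  set D : ℤ := (mm f (Algd f d)).det with hD
  refine ⟨D.natAbs, ?_⟩
  intro p hp hpD n hn a ha hpa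
  have hpZ : Prime (p : ℤ) := Nat.prime_iff_prime_int.mp hp
  have hpnD : ¬ (p : ℤ) ∣ D := by
    intro h1
    have h2 : p ∣ D.natAbs := Int.natCast_dvd.mp h1
    have h3 := Nat.le_of_dvd (Int.natAbs_pos.mpr hD0) h2
    omega
  -- the ring of algebraic integers
  let S := integralClosure ℤ ℂ
  let t : Fin d → S := fun σ => ⟨θ σ, Alg_int_root h σ⟩
  let A : S[X] := (AlgPoly a).map (Int.castRingHom S)
  let α : Fin d → S := fun σ => A.eval (t σ)
  let c : Fin d → S := fun τ => ∏ ρ ∈ Finset.univ.erase τ, ∏ μ ∈ Finset.univ.erase ρ, (t ρ - t μ)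
  have hval : ∀ x y : S, (algebraMap S ℂ) x = (algebraMap S ℂ) y → x = y :=
    fun x y hxy => Subtype.ext hxy
  have ht : ∀ σ, (algebraMap S ℂ) (t σ) = θ σ := fun σ => rfl
  have hal : ∀ σ, (algebraMap S ℂ) (α σ) = al θ a σ := by
    intro σ
    have h1 : (algebraMap S ℂ) (α σ) = ((AlgPoly a).map (Int.castRingHom ℂ)).eval (θ σ) := by
      have h2 := Polynomial.eval_map_apply (algebraMap S ℂ) (p := A) (t σ)
      rw [ht] at h2
      rw [← h2, Polynomial.map_map]
      congr 1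
    rw [h1, ← AlgPoly_eval, eval_map]
    rfl
  have hcv : ∀ τ, (algebraMap S ℂ) (c τ) = ∏ ρ ∈ Finset.univ.erase τ,
      (Algq θ ρ).eval (θ ρ) := by
    intro τ
    simp only [c, map_prod, map_sub, ht, Algq_eval]
  have hDprod : (D : ℂ) = ∏ σ, (Algq θ σ).eval (θ σ) := by
    rw [hDc]
    exact Finset.prod_congr rfl (fun σ _ => Algd_al h σ)
  have hDS : ((D : ℤ) : S) = ∑ τ, c τ * ∏ ρ ∈ Finset.univ.erase τ, ((n : S) - t ρ) := by
    apply hval
    rw [map_intCast, map_sum]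
    have h1 := congrArg (fun q => eval (n : ℂ) q) (Alg_lagrange θ h.inj 1 (by
      rw [degree_one]
      exact_mod_cast Nat.pos_of_ne_zero (NeZero.ne d)))
    simp only [mul_one, eval_C, eval_one, one_mul, eval_finsetSum, eval_mul] at h1
    rw [← hDprod] at h1
    rw [h1]
    apply Finset.sum_congr rfl
    intro τ _
    rw [map_mul, hcv, map_prod, Algq_eval]
    simp only [map_sub, map_intCast, ht]
  have hprodn : ∏ ρ, ((n : S) - t ρ) = ((f.eval n : ℤ) : S) := by
    apply hval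
    rw [map_prod, map_intCast]
    have h1 : ((f.eval n : ℤ) : ℂ) = (f.map (Int.castRingHom ℂ)).eval (n : ℂ) := by
      have h2 := Polynomial.eval_map_apply (Int.castRingHom ℂ) (p := f) n
      simp
    rw [h1, Alg_fprod h, eval_prod]
    apply Finset.prod_congr rfl
    intro σ _
    rw [map_sub, map_intCast, ht, eval_sub, eval_X, eval_C]
  have hf2 : ((p : ℤ) : S) ^ 2 ∣ ∏ ρ, ((n : S) - t ρ) := by
    rw [hprodn]
    obtain ⟨e, he⟩ := hn
    refine ⟨(e : S), ?_⟩
    rw [he]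
    push_cast
    ring
  have hα : ∀ τ, ((p : ℤ) : S) ∣ α τ * ∏ ρ ∈ Finset.univ.erase τ, ((n : S) - t ρ) := by
    intro τ
    obtain ⟨k, hk⟩ := hpa
    obtain ⟨u, hu⟩ := hf2
    obtain ⟨Q, hQ⟩ := A.sub_dvd_eval_sub (n : S) (t τ)
    have hAn : A.eval (n : S) = ((p : ℤ) : S) * (k : S) := by
      have h1 : A.eval (n : S) = ((∑ j, a j * n ^ (j : ℕ) : ℤ) : S) := by
        simp only [A, AlgPoly]
        rw [Polynomial.map_sum, eval_finsetSum]
        push_cast
        apply Finset.sum_congr rfl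
        intro j _
        simp
      rw [h1, hk]
      push_cast
      ring
    rw [← Finset.mul_prod_erase Finset.univ (fun ρ => (n : S) - t ρ) (Finset.mem_univ τ)] at hu
    refine ⟨(k : S) * (∏ ρ ∈ Finset.univ.erase τ, ((n : S) - t ρ)) - ((p : ℤ) : S) * u * Q, ?_⟩
    have h2 : α τ = A.eval (t τ) := rfl
    rw [h2]
    linear_combination (∏ ρ ∈ Finset.univ.erase τ, ((n : S) - t ρ)) * hAn
      - (∏ ρ ∈ Finset.univ.erase τ, ((n : S) - t ρ)) * hQ - Q * hu
  obtain ⟨hc1, hc2⟩ := Alg_core t c α (n : S) ((p : ℤ) : S) ((D : ℤ) : S) hDS hf2 hα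
  have hp0 : (p : ℤ) ≠ 0 := hpZ.ne_zero
  have hcop : IsCoprime (p : ℤ) D := hpZ.coprime_iff_not_dvd.mpr hpnD
  constructor
  · obtain ⟨u, hu⟩ := hc1
    have h1 : (p : ℤ) ∣ D * (mm f a).det := by
      apply Alg_dvd hp0 (t := (algebraMap S ℂ) u) u.2
      have h2 := congrArg (algebraMap S ℂ) hu
      rw [map_mul, map_mul, map_prod, map_intCast, map_intCast] at h2
      rw [Int.cast_mul, (norm_ne h a ha).2, ← h2]
      congr 1
      exact Finset.prod_congr rfl (fun σ _ => (hal σ).symm)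
    exact hcop.dvd_of_dvd_mul_left h1
  · obtain ⟨b, hb⟩ := Alg_b h a n
    choose s hs using hc2
    have hbj : ∀ j, (p : ℤ) ^ 2 ∣ b j := by
      intro j
      have h1 : (p : ℤ) ^ 2 ∣ D ^ 3 * b j := by
        apply Alg_dvd (pow_ne_zero 2 hp0) (t := ∑ σ, (algebraMap S ℂ) (s σ)
          * (algebraMap S ℂ) (c σ) * (Algq θ σ).coeff j)
        · apply IsIntegral.sum
          intro σ _
          exact ((s σ).2.mul (c σ).2).mul (Algq_int h σ j)
        · have hdeg : ((AlgPoly b).map (Int.castRingHom ℂ)).degree < (d : ℕ) := by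
            refine lt_of_le_of_lt degree_map_le ?_
            exact lt_of_le_of_lt degree_le_natDegree (by exact_mod_cast AlgPoly_deg b)
          have h2 := congrArg (fun q => coeff q (j : ℕ)) (Alg_lagrange θ h.inj _ hdeg)
          simp only [coeff_C_mul, finsetSum_coeff, coeff_map, AlgPoly_coeff] at h2
          rw [← hDprod] at h2
          have h3 : ((D ^ 3 * b j : ℤ) : ℂ) = (D : ℂ) ^ 2 * ((D : ℂ) * (Int.castRingHom ℂ) (b j)) := by
            simp only [eq_intCast]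
            push_cast
            ring
          rw [h3, h2, Finset.mul_sum, Finset.mul_sum]
          apply Finset.sum_congr rfl
          intro σ _
          have h4 : eval (θ σ) ((AlgPoly b).map (Int.castRingHom ℂ)) = al θ b σ := by
            rw [← AlgPoly_eval, eval_map]
            rfl
          have h5 := congrArg (algebraMap S ℂ) (hs σ)
          simp only [map_mul, map_pow, map_sub, map_prod, map_intCast, ht, hal] at h5
          rw [h4, hb, ← hcv]
          push_cast at h5 ⊢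
          linear_combination (algebraMap S ℂ (c σ) * (Algq θ σ).coeff j) * h5
      exact (hcop.pow).dvd_of_dvd_mul_left h1
    choose β hβ using hbj
    refine ⟨β, ?_⟩
    intro σ
    rw [← hb σ]
    simp only [al]
    rw [Finset.mul_sum]
    apply Finset.sum_congr rfl
    intro j _
    rw [hβ j]
    push_cast
    ring

end

end Pool.Agent.Lib.Sqf4
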