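import Pool.Agent.Lib.Sqf4.Defs

set_option autoImplicit false

namespace Pool.Agent.Lib.Sqf4

noncomputable section

/-- the slices: vectors with `a 0 = 0` and the other coordinates in `[-m, m]` -/
def box0 (d m : ℕ) [NeZero d] : Finset (Fin d → ℤ) :=
  Fintype.piFinset fun j => if j = 0 then {0} else Finset.Icc (-(m : ℤ)) m

private lemma cnt_diam (S : Finset ℤ) (L : ℝ) (hL : 0 ≤ L)
    (h : ∀ x ∈ S, ∀ y ∈ S, ((x : ℝ) - y) ≤ L) : (S.card : ℝ) ≤ L + 1 := by
  rcases S.eq_empty_or_nonempty with rfl | hne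
  · simp; linarith
  · have hsub : S ⊆ Finset.Icc (S.min' hne) (S.max' hne) := by
      intro x hx
      exact Finset.mem_Icc.2 ⟨Finset.min'_le S x hx, Finset.le_max' S x hx⟩
    have hc := Finset.card_le_card hsub
    rw [Int.card_Icc] at hc
    have hmm : S.min' hne ≤ S.max' hne :=
      Finset.min'_le S _ (Finset.max'_mem S hne)
    have h1 := h _ (Finset.max'_mem S hne) _ (Finset.min'_mem S hne)
    have h2 : (S.card : ℤ) ≤ S.max' hne + 1 - S.min' hne := by
      have : ((S.max' hne + 1 - S.min' hne).toNat : ℤ) = S.max' hne + 1 - S.min' hne :=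
        Int.toNat_of_nonneg (by omega)
      calc (S.card : ℤ) ≤ ((S.max' hne + 1 - S.min' hne).toNat : ℤ) := by exact_mod_cast hc
        _ = _ := this
    have h3 : (S.card : ℝ) ≤ (S.max' hne : ℝ) + 1 - (S.min' hne : ℝ) := by exact_mod_cast h2
    linarith

private lemma cnt_one {d : ℕ} [NeZero d] (hd : 2 ≤ d) (θ : Fin d → ℂ) (σ ρ : Fin d)
    (hne : θ σ ≠ θ ρ) (m : ℕ) (D : ℝ) (hD : 0 ≤ D) (T : Finset (Fin d → ℤ))
    (hT : ∀ a ∈ T, a ∈ box0 d m ∧ ‖al θ a σ - al θ a ρ‖ ≤ D) :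
    (T.card : ℝ) ≤ (2 / ‖θ σ - θ ρ‖ + 1) * ((2 * m + 1) ^ (d - 2) * (D + 1)) := by
  classical
  set i1 : Fin d := ⟨1, hd⟩ with hi1
  have h01 : (0 : Fin d) ≠ i1 := by
    intro h
    have := congrArg Fin.val h
    simp [hi1] at this
  set δ : ℝ := ‖θ σ - θ ρ‖ with hδ
  have hδpos : 0 < δ := norm_pos_iff.2 (sub_ne_zero.2 hne)
  set B : Finset (Fin d → ℤ) :=
    Fintype.piFinset fun j => if j = 0 ∨ j = i1 then {0} else Finset.Icc (-(m : ℤ)) m with hB
  have hBcard : B.card = (2 * m + 1) ^ (d - 2) := by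
    rw [hB, Fintype.card_piFinset]
    have h1 : ∀ j : Fin d, (if j = 0 ∨ j = i1 then ({0} : Finset ℤ)
        else Finset.Icc (-(m : ℤ)) m).card = if j ∈ ({0, i1} : Finset (Fin d)) then 1
        else 2 * m + 1 := by
      intro j
      by_cases hj : j = 0 ∨ j = i1
      · have : j ∈ ({0, i1} : Finset (Fin d)) := by simpa using hj
        rw [if_pos hj, if_pos this]; simp
      · have : j ∉ ({0, i1} : Finset (Fin d)) := by simpa using hj
        rw [if_neg hj, if_neg this, Int.card_Icc]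
        omega
    rw [Finset.prod_congr rfl (fun j _ => h1 j)]
    rw [Finset.prod_ite]
    rw [Finset.prod_const_one, one_mul, Finset.prod_const]
    congr 1
    have : (Finset.univ.filter fun j : Fin d => j ∉ ({0, i1} : Finset (Fin d)))
        = Finset.univ \ ({0, i1} : Finset (Fin d)) := by
      ext j; simp
    rw [this, Finset.card_sdiff_of_subset (Finset.subset_univ _), Finset.card_univ,
      Fintype.card_fin, Finset.card_pair h01]
  have hmap : ∀ a ∈ T, Function.update a i1 0 ∈ B := by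
    intro a ha
    have hab := (hT a ha).1
    rw [box0, Fintype.mem_piFinset] at hab
    rw [hB, Fintype.mem_piFinset]
    intro j
    by_cases hj1 : j = i1
    · subst hj1; simp
    · rw [Function.update_of_ne hj1]
      have := hab j
      by_cases hj0 : j = 0
      · rw [if_pos hj0] at this
        rw [if_pos (Or.inl hj0)]; exact this
      · rw [if_neg hj0] at this
        rw [if_neg (by tauto)]; exact this
  have hfib : ∀ b ∈ B, (T.filter fun a => Function.update a i1 0 = b).card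
      ≤ ⌊2 * D / δ + 1⌋₊ := by
    intro b _
    set F := T.filter fun a => Function.update a i1 0 = b with hF
    have hinj : Set.InjOn (fun a : Fin d → ℤ => a i1) (F : Set (Fin d → ℤ)) := by
      intro a ha a' ha' h
      have h1 := (Finset.mem_filter.1 ha).2
      have h2 := (Finset.mem_filter.1 ha').2
      funext j
      by_cases hj : j = i1
      · subst hj; exact h
      · have e1 := congrFun h1 j
        have e2 := congrFun h2 j
        rw [Function.update_of_ne hj] at e1 e2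
        rw [e1, e2]
    rw [← Finset.card_image_of_injOn hinj]
    apply Nat.le_floor
    apply cnt_diam _ _ (by positivity)
    intro x hx y hy
    obtain ⟨a, ha, rfl⟩ := Finset.mem_image.1 hx
    obtain ⟨a', ha', rfl⟩ := Finset.mem_image.1 hy
    have h1 := (Finset.mem_filter.1 ha).2
    have h2 := (Finset.mem_filter.1 ha').2
    have n1 := (hT a (Finset.mem_filter.1 ha).1).2
    have n2 := (hT a' (Finset.mem_filter.1 ha').1).2
    have key : (al θ a σ - al θ a ρ) - (al θ a' σ - al θ a' ρ)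
        = ((a i1 : ℂ) - a' i1) * (θ σ - θ ρ) := by
      simp only [al]
      rw [← Finset.sum_sub_distrib, ← Finset.sum_sub_distrib, ← Finset.sum_sub_distrib]
      rw [Finset.sum_eq_single i1]
      · simp [hi1]; ring
      · intro j _ hj
        have e1 := congrFun h1 j
        have e2 := congrFun h2 j
        rw [Function.update_of_ne hj] at e1 e2
        rw [e1, e2]; ring
      · intro h; exact absurd (Finset.mem_univ _) h
    have hn : ‖((a i1 : ℂ) - a' i1) * (θ σ - θ ρ)‖ ≤ 2 * D := by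
      rw [← key]
      calc _ ≤ ‖al θ a σ - al θ a ρ‖ + ‖al θ a' σ - al θ a' ρ‖ := norm_sub_le _ _
        _ ≤ D + D := add_le_add n1 n2
        _ = 2 * D := by ring
    rw [norm_mul] at hn
    have hle : ((a i1 : ℝ) - a' i1) ≤ ‖((a i1 : ℂ) - a' i1)‖ := by
      have : ((a i1 : ℂ) - a' i1) = (((a i1 : ℝ) - a' i1 : ℝ) : ℂ) := by push_cast; ring
      rw [this, Complex.norm_real]
      exact le_abs_self _
    show ((a i1 : ℝ) - a' i1) ≤ 2 * D / δ
    rw [le_div_iff₀ hδpos]
    calc ((a i1 : ℝ) - a' i1) * δ ≤ ‖((a i1 : ℂ) - a' i1)‖ * δ :=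
          mul_le_mul_of_nonneg_right hle hδpos.le
      _ ≤ 2 * D := hn
  have hcard := Finset.card_le_mul_card_image_of_maps_to hmap _ hfib
  rw [hBcard] at hcard
  have hcard' : (T.card : ℝ) ≤ (⌊2 * D / δ + 1⌋₊ : ℝ) * ((2 * m + 1) ^ (d - 2) : ℝ) := by
    exact_mod_cast hcard
  have hfl : (⌊2 * D / δ + 1⌋₊ : ℝ) ≤ 2 * D / δ + 1 := Nat.floor_le (by positivity)
  have hpow : (0 : ℝ) ≤ (2 * m + 1) ^ (d - 2) := by positivity
  calc (T.card : ℝ) ≤ (⌊2 * D / δ + 1⌋₊ : ℝ) * ((2 * m + 1) ^ (d - 2) : ℝ) := hcard'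
    _ ≤ (2 * D / δ + 1) * ((2 * m + 1) ^ (d - 2) : ℝ) :=
        mul_le_mul_of_nonneg_right hfl hpow
    _ ≤ ((2 / δ + 1) * (D + 1)) * ((2 * m + 1) ^ (d - 2) : ℝ) := by
        apply mul_le_mul_of_nonneg_right _ hpow
        have h2 : (0 : ℝ) ≤ 2 / δ := by positivity
        have h3 : 2 * D / δ = (2 / δ) * D := by ring
        rw [h3]
        nlinarith
    _ = _ := by ring

open Classical in
/-- FEW SLICES HAVE TWO CLOSE CONJUGATES.  PROOF: for `σ ≠ ρ`,
`α_σ - α_ρ = a_1 (θ_σ - θ_ρ) + (terms in a_2, ..., a_(d-1))`; for fixed `a_2, ..., a_(d-1)`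
(`(2m+1)^(d-2)` choices) the integer `a_1` lies in an interval (real parts, after division by
`θ_σ - θ_ρ ≠ 0`) of length `2 D / |θ_σ - θ_ρ|`: at most `2 D / |θ_σ - θ_ρ| + 1` choices; sum
over the pairs `σ ≠ ρ`. -/
theorem cnt_bad {d : ℕ} [NeZero d] (hd : 2 ≤ d) (θ : Fin d → ℂ)
    (hθ : Function.Injective θ) : ∃ C : ℝ, 1 ≤ C ∧ ∀ (m : ℕ) (D : ℝ), 0 ≤ D →
      (((box0 d m).filter fun a => ∃ σ ρ, σ ≠ ρ ∧ ‖al θ a σ - al θ a ρ‖ ≤ D).card : ℝ)
        ≤ C * (2 * m + 1) ^ (d - 2) * (D + 1) := by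
  refine ⟨1 + ∑ s : Fin d, ∑ r : Fin d, (2 / ‖θ s - θ r‖ + 1), ?_, ?_⟩
  · have : 0 ≤ ∑ s : Fin d, ∑ r : Fin d, (2 / ‖θ s - θ r‖ + 1) :=
      Finset.sum_nonneg fun s _ => Finset.sum_nonneg fun r _ => by positivity
    linarith
  · intro m D hD
    set Tf : Fin d × Fin d → Finset (Fin d → ℤ) := fun p =>
      (box0 d m).filter fun a => p.1 ≠ p.2 ∧ ‖al θ a p.1 - al θ a p.2‖ ≤ D with hTf
    have hsub : ((box0 d m).filter fun a => ∃ σ ρ, σ ≠ ρ ∧ ‖al θ a σ - al θ a ρ‖ ≤ D)
        ⊆ Finset.univ.biUnion Tf := by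
      intro a ha
      obtain ⟨ha1, σ, ρ, hne, hn⟩ := Finset.mem_filter.1 ha
      rw [Finset.mem_biUnion]
      exact ⟨(σ, ρ), Finset.mem_univ _, Finset.mem_filter.2 ⟨ha1, hne, hn⟩⟩
    have h1 := (Finset.card_le_card hsub).trans Finset.card_biUnion_le
    have h1' : (((box0 d m).filter fun a => ∃ σ ρ, σ ≠ ρ ∧
        ‖al θ a σ - al θ a ρ‖ ≤ D).card : ℝ) ≤ ∑ p : Fin d × Fin d, ((Tf p).card : ℝ) := by
      exact_mod_cast h1
    set K : ℝ := (2 * m + 1) ^ (d - 2) * (D + 1) with hK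
    have hKpos : 0 ≤ K := by positivity
    have h2 : ∀ p : Fin d × Fin d, ((Tf p).card : ℝ) ≤ (2 / ‖θ p.1 - θ p.2‖ + 1) * K := by
      intro p
      by_cases hp : p.1 = p.2
      · have : Tf p = ∅ := by
          rw [hTf]
          apply Finset.filter_false_of_mem
          intro a _ h
          exact h.1 hp
        rw [this, Finset.card_empty, Nat.cast_zero]
        positivity
      · apply cnt_one hd θ p.1 p.2 (fun h => hp (hθ h)) m D hD
        intro a ha
        obtain ⟨ha1, _, ha3⟩ := Finset.mem_filter.1 ha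
        exact ⟨ha1, ha3⟩
    calc _ ≤ ∑ p : Fin d × Fin d, ((Tf p).card : ℝ) := h1'
      _ ≤ ∑ p : Fin d × Fin d, (2 / ‖θ p.1 - θ p.2‖ + 1) * K :=
          Finset.sum_le_sum fun p _ => h2 p
      _ = (∑ s : Fin d, ∑ r : Fin d, (2 / ‖θ s - θ r‖ + 1)) * K := by
          rw [← Finset.sum_mul, Fintype.sum_prod_type]
      _ ≤ (1 + ∑ s : Fin d, ∑ r : Fin d, (2 / ‖θ s - θ r‖ + 1)) * K := by
          apply mul_le_mul_of_nonneg_right _ hKpos
          linarith
      _ = _ := by rw [hK]; ring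

end

end Pool.Agent.Lib.Sqf4
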