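import Pool.Agent.Lib.Sqf4.Defs

set_option autoImplicit false

namespace Pool.Agent.Lib.Sqf4

open Polynomial

noncomputable section

/-- PIGEONHOLE: a small polynomial with `A(n) ≡ 0 mod p`. -/
theorem pig {d : ℕ} (p m : ℕ) (hp : 0 < p) (hm : p < (m + 1) ^ d) (n : ℤ) :
    ∃ a : Fin d → ℤ, a ≠ 0 ∧ (∀ j, |a j| ≤ m) ∧ ((p : ℤ) ∣ ∑ j, a j * n ^ (j : ℕ)) := by
  have : NeZero p := ⟨hp.ne'⟩
  let F : (Fin d → Fin (m + 1)) → ZMod p := fun b => ∑ j, ((b j : ℕ) : ZMod p) * (n : ZMod p) ^ (j : ℕ)
  have hc : Fintype.card (ZMod p) < Fintype.card (Fin d → Fin (m + 1)) := by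
    simpa [ZMod.card] using hm
  obtain ⟨x, y, hxy, hF⟩ := Fintype.exists_ne_map_eq_of_card_lt F hc
  refine ⟨fun j => ((x j : ℕ) : ℤ) - ((y j : ℕ) : ℤ), ?_, ?_, ?_⟩
  · intro h0
    apply hxy
    funext j
    have := congrFun h0 j
    simp only [Pi.zero_apply] at this
    apply Fin.ext
    omega
  · intro j
    have h1 := (x j).isLt
    have h2 := (y j).isLt
    rw [abs_le]
    constructor <;> (simp only; omega)
  · rw [← ZMod.intCast_zmod_eq_zero_iff_dvd]
    simp only [F] at hF
    push_cast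
    simp only [sub_mul, Finset.sum_sub_distrib]
    rw [hF, sub_self]

private theorem Pig_fiber (p N : ℕ) (hp : 0 < p) (r : ZMod p) :
    ((Finset.Icc (1 : ℤ) N).filter fun n => ((n : ℤ) : ZMod p) = r).card ≤ N / p + 1 := by
  have hp' : (0 : ℤ) < p := by exact_mod_cast hp
  have : ((Finset.Icc (1 : ℤ) N).filter fun n => ((n : ℤ) : ZMod p) = r).card
      ≤ (Finset.range (N / p + 1)).card := by
    apply Finset.card_le_card_of_injOn (fun n => (n / (p : ℤ)).toNat)
    · intro n hn
      simp only [Finset.coe_filter, Finset.mem_Icc, Set.mem_setOf_eq] at hn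
      simp only [Finset.coe_range, Set.mem_Iio]
      have h1 : n / (p : ℤ) ≤ (N : ℤ) / (p : ℤ) := Int.ediv_le_ediv hp' hn.1.2
      have h0 : 0 ≤ n / (p : ℤ) := Int.ediv_nonneg (by omega) hp'.le
      have h2 : ((N / p : ℕ) : ℤ) = (N : ℤ) / (p : ℤ) := by push_cast; rfl
      omega
    · intro n hn n' hn' h
      simp only [Finset.coe_filter, Finset.mem_Icc, Set.mem_setOf_eq] at hn hn'
      simp only at h
      have h0 : 0 ≤ n / (p : ℤ) := Int.ediv_nonneg (by omega) hp'.le
      have h0' : 0 ≤ n' / (p : ℤ) := Int.ediv_nonneg (by omega) hp'.le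
      have hq : n / (p : ℤ) = n' / (p : ℤ) := by omega
      have hmod : n % (p : ℤ) = n' % (p : ℤ) := by
        have := hn.2.trans hn'.2.symm
        exact (ZMod.intCast_eq_intCast_iff _ _ _).1 this
      rw [← Int.mul_ediv_add_emod n p, ← Int.mul_ediv_add_emod n' p, hq, hmod]
  simpa using this

/-- ROOTS OF `f` MODULO `p` in `[1, N]`: at most `d (N/p + 1)`. -/
theorem card_roots_le {f : ℤ[X]} (hf : f.Monic) (p N : ℕ) (hp : p.Prime) :
    ((Finset.Icc (1 : ℤ) N).filter fun n => (p : ℤ) ∣ f.eval n).card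
      ≤ f.natDegree * (N / p + 1) := by
  classical
  have : Fact p.Prime := ⟨hp⟩
  set g : (ZMod p)[X] := f.map (Int.castRingHom (ZMod p)) with hg
  have hgm : g.Monic := hf.map _
  have hdeg : g.natDegree = f.natDegree := hf.natDegree_map _
  have hsub : ((Finset.Icc (1 : ℤ) N).filter fun n => (p : ℤ) ∣ f.eval n)
      ⊆ g.roots.toFinset.biUnion
        (fun r => (Finset.Icc (1 : ℤ) N).filter fun n => ((n : ℤ) : ZMod p) = r) := by
    intro n hn
    rw [Finset.mem_filter] at hn
    rw [Finset.mem_biUnion]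
    refine ⟨(n : ZMod p), ?_, ?_⟩
    · rw [Multiset.mem_toFinset, mem_roots hgm.ne_zero, IsRoot.def, hg, eval_map]
      have := hn.2
      rw [← ZMod.intCast_zmod_eq_zero_iff_dvd] at this
      rw [← this]
      have h3 := eval₂_at_apply (p := f) (Int.castRingHom (ZMod p)) n
      simpa using h3
    · rw [Finset.mem_filter]
      exact ⟨hn.1, rfl⟩
  calc _ ≤ _ := Finset.card_le_card hsub
    _ ≤ ∑ r ∈ g.roots.toFinset, (N / p + 1) :=
        Finset.card_biUnion_le.trans (Finset.sum_le_sum fun r _ => Pig_fiber p N hp.pos r)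
    _ = g.roots.toFinset.card * (N / p + 1) := by rw [Finset.sum_const, smul_eq_mul]
    _ ≤ f.natDegree * (N / p + 1) := by
        apply Nat.mul_le_mul_right
        calc g.roots.toFinset.card ≤ Multiset.card g.roots := Multiset.toFinset_card_le _
          _ ≤ g.natDegree := card_roots' g
          _ = f.natDegree := hdeg

/-- the `d` distinct complex roots of a monic irreducible polynomial -/
theorem exists_rts (f : ℤ[X]) (hm : f.Monic) (hi : Irreducible f) :
    ∃ θ : Fin f.natDegree → ℂ, Rts f f.natDegree θ := by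
  classical
  have hQ : Irreducible (f.map (Int.castRingHom ℚ)) :=
    (IsPrimitive.Int.irreducible_iff_irreducible_map_cast hm.isPrimitive).1 hi
  have hsep : (f.map (Int.castRingHom ℚ)).Separable := hQ.separable
  have hmap : (f.map (Int.castRingHom ℚ)).map (algebraMap ℚ ℂ) = f.map (Int.castRingHom ℂ) := by
    rw [Polynomial.map_map]
    exact congrArg (fun φ => f.map φ) (RingHom.ext_int _ _)
  have hsepC : (f.map (Int.castRingHom ℂ)).Separable := by
    rw [← hmap]
    exact hsep.map
  set g : ℂ[X] := f.map (Int.castRingHom ℂ) with hg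
  have hgm : g.Monic := hm.map _
  have hnod : g.roots.Nodup := nodup_roots hsepC
  have hcard : Multiset.card g.roots = f.natDegree := by
    have h1 : g.natDegree = f.natDegree := hm.natDegree_map _
    rw [← h1]
    exact (splits_iff_card_roots.1 (IsAlgClosed.splits g))
  have hfc : g.roots.toFinset.card = f.natDegree := by
    rw [Multiset.toFinset_card_of_nodup hnod, hcard]
  let e := g.roots.toFinset.equivFinOfCardEq hfc
  refine ⟨fun i => (e.symm i : ℂ), ⟨hm, rfl, hi, ?_, ?_⟩⟩
  · intro σ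
    have h := (e.symm σ).2
    rw [Multiset.mem_toFinset, mem_roots hgm.ne_zero] at h
    exact h
  · intro i j hij
    exact e.symm.injective (Subtype.ext hij)

end

end Pool.Agent.Lib.Sqf4
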