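import Pool.Agent.Lib.Sqf4.Defs

set_option autoImplicit false

namespace Pool.Agent.Lib.Sqf4

noncomputable section

attribute [local instance] Matrix.seminormedAddCommGroup

private theorem sieg_bound {N m : ℕ} {K : ℕ} (hK : 1 ≤ K) (hm : 0 < m) (hmN : m < N) (x : ℝ)
    (hx : x ≤ ((N : ℝ) * max 1 (K : ℝ)) ^ ((m : ℝ) / ((N : ℝ) - m))) :
    x ≤ ((N * K : ℕ) : ℝ) ^ N := by
  have hK' : (1 : ℝ) ≤ K := by exact_mod_cast hK
  have hN : (1 : ℝ) ≤ N := by exact_mod_cast (by omega : 1 ≤ N)
  rw [max_eq_right hK'] at hx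
  have hbase : (1 : ℝ) ≤ (N : ℝ) * K := by nlinarith
  have hmN' : (1 : ℝ) ≤ (N : ℝ) - m := by
    have : (m : ℝ) + 1 ≤ N := by exact_mod_cast hmN
    linarith
  have hexp : (m : ℝ) / ((N : ℝ) - m) ≤ (N : ℝ) := by
    rw [div_le_iff₀ (by linarith)]
    have h1 : (m : ℝ) ≤ N := by exact_mod_cast hmN.le
    nlinarith
  refine hx.trans ?_
  have h2 := Real.rpow_le_rpow_of_exponent_le hbase hexp
  rw [Real.rpow_natCast] at h2
  push_cast
  exact h2

/-- A COMMON LINEAR RELATION.  If all `N x N` determinants of vectors of a set `S` of integer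
vectors (entries at most `K`) vanish, then there is one non-zero integer vector `g` with
`|g_j| ≤ (N K)^N` and `g . v = 0` for all `v ∈ S` (`N = card ι`).

PROOF: let `B ⊆ S` be a maximal subset that is linearly independent over `ℚ`
(`exists_linearIndependent`); it has `r ≤ N - 1` elements (N independent vectors would give a
non-zero determinant: `Matrix.det_ne_zero_iff...`/`linearIndependent_rows_iff_isUnit`).  Siegel's
lemma (`Int.Matrix.exists_ne_zero_int_vec_norm_le`) for the `(N-1) x N` matrix with these rows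
(repeat rows or use zero rows to have exactly `N - 1`; if `N = 1` all vectors are zero, take
`g = 1`; if all rows are zero take any unit vector) gives `g ≠ 0`; every `v ∈ S` is in the span of `B`. -/
theorem exists_rel {ι : Type} [Fintype ι] [DecidableEq ι] [Nonempty ι] (K : ℕ) (hK : 1 ≤ K)
    (S : Set (ι → ℤ)) (hS : ∀ v ∈ S, ∀ j, |v j| ≤ K)
    (hdet : ∀ v : ι → (ι → ℤ), (∀ i, v i ∈ S) → Matrix.det (Matrix.of v) = 0) :
    ∃ g : ι → ℤ, g ≠ 0 ∧ (∀ j, |g j| ≤ ((Fintype.card ι * K : ℕ) : ℤ) ^ Fintype.card ι) ∧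
      ∀ v ∈ S, ∑ j, g j * v j = 0 := by
  classical
  set c : (ι → ℤ) → (ι → ℚ) := fun v j => (v j : ℚ) with hc
  have hcinj : Function.Injective c := by
    intro v w hvw
    ext j
    have := congrFun hvw j
    simpa [hc] using this
  obtain ⟨b, hbS, hspan, hli⟩ := exists_linearIndependent ℚ (c '' S)
  have hbfin : b.Finite := hli.setFinite
  have : Fintype b := hbfin.fintype
  -- preimages
  have hpre : ∀ x : b, ∃ v ∈ S, c v = (x : ι → ℚ) := fun x => hbS x.2
  choose pr hprS hprc using hpre
  have hcard : Fintype.card b ≤ Fintype.card ι := by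
    have h1 := hli.fintype_card_le_finrank
    simpa using h1
  have hne : Fintype.card b ≠ Fintype.card ι := by
    intro he
    let e : ι ≃ b := (Fintype.equivOfCardEq he).symm
    have h0 := hdet (fun i => pr (e i)) (fun i => hprS (e i))
    have h1 : LinearIndependent ℚ (fun i => c (pr (e i))) := by
      have h2 : (fun i => c (pr (e i))) = fun i => ((e i : b) : ι → ℚ) := by
        funext i; exact hprc (e i)
      rw [h2]
      exact hli.comp _ e.injective
    have h3 : LinearIndependent ℚ (Matrix.row (Matrix.of (fun i => c (pr (e i))))) := h1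
    rw [Matrix.linearIndependent_rows_iff_isUnit, Matrix.isUnit_iff_isUnit_det] at h3
    apply h3.ne_zero
    have h4 : (Matrix.of (fun i => c (pr (e i)))) =
        (Int.castRingHom ℚ).mapMatrix (Matrix.of (fun i => pr (e i))) := by
      ext i j; simp [hc]
    rw [h4, ← RingHom.map_det, h0, map_zero]
  have hlt : Fintype.card b < Fintype.card ι := lt_of_le_of_ne hcard hne
  -- the relation on b is enough
  have hext : ∀ g : ι → ℤ, (∀ x : b, ∑ j, g j * pr x j = 0) → ∀ v ∈ S, ∑ j, g j * v j = 0 := by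
    intro g hg v hv
    let φ : (ι → ℚ) →ₗ[ℚ] ℚ := ∑ j, (g j : ℚ) • LinearMap.proj j
    have hφ : ∀ w, φ w = ∑ j, (g j : ℚ) * w j := by
      intro w; simp [φ, LinearMap.sum_apply]
    have h1 : Submodule.span ℚ (c '' S) ≤ LinearMap.ker φ := by
      rw [← hspan, Submodule.span_le]
      intro x hx
      rw [SetLike.mem_coe, LinearMap.mem_ker, hφ]
      have h2 := hg ⟨x, hx⟩
      have h3 := hprc ⟨x, hx⟩
      have h4 : x = c (pr ⟨x, hx⟩) := h3.symm
      rw [h4]
      have h5 : ((∑ j, g j * pr ⟨x, hx⟩ j : ℤ) : ℚ) = 0 := by rw [h2]; simp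
      push_cast at h5
      simpa [hc] using h5
    have h2 := h1 (Submodule.subset_span (Set.mem_image_of_mem c hv))
    rw [LinearMap.mem_ker, hφ] at h2
    have h3 : ((∑ j, g j * v j : ℤ) : ℚ) = 0 := by
      push_cast
      simpa [hc] using h2
    exact_mod_cast h3
  have hKpos : (1 : ℤ) ≤ K := by exact_mod_cast hK
  have hNpos : 1 ≤ Fintype.card ι := Fintype.card_pos
  have hbase : (1 : ℤ) ≤ ((Fintype.card ι * K : ℕ) : ℤ) := by
    exact_mod_cast Nat.mul_pos hNpos hK
  rcases Nat.eq_zero_or_pos (Fintype.card b) with h0 | hpos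
  · obtain ⟨i0⟩ := ‹Nonempty ι›
    refine ⟨Pi.single i0 1, ?_, ?_, ?_⟩
    · intro h
      have := congrFun h i0
      simp at this
    · intro j
      have h1 : |(Pi.single i0 (1 : ℤ) : ι → ℤ) j| ≤ 1 := by
        by_cases hj : j = i0
        · subst hj; simp
        · simp [Pi.single_eq_of_ne hj]
      exact h1.trans (one_le_pow₀ hbase)
    · apply hext
      intro x
      exact absurd (Fintype.card_pos_iff.mpr ⟨x⟩) (by omega)
  · let A : Matrix b ι ℤ := Matrix.of fun x j => pr x j
    obtain ⟨t, ht0, htA, htn⟩ := Int.Matrix.exists_ne_zero_int_vec_norm_le A hlt hpos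
    have hA : max 1 ‖A‖ ≤ max 1 (K : ℝ) := by
      apply max_le_max le_rfl
      rw [Matrix.norm_le_iff (by positivity)]
      intro x j
      have h1 := hS (pr x) (hprS x) j
      have h2 : ‖A x j‖ = |((pr x j : ℤ) : ℝ)| := by
        simp [A, Int.norm_eq_abs]
      rw [h2]
      exact_mod_cast h1
    refine ⟨t, ht0, ?_, ?_⟩
    · intro j
      have h1 : ‖t j‖ ≤ ‖t‖ := norm_le_pi_norm t j
      have hmn : (0 : ℝ) ≤ (Fintype.card b : ℝ) / ((Fintype.card ι : ℝ) - Fintype.card b) := by
        apply div_nonneg (by positivity)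
        have : (Fintype.card b : ℝ) ≤ Fintype.card ι := by exact_mod_cast hlt.le
        linarith
      have h2 : ‖t‖ ≤ ((Fintype.card ι : ℝ) * max 1 (K : ℝ)) ^
          ((Fintype.card b : ℝ) / ((Fintype.card ι : ℝ) - Fintype.card b)) := by
        refine htn.trans (Real.rpow_le_rpow (by positivity) ?_ hmn)
        exact mul_le_mul_of_nonneg_left hA (by positivity)
      have h3 := sieg_bound hK hpos hlt _ h2
      have h4 : ((|t j| : ℤ) : ℝ) ≤ ((Fintype.card ι * K : ℕ) : ℝ) ^ Fintype.card ι := by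
        have h5 : ((|t j| : ℤ) : ℝ) = ‖t j‖ := by simp [Int.norm_eq_abs]
        rw [h5]
        exact h1.trans h3
      exact_mod_cast h4
    · apply hext
      intro x
      have h1 := congrFun htA x
      simp only [Matrix.mulVec, dotProduct, A, Matrix.of_apply, Pi.zero_apply] at h1
      rw [← h1]
      exact Finset.sum_congr rfl (fun j _ => mul_comm _ _)

end

end Pool.Agent.Lib.Sqf4
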