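import Pool.Agent.Lib.Sqf4.Asm1

set_option autoImplicit false

/-!
Assembly, abstract form: the count for `P < p ≤ 2P` from a bound for one window.
-/

namespace Pool.Agent.Lib.Sqf4

open Polynomial Matrix

noncomputable section

variable {d : ℕ}

/-- the dyadic count from a window bound -/
theorem dyadic_core {f : ℤ[X]} [NeZero d] (hd : 2 ≤ d) {θ : Fin d → ℂ} (h : Rts f d θ) (L : ℕ) :
    ∃ C0 : ℝ, 1 ≤ C0 ∧ ∃ C : ℝ, 1 ≤ C ∧ ∀ (X P R D τ T Ce Cw : ℝ), 1 ≤ X → X ≤ L * P → C ≤ P →
      1 ≤ R → R ^ d = P → 0 < τ → τ ≤ 1 → 0 < D → D ≤ R → 0 ≤ T → 0 ≤ Ce → 0 ≤ Cw →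
      (∀ H : ℝ, 2 * R < H → H ≤ 4 * R → H ^ d ≤ C0 * P →
        ∀ a : Fin d → ℤ, (∀ σ, ‖al θ a σ‖ ≤ C0 * H) →
        (∀ σ ρ, σ ≠ ρ → D ≤ ‖al θ a σ - al θ a ρ‖) →
        ∀ S : Finset (ℤ × ℤ), (∀ x ∈ S, Cw * (H / D) ^ (2 * d) < (x.2 : ℝ) ∧
          |(x.1 : ℝ)| ≤ τ * H ∧ |(x.2 : ℝ)| ≤ X ∧ ∃ p : ℕ, p.Prime ∧ P < p ∧ (p : ℝ) ≤ 2 * P ∧
            ∃ β, Sol θ p x.2 (a + Pi.single 0 x.1) β) →
        ∃ E : Finset ℤ, (E.card : ℝ) ≤ Ce ∧ ((S.filter (fun x => x.1 ∉ E)).card : ℝ) ≤ T) →
      ∀ N : Finset ℤ, (∀ n ∈ N, 1 ≤ n ∧ (n : ℝ) ≤ X ∧ Cw * 4 ^ (2 * d) * (R / D) ^ (2 * d) < n ∧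
        ∃ p : ℕ, p.Prime ∧ P < p ∧ (p : ℝ) ≤ 2 * P ∧ ((p : ℤ) ^ 2 ∣ f.eval n)) →
      (N.card : ℝ) ≤ C * ((T + Ce) * R ^ (d - 1) / τ + R ^ (d - 1) * (D + 1)) := by
  classical
  have hd0 : 0 < d := by omega
  obtain ⟨Ca, hCa, hal⟩ := al_bound θ
  obtain ⟨D0, hsolv⟩ := exists_sol h
  obtain ⟨Cb, hCb, hbad⟩ := cnt_bad hd θ h.inj
  set C0 : ℝ := Ca + 4 ^ d with hC0
  have h4d : (1 : ℝ) ≤ 4 ^ d := one_le_pow₀ (by norm_num)
  have hC0' : 1 ≤ C0 := by linarith
  set B2 : ℝ := d * (L + 1) with hB2
  have hB20 : 0 ≤ B2 := by positivity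
  set C1 : ℝ := 8 ^ d * (4 * (1 + B2)) with hC1
  set C2 : ℝ := 8 ^ d * (Cb * B2) with hC2
  have hC10 : 0 ≤ C1 := by positivity
  have hC20 : 0 ≤ C2 := by positivity
  set C : ℝ := C0 ^ (d + 1) + 1 + D0 + C1 + C2 with hC
  have hC1le : 1 ≤ C := by
    have : (0 : ℝ) ≤ C0 ^ (d + 1) := by positivity
    have : (0 : ℝ) ≤ D0 := by positivity
    linarith
  refine ⟨C0, hC0', C, hC1le, ?_⟩
  intro X P R D τ T Ce Cw hX1 hXLP hCP hR hRd hτ0 hτ1 hD0 hDR hT hCe hCw hwin N hN
  have hP1 : 1 ≤ P := by linarith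
  have hX0 : 0 < X := by linarith
  -- the natural number m and H
  set m : ℕ := ⌊2 * R⌋₊ with hm
  set H : ℝ := (m : ℝ) + 1 with hH
  have hmR : (m : ℝ) ≤ 2 * R := Nat.floor_le (by linarith)
  have hRm : 2 * R < H := Nat.lt_floor_add_one _
  have hH4 : H ≤ 4 * R := by linarith
  have hH1 : 1 ≤ H := by linarith
  have hHd : H ^ d ≤ C0 * P := by
    calc H ^ d ≤ (4 * R) ^ d := pow_le_pow_left₀ (by linarith) hH4 _
      _ = 4 ^ d * P := by rw [mul_pow, hRd]
      _ ≤ C0 * P := by
          apply mul_le_mul_of_nonneg_right _ (by linarith)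
          linarith
  have h2P : 2 * P < H ^ d := by
    have h1 : (2 * R) ^ d < H ^ d := pow_lt_pow_left₀ hRm (by linarith) hd0.ne'
    have h2 : 2 * P ≤ (2 * R) ^ d := by
      rw [mul_pow, hRd]
      have : (2 : ℝ) ≤ 2 ^ d := by
        calc (2 : ℝ) = 2 ^ 1 := by norm_num
          _ ≤ 2 ^ d := pow_le_pow_right₀ (by norm_num) hd0
      nlinarith
    linarith
  -- choose the data
  have hchoice : ∀ n : ℤ, n ∈ N → ∃ (p : ℕ) (a β : Fin d → ℤ), p.Prime ∧ P < p ∧ (p : ℝ) ≤ 2 * P ∧
      ((p : ℤ) ^ 2 ∣ f.eval n) ∧ a ≠ 0 ∧ (∀ j, |a j| ≤ m) ∧ ((p : ℤ) ∣ (mm f a).det) ∧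
      Sol θ p n a β := by
    intro n hn
    obtain ⟨-, -, -, p, hp, hPp, hp2, hpf⟩ := hN n hn
    have hpm : p < (m + 1) ^ d := by
      have : (p : ℝ) < ((m + 1) ^ d : ℕ) := by
        push_cast
        rw [← hH]
        linarith
      exact_mod_cast this
    obtain ⟨a, ha0, ham, hpa⟩ := pig p m hp.pos hpm n
    have hD0p : D0 < p := by
      have h1 : (D0 : ℝ) < p := by
        have : (D0 : ℝ) ≤ C := by
          have : (0 : ℝ) ≤ C0 ^ (d + 1) := by positivity
          linarith
        linarith
      exact_mod_cast h1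
    obtain ⟨hpd, β, hβ⟩ := hsolv p hp hD0p n hpf a ha0 hpa
    exact ⟨p, a, β, hp, hPp, hp2, hpf, ha0, ham, hpd, hβ⟩
  choose! pp aa ββ hpp hPpp hpp2 hppf haa0 haam hppd hsol using hchoice
  have hamR : ∀ n ∈ N, ∀ j, |(aa n j : ℝ)| ≤ H := by
    intro n hn j
    have h1 := haam n hn j
    have h2 : ((|aa n j| : ℤ) : ℝ) ≤ ((m : ℤ) : ℝ) := by exact_mod_cast h1
    push_cast at h2
    linarith
  -- fibre over one alpha
  have hCa0 : Ca ≤ C0 := by linarith
  have hfib1 : ∀ (a : Fin d → ℤ), ((N.filter (fun n => aa n = a)).card : ℝ) ≤ B2 := by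
    intro a
    rcases (N.filter (fun n => aa n = a)).eq_empty_or_nonempty with he | ⟨n0, hn0⟩
    · rw [he]
      simpa using hB20
    · rw [Finset.mem_filter] at hn0
      have hz : ∀ σ, ‖al θ a σ‖ ≤ C0 * H := by
        intro σ
        rw [← hn0.2]
        refine (hal _ H (by linarith) (hamR n0 hn0.1) σ).trans ?_
        exact mul_le_mul_of_nonneg_right hCa0 (by linarith)
      have h1 := same_alpha h C0 hC0' L X P H hH1 hX0.le (by
          have : (0 : ℝ) ≤ D0 := by positivity
          linarith) hHd hXLP a (by rw [← hn0.2]; exact haa0 n0 hn0.1) hz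
        (N.filter (fun n => aa n = a)) (by
          intro n hn
          rw [Finset.mem_filter] at hn
          obtain ⟨h1, h2, -, -⟩ := hN n hn.1
          refine ⟨h1, h2, pp n, hpp n hn.1, hPpp n hn.1, hppf n hn.1, ?_⟩
          have := hppd n hn.1
          rwa [hn.2] at this)
      have h2 : ((N.filter (fun n => aa n = a)).card : ℝ) ≤ ((d * (L + 1) : ℕ) : ℝ) := by
        exact_mod_cast h1
      rw [hB2]
      push_cast at h2
      exact h2
  -- windows
  set w : ℕ := ⌊τ * H⌋₊ + 1 with hw
  have hw0 : 0 < w := by omega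
  have hwτ : τ * H < w := by
    rw [hw]
    push_cast
    exact Nat.lt_floor_add_one _
  set red : (Fin d → ℤ) → (Fin d → ℤ) := fun a => Function.update a 0 0 with hred
  set key : ℤ → (Fin d → ℤ) × ℕ := fun n => (red (aa n), ((aa n 0 + m) / w).toNat) with hkey
  set M : ℕ := 2 * m / w + 1 with hM
  have hkeymem : ∀ n ∈ N, key n ∈ box0 d m ×ˢ Finset.range M := by
    intro n hn
    rw [Finset.mem_product]
    have ham := haam n hn
    constructor
    · rw [hkey, hred]
      simp only [box0]
      rw [Fintype.mem_piFinset]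
      intro j
      by_cases hj : j = 0
      · subst hj
        simp
      · rw [if_neg hj, Function.update_of_ne hj, Finset.mem_Icc]
        exact abs_le.mp (ham j)
    · rw [hkey, hM]
      simp only
      rw [Finset.mem_range]
      have h1 := abs_le.mp (ham 0)
      have h2 : (aa n 0 + m) / w ≤ (2 * m : ℤ) / w := by
        apply Int.ediv_le_ediv (by exact_mod_cast hw0)
        linarith [h1.2]
      have h3 : ((2 * m / w : ℕ) : ℤ) = (2 * m : ℤ) / w := by push_cast; rfl
      have h4 : ((aa n 0 + m) / w).toNat ≤ 2 * m / w := by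
        rw [Int.toNat_le, h3]
        exact h2
      omega
  -- good / bad slices
  set bad : Finset (Fin d → ℤ) := (box0 d m).filter fun a =>
    ∃ σ ρ, σ ≠ ρ ∧ ‖al θ a σ - al θ a ρ‖ ≤ D with hbadd
  have hNsplit : N.card = (N.filter (fun n => red (aa n) ∈ bad)).card
      + (N.filter (fun n => ¬ (red (aa n) ∈ bad))).card :=
    (Finset.card_filter_add_card_filter_not _).symm
  -- bad part
  have hbadpart : ((N.filter (fun n => red (aa n) ∈ bad)).card : ℝ)
      ≤ B2 * ((bad.card : ℝ) * (2 * m + 1)) := by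
    have h1 : ∀ n ∈ N.filter (fun n => red (aa n) ∈ bad),
        (red (aa n), aa n 0) ∈ bad ×ˢ Finset.Icc (-(m : ℤ)) m := by
      intro n hn
      rw [Finset.mem_filter] at hn
      rw [Finset.mem_product, Finset.mem_Icc]
      exact ⟨hn.2, abs_le.mp (haam n hn.1 0)⟩
    have h2 := Finset.card_eq_sum_card_fiberwise (f := fun n => (red (aa n), aa n 0)) h1
    have h3 : ((N.filter (fun n => red (aa n) ∈ bad)).card : ℝ)
        ≤ ∑ b ∈ bad ×ˢ Finset.Icc (-(m : ℤ)) m, B2 := by
      rw [h2]
      push_cast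
      apply Finset.sum_le_sum
      intro b _
      have h4 : (N.filter (fun n => red (aa n) ∈ bad)).filter (fun n => (red (aa n), aa n 0) = b)
          ⊆ N.filter (fun n => aa n = Function.update b.1 0 b.2) := by
        intro n hn
        rw [Finset.mem_filter, Finset.mem_filter] at hn
        rw [Finset.mem_filter]
        refine ⟨hn.1.1, ?_⟩
        rw [← hn.2]
        simp [hred]
      refine le_trans ?_ (hfib1 (Function.update b.1 0 b.2))
      exact_mod_cast Finset.card_le_card h4
    rw [Finset.sum_const, Finset.card_product, nsmul_eq_mul] at h3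
    have h5 : (Finset.Icc (-(m : ℤ)) m).card = 2 * m + 1 := by
      rw [Int.card_Icc]
      omega
    rw [h5] at h3
    push_cast at h3
    linarith
  -- good part
  have hgoodfib : ∀ b ∈ box0 d m ×ˢ Finset.range M,
      (((N.filter (fun n => ¬ (red (aa n) ∈ bad))).filter (fun n => key n = b)).card : ℝ)
        ≤ T + Ce * B2 := by
    intro b hb
    set F := (N.filter (fun n => ¬ (red (aa n) ∈ bad))).filter (fun n => key n = b) with hF
    rcases F.eq_empty_or_nonempty with he | ⟨n0, hn0⟩
    · rw [he]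
      simp only [Finset.card_empty, Nat.cast_zero]
      positivity
    · rw [Finset.mem_product] at hb
      have hn0' := hn0
      rw [hF, Finset.mem_filter, Finset.mem_filter] at hn0'
      obtain ⟨⟨hn0N, hn0bad⟩, hn0key⟩ := hn0'
      -- base of the window
      set u : ℤ := -(m : ℤ) + b.2 * w with hu
      set base : Fin d → ℤ := Function.update b.1 0 u with hbase
      have hb1 : b.1 = red (aa n0) := by rw [← hn0key]
      have hb10 : b.1 0 = 0 := by rw [hb1, hred]; simp
      have hs : ∀ n ∈ F, 0 ≤ aa n 0 - u ∧ aa n 0 - u < w ∧ aa n = base + Pi.single 0 (aa n 0 - u) := by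
        intro n hn
        rw [hF, Finset.mem_filter, Finset.mem_filter] at hn
        obtain ⟨⟨hnN, -⟩, hnkey⟩ := hn
        have h1 : b.1 = red (aa n) := by rw [← hnkey]
        have h2 : b.2 = ((aa n 0 + m) / w).toNat := by rw [← hnkey]
        have h3 := abs_le.mp (haam n hnN 0)
        have h4 : 0 ≤ (aa n 0 + m) / (w : ℤ) := Int.ediv_nonneg (by linarith [h3.1]) (by positivity)
        have h5 : (b.2 : ℤ) = (aa n 0 + m) / w := by
          rw [h2, Int.toNat_of_nonneg h4]
        have h6 := Int.emod_add_mul_ediv (aa n 0 + m) w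
        have h7 := Int.emod_nonneg (aa n 0 + m) (show (w : ℤ) ≠ 0 by positivity)
        have h8 := Int.emod_lt_of_pos (aa n 0 + m) (show (0 : ℤ) < w by positivity)
        have h9 : aa n 0 - u = (aa n 0 + m) % w := by
          rw [hu, h5]
          linarith
        refine ⟨by rw [h9]; exact h7, by rw [h9]; exact h8, ?_⟩
        ext j
        by_cases hj : j = 0
        · subst hj
          simp [hbase]
        · rw [Pi.add_apply, Pi.single_eq_of_ne hj, add_zero, hbase, Function.update_of_ne hj, h1, hred]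
          simp only
          rw [Function.update_of_ne hj]
      have hu_bd : |(u : ℝ)| ≤ m := by
        obtain ⟨h1, h2, -⟩ := hs n0 hn0
        have h3 := abs_le.mp (haam n0 hn0N 0)
        have h4 : -(m : ℤ) ≤ u := by
          rw [hu]
          have : (0 : ℤ) ≤ b.2 * w := by positivity
          linarith
        have h5 : u ≤ m := by linarith [h3.2]
        rw [abs_le]
        constructor
        · have : ((-(m : ℤ) : ℤ) : ℝ) ≤ (u : ℝ) := by exact_mod_cast h4
          push_cast at this
          exact this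
        · exact_mod_cast h5
      have hbasebd : ∀ j, |(base j : ℝ)| ≤ H := by
        intro j
        by_cases hj : j = 0
        · subst hj
          rw [hbase, Function.update_self]
          linarith
        · rw [hbase, Function.update_of_ne hj, hb1, hred]
          simp only
          rw [Function.update_of_ne hj]
          exact hamR n0 hn0N j
      have hzb : ∀ σ, ‖al θ base σ‖ ≤ C0 * H := by
        intro σ
        refine (hal _ H (by linarith) hbasebd σ).trans ?_
        exact mul_le_mul_of_nonneg_right hCa0 (by linarith)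
      have hbase2 : base = b.1 + Pi.single 0 u := by
        ext j
        by_cases hj : j = 0
        · subst hj
          simp [hbase, hb10]
        · rw [Pi.add_apply, Pi.single_eq_of_ne hj, add_zero, hbase, Function.update_of_ne hj]
      have hsep : ∀ σ ρ, σ ≠ ρ → D ≤ ‖al θ base σ - al θ base ρ‖ := by
        intro σ ρ hσρ
        rw [hbase2, al_add_single, al_add_single, add_sub_add_left_eq_sub]
        by_contra hcon
        push Not at hcon
        apply hn0bad
        rw [← hb1, hbadd, Finset.mem_filter]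
        exact ⟨hb.1, σ, ρ, hσρ, hcon.le⟩
      set S : Finset (ℤ × ℤ) := F.image (fun n => (aa n 0 - u, n)) with hS
      have hHD : H / D ≤ 4 * (R / D) := by
        rw [mul_div_assoc']
        exact div_le_div_of_nonneg_right hH4 hD0.le
      obtain ⟨E, hE, hEc⟩ := hwin H hRm hH4 hHd base hzb hsep S (by
          intro x hx
          rw [hS, Finset.mem_image] at hx
          obtain ⟨n, hn, rfl⟩ := hx
          obtain ⟨hs1, hs2, hs3⟩ := hs n hn
          rw [hF, Finset.mem_filter, Finset.mem_filter] at hn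
          obtain ⟨⟨hnN, -⟩, -⟩ := hn
          obtain ⟨hn1, hn2, hn3, -⟩ := hN n hnN
          refine ⟨?_, ?_, ?_, pp n, hpp n hnN, hPpp n hnN, hpp2 n hnN, ββ n, ?_⟩
          · simp only
            refine lt_of_le_of_lt ?_ hn3
            calc Cw * (H / D) ^ (2 * d) ≤ Cw * (4 * (R / D)) ^ (2 * d) := by
                  apply mul_le_mul_of_nonneg_left _ hCw
                  exact pow_le_pow_left₀ (by positivity) hHD _
              _ = Cw * 4 ^ (2 * d) * (R / D) ^ (2 * d) := by
                  rw [mul_pow]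
                  ring
          · simp only
            have h1 : (aa n 0 - u).toNat ≤ ⌊τ * H⌋₊ := by omega
            have h2 : ((aa n 0 - u).toNat : ℝ) ≤ τ * H := by
              calc (((aa n 0 - u).toNat : ℕ) : ℝ) ≤ (⌊τ * H⌋₊ : ℝ) := by exact_mod_cast h1
                _ ≤ τ * H := Nat.floor_le (by positivity)
            have h6 : (((aa n 0 - u).toNat : ℕ) : ℤ) = aa n 0 - u := Int.toNat_of_nonneg hs1
            have h3 : (((aa n 0 - u).toNat : ℕ) : ℝ) = ((aa n 0 - u : ℤ) : ℝ) := by
              exact_mod_cast congrArg (Int.cast : ℤ → ℝ) h6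
            have h4 : ((aa n 0 - u : ℤ) : ℝ) ≤ τ * H := by
              rw [← h3]
              exact h2
            have h5 : (0 : ℝ) ≤ ((aa n 0 - u : ℤ) : ℝ) := by exact_mod_cast hs1
            rw [abs_of_nonneg h5]
            exact h4
          · simp only
            rw [abs_of_nonneg (by exact_mod_cast (by omega : (0 : ℤ) ≤ n))]
            exact hn2
          · simp only
            rw [← hs3]
            exact hsol n hnN)
      -- split the fibre
      have hsplit : F.card = (F.filter (fun n => aa n 0 - u ∈ E)).card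
          + (F.filter (fun n => ¬ (aa n 0 - u ∈ E))).card :=
        (Finset.card_filter_add_card_filter_not _).symm
      have h1 : ((F.filter (fun n => ¬ (aa n 0 - u ∈ E))).card : ℝ) ≤ T := by
        refine le_trans ?_ hEc
        have h2 : (F.filter (fun n => ¬ (aa n 0 - u ∈ E))).card
            = ((F.filter (fun n => ¬ (aa n 0 - u ∈ E))).image (fun n => (aa n 0 - u, n))).card := by
          rw [Finset.card_image_of_injective]
          intro x y hxy
          simpa using (congrArg Prod.snd hxy)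
        rw [h2]
        have h3 : (F.filter (fun n => ¬ (aa n 0 - u ∈ E))).image (fun n => (aa n 0 - u, n))
            ⊆ S.filter (fun x => x.1 ∉ E) := by
          intro x hx
          rw [Finset.mem_image] at hx
          obtain ⟨n, hn, rfl⟩ := hx
          rw [Finset.mem_filter] at hn
          rw [Finset.mem_filter]
          exact ⟨by rw [hS]; exact Finset.mem_image_of_mem _ hn.1, hn.2⟩
        exact_mod_cast Finset.card_le_card h3
      have h2 : ((F.filter (fun n => aa n 0 - u ∈ E)).card : ℝ) ≤ Ce * B2 := by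
        have h3 : ∀ n ∈ F.filter (fun n => aa n 0 - u ∈ E), aa n 0 - u ∈ E := by
          intro n hn
          rw [Finset.mem_filter] at hn
          exact hn.2
        have h4 := Finset.card_eq_sum_card_fiberwise (f := fun n => aa n 0 - u) h3
        rw [h4]
        push_cast
        have h5 : ∀ s ∈ E, (((F.filter (fun n => aa n 0 - u ∈ E)).filter (fun n => aa n 0 - u = s)).card : ℝ) ≤ B2 := by
          intro s _
          refine le_trans ?_ (hfib1 (base + Pi.single 0 s))
          have h6 : (F.filter (fun n => aa n 0 - u ∈ E)).filter (fun n => aa n 0 - u = s)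
              ⊆ N.filter (fun n => aa n = base + Pi.single 0 s) := by
            intro n hn
            rw [Finset.mem_filter, Finset.mem_filter] at hn
            rw [Finset.mem_filter]
            obtain ⟨⟨hnF, -⟩, hns⟩ := hn
            refine ⟨?_, ?_⟩
            · rw [hF, Finset.mem_filter, Finset.mem_filter] at hnF
              exact hnF.1.1
            · rw [← hns]
              exact (hs n hnF).2.2
          exact_mod_cast Finset.card_le_card h6
        refine (Finset.sum_le_sum h5).trans ?_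
        rw [Finset.sum_const, nsmul_eq_mul]
        exact mul_le_mul_of_nonneg_right hE hB20
      rw [hsplit]
      push_cast
      linarith
  have hgoodpart : ((N.filter (fun n => ¬ (red (aa n) ∈ bad))).card : ℝ)
      ≤ ((box0 d m).card : ℝ) * M * (T + Ce * B2) := by
    have h1 : ∀ n ∈ N.filter (fun n => ¬ (red (aa n) ∈ bad)), key n ∈ box0 d m ×ˢ Finset.range M := by
      intro n hn
      rw [Finset.mem_filter] at hn
      exact hkeymem n hn.1
    have h2 := Finset.card_eq_sum_card_fiberwise (f := key) h1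
    rw [h2]
    push_cast
    refine (Finset.sum_le_sum hgoodfib).trans ?_
    rw [Finset.sum_const, Finset.card_product, Finset.card_range, nsmul_eq_mul]
    push_cast
    exact le_rfl
  -- sizes
  have hboxcard : ((box0 d m).card : ℝ) ≤ (8 * R) ^ (d - 1) := by
    have h1 : (box0 d m).card = (2 * m + 1) ^ (d - 1) := by
      unfold box0
      rw [Fintype.card_piFinset]
      have h2 : ∀ j : Fin d, (if j = 0 then ({0} : Finset ℤ) else Finset.Icc (-(m : ℤ)) m).card
          = if j = 0 then 1 else 2 * m + 1 := by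
        intro j
        split_ifs
        · simp
        · rw [Int.card_Icc]
          omega
      rw [Finset.prod_congr rfl (fun j _ => h2 j), Finset.prod_ite, Finset.prod_const_one, one_mul,
        Finset.prod_const]
      congr 1
      rw [Finset.filter_ne']
      rw [Finset.card_erase_of_mem (Finset.mem_univ _), Finset.card_univ, Fintype.card_fin]
    rw [h1]
    push_cast
    apply pow_le_pow_left₀ (by positivity)
    linarith
  have hMb : (M : ℝ) ≤ 2 * (1 / τ) + 1 := by
    rw [hM]
    push_cast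
    have h1 : ((2 * m / w : ℕ) : ℝ) ≤ ((2 * m : ℕ) : ℝ) / w := Nat.cast_div_le
    have h2 : ((2 * m : ℕ) : ℝ) / w ≤ 2 * (1 / τ) := by
      rw [div_le_iff₀ (by exact_mod_cast hw0)]
      push_cast
      have h3 : (m : ℝ) ≤ H := by linarith
      have h4 : 1 / τ * (τ * H) ≤ 1 / τ * w := mul_le_mul_of_nonneg_left hwτ.le (by positivity)
      have h5 : 1 / τ * (τ * H) = H := by field_simp
      rw [h5] at h4
      nlinarith
    linarith
  have hMb2 : (M : ℝ) ≤ 4 * (1 / τ) := by
    have : 1 ≤ 1 / τ := by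
      rw [le_div_iff₀ hτ0]
      linarith
    linarith
  have hgood2 : ((box0 d m).card : ℝ) * M * (T + Ce * B2)
      ≤ C1 * ((T + Ce) * R ^ (d - 1) / τ) := by
    have h1 : T + Ce * B2 ≤ (1 + B2) * (T + Ce) := by
      nlinarith [mul_nonneg hT hB20, mul_nonneg hCe hB20]
    calc ((box0 d m).card : ℝ) * M * (T + Ce * B2)
        ≤ ((8 * R) ^ (d - 1) * (4 * (1 / τ))) * ((1 + B2) * (T + Ce)) := by
          apply mul_le_mul _ h1 (by positivity) (by positivity)
          exact mul_le_mul hboxcard hMb2 (by positivity) (by positivity)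
      _ = 8 ^ (d - 1) * (4 * (1 + B2)) * ((T + Ce) * R ^ (d - 1) / τ) := by
          rw [mul_pow]
          field_simp
      _ ≤ C1 * ((T + Ce) * R ^ (d - 1) / τ) := by
          apply mul_le_mul_of_nonneg_right _ (by positivity)
          rw [hC1]
          apply mul_le_mul_of_nonneg_right _ (by positivity)
          exact pow_le_pow_right₀ (by norm_num) (by omega)
  have hbad2 : B2 * ((bad.card : ℝ) * (2 * m + 1)) ≤ C2 * (R ^ (d - 1) * (D + 1)) := by
    have h1 := hbad m D hD0.le
    have h2 : (2 * (m : ℝ) + 1) ≤ 8 * R := by linarith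
    have h3 : (bad.card : ℝ) * (2 * m + 1) ≤ Cb * (2 * m + 1) ^ (d - 1) * (D + 1) := by
      calc (bad.card : ℝ) * (2 * m + 1) ≤ (Cb * (2 * m + 1) ^ (d - 2) * (D + 1)) * (2 * m + 1) :=
            mul_le_mul_of_nonneg_right h1 (by positivity)
        _ = Cb * (2 * m + 1) ^ (d - 1) * (D + 1) := by
            have : d - 1 = (d - 2) + 1 := by omega
            rw [this, pow_succ]
            ring
    calc B2 * ((bad.card : ℝ) * (2 * m + 1)) ≤ B2 * (Cb * (2 * m + 1) ^ (d - 1) * (D + 1)) :=
          mul_le_mul_of_nonneg_left h3 hB20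
      _ ≤ B2 * (Cb * (8 * R) ^ (d - 1) * (D + 1)) := by
          gcongr
      _ = 8 ^ (d - 1) * (Cb * B2) * (R ^ (d - 1) * (D + 1)) := by
          rw [mul_pow]
          ring
      _ ≤ C2 * (R ^ (d - 1) * (D + 1)) := by
          apply mul_le_mul_of_nonneg_right _ (by positivity)
          rw [hC2]
          apply mul_le_mul_of_nonneg_right _ (by positivity)
          exact pow_le_pow_right₀ (by norm_num) (by omega)
  have hCC1 : C1 ≤ C := by
    have : (0 : ℝ) ≤ C0 ^ (d + 1) := by positivity
    have : (0 : ℝ) ≤ D0 := by positivity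
    linarith
  have hCC2 : C2 ≤ C := by
    have : (0 : ℝ) ≤ C0 ^ (d + 1) := by positivity
    have : (0 : ℝ) ≤ D0 := by positivity
    linarith
  have hfin1 : C1 * ((T + Ce) * R ^ (d - 1) / τ) ≤ C * ((T + Ce) * R ^ (d - 1) / τ) :=
    mul_le_mul_of_nonneg_right hCC1 (by positivity)
  have hfin2 : C2 * (R ^ (d - 1) * (D + 1)) ≤ C * (R ^ (d - 1) * (D + 1)) :=
    mul_le_mul_of_nonneg_right hCC2 (by positivity)
  have : (N.card : ℝ) = ((N.filter (fun n => red (aa n) ∈ bad)).card : ℝ)
      + ((N.filter (fun n => ¬ (red (aa n) ∈ bad))).card : ℝ) := by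
    rw [hNsplit]
    push_cast
    rfl
  rw [this]
  linarith

end

end Pool.Agent.Lib.Sqf4
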