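import Mathlib

set_option autoImplicit false

/-!
Numerical inequalities of the first range, every degree `d ≥ 2` (MP_8842b2_nt):
`H = (2P)^(1/d)`, `τ = X^(-5/(6d))`, `X/L ≤ P ≤ X^(1+1/(24d))`, `X` large.
-/

namespace Pool.Agent.Lib.Sqf4

open Finset

/-- exponent inequality -/
private lemma Num_exp (p : ℝ) (hp : 0 < p) (N k : ℕ) (hk : k ≤ N) :
    (N : ℝ) / 2 + p * N ^ 2 / 4 - p * N / 2 - 1 / (4 * p) ≤
      k + p * ((k * (k - 1) / 2 + (N - k) * (N - k - 1) / 2 : ℕ) : ℝ) := by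
  rw [← Nat.choose_two_right, ← Nat.choose_two_right]
  push_cast [Nat.cast_choose_two, Nat.cast_sub hk]
  have h1 : (k : ℝ) + p * ((k : ℝ) * ((k : ℝ) - 1) / 2 + ((N : ℝ) - k) * ((N : ℝ) - k - 1) / 2)
      - ((N : ℝ) / 2 + p * N ^ 2 / 4 - p * N / 2 - 1 / (4 * p)) =
      p / 4 * ((2 * k - N) + 1 / p) ^ 2 := by
    field_simp
    ring
  have h2 : 0 ≤ p / 4 * ((2 * (k : ℝ) - N) + 1 / p) ^ 2 := by positivity
  linarith

private lemma Num_core (d : ℕ) (hd : 2 ≤ d) (N E : ℕ) (C L r : ℝ) (hC : 1 ≤ C) (hL : 1 ≤ L)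
    (hs : (N : ℝ) + ((E : ℝ) - 2 * N) / d + |((E : ℝ) - 2 * N) / d| / (24 * d) + 1 ≤
      ((N : ℝ) / 2 + (5 / (6 * d)) * N ^ 2 / 4 - (5 / (6 * d)) * N / 2 - 1 / (4 * (5 / (6 * d))))
        + r) :
    ∃ X0 : ℝ, 1 ≤ X0 ∧ ∀ X : ℝ, X0 ≤ X → ∀ P : ℝ, X / L ≤ P →
      P ≤ X ^ (1 + 1 / (24 * (d : ℝ))) →
      (X * ((2 * P) ^ (1 / (d : ℝ))) ^ (2 * d - 2) / P ^ 2) ^ N *
        ((2 * P) ^ (1 / (d : ℝ))) ^ E *
        (C * ∑ k ∈ range (N + 1), (1 / X) ^ k *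
          (X ^ (-(5 / (6 * (d : ℝ))))) ^ (k * (k - 1) / 2 + (N - k) * (N - k - 1) / 2)) < X ^ r := by
  have hd0 : (0 : ℝ) < d := by positivity
  set e1 : ℝ := ((E : ℝ) - 2 * N) / d with he1
  set p : ℝ := 5 / (6 * d) with hp
  have hp0 : 0 < p := by positivity
  set G : ℝ := (N : ℝ) / 2 + p * N ^ 2 / 4 - p * N / 2 - 1 / (4 * p) with hG
  set m : ℝ := ((2 * (d : ℝ) - 2) * N + E) / d with hm
  set K : ℝ := C * (N + 1) * Real.exp (m * Real.log 2 + |e1| * Real.log L) with hK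
  have hK0 : 0 < K := by positivity
  refine ⟨K + 1, by linarith, ?_⟩
  intro X hX P hP1 hP2
  have hX1 : 1 ≤ X := by linarith
  have hX0 : 0 < X := by linarith
  have hL0 : 0 < L := by linarith
  have hP0 : 0 < P := lt_of_lt_of_le (by positivity) hP1
  set x := Real.log X with hx
  set y := Real.log P with hy
  have hXe : X = Real.exp x := (Real.exp_log hX0).symm
  have hPe : P = Real.exp y := (Real.exp_log hP0).symm
  have hx0 : 0 ≤ x := Real.log_nonneg hX1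
  have hy1 : x - Real.log L ≤ y := by
    have := Real.log_le_log (by positivity) hP1
    rwa [Real.log_div hX0.ne' hL0.ne'] at this
  have hy2 : y ≤ (1 + 1 / (24 * (d : ℝ))) * x := by
    have := Real.log_le_log hP0 hP2
    rwa [Real.log_rpow hX0] at this
  have hlogL : 0 ≤ Real.log L := Real.log_nonneg hL
  -- the power of P
  have hyx : e1 * y ≤ e1 * x + |e1| * (x / (24 * d) + Real.log L) := by
    have h1 : |y - x| ≤ x / (24 * d) + Real.log L := by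
      rw [abs_le]
      constructor
      · have : 0 ≤ x / (24 * d) := by positivity
        linarith
      · have h3 : (1 + 1 / (24 * (d : ℝ))) * x = x + x / (24 * d) := by ring
        linarith
    have h2 : e1 * (y - x) ≤ |e1| * |y - x| := by
      rw [← abs_mul]; exact le_abs_self _
    have h3 : |e1| * |y - x| ≤ |e1| * (x / (24 * d) + Real.log L) :=
      mul_le_mul_of_nonneg_left h1 (abs_nonneg _)
    linarith
  -- first factor
  have hH : (2 * P) ^ (1 / (d : ℝ)) = Real.exp ((Real.log 2 + y) / d) := by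
    rw [Real.rpow_def_of_pos (by positivity), Real.log_mul (by norm_num) hP0.ne']
    congr 1
    ring
  have hA : (X * ((2 * P) ^ (1 / (d : ℝ))) ^ (2 * d - 2) / P ^ 2) ^ N *
        ((2 * P) ^ (1 / (d : ℝ))) ^ E = Real.exp (N * x + m * Real.log 2 + e1 * y) := by
    rw [hH, ← Real.exp_nat_mul, ← Real.exp_nat_mul]
    nth_rewrite 1 [hXe]
    nth_rewrite 1 [hPe]
    rw [← Real.exp_nat_mul, ← Real.exp_add, ← Real.exp_sub, ← Real.exp_nat_mul, ← Real.exp_add]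
    congr 1
    have h1 : ((2 * d - 2 : ℕ) : ℝ) = 2 * d - 2 := by
      rw [Nat.cast_sub (by omega)]; push_cast; ring
    rw [h1, hm, he1]
    push_cast
    field_simp
    ring
  -- the sum
  have hterm : ∀ k ∈ range (N + 1), (1 / X) ^ k *
      (X ^ (-p)) ^ (k * (k - 1) / 2 + (N - k) * (N - k - 1) / 2) ≤ Real.exp (-G * x) := by
    intro k hk
    have hk' : k ≤ N := by
      have := Finset.mem_range.1 hk; omega
    have h1 := Num_exp p hp0 N k hk'
    rw [← hG] at h1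
    set a := k * (k - 1) / 2 + (N - k) * (N - k - 1) / 2 with ha
    have h2 : (1 / X) ^ k * (X ^ (-p)) ^ a = Real.exp (-(k + p * a) * x) := by
      have h3 : (1 / X) = Real.exp (-x) := by rw [Real.exp_neg, ← hXe, one_div]
      have h4 : X ^ (-p) = Real.exp (-p * x) := by
        rw [Real.rpow_def_of_pos hX0]; congr 1; ring
      rw [h3, h4, ← Real.exp_nat_mul, ← Real.exp_nat_mul, ← Real.exp_add]
      congr 1
      ring
    rw [h2]
    apply Real.exp_le_exp.2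
    have := mul_le_mul_of_nonneg_right h1 hx0
    linarith
  have hsum : ∑ k ∈ range (N + 1), (1 / X) ^ k *
      (X ^ (-p)) ^ (k * (k - 1) / 2 + (N - k) * (N - k - 1) / 2) ≤
      (N + 1) * Real.exp (-G * x) := by
    refine (Finset.sum_le_sum hterm).trans ?_
    rw [Finset.sum_const, Finset.card_range, nsmul_eq_mul]
    push_cast
    exact le_refl _
  have hS0 : 0 ≤ ∑ k ∈ range (N + 1), (1 / X) ^ k *
      (X ^ (-p)) ^ (k * (k - 1) / 2 + (N - k) * (N - k - 1) / 2) :=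
    Finset.sum_nonneg (fun k _ => mul_nonneg (pow_nonneg (one_div_nonneg.2 hX0.le) _)
      (pow_nonneg (Real.rpow_nonneg hX0.le _) _))
  rw [hA]
  have hXr : X ^ r = Real.exp (r * x) := by
    rw [Real.rpow_def_of_pos hX0]; congr 1; ring
  rw [hXr]
  calc Real.exp (N * x + m * Real.log 2 + e1 * y) * (C * ∑ k ∈ range (N + 1), (1 / X) ^ k *
          (X ^ (-p)) ^ (k * (k - 1) / 2 + (N - k) * (N - k - 1) / 2))
      ≤ Real.exp (N * x + m * Real.log 2 + (e1 * x + |e1| * (x / (24 * d) + Real.log L))) *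
          (C * ((N + 1) * Real.exp (-G * x))) := by
        apply mul_le_mul (Real.exp_le_exp.2 (by linarith))
          (mul_le_mul_of_nonneg_left hsum (by linarith))
          (mul_nonneg (by linarith) hS0) (Real.exp_pos _).le
    _ = K * Real.exp ((N + e1 + |e1| / (24 * d) - G) * x) := by
        rw [hK]
        have : Real.exp (N * x + m * Real.log 2 + (e1 * x + |e1| * (x / (24 * d) + Real.log L))) *
            Real.exp (-G * x) = Real.exp (m * Real.log 2 + |e1| * Real.log L) *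
            Real.exp ((N + e1 + |e1| / (24 * d) - G) * x) := by
          rw [← Real.exp_add, ← Real.exp_add]
          congr 1
          ring
        linear_combination (C * (N + 1)) * this
    _ ≤ K * Real.exp ((r - 1) * x) := by
        apply mul_le_mul_of_nonneg_left _ hK0.le
        apply Real.exp_le_exp.2
        apply mul_le_mul_of_nonneg_right _ hx0
        linarith
    _ < Real.exp x * Real.exp ((r - 1) * x) := by
        apply mul_lt_mul_of_pos_right _ (Real.exp_pos _)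
        rw [← hXe]
        linarith
    _ = Real.exp (r * x) := by
        rw [← Real.exp_add]
        congr 1
        ring

/-- `num1`: the `4d-2` columns of level `≤ d`, no nonzero determinant -/
theorem num1 (d : ℕ) (hd : 2 ≤ d) (C L : ℝ) (hC : 1 ≤ C) (hL : 1 ≤ L) :
    ∃ X0 : ℝ, 1 ≤ X0 ∧ ∀ X : ℝ, X0 ≤ X → ∀ P : ℝ, X / L ≤ P →
      P ≤ X ^ (1 + 1 / (24 * (d : ℝ))) →
      (X * ((2 * P) ^ (1 / (d : ℝ))) ^ (2 * d - 2) / P ^ 2) ^ (4 * d - 2) *
        ((2 * P) ^ (1 / (d : ℝ))) ^ (d ^ 2 + 2 * d - 2) *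
        (C * ∑ k ∈ range ((4 * d - 2) + 1), (1 / X) ^ k *
          (X ^ (-(5 / (6 * (d : ℝ))))) ^ (k * (k - 1) / 2 +
            ((4 * d - 2) - k) * ((4 * d - 2) - k - 1) / 2)) < 1 := by
  have hd0 : (2 : ℝ) ≤ d := by exact_mod_cast hd
  have hN : ((4 * d - 2 : ℕ) : ℝ) = 4 * d - 2 := by
    rw [Nat.cast_sub (by omega)]; push_cast; ring
  have hE : ((d ^ 2 + 2 * d - 2 : ℕ) : ℝ) = (d : ℝ) ^ 2 + 2 * d - 2 := by
    rw [Nat.cast_sub (by nlinarith)]; push_cast; ring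
  obtain ⟨X0, h1, h2⟩ := Num_core d hd (4 * d - 2) (d ^ 2 + 2 * d - 2) C L 0 hC hL (by
    rw [hN, hE]
    have h3 : ((d : ℝ) ^ 2 + 2 * d - 2 - 2 * (4 * d - 2)) / d = d - 6 + 2 / d := by
      field_simp
      ring
    rw [h3]
    have h4 : |(d : ℝ) - 6 + 2 / d| ≤ d + 6 := by
      rw [abs_le]
      have h5 : 0 ≤ 2 / (d : ℝ) := by positivity
      have h6 : 2 / (d : ℝ) ≤ 1 := by rw [div_le_one (by linarith)]; exact hd0
      constructor <;> linarith
    have h5 : |(d : ℝ) - 6 + 2 / d| / (24 * d) ≤ 1 / 6 := by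
      rw [div_le_iff₀ (by positivity)]
      linarith
    have h6 : ((4 : ℝ) * d - 2) / 2 + 5 / (6 * d) * (4 * d - 2) ^ 2 / 4 -
        5 / (6 * d) * (4 * d - 2) / 2 - 1 / (4 * (5 / (6 * d))) =
        151 / 30 * d - 6 + (5 / 3) * (1 / d) := by
      field_simp
      ring
    rw [h6]
    have h7 : 1 / (d : ℝ) ≤ 1 / 2 := by
      apply one_div_le_one_div_of_le (by norm_num) hd0
    have h8 : 2 / (d : ℝ) = 2 * (1 / d) := by ring
    rw [h8] at h5 ⊢
    have h9 : 0 < 1 / (d : ℝ) := by positivity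
    linarith)
  refine ⟨X0, h1, fun X hX P hP1 hP2 => ?_⟩
  have h3 := h2 X hX P hP1 hP2
  rw [Real.rpow_zero] at h3
  exact h3

/-- `num2`: the `3d-1` columns on the curve -/
theorem num2 (d : ℕ) (hd : 2 ≤ d) (C L : ℝ) (hC : 1 ≤ C) (hL : 1 ≤ L) :
    ∃ X0 : ℝ, 1 ≤ X0 ∧ ∀ X : ℝ, X0 ≤ X → ∀ P : ℝ, X / L ≤ P →
      P ≤ X ^ (1 + 1 / (24 * (d : ℝ))) →
      (X * ((2 * P) ^ (1 / (d : ℝ))) ^ (2 * d - 2) / P ^ 2) ^ (3 * d - 1) *
        ((2 * P) ^ (1 / (d : ℝ))) ^ ((d ^ 2 + 3 * d - 2) / 2) *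
        (C * ∑ k ∈ range ((3 * d - 1) + 1), (1 / X) ^ k *
          (X ^ (-(5 / (6 * (d : ℝ))))) ^ (k * (k - 1) / 2 +
            ((3 * d - 1) - k) * ((3 * d - 1) - k - 1) / 2)) <
        X ^ ((1 / (8 * (d : ℝ))) * ((3 * d - 1).choose 2 : ℕ)) := by
  have hd0 : (2 : ℝ) ≤ d := by exact_mod_cast hd
  have hN : ((3 * d - 1 : ℕ) : ℝ) = 3 * d - 1 := by
    rw [Nat.cast_sub (by omega)]; push_cast; ring
  have hE : (((d ^ 2 + 3 * d - 2) / 2 : ℕ) : ℝ) = ((d : ℝ) ^ 2 + 3 * d - 2) / 2 := by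
    have h1 : 2 ∣ d ^ 2 + 3 * d - 2 := by
      have h2 : 2 ∣ d ^ 2 + 3 * d := by
        have h3 : d ^ 2 + 3 * d = d * (d + 1) + 2 * d := by ring
        rw [h3]
        exact dvd_add (Nat.even_mul_succ_self d).two_dvd (Dvd.intro _ rfl)
      exact Nat.dvd_sub h2 (dvd_refl 2)
    rw [Nat.cast_div h1 (by norm_num), Nat.cast_sub (by nlinarith)]
    push_cast
    ring
  obtain ⟨X0, h1, h2⟩ := Num_core d hd (3 * d - 1) ((d ^ 2 + 3 * d - 2) / 2) C L
    ((1 / (8 * (d : ℝ))) * ((3 * d - 1).choose 2 : ℕ)) hC hL (by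
    rw [Nat.cast_choose_two, hN, hE]
    have h3 : (((d : ℝ) ^ 2 + 3 * d - 2) / 2 - 2 * (3 * d - 1)) / d =
        d / 2 - 9 / 2 + 1 / d := by
      field_simp
      ring
    rw [h3]
    have h9 : 0 < 1 / (d : ℝ) := by positivity
    have h7 : 1 / (d : ℝ) ≤ 1 / 2 := by
      apply one_div_le_one_div_of_le (by norm_num) hd0
    have h4 : |(d : ℝ) / 2 - 9 / 2 + 1 / d| ≤ d / 2 + 9 / 2 := by
      rw [abs_le]
      constructor <;> linarith
    have h5 : |(d : ℝ) / 2 - 9 / 2 + 1 / d| / (24 * d) ≤ 1 / 6 := by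
      rw [div_le_iff₀ (by positivity)]
      linarith
    have h6 : ((3 : ℝ) * d - 1) / 2 + 5 / (6 * d) * (3 * d - 1) ^ 2 / 4 -
        5 / (6 * d) * (3 * d - 1) / 2 - 1 / (4 * (5 / (6 * d))) =
        123 / 40 * d - 3 + (5 / 8) * (1 / d) := by
      field_simp
      ring
    have h8 : 1 / (8 * (d : ℝ)) * ((3 * d - 1) * (3 * d - 1 - 1) / 2) =
        9 / 16 * d - 9 / 16 + (1 / 8) * (1 / d) := by
      field_simp
      ring
    rw [h6, h8]
    linarith)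
  exact ⟨X0, h1, fun X hX P hP1 hP2 => h2 X hX P hP1 hP2⟩

/-- `num3`: the total number of points -/
theorem num3 (d : ℕ) (hd : 2 ≤ d) (C : ℝ) (hC : 1 ≤ C) :
    ∃ X0 : ℝ, 1 ≤ X0 ∧ ∀ X : ℝ, X0 ≤ X → ∀ P : ℝ, 1 ≤ P →
      P ≤ X ^ (1 + 1 / (24 * (d : ℝ))) →
      C * ((2 * P) ^ (1 / (d : ℝ))) ^ (d - 1) * (1 / X ^ (-(5 / (6 * (d : ℝ)))) + 1) *
        X ^ (1 / (8 * (d : ℝ)) + 1 / (96 * (d : ℝ) ^ 2)) ≤ X ^ (1 - 1 / (96 * (d : ℝ) ^ 2)) := by
  have hd0 : (2 : ℝ) ≤ d := by exact_mod_cast hd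
  have hdpos : (0 : ℝ) < d := by linarith
  set K : ℝ := 4 * C with hK
  refine ⟨K ^ (48 * (d : ℝ) ^ 2), ?_, ?_⟩
  · exact Real.one_le_rpow (by rw [hK]; linarith) (by positivity)
  intro X hX P hP1 hP2
  have hK1 : 1 ≤ K := by rw [hK]; linarith
  have hX1 : 1 ≤ X := le_trans (Real.one_le_rpow hK1 (by positivity)) hX
  have hX0 : 0 < X := by linarith
  have hP0 : 0 < P := by linarith
  have hKX : K ≤ X ^ (1 / (48 * (d : ℝ) ^ 2)) := by
    have h1 := Real.rpow_le_rpow (by positivity) hX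
      (show (0 : ℝ) ≤ 1 / (48 * (d : ℝ) ^ 2) by positivity)
    rwa [← Real.rpow_mul (by linarith), mul_one_div_cancel (by positivity),
      Real.rpow_one] at h1
  -- H^(d-1)
  have hH : ((2 * P) ^ (1 / (d : ℝ))) ^ (d - 1) ≤
      2 * X ^ ((1 + 1 / (24 * (d : ℝ))) * ((d - 1) / d)) := by
    rw [← Real.rpow_natCast, ← Real.rpow_mul (by positivity), Nat.cast_sub (by omega),
      Real.mul_rpow (by norm_num) hP0.le]
    have h1 : (1 : ℝ) / d * ((d : ℝ) - (1 : ℕ)) = (d - 1) / d := by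
      push_cast; ring
    rw [h1]
    have h2 : 0 ≤ ((d : ℝ) - 1) / d := div_nonneg (by linarith) (by linarith)
    have h2' : ((d : ℝ) - 1) / d ≤ 1 := by
      rw [div_le_one hdpos]; linarith
    have h3 : (2 : ℝ) ^ (((d : ℝ) - 1) / d) ≤ 2 := by
      calc (2 : ℝ) ^ (((d : ℝ) - 1) / d) ≤ 2 ^ (1 : ℝ) :=
            Real.rpow_le_rpow_of_exponent_le (by norm_num) h2'
        _ = 2 := by rw [Real.rpow_one]
    have h4 : P ^ (((d : ℝ) - 1) / d) ≤ X ^ ((1 + 1 / (24 * (d : ℝ))) * ((d - 1) / d)) := by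
      rw [Real.rpow_mul hX0.le]
      exact Real.rpow_le_rpow hP0.le hP2 h2
    exact mul_le_mul h3 h4 (by positivity) (by norm_num)
  have hτ : 1 / X ^ (-(5 / (6 * (d : ℝ)))) + 1 ≤ 2 * X ^ (5 / (6 * (d : ℝ))) := by
    have h1 : 1 / X ^ (-(5 / (6 * (d : ℝ)))) = X ^ (5 / (6 * (d : ℝ))) := by
      rw [Real.rpow_neg hX0.le, one_div, inv_inv]
    have h2 : 1 ≤ X ^ (5 / (6 * (d : ℝ))) := Real.one_le_rpow hX1 (by positivity)
    rw [h1]
    linarith
  calc C * ((2 * P) ^ (1 / (d : ℝ))) ^ (d - 1) * (1 / X ^ (-(5 / (6 * (d : ℝ)))) + 1) *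
        X ^ (1 / (8 * (d : ℝ)) + 1 / (96 * (d : ℝ) ^ 2))
      ≤ C * (2 * X ^ ((1 + 1 / (24 * (d : ℝ))) * ((d - 1) / d))) *
        (2 * X ^ (5 / (6 * (d : ℝ)))) * X ^ (1 / (8 * (d : ℝ)) + 1 / (96 * (d : ℝ) ^ 2)) := by
        have h2 : 0 < X ^ (-(5 / (6 * (d : ℝ)))) := by positivity
        gcongr
    _ = K * X ^ ((1 + 1 / (24 * (d : ℝ))) * ((d - 1) / d) + 5 / (6 * (d : ℝ)) +
          (1 / (8 * (d : ℝ)) + 1 / (96 * (d : ℝ) ^ 2))) := by
        rw [hK, Real.rpow_add hX0 ((1 + 1 / (24 * (d : ℝ))) * ((d - 1) / d) + 5 / (6 * (d : ℝ))),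
          Real.rpow_add hX0 ((1 + 1 / (24 * (d : ℝ))) * ((d - 1) / d))]
        generalize X ^ ((1 + 1 / (24 * (d : ℝ))) * ((d - 1) / d)) = u1
        generalize X ^ (5 / (6 * (d : ℝ))) = u2
        generalize X ^ (1 / (8 * (d : ℝ)) + 1 / (96 * (d : ℝ) ^ 2)) = u3
        ring
    _ ≤ X ^ (1 / (48 * (d : ℝ) ^ 2)) * X ^ ((1 + 1 / (24 * (d : ℝ))) * ((d - 1) / d) +
          5 / (6 * (d : ℝ)) + (1 / (8 * (d : ℝ)) + 1 / (96 * (d : ℝ) ^ 2))) :=
        mul_le_mul_of_nonneg_right hKX (by positivity)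
    _ = X ^ (1 - 1 / (96 * (d : ℝ) ^ 2)) := by
        rw [← Real.rpow_add hX0]
        congr 1
        field_simp
        ring

end Pool.Agent.Lib.Sqf4
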