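import Pool.Agent.Lib.Sqf4.Sieg
import Pool.Agent.Lib.SQF.QAdic

set_option autoImplicit false

/-!
Second step of the first range for all degrees (MP_8842b2_nt): points of one window on a
polynomial curve `b n = Z(s)`, counted with a prime `q` and the real bound of the surface only.
-/

namespace Pool.Agent.Lib.Sqf4

open Polynomial

noncomputable section

/-- `u(s) v(s)_c = F_c(s)` for linearly independent polynomials `F_c` of degree `≤ M`, `u(s)`
prime to `q`; if all `N x N` determinants of the integer vectors `v(s)`, `s ∈ S`, are smaller than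
`q^(N choose 2)` then `S` has at most `q M` elements. -/
theorem curve_count {ι : Type} [Fintype ι] [DecidableEq ι] [Nonempty ι] (M q : ℕ) (hq0 : 0 < q)
    (F : ι → ℤ[X]) (hM : ∀ c, (F c).natDegree ≤ M)
    (hF : ∀ g : ι → ℤ, ∑ c, C (g c) * F c = 0 → g = 0) (S : Finset ℤ) (v : ℤ → ι → ℤ)
    (u : ℤ → ℤ) (hu : ∀ s ∈ S, IsCoprime (u s) (q : ℤ))
    (hv : ∀ s ∈ S, ∀ c, u s * v s c = (F c).eval s)
    (hdet : ∀ s : ι → ℤ, (∀ i, s i ∈ S) →
      |Matrix.det (Matrix.of fun i => v (s i))| < (q : ℤ) ^ ((Fintype.card ι).choose 2)) :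
    S.card ≤ q * M := by
  classical
  by_contra hcon
  push Not at hcon
  -- one residue class with more than `M` elements
  obtain ⟨r, -, hr⟩ := Finset.exists_lt_card_fiber_of_mul_lt_card_of_maps_to
    (s := S) (t := Finset.Ico (0 : ℤ) q) (f := fun s : ℤ => s % (q : ℤ)) (n := M)
    (fun s _ => by
      have h1 : (0 : ℤ) < q := by exact_mod_cast hq0
      exact Finset.mem_Ico.2 ⟨Int.emod_nonneg _ h1.ne', Int.emod_lt_of_pos _ h1⟩)
    (by simpa using hcon)
  set S' : Finset ℤ := S.filter fun s => s % (q : ℤ) = r with hS'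
  have hS'S : ∀ s ∈ S', s ∈ S := fun s hs => (Finset.mem_filter.1 hs).1
  -- a non-zero determinant
  obtain ⟨s, hs, hs0⟩ : ∃ s : ι → ℤ, (∀ i, s i ∈ S') ∧
      Matrix.det (Matrix.of fun i => v (s i)) ≠ 0 := by
    by_contra hno
    push Not at hno
    set K : ℕ := (S'.sup fun s => Finset.univ.sup fun c => (v s c).natAbs) + 1 with hK
    have hbound : ∀ w ∈ (fun s => v s) '' (S' : Set ℤ), ∀ j, |w j| ≤ (K : ℤ) := by
      rintro w ⟨s, hs, rfl⟩ j
      have h1 : (v s j).natAbs ≤ K := by
        have h2 : (v s j).natAbs ≤ Finset.univ.sup fun c => (v s c).natAbs :=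
          Finset.le_sup (f := fun c => (v s c).natAbs) (Finset.mem_univ j)
        have h3 : (Finset.univ.sup fun c => (v s c).natAbs)
            ≤ S'.sup fun s => Finset.univ.sup fun c => (v s c).natAbs :=
          Finset.le_sup (f := fun s => Finset.univ.sup fun c => (v s c).natAbs) hs
        omega
      rw [Int.abs_eq_natAbs]
      exact_mod_cast h1
    obtain ⟨g, hg0, -, hg⟩ := exists_rel K (by omega) ((fun s => v s) '' (S' : Set ℤ)) hbound
      (by
        intro w hw
        choose s hs hsw using hw
        have h1 := hno s hs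
        have h2 : (Matrix.of w : Matrix ι ι ℤ) = Matrix.of fun i => v (s i) := by
          ext i j
          simp only [Matrix.of_apply]
          rw [← hsw i]
        rw [h2]; exact h1)
    apply hg0
    apply hF
    by_contra hne
    -- too many roots
    have hdeg : (∑ c, C (g c) * F c).natDegree ≤ M := by
      refine Polynomial.natDegree_sum_le_of_forall_le _ _ fun c _ => ?_
      exact (Polynomial.natDegree_C_mul_le _ _).trans (hM c)
    have hroots : S'.card ≤ (∑ c, C (g c) * F c).natDegree := by
      have h1 : S' ⊆ (∑ c, C (g c) * F c).roots.toFinset := by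
        intro s hs
        rw [Multiset.mem_toFinset, Polynomial.mem_roots hne, Polynomial.IsRoot.def,
          Polynomial.eval_finsetSum]
        have h2 := hg (v s) ⟨s, hs, rfl⟩
        have h3 : ∑ c, eval s (C (g c) * F c) = u s * ∑ c, g c * v s c := by
          rw [Finset.mul_sum]
          refine Finset.sum_congr rfl fun c _ => ?_
          rw [Polynomial.eval_mul, Polynomial.eval_C, ← hv s (hS'S s hs) c]
          ring
        rw [h3, h2, mul_zero]
      exact (Finset.card_le_card h1).trans ((Multiset.toFinset_card_le _).trans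
        (Polynomial.card_roots' _))
    omega
  -- divisibility
  have hsS : ∀ i, s i ∈ S := fun i => hS'S _ (hs i)
  have hmod : ∀ i, ∃ t : ℤ, s i = r + q * t := by
    intro i
    have h1 : s i % (q : ℤ) = r := (Finset.mem_filter.1 (hs i)).2
    exact ⟨s i / q, by rw [← h1]; exact (Int.emod_add_mul_ediv _ _).symm⟩
  choose t ht using hmod
  set A : Matrix ι ι ℤ := Matrix.of fun i c => (F c).eval (s i) with hA
  have hAdet : A.det = (∏ i, u (s i)) * Matrix.det (Matrix.of fun i => v (s i)) := by
    have h1 : A = Matrix.of fun i c => u (s i) * (Matrix.of fun i => v (s i)) i c := by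
      ext i c
      simp only [hA, Matrix.of_apply]
      rw [hv _ (hsS i) c]
    rw [h1]
    exact Matrix.det_mul_column (fun i => u (s i)) _
  have hdvd : (q : ℤ) ^ ((Finset.univ : Finset ι).card.choose 2) ∣ A.det := by
    refine Pool.Agent.Lib.SQF.dvd_det_of_rows' (q : ℤ) Finset.univ A (M + 1)
      (fun k c => ((F c).comp (X + C r)).coeff k) (fun _ => 1) t fun i _ => ?_
    funext c
    have h1 : ((F c).comp (X + C r)).natDegree < M + 1 := by
      rw [Polynomial.natDegree_comp, Polynomial.natDegree_X_add_C, mul_one]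
      exact Nat.lt_succ_of_le (hM c)
    have h2 : (F c).eval (s i) = ((F c).comp (X + C r)).eval (q * t i) := by
      rw [Polynomial.eval_comp, Polynomial.eval_add, Polynomial.eval_X, Polynomial.eval_C, ht i,
        add_comm]
    simp only [hA, Matrix.of_apply, one_mul]
    rw [h2, Polynomial.eval_eq_sum_range' h1]
    exact Finset.sum_congr rfl fun k _ => mul_comm _ _
  rw [Finset.card_univ, hAdet] at hdvd
  have hcop : IsCoprime ((q : ℤ) ^ ((Fintype.card ι).choose 2)) (∏ i, u (s i)) :=
    (IsCoprime.prod_left fun i _ => hu _ (hsS i)).symm.pow_left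
  have hdvd2 := hcop.dvd_of_dvd_mul_left hdvd
  have h5 := Int.le_of_dvd (abs_pos.2 hs0) ((dvd_abs _ _).2 hdvd2)
  exact absurd (hdet s hsS) (not_lt.2 h5)

end

end Pool.Agent.Lib.Sqf4
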