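import Pool.Agent.Lib.Sqf4.Defs
import Pool.Agent.Lib.MP_0b15c0_nt.DivisorBound

set_option autoImplicit false

namespace Pool.Agent.Lib.Sqf4

open Polynomial

noncomputable section

private lemma coprime_of_relPrime {P Q : ℤ[X]} (hP : P ≠ 0) (h : IsRelPrime P Q) :
    IsCoprime (P.map (Int.castRingHom ℚ)) (Q.map (Int.castRingHom ℚ)) := by
  classical
  have hP' : P.map (Int.castRingHom ℚ) ≠ 0 := by
    rw [Ne, Polynomial.map_eq_zero_iff (RingHom.injective_int _)]
    exact hP
  by_contra hc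
  set g := EuclideanDomain.gcd (P.map (Int.castRingHom ℚ)) (Q.map (Int.castRingHom ℚ)) with hg
  have hg1 : g ∣ P.map (Int.castRingHom ℚ) := EuclideanDomain.gcd_dvd_left _ _
  have hg2 : g ∣ Q.map (Int.castRingHom ℚ) := EuclideanDomain.gcd_dvd_right _ _
  have hgu : ¬ IsUnit g := by
    intro hu
    exact hc (EuclideanDomain.gcd_isUnit_iff.mp hu)
  have hg0 : g ≠ 0 := by
    intro h0
    rw [h0] at hg1
    exact hP' (zero_dvd_iff.mp hg1)
  obtain ⟨b, hbm, hb⟩ := IsLocalization.integerNormalization_spec (nonZeroDivisors ℤ) g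
  set G0 := IsLocalization.integerNormalization (nonZeroDivisors ℤ) g with hG0
  have hb0 : (b : ℤ) ≠ 0 := nonZeroDivisors.ne_zero hbm
  have hmap : G0.map (algebraMap ℤ ℚ) = C ((b : ℤ) : ℚ) * g := by
    rw [hb]
    ext i
    simp
  have hbu : IsUnit (C ((b : ℤ) : ℚ) : ℚ[X]) := by
    rw [Polynomial.isUnit_C]
    exact isUnit_iff_ne_zero.mpr (by exact_mod_cast hb0)
  have hG00 : G0 ≠ 0 := by
    intro h0
    rw [h0, Polynomial.map_zero] at hmap
    exact (mul_ne_zero (hbu.ne_zero) hg0) hmap.symm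
  have hprim : G0.primPart.IsPrimitive := G0.isPrimitive_primPart
  have hdvd : (G0.primPart).map (algebraMap ℤ ℚ) ∣ g := by
    have h1 : (G0.primPart).map (algebraMap ℤ ℚ) ∣ G0.map (algebraMap ℤ ℚ) :=
      Polynomial.map_dvd _ (G0.primPart_dvd)
    rw [hmap] at h1
    exact (hbu.dvd_mul_left).mp h1
  have hP1 : G0.primPart ∣ P :=
    hprim.dvd_of_fraction_map_dvd_fraction_map (K := ℚ) (hdvd.trans hg1)
  have hQ1 : G0.primPart ∣ Q :=
    hprim.dvd_of_fraction_map_dvd_fraction_map (K := ℚ) (hdvd.trans hg2)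
  have hu := h hP1 hQ1
  have hdeg : G0.natDegree = 0 := by
    have h1 : G0.primPart.natDegree = 0 := Polynomial.natDegree_eq_zero_of_isUnit hu
    rwa [Polynomial.natDegree_primPart] at h1
  have hdeg' : g.natDegree = 0 := by
    have h1 : (G0.map (algebraMap ℤ ℚ)).natDegree = G0.natDegree :=
      Polynomial.natDegree_map_eq_of_injective (RingHom.injective_int _) _
    rw [hmap, Polynomial.natDegree_C_mul (by exact_mod_cast hb0), hdeg] at h1
    exact h1
  apply hgu
  rw [Polynomial.eq_C_of_natDegree_eq_zero hdeg']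
  rw [Polynomial.isUnit_C]
  apply isUnit_iff_ne_zero.mpr
  intro h0
  apply hg0
  rw [Polynomial.eq_C_of_natDegree_eq_zero hdeg', h0, C_0]

private lemma coeff_bound {P G P1 : ℤ[X]} {K : ℝ} {D : ℕ} (hP : P ≠ 0) (hG : G * P1 = P)
    (hK : 0 ≤ K)
    (hD : P.natDegree ≤ D) (hc : ∀ i, |(P.coeff i : ℝ)| ≤ K) (i : ℕ) :
    |(P1.coeff i : ℝ)| ≤ 2 ^ D * ((D + 1) * K) := by
  have hG0 : G ≠ 0 := by
    rintro rfl
    exact hP (by rw [← hG, zero_mul])
  have hP10 : P1 ≠ 0 := by
    rintro rfl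
    exact hP (by rw [← hG, mul_zero])
  have hdeg1 : P1.natDegree ≤ D := by
    have := Polynomial.natDegree_mul hG0 hP10
    rw [hG] at this
    omega
  have h1 := norm_coeff_le_choose_mul_mahlerMeasure i (P1.map (Int.castRingHom ℂ))
  have hinj : Function.Injective (Int.castRingHom ℂ) := RingHom.injective_int _
  rw [Polynomial.natDegree_map_eq_of_injective hinj, Polynomial.coeff_map] at h1
  have h2 : ‖(Int.castRingHom ℂ) (P1.coeff i)‖ = |(P1.coeff i : ℝ)| := by
    simp [Complex.norm_intCast]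
  rw [h2] at h1
  have h3 : (P.map (Int.castRingHom ℂ)).mahlerMeasure
      = (G.map (Int.castRingHom ℂ)).mahlerMeasure * (P1.map (Int.castRingHom ℂ)).mahlerMeasure := by
    rw [← hG, Polynomial.map_mul, mahlerMeasure_mul]
  have h4 := one_le_mahlerMeasure_of_ne_zero hG0
  have h5 : (P1.map (Int.castRingHom ℂ)).mahlerMeasure ≤ (P.map (Int.castRingHom ℂ)).mahlerMeasure := by
    rw [h3]
    have := mahlerMeasure_nonneg (P1.map (Int.castRingHom ℂ))
    nlinarith
  have h6 : (P.map (Int.castRingHom ℂ)).mahlerMeasure ≤ (D + 1) * K := by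
    refine (mahlerMeasure_le_sum_norm_coeff _).trans ?_
    rw [Polynomial.sum_over_range _ (fun _ => norm_zero)]
    rw [Polynomial.natDegree_map_eq_of_injective hinj]
    calc ∑ a ∈ Finset.range (P.natDegree + 1), ‖(P.map (Int.castRingHom ℂ)).coeff a‖
        ≤ ∑ a ∈ Finset.range (P.natDegree + 1), K := by
          apply Finset.sum_le_sum
          intro a _
          rw [Polynomial.coeff_map]
          have : ‖(Int.castRingHom ℂ) (P.coeff a)‖ = |(P.coeff a : ℝ)| := by
            simp [Complex.norm_intCast]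
          rw [this]
          exact hc a
      _ = (P.natDegree + 1) * K := by simp
      _ ≤ (D + 1) * K := by
          gcongr
  have h7 : ((P1.natDegree.choose i : ℕ) : ℝ) ≤ 2 ^ D := by
    have : P1.natDegree.choose i ≤ 2 ^ P1.natDegree := Nat.choose_le_two_pow _ _
    have h8 : 2 ^ P1.natDegree ≤ 2 ^ D := Nat.pow_le_pow_right (by norm_num) hdeg1
    exact_mod_cast this.trans h8
  calc |(P1.coeff i : ℝ)| ≤ (P1.natDegree.choose i : ℕ) * (P1.map (Int.castRingHom ℂ)).mahlerMeasure := h1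
    _ ≤ 2 ^ D * ((D + 1) * K) := by
        apply mul_le_mul h7 (h5.trans h6) (mahlerMeasure_nonneg _) (by positivity)

private lemma resultant_bound {P Q : ℤ[X]} {K : ℝ} {D : ℕ} (hK : 1 ≤ K)
    (hP : P.natDegree ≤ D) (hQ : Q.natDegree ≤ D)
    (h1 : ∀ i, |(P.coeff i : ℝ)| ≤ K) (h2 : ∀ i, |(Q.coeff i : ℝ)| ≤ K) :
    |((resultant P Q : ℤ) : ℝ)| ≤ (Nat.factorial (2 * D) : ℝ) * K ^ (2 * D) := by
  set A := sylvester P Q P.natDegree Q.natDegree with hA
  have hAe : resultant P Q = A.det := rfl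
  have h3 : |((A.det : ℤ) : ℝ)| ≤ (Nat.factorial (P.natDegree + Q.natDegree)) • K ^ (P.natDegree + Q.natDegree) := by
    have h4 := Matrix.det_le (A := A.map (Int.cast : ℤ → ℝ)) (abv := (AbsoluteValue.abs : AbsoluteValue ℝ ℝ)) (x := K) ?_
    · rw [Fintype.card_fin] at h4
      have h5 : (A.map (Int.cast : ℤ → ℝ)).det = ((A.det : ℤ) : ℝ) := by
        have := (Int.castRingHom ℝ).map_det A
        simpa [RingHom.mapMatrix_apply] using this.symm
      rw [h5] at h4
      simpa using h4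
    · intro i j
      simp only [hA, sylvester, Matrix.map_apply, Matrix.of_apply]
      refine Fin.addCases (fun j₁ => ?_) (fun j₁ => ?_) j
      · rw [Fin.addCases_left]
        split_ifs
        · exact h2 _
        · simp; linarith
      · rw [Fin.addCases_right]
        split_ifs
        · exact h1 _
        · simp; linarith
  rw [hAe]
  refine h3.trans ?_
  rw [nsmul_eq_mul]
  have h6 : P.natDegree + Q.natDegree ≤ 2 * D := by omega
  apply mul_le_mul
  · exact_mod_cast Nat.factorial_le h6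
  · exact pow_le_pow_right₀ hK h6
  · positivity
  · positivity

/-- HOW OFTEN DOES `P(s)` DIVIDE `Q(s)`? -/
theorem div_count (D : ℕ) (ε : ℝ) (hε : 0 < ε) : ∃ C : ℝ, 1 ≤ C ∧
    ∀ (P Q : ℤ[X]) (K : ℝ), 1 ≤ K → P.natDegree ≤ D → Q.natDegree ≤ D →
      (∀ i, |(P.coeff i : ℝ)| ≤ K) → (∀ i, |(Q.coeff i : ℝ)| ≤ K) →
      P ≠ 0 → ¬ (P.map (Int.castRingHom ℚ) ∣ Q.map (Int.castRingHom ℚ)) →
      ∀ S : Finset ℤ, (∀ s ∈ S, P.eval s ≠ 0 ∧ P.eval s ∣ Q.eval s) →
        (S.card : ℝ) ≤ C * K ^ ε := by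
  classical
  set ε' : ℝ := ε / (2 * D + 1) with hε'
  have hε'0 : 0 < ε' := by positivity
  obtain ⟨C1, hC1, hdiv⟩ := Pool.Agent.Lib.MP0b15c0.divisor_bound hε'0
  set F : ℝ := (Nat.factorial (2 * D) : ℝ) * (2 ^ D * (D + 1)) ^ (2 * D) with hF
  have hF1 : 0 < F := by positivity
  refine ⟨max 1 (2 * D * (C1 * F ^ ε')), le_max_left _ _, ?_⟩
  intro P Q K hK hPD hQD hPc hQc hP0 hndvd S hS
  have hQ0 : Q ≠ 0 := by
    rintro rfl
    apply hndvd
    simp
  obtain ⟨P1, Q1, G, hrel, hGP, hGQ⟩ := UniqueFactorizationMonoid.exists_reduced_factors P hP0 Q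
  have hG0 : G ≠ 0 := by
    rintro rfl
    exact hP0 (by rw [← hGP, zero_mul])
  have hP10 : P1 ≠ 0 := by
    rintro rfl
    exact hP0 (by rw [← hGP, mul_zero])
  have hQ10 : Q1 ≠ 0 := by
    rintro rfl
    exact hQ0 (by rw [← hGQ, mul_zero])
  have hP1D : P1.natDegree ≤ D := by
    have := Polynomial.natDegree_mul hG0 hP10
    rw [hGP] at this
    omega
  have hQ1D : Q1.natDegree ≤ D := by
    have := Polynomial.natDegree_mul hG0 hQ10
    rw [hGQ] at this
    omega
  have hK0 : 0 ≤ K := by linarith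
  set K' : ℝ := 2 ^ D * ((D + 1) * K) with hK'
  have hK'1 : 1 ≤ K' := by
    have h1 : (1 : ℝ) ≤ 2 ^ D := one_le_pow₀ (by norm_num)
    have h2 : (1 : ℝ) ≤ (D + 1) * K := by
      have : (0 : ℝ) ≤ D := by positivity
      nlinarith
    rw [hK']
    nlinarith
  have hP1c := coeff_bound hP0 hGP hK0 hPD hPc
  have hQ1c := coeff_bound hQ0 hGQ hK0 hQD hQc
  have hr_bd := resultant_bound hK'1 hP1D hQ1D hP1c hQ1c
  have hcop := coprime_of_relPrime hP10 hrel
  set r : ℤ := resultant P1 Q1 with hr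
  have hr0 : r ≠ 0 := by
    intro h0
    have h1 := resultant_ne_zero _ _ hcop
    apply h1
    have h2 := resultant_map_map P1 Q1 P1.natDegree Q1.natDegree (Int.castRingHom ℚ)
    rw [Polynomial.natDegree_map_eq_of_injective (RingHom.injective_int _),
      Polynomial.natDegree_map_eq_of_injective (RingHom.injective_int _), h2]
    change (Int.castRingHom ℚ) r = 0
    rw [h0, map_zero]
  -- P1 nonconstant
  have hP1n : P1.natDegree ≠ 0 := by
    intro h0
    apply hndvd
    have h1 := Polynomial.eq_C_of_natDegree_eq_zero h0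
    have hc0 : P1.coeff 0 ≠ 0 := by
      intro h2
      apply hP10
      rw [h1, h2, C_0]
    have hu : IsUnit ((P1).map (Int.castRingHom ℚ)) := by
      rw [h1, Polynomial.map_C, Polynomial.isUnit_C]
      apply isUnit_iff_ne_zero.mpr
      simpa using hc0
    rw [← hGP, ← hGQ, Polynomial.map_mul, Polynomial.map_mul]
    exact mul_dvd_mul_left _ (hu.dvd)
  obtain ⟨A, B, -, -, hAB⟩ := exists_mul_add_mul_eq_C_resultant P1 Q1 le_rfl le_rfl (Or.inl hP1n)
  have key : ∀ s ∈ S, P1.eval s ∣ r := by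
    intro s hs
    obtain ⟨hs0, hs1⟩ := hS s hs
    have h1 : P.eval s = G.eval s * P1.eval s := by rw [← hGP, eval_mul]
    have h2 : Q.eval s = G.eval s * Q1.eval s := by rw [← hGQ, eval_mul]
    rw [h1] at hs0
    rw [h1, h2] at hs1
    have hG : G.eval s ≠ 0 := left_ne_zero_of_mul hs0
    have h3 : P1.eval s ∣ Q1.eval s := (mul_dvd_mul_iff_left hG).mp hs1
    have h4 := congrArg (Polynomial.eval s) hAB
    rw [eval_add, eval_mul, eval_mul, eval_C] at h4
    rw [hr, ← h4]
    exact dvd_add (Dvd.intro _ rfl) (Dvd.dvd.mul_right h3 _)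
  -- count
  set T : Finset ℤ := (r.natAbs.divisors.image (fun k : ℕ => (k : ℤ))) ∪
    (r.natAbs.divisors.image (fun k : ℕ => -(k : ℤ))) with hT
  have hTmem : ∀ s ∈ S, P1.eval s ∈ T := by
    intro s hs
    have h1 := key s hs
    rw [hT, Finset.mem_union, Finset.mem_image, Finset.mem_image]
    have h2 : (P1.eval s).natAbs ∈ r.natAbs.divisors := by
      rw [Nat.mem_divisors]
      exact ⟨Int.natAbs_dvd_natAbs.mpr h1, by simpa using hr0⟩
    rcases le_total 0 (P1.eval s) with h3 | h3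
    · left
      exact ⟨_, h2, by rw [Int.natAbs_of_nonneg h3]⟩
    · right
      exact ⟨_, h2, by rw [Int.ofNat_natAbs_of_nonpos h3, neg_neg]⟩
  have hTc : T.card ≤ 2 * r.natAbs.divisors.card := by
    refine (Finset.card_union_le _ _).trans ?_
    have h1 := Finset.card_image_le (s := r.natAbs.divisors) (f := fun k : ℕ => (k : ℤ))
    have h2 := Finset.card_image_le (s := r.natAbs.divisors) (f := fun k : ℕ => -(k : ℤ))
    omega
  have hfib : ∀ t ∈ T, (S.filter (fun s => P1.eval s = t)).card ≤ D := by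
    intro t _
    have hne : P1 - C t ≠ 0 := by
      intro h0
      apply hP1n
      rw [sub_eq_zero.mp h0, natDegree_C]
    have h1 : (S.filter (fun s => P1.eval s = t)) ⊆ (P1 - C t).roots.toFinset := by
      intro s hs
      rw [Finset.mem_filter] at hs
      rw [Multiset.mem_toFinset, Polynomial.mem_roots hne, IsRoot.def, eval_sub, eval_C, hs.2,
        sub_self]
    refine (Finset.card_le_card h1).trans ((Multiset.toFinset_card_le _).trans ?_)
    refine (Polynomial.card_roots' _).trans ?_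
    rw [Polynomial.natDegree_sub_C]
    exact hP1D
  have hScard : S.card ≤ D * T.card := by
    have h1 := Finset.card_le_mul_card_image_of_maps_to (f := fun s : ℤ => P1.eval s) (s := S) (t := T) hTmem D hfib
    exact h1
  have hcard2 : (S.card : ℝ) ≤ 2 * D * (r.natAbs.divisors.card : ℝ) := by
    have : S.card ≤ D * (2 * r.natAbs.divisors.card) := hScard.trans (Nat.mul_le_mul_left _ hTc)
    have h2 : (S.card : ℝ) ≤ ((D * (2 * r.natAbs.divisors.card) : ℕ) : ℝ) := by exact_mod_cast this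
    push_cast at h2
    linarith
  have hdv := hdiv r.natAbs (by simpa using hr0)
  have hrF : ((r.natAbs : ℕ) : ℝ) ≤ F * K ^ (2 * D) := by
    have h1 : ((r.natAbs : ℕ) : ℝ) = |((r : ℤ) : ℝ)| := by
      rw [Nat.cast_natAbs, Int.cast_abs]
    rw [h1]
    refine hr_bd.trans (le_of_eq ?_)
    rw [hF, hK', show (2 : ℝ) ^ D * ((D + 1) * K) = (2 ^ D * (D + 1)) * K by ring, mul_pow]
    ring
  have hrpow : ((r.natAbs : ℕ) : ℝ) ^ ε' ≤ F ^ ε' * K ^ ε := by
    have h1 : ((r.natAbs : ℕ) : ℝ) ^ ε' ≤ (F * K ^ (2 * D)) ^ ε' :=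
      Real.rpow_le_rpow (by positivity) hrF hε'0.le
    refine h1.trans ?_
    rw [Real.mul_rpow hF1.le (by positivity)]
    apply mul_le_mul_of_nonneg_left _ (by positivity)
    rw [← Real.rpow_natCast, ← Real.rpow_mul hK0]
    apply Real.rpow_le_rpow_of_exponent_le hK
    rw [hε']
    push_cast
    rw [mul_div_assoc']
    rw [div_le_iff₀ (by positivity)]
    nlinarith
  calc (S.card : ℝ) ≤ 2 * D * (r.natAbs.divisors.card : ℝ) := hcard2
    _ ≤ 2 * D * (C1 * (F ^ ε' * K ^ ε)) := by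
        apply mul_le_mul_of_nonneg_left _ (by positivity)
        exact hdv.trans (mul_le_mul_of_nonneg_left hrpow hC1.le)
    _ = (2 * D * (C1 * F ^ ε')) * K ^ ε := by ring
    _ ≤ max 1 (2 * D * (C1 * F ^ ε')) * K ^ ε := by
        apply mul_le_mul_of_nonneg_right (le_max_right _ _) (by positivity)

end

end Pool.Agent.Lib.Sqf4
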