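import Pool.Agent.Lib.Sqf4.Defs

set_option autoImplicit false

namespace Pool.Agent.Lib.Sqf4

open Polynomial

noncomputable section

/-- HERMITE INTERPOLATION BOUND.  A complex polynomial `Z` of degree less than the number
`∑ m σ` of conditions (`m σ ≥ 1`: the value at `x σ` is bounded by `K`; `m σ = 2`: also the
derivative at `x σ` is bounded by `K / D`), nodes `D`-separated, is bounded at all points `s`
within `R` of the nodes.

PROOF: induction on `M = ∑ m σ`.  `M = 0`: `Z = 0`.  Otherwise take `σ₀` with `m σ₀ ≥ 1`,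
`x₀ = x σ₀`, `Z = C (Z.eval x₀) + (X - C x₀) * Z₁`, degree `Z₁ < M - 1`.  For `σ ≠ σ₀` with
`m σ ≥ 1`: `|Z₁(x σ)| ≤ 2K/D`, and if `m σ = 2`: from `Z' = Z₁ + (X - x₀) Z₁'`,
`|Z₁'(x σ)| ≤ (K/D + 2K/D)/D = (3K/D)/D`.  If `m σ₀ = 2`: `Z₁(x₀) = Z'(x₀)`, bounded by
`K/D ≤ 3K/D`.  So `Z₁` satisfies the hypotheses with `m σ₀` lowered by one and `K₁ = 3K/D`,
and `|Z(s)| ≤ K + R |Z₁(s)| ≤ K + R (3K/D)(1+3R/D)^(M-1) ≤ K (1+3R/D)^M`. -/
theorem int_bd {d : ℕ} (x : Fin d → ℂ) (D R : ℝ) (hD : 0 < D) (hR : 0 ≤ R)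
    (hsep : ∀ σ ρ, σ ≠ ρ → D ≤ ‖x σ - x ρ‖) (s : ℂ) (hs : ∀ σ, ‖s - x σ‖ ≤ R)
    (m : Fin d → ℕ) (hm : ∀ σ, m σ ≤ 2) (K : ℝ) (hK : 0 ≤ K) (Z : ℂ[X])
    (hdeg : Z.degree < ((∑ σ, m σ : ℕ) : WithBot ℕ))
    (h0 : ∀ σ, 1 ≤ m σ → ‖Z.eval (x σ)‖ ≤ K)
    (h1 : ∀ σ, 2 ≤ m σ → ‖Z.derivative.eval (x σ)‖ ≤ K / D) :
    ‖Z.eval s‖ ≤ K * (1 + 3 * R / D) ^ (∑ σ, m σ) := by
  obtain ⟨M, hM⟩ : ∃ M, (∑ σ, m σ) = M := ⟨_, rfl⟩
  induction M generalizing m K Z with
  | zero =>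
    rw [hM] at hdeg ⊢
    have hZ : Z = 0 := by
      by_contra hne
      rw [degree_eq_natDegree hne] at hdeg
      have h2 : Z.natDegree < 0 := by exact_mod_cast hdeg
      omega
    simp [hZ, hK]
  | succ M ih =>
    obtain ⟨σ₀, hσ₀⟩ : ∃ σ₀, 1 ≤ m σ₀ := by
      by_contra hcon
      push Not at hcon
      have : (∑ σ, m σ) = 0 := Finset.sum_eq_zero (fun σ _ => by have := hcon σ; omega)
      omega
    have hsep' : ∀ σ, σ ≠ σ₀ → D ≤ ‖x σ - x σ₀‖ := fun σ h => hsep σ σ₀ h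
    have hq : (X - C (x σ₀)).Monic := monic_X_sub_C _
    obtain ⟨Z₁, hZ₁⟩ : ∃ Z₁, Z /ₘ (X - C (x σ₀)) = Z₁ := ⟨_, rfl⟩
    have hZ : Z = C (Z.eval (x σ₀)) + (X - C (x σ₀)) * Z₁ := by
      have h := modByMonic_add_div Z (X - C (x σ₀))
      rw [modByMonic_X_sub_C_eq_C_eval, hZ₁] at h
      exact h.symm
    have hev : ∀ t : ℂ, Z.eval t = Z.eval (x σ₀) + (t - x σ₀) * Z₁.eval t := by
      intro t
      conv_lhs => rw [hZ]
      simp
    have hder : ∀ t : ℂ, Z.derivative.eval t = Z₁.eval t + (t - x σ₀) * Z₁.derivative.eval t := by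
      intro t
      conv_lhs => rw [hZ]
      simp [derivative_mul]
    obtain ⟨m', hm'⟩ : ∃ m' : Fin d → ℕ, m' = Function.update m σ₀ (m σ₀ - 1) := ⟨_, rfl⟩
    have hm0 : m' σ₀ = m σ₀ - 1 := by rw [hm']; simp
    have hm1 : ∀ σ, σ ≠ σ₀ → m' σ = m σ := fun σ h => by rw [hm']; simp [h]
    have hsum : (∑ σ, m' σ) = M := by
      have e1 : (∑ σ, m σ) = m σ₀ + ∑ σ ∈ Finset.univ.erase σ₀, m σ :=
        (Finset.add_sum_erase _ _ (Finset.mem_univ _)).symm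
      have e2 : (∑ σ, m' σ) = m' σ₀ + ∑ σ ∈ Finset.univ.erase σ₀, m' σ :=
        (Finset.add_sum_erase _ _ (Finset.mem_univ _)).symm
      have e3 : ∑ σ ∈ Finset.univ.erase σ₀, m' σ = ∑ σ ∈ Finset.univ.erase σ₀, m σ :=
        Finset.sum_congr rfl (fun σ h => hm1 σ (Finset.ne_of_mem_erase h))
      omega
    have hK1 : 0 ≤ 3 * K / D := by positivity
    have hdeg' : Z₁.degree < ((∑ σ, m' σ : ℕ) : WithBot ℕ) := by
      rw [hsum]
      rw [hM] at hdeg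
      by_cases hlt : Z.degree < (X - C (x σ₀)).degree
      · have : Z₁ = 0 := by rw [← hZ₁]; exact (divByMonic_eq_zero_iff hq).2 hlt
        rw [this, degree_zero]
        exact WithBot.bot_lt_coe M
      · have h := degree_add_divByMonic hq (not_lt.1 hlt)
        rw [hZ₁, degree_X_sub_C] at h
        by_cases hz : Z₁ = 0
        · rw [hz, degree_zero]
          exact WithBot.bot_lt_coe M
        · rw [degree_eq_natDegree hz] at h ⊢
          rw [← h] at hdeg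
          have h2 : ((1 + Z₁.natDegree : ℕ) : WithBot ℕ) < ((M + 1 : ℕ) : WithBot ℕ) := by
            push_cast
            exact_mod_cast hdeg
          have h3 : 1 + Z₁.natDegree < M + 1 := by exact_mod_cast h2
          have h4 : Z₁.natDegree < M := by omega
          exact_mod_cast h4
    have hKD : K / D ≤ 3 * K / D := by
      apply div_le_div_of_nonneg_right _ hD.le
      linarith
    have hval : ∀ σ, σ ≠ σ₀ → 1 ≤ m σ → ‖Z₁.eval (x σ)‖ ≤ 2 * K / D := by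
      intro σ hne h1m
      have e := hev (x σ)
      have e1 : (x σ - x σ₀) * Z₁.eval (x σ) = Z.eval (x σ) - Z.eval (x σ₀) := by rw [e]; ring
      have e2 : ‖x σ - x σ₀‖ * ‖Z₁.eval (x σ)‖ ≤ 2 * K := by
        rw [← norm_mul, e1]
        calc ‖Z.eval (x σ) - Z.eval (x σ₀)‖ ≤ ‖Z.eval (x σ)‖ + ‖Z.eval (x σ₀)‖ := norm_sub_le _ _
          _ ≤ K + K := add_le_add (h0 σ h1m) (h0 σ₀ hσ₀)
          _ = 2 * K := by ring
      rw [le_div_iff₀ hD]
      calc ‖Z₁.eval (x σ)‖ * D = D * ‖Z₁.eval (x σ)‖ := by ring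
        _ ≤ ‖x σ - x σ₀‖ * ‖Z₁.eval (x σ)‖ :=
            mul_le_mul_of_nonneg_right (hsep' σ hne) (norm_nonneg _)
        _ ≤ 2 * K := e2
    have h0' : ∀ σ, 1 ≤ m' σ → ‖Z₁.eval (x σ)‖ ≤ 3 * K / D := by
      intro σ hσ
      by_cases hne : σ = σ₀
      · subst hne
        have h2 : 2 ≤ m σ := by omega
        have e := hder (x σ)
        simp only [sub_self, zero_mul, add_zero] at e
        rw [← e]
        exact (h1 σ h2).trans hKD
      · have h1m : 1 ≤ m σ := by rw [hm1 σ hne] at hσ; exact hσ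
        refine (hval σ hne h1m).trans ?_
        apply div_le_div_of_nonneg_right _ hD.le
        linarith
    have h1' : ∀ σ, 2 ≤ m' σ → ‖Z₁.derivative.eval (x σ)‖ ≤ 3 * K / D / D := by
      intro σ hσ
      by_cases hne : σ = σ₀
      · subst hne
        have := hm σ
        omega
      · have h2m : 2 ≤ m σ := by rw [hm1 σ hne] at hσ; exact hσ
        have e := hder (x σ)
        have e1 : (x σ - x σ₀) * Z₁.derivative.eval (x σ)
            = Z.derivative.eval (x σ) - Z₁.eval (x σ) := by rw [e]; ring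
        have e2 : ‖x σ - x σ₀‖ * ‖Z₁.derivative.eval (x σ)‖ ≤ 3 * K / D := by
          rw [← norm_mul, e1]
          calc ‖Z.derivative.eval (x σ) - Z₁.eval (x σ)‖
              ≤ ‖Z.derivative.eval (x σ)‖ + ‖Z₁.eval (x σ)‖ := norm_sub_le _ _
            _ ≤ K / D + 2 * K / D := add_le_add (h1 σ h2m) (hval σ hne (by omega))
            _ = 3 * K / D := by ring
        rw [le_div_iff₀ hD]
        calc ‖Z₁.derivative.eval (x σ)‖ * D = D * ‖Z₁.derivative.eval (x σ)‖ := by ring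
          _ ≤ ‖x σ - x σ₀‖ * ‖Z₁.derivative.eval (x σ)‖ :=
              mul_le_mul_of_nonneg_right (hsep' σ hne) (norm_nonneg _)
          _ ≤ 3 * K / D := e2
    have hm2 : ∀ σ, m' σ ≤ 2 := by
      intro σ
      by_cases hne : σ = σ₀
      · subst hne
        have := hm σ
        omega
      · rw [hm1 σ hne]; exact hm σ
    have key := ih m' hm2 (3 * K / D) hK1 Z₁ hdeg' h0' h1' hsum
    rw [hsum] at key
    rw [hM]
    have ht : 1 ≤ 1 + 3 * R / D := by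
      have : 0 ≤ 3 * R / D := by positivity
      linarith
    have htM : 1 ≤ (1 + 3 * R / D) ^ M := one_le_pow₀ ht
    calc ‖Z.eval s‖ = ‖Z.eval (x σ₀) + (s - x σ₀) * Z₁.eval s‖ := by rw [← hev s]
      _ ≤ ‖Z.eval (x σ₀)‖ + ‖(s - x σ₀) * Z₁.eval s‖ := norm_add_le _ _
      _ = ‖Z.eval (x σ₀)‖ + ‖s - x σ₀‖ * ‖Z₁.eval s‖ := by rw [norm_mul]
      _ ≤ K + R * (3 * K / D * (1 + 3 * R / D) ^ M) :=
          add_le_add (h0 σ₀ hσ₀) (mul_le_mul (hs σ₀) key (norm_nonneg _) hR)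
      _ = K * 1 + K * (3 * R / D) * (1 + 3 * R / D) ^ M := by ring
      _ ≤ K * (1 + 3 * R / D) ^ M + K * (3 * R / D) * (1 + 3 * R / D) ^ M := by
          have := mul_le_mul_of_nonneg_left htM hK
          linarith
      _ = K * (1 + 3 * R / D) ^ (M + 1) := by ring

end

end Pool.Agent.Lib.Sqf4
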