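import Pool.Agent.Lib.Sqf4.PB
import Pool.Agent.Lib.Sqf4.Int

set_option autoImplicit false

/-!
A polynomial curve with a level one relation is bounded (MP_8842b2_nt, first range).
-/

namespace Pool.Agent.Lib.Sqf4

open Polynomial Matrix

noncomputable section

variable {d : ℕ} {θ : Fin d → ℂ} {a : Fin d → ℤ} {PB QB : Fin d → ℤ[X]}

/-- HERMITE BOUND: `Z` with `P Z = Q` for a level one relation `(P, Q)` is bounded. -/
theorem PBQB.herm (h : PBQB θ a PB QB) (hθ : Function.Injective θ)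
    (D R K : ℝ) (hD : 0 < D) (hR : 0 ≤ R) (hK : 0 ≤ K)
    (hsep : ∀ σ ρ, σ ≠ ρ → D ≤ ‖al θ a σ - al θ a ρ‖) (hθK : ∀ σ, ‖θ σ‖ ≤ K)
    (c e : Fin d → ℤ) (hce : ¬ (c = 0 ∧ e = 0)) (Z : ℂ[X])
    (hZ : (∑ j, (C (c j) + X * C (e j)) * PB j).map (Int.castRingHom ℂ) * Z
      = (∑ j, (C (c j) + X * C (e j)) * QB j).map (Int.castRingHom ℂ))
    (s : ℂ) (hs : ∀ σ, ‖s + al θ a σ‖ ≤ R) :
    ‖Z.eval s‖ ≤ K * (1 + 3 * R / D) ^ (2 * d) := by
  have hz : Function.Injective (al θ a) := by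
    intro σ ρ hh
    by_contra hne
    have h1 := hsep σ ρ hne
    rw [hh, sub_self, norm_zero] at h1
    linarith
  set P : ℂ[X] := (∑ j, (C (c j) + X * C (e j)) * PB j).map (Int.castRingHom ℂ) with hP
  set Q : ℂ[X] := (∑ j, (C (c j) + X * C (e j)) * QB j).map (Int.castRingHom ℂ) with hQ
  have hP0 : P ≠ 0 := by
    intro h0
    apply hce
    apply h.level_one hθ hz
    rw [hP] at h0
    exact (Polynomial.map_eq_zero_iff (RingHom.injective_int (Int.castRingHom ℂ))).1 h0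
  have hbase : (1 : ℝ) ≤ 1 + 3 * R / D := by
    have : 0 ≤ 3 * R / D := by positivity
    linarith
  by_cases hZ0 : Z = 0
  · rw [hZ0, eval_zero, norm_zero]; positivity
  set G : Fin d → ℂ[X] := fun σ =>
    C (∑ j, (c j : ℂ) * W θ j σ) + X * C (∑ j, (e j : ℂ) * W θ j σ) with hG
  have hPe : P = ∑ σ, G σ * Psi (al θ a) σ ^ 2 := h.comb_P c e
  have hQe : Q = ∑ σ, C (θ σ) * (G σ * Psi (al θ a) σ ^ 2) := h.comb_Q c e
  have hQdeg : Q.natDegree ≤ 2 * d - 1 := by
    rw [hQe]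
    refine natDegree_sum_le_of_forall_le _ _ fun σ _ => ?_
    refine (natDegree_C_mul_le _ _).trans (natDegree_mul_le.trans ?_)
    have h1 : (G σ).natDegree ≤ 1 := lin_natDegree _ _
    rw [Psi_sq_natDegree]
    have := σ.pos
    omega
  have hQ0 : Q ≠ 0 := by rw [← hZ]; exact mul_ne_zero hP0 hZ0
  have hdegs : P.natDegree + Z.natDegree = Q.natDegree := by
    rw [← hZ, natDegree_mul hP0 hZ0]
  -- divisibility at the nodes
  have hdiv : ∀ σ, (X + C (al θ a σ)) ^ 2 ∣ P * (Z - C (θ σ)) := by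
    intro σ
    have h1 : P * (Z - C (θ σ)) = Q - C (θ σ) * P := by rw [← hZ]; ring
    rw [h1, hQe, hPe, Finset.mul_sum, ← Finset.sum_sub_distrib]
    refine Finset.dvd_sum fun ρ _ => ?_
    by_cases hρ : ρ = σ
    · subst hρ; rw [sub_self]; exact dvd_zero _
    · have h2 : C (θ ρ) * (G ρ * Psi (al θ a) ρ ^ 2) - C (θ σ) * (G ρ * Psi (al θ a) ρ ^ 2)
          = (C (θ ρ) - C (θ σ)) * G ρ * Psi (al θ a) ρ ^ 2 := by ring
      rw [h2]
      exact Dvd.dvd.mul_left (Psi_dvd hρ) _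
  set x : Fin d → ℂ := fun σ => - al θ a σ with hx
  have hXC : ∀ σ, (X + C (al θ a σ) : ℂ[X]) = X - C (x σ) := by intro σ; simp [hx]
  set ee : Fin d → ℕ := fun σ => P.rootMultiplicity (x σ) with hee
  -- remaining multiplicity
  have hrem : ∀ σ, (X - C (x σ)) ^ (2 - ee σ) ∣ Z - C (θ σ) := by
    intro σ
    obtain ⟨P1, hP1, hP1n⟩ := Polynomial.exists_eq_pow_rootMultiplicity_mul_and_not_dvd P hP0 (x σ)
    by_cases h2 : 2 ≤ ee σ
    · rw [Nat.sub_eq_zero_of_le h2, pow_zero]; exact one_dvd _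
    · push Not at h2
      have h3 := hdiv σ
      rw [hXC σ] at h3
      have h4 : (X - C (x σ)) ^ 2 = (X - C (x σ)) ^ (ee σ) * (X - C (x σ)) ^ (2 - ee σ) := by
        rw [← pow_add]; congr 1; omega
      rw [h4, hP1, mul_assoc] at h3
      have h5 : (X - C (x σ)) ^ (ee σ) ≠ 0 := pow_ne_zero _ (X_sub_C_ne_zero _)
      have h6 := (mul_dvd_mul_iff_left h5).1 h3
      have h7 : IsCoprime ((X - C (x σ)) ^ (2 - ee σ)) P1 := by
        refine IsCoprime.pow_left ?_
        exact (Polynomial.irreducible_X_sub_C (x σ)).coprime_iff_not_dvd.2 hP1n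
      exact h7.dvd_of_dvd_mul_left h6
  have hx_inj : Function.Injective x := fun σ ρ hh => hz (neg_injective hh)
  have hsum_e : ∑ σ, ee σ ≤ P.natDegree := by
    have h1 : ∏ σ, (X - C (x σ)) ^ (ee σ) ∣ P := by
      refine Finset.prod_dvd_of_coprime ?_ fun σ _ => Polynomial.pow_rootMultiplicity_dvd P (x σ)
      intro σ _ ρ _ hσρ
      refine IsCoprime.pow ?_
      exact isCoprime_X_sub_C_of_isUnit_sub (sub_ne_zero.2 fun hh => hσρ (hx_inj hh)).isUnit
    have h2 := natDegree_le_of_dvd h1 hP0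
    rw [natDegree_prod_of_monic _ _ fun σ _ => (monic_X_sub_C _).pow _] at h2
    have h3 : ∀ σ, ((X - C (x σ)) ^ (ee σ)).natDegree = ee σ := by
      intro σ
      rw [(monic_X_sub_C _).natDegree_pow, natDegree_X_sub_C, mul_one]
    rwa [Finset.sum_congr rfl fun σ _ => h3 σ] at h2
  set m : Fin d → ℕ := fun σ => 2 - ee σ with hm
  have hsum_m : 2 * d ≤ ∑ σ, m σ + ∑ σ, ee σ := by
    rw [← Finset.sum_add_distrib]
    have h1 : ∑ σ : Fin d, 2 ≤ ∑ σ, (m σ + ee σ) := by
      refine Finset.sum_le_sum fun σ _ => ?_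
      simp only [hm]; omega
    simpa [mul_comm] using h1
  have hm_le : ∑ σ, m σ ≤ 2 * d := by
    have h1 : ∑ σ, m σ ≤ ∑ σ : Fin d, 2 := Finset.sum_le_sum fun σ _ => by simp only [hm]; omega
    simpa [mul_comm] using h1
  have hd0 : 0 < d := by
    by_contra hd
    have : d = 0 := by omega
    subst this
    apply hP0
    rw [hPe]; simp
  have hdeg : Z.degree < ((∑ σ, m σ : ℕ) : WithBot ℕ) := by
    rw [degree_eq_natDegree hZ0]
    have h1 : Z.natDegree < ∑ σ, m σ := by omega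
    exact_mod_cast h1
  have hb := int_bd x D R hD hR
    (fun σ ρ hne => by
      have h1 := hsep ρ σ hne.symm
      have h2 : x σ - x ρ = al θ a ρ - al θ a σ := by simp only [hx]; ring
      rw [h2]; exact h1) s
    (fun σ => by
      have h2 : s - x σ = s + al θ a σ := by simp only [hx]; ring
      rw [h2]; exact hs σ)
    m (fun σ => by simp only [hm]; omega) K hK Z hdeg
    (fun σ hσ => by
      have h1 : (X - C (x σ)) ∣ Z - C (θ σ) :=
        (dvd_pow_self _ (by simp only [hm] at hσ; omega)).trans (hrem σ)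
      rw [Polynomial.dvd_iff_isRoot, IsRoot.def, eval_sub, eval_C, sub_eq_zero] at h1
      rw [h1]; exact hθK σ)
    (fun σ hσ => by
      have h1 : (X - C (x σ)) ^ 2 ∣ Z - C (θ σ) := by
        have h2 := hrem σ
        have h3 : 2 - ee σ = 2 := by simp only [hm] at hσ; omega
        rwa [h3] at h2
      obtain ⟨Y, hY⟩ := h1
      have h2 : derivative Z = derivative ((X - C (x σ)) ^ 2 * Y) := by
        rw [← hY]; simp
      have h3 : (derivative Z).eval (x σ) = 0 := by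
        rw [h2, derivative_mul, derivative_X_sub_C_sq]
        simp
      rw [h3, norm_zero]; positivity)
  refine hb.trans ?_
  exact mul_le_mul_of_nonneg_left (pow_le_pow_right₀ hbase hm_le) hK

end

end Pool.Agent.Lib.Sqf4
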