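import Pool.Agent.Lib.Sqf4.Defs

set_option autoImplicit false

namespace Pool.Agent.Lib.Sqf4

open Polynomial Matrix

noncomputable section

private theorem pq_comp {f : ℤ[X]} {d : ℕ} {θ : Fin d → ℂ} (h : Rts f d θ) :
    Matrix.vandermonde θ * (comp f d).map (Int.castRingHom ℂ)
      = Matrix.diagonal θ * Matrix.vandermonde θ := by
  ext σ j
  rw [Matrix.mul_apply, Matrix.diagonal_mul, Matrix.vandermonde_apply]
  have hsum : ∑ i : Fin d, θ σ ^ (i : ℕ) * ((f.coeff i : ℤ) : ℂ) + θ σ ^ d = 0 := by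
    have h1 := h.root σ
    rw [Polynomial.eval_map, Polynomial.eval₂_eq_sum_range, h.deg, Finset.sum_range_succ] at h1
    have h2 : f.coeff d = 1 := by
      have h3 := h.monic.coeff_natDegree
      rwa [h.deg] at h3
    rw [h2, Finset.sum_range] at h1
    rw [← h1]
    simp [mul_comm]
  by_cases hj : (j : ℕ) + 1 = d
  · have h4 : ∀ i : Fin d, Matrix.vandermonde θ σ i
        * ((comp f d).map (Int.castRingHom ℂ)) i j
        = - (θ σ ^ (i : ℕ) * ((f.coeff i : ℤ) : ℂ)) := by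
      intro i
      simp [comp, hj, Matrix.vandermonde_apply]
    rw [Finset.sum_congr rfl (fun i _ => h4 i), Finset.sum_neg_distrib, ← pow_succ', hj]
    linear_combination - hsum
  · have hj2 : (j : ℕ) + 1 < d := by have := j.isLt; omega
    rw [Finset.sum_eq_single (⟨(j : ℕ) + 1, hj2⟩ : Fin d)]
    · simp [comp, hj, Matrix.vandermonde_apply, pow_succ']
    · intro i _ hi
      have hi' : ¬ ((i : ℕ) = (j : ℕ) + 1) := fun hh => hi (Fin.ext hh)
      simp [comp, hj, hi']
    · intro hh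
      exact absurd (Finset.mem_univ _) hh

private theorem pq_pow {f : ℤ[X]} {d : ℕ} {θ : Fin d → ℂ} (h : Rts f d θ) (k : ℕ) :
    Matrix.vandermonde θ * ((comp f d) ^ k).map (Int.castRingHom ℂ)
      = Matrix.diagonal (fun σ => θ σ ^ k) * Matrix.vandermonde θ := by
  induction k with
  | zero => simp [Matrix.map_one]
  | succ k ih =>
    rw [pow_succ, Matrix.map_mul, ← Matrix.mul_assoc, ih, Matrix.mul_assoc, pq_comp h,
      ← Matrix.mul_assoc, Matrix.diagonal_mul_diagonal]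
    simp [pow_succ]

private theorem pq_mm {f : ℤ[X]} {d : ℕ} {θ : Fin d → ℂ} (h : Rts f d θ) (a : Fin d → ℤ) :
    Matrix.vandermonde θ * (mm f a).map (Int.castRingHom ℂ)
      = Matrix.diagonal (al θ a) * Matrix.vandermonde θ := by
  have h1 : (mm f a).map (Int.castRingHom ℂ)
      = ∑ j, (a j : ℂ) • ((comp f d) ^ (j : ℕ)).map (Int.castRingHom ℂ) := by
    refine Matrix.ext fun x y => ?_
    rw [Matrix.map_apply, mm, Matrix.sum_apply, map_sum, Matrix.sum_apply]
    refine Finset.sum_congr rfl (fun j _ => ?_)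
    rw [Matrix.smul_apply, Matrix.smul_apply, Matrix.map_apply, smul_eq_mul, smul_eq_mul,
      map_mul, eq_intCast, eq_intCast]
  rw [h1, Finset.mul_sum]
  ext x y
  rw [Matrix.sum_apply, Matrix.diagonal_mul]
  have h2 : ∀ j : Fin d, (Matrix.vandermonde θ
      * ((a j : ℂ) • ((comp f d) ^ (j : ℕ)).map (Int.castRingHom ℂ))) x y
      = (a j : ℂ) * θ x ^ (j : ℕ) * Matrix.vandermonde θ x y := by
    intro j
    rw [Matrix.mul_smul, Matrix.smul_apply, pq_pow h, Matrix.diagonal_mul, smul_eq_mul]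
    ring
  rw [Finset.sum_congr rfl (fun j _ => h2 j), ← Finset.sum_mul, al]

/-- INTEGRALITY of the polynomials of a window.  PROOF: over `ℤ[X]` let
`Mx = (mm f a).map C + X • 1`, `A = adjugate Mx`, `B = A * A`,
`P = ∑ j, (C (c j) + X * C (e j)) * B j 0`,
`Q = ∑ j, (C (c j) + X * C (e j)) * ((comp f d).map C * B) j 0`.
Over `ℂ[X]` with `V = (vandermonde θ).map C`: `V * (comp f d) = diagonal θ * V` (last column:
`f(θ_σ) = 0`), hence `V * mm f a = diagonal (al θ a) * V`, `V * Mx = diagonal (X + C (al θ a σ)) * V`,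
`det Mx = ∏ (X + C (al θ a ρ))`; multiply `V * Mx = Dg * V` by `A` on the right:
`V * det Mx = Dg * V * A`, cancel `X + C (al θ a σ) ≠ 0` in row `σ`:
`V * A = diagonal (∏_(ρ ≠ σ) (X + C (al θ a ρ))) * V`; so `V * B = diagonal (..^2) * V`,
`B = W * diagonal (..^2) * V` and `V σ 0 = 1`. -/
theorem exists_PQ {f : ℤ[X]} {d : ℕ} [NeZero d] {θ : Fin d → ℂ} (h : Rts f d θ)
    (a c e : Fin d → ℤ) : ∃ P Q : ℤ[X],
      P.map (Int.castRingHom ℂ) = ∑ σ, (∑ j, (C (c j : ℂ) + X * C (e j : ℂ)) * C (W θ j σ))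
        * (∏ ρ ∈ Finset.univ.erase σ, (X + C (al θ a ρ))) ^ 2 ∧
      Q.map (Int.castRingHom ℂ) = ∑ σ, C (θ σ)
        * ((∑ j, (C (c j : ℂ) + X * C (e j : ℂ)) * C (W θ j σ))
        * (∏ ρ ∈ Finset.univ.erase σ, (X + C (al θ a ρ))) ^ 2) := by
  let Mx : Matrix (Fin d) (Fin d) ℤ[X] := (mm f a).map (C : ℤ →+* ℤ[X]) + (X : ℤ[X]) • 1
  let A : Matrix (Fin d) (Fin d) ℤ[X] := Mx.adjugate
  let B : Matrix (Fin d) (Fin d) ℤ[X] := A * A
  let Φ : ℤ[X] →+* ℂ[X] := Polynomial.mapRingHom (Int.castRingHom ℂ)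
  let V : Matrix (Fin d) (Fin d) ℂ[X] := (Matrix.vandermonde θ).map (C : ℂ →+* ℂ[X])
  let Wc : Matrix (Fin d) (Fin d) ℂ[X] := (W θ).map (C : ℂ →+* ℂ[X])
  let M' : Matrix (Fin d) (Fin d) ℂ[X] := Mx.map Φ
  let A' : Matrix (Fin d) (Fin d) ℂ[X] := A.map Φ
  let B' : Matrix (Fin d) (Fin d) ℂ[X] := B.map Φ
  let E : Fin d → ℂ[X] := fun σ => ∏ ρ ∈ Finset.univ.erase σ, (X + C (al θ a ρ))
  have hdet0 : (Matrix.vandermonde θ).det ≠ 0 := Matrix.det_vandermonde_ne_zero_iff.mpr h.inj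
  have hM' : M' = ((mm f a).map (Int.castRingHom ℂ)).map (C : ℂ →+* ℂ[X]) + (X : ℂ[X]) • 1 := by
    ext x y : 2
    by_cases hxy : x = y
    · subst hxy
      simp [M', Mx, Φ]
    · simp [M', Mx, Φ, hxy]
  have hVM : V * M' = Matrix.diagonal (fun σ => X + C (al θ a σ)) * V := by
    rw [hM', Matrix.mul_add]
    have h1 : V * ((mm f a).map (Int.castRingHom ℂ)).map (C : ℂ →+* ℂ[X])
        = (Matrix.diagonal (al θ a) * Matrix.vandermonde θ).map (C : ℂ →+* ℂ[X]) := by
      rw [← pq_mm h a, Matrix.map_mul]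
    rw [h1]
    refine Matrix.ext fun x y => ?_
    simp [V, Matrix.diagonal_mul]
    ring
  have hV0 : V.det ≠ 0 := by
    have h1 : V.det = C (Matrix.vandermonde θ).det := by
      rw [RingHom.map_det]
      rfl
    rw [h1]
    exact fun hh => hdet0 (by simpa using hh)
  have hdetM : M'.det = ∏ σ, (X + C (al θ a σ)) := by
    have h1 := congrArg Matrix.det hVM
    rw [Matrix.det_mul, Matrix.det_mul, Matrix.det_diagonal, mul_comm] at h1
    exact mul_right_cancel₀ hV0 h1
  have hA' : A' = M'.adjugate := by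
    have h1 := RingHom.map_adjugate Φ Mx
    exact h1
  have hVA : V * A' = Matrix.diagonal E * V := by
    have h1 : V * (M' * A') = M'.det • V := by
      rw [hA', Matrix.mul_adjugate, Matrix.mul_smul, Matrix.mul_one]
    rw [← Matrix.mul_assoc, hVM, Matrix.mul_assoc] at h1
    refine Matrix.ext fun σ k => ?_
    have h2 := congrFun (congrFun h1 σ) k
    rw [Matrix.diagonal_mul, Matrix.smul_apply, smul_eq_mul, hdetM,
      ← Finset.mul_prod_erase Finset.univ _ (Finset.mem_univ σ), mul_assoc] at h2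
    rw [Matrix.diagonal_mul]
    exact mul_left_cancel₀ (Polynomial.X_add_C_ne_zero _) h2
  have hB' : B' = A' * A' := by
    simp only [B', B, A']
    rw [Matrix.map_mul]
  have hVB : V * B' = Matrix.diagonal (fun σ => E σ ^ 2) * V := by
    rw [hB', ← Matrix.mul_assoc, hVA, Matrix.mul_assoc, hVA, ← Matrix.mul_assoc,
      Matrix.diagonal_mul_diagonal]
    simp [pow_two]
  have hWV : Wc * V = 1 := by
    have h1 : W θ * Matrix.vandermonde θ = 1 := by
      unfold W
      exact Matrix.nonsing_inv_mul _ (isUnit_iff_ne_zero.mpr hdet0)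
    simp only [Wc, V]
    rw [← Matrix.map_mul, h1]
    simp [Matrix.map_one]
  have hV1 : ∀ σ, V σ 0 = 1 := by
    intro σ
    simp [V, Matrix.vandermonde_apply]
  have hBj : ∀ j, B' j 0 = ∑ σ, C (W θ j σ) * E σ ^ 2 := by
    intro j
    have h1 : B' = Wc * (V * B') := by rw [← Matrix.mul_assoc, hWV, Matrix.one_mul]
    rw [h1, hVB, Matrix.mul_apply]
    refine Finset.sum_congr rfl (fun σ _ => ?_)
    rw [Matrix.diagonal_mul, hV1, mul_one]
    rfl
  let cp : Matrix (Fin d) (Fin d) ℂ[X] := ((comp f d).map (Int.castRingHom ℂ)).map (C : ℂ →+* ℂ[X])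
  have hVc : V * cp = Matrix.diagonal (fun σ => C (θ σ)) * V := by
    have h1 : V * cp = (Matrix.vandermonde θ * (comp f d).map (Int.castRingHom ℂ)).map
        (C : ℂ →+* ℂ[X]) := by
      rw [Matrix.map_mul]
    rw [h1, pq_comp h]
    ext x y : 2
    simp [V, Matrix.diagonal_mul]
  have hCj : ∀ j, (cp * B') j 0 = ∑ σ, C (W θ j σ) * (C (θ σ) * E σ ^ 2) := by
    intro j
    have h1 : cp * B' = Wc * (V * (cp * B')) := by rw [← Matrix.mul_assoc, hWV, Matrix.one_mul]
    rw [h1, ← Matrix.mul_assoc V, hVc, Matrix.mul_assoc, hVB, ← Matrix.mul_assoc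
      (Matrix.diagonal _), Matrix.diagonal_mul_diagonal, Matrix.mul_apply]
    refine Finset.sum_congr rfl (fun σ _ => ?_)
    rw [Matrix.diagonal_mul, hV1, mul_one]
    rfl
  refine ⟨∑ j, (C (c j) + X * C (e j)) * B j 0,
    ∑ j, (C (c j) + X * C (e j)) * ((comp f d).map (C : ℤ →+* ℤ[X]) * B) j 0, ?_, ?_⟩
  · rw [Polynomial.map_sum]
    have h1 : ∀ j : Fin d, ((C (c j) + X * C (e j)) * B j 0).map (Int.castRingHom ℂ)
        = ∑ σ, (C (c j : ℂ) + X * C (e j : ℂ)) * C (W θ j σ) * E σ ^ 2 := by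
      intro j
      have h2 : (B j 0).map (Int.castRingHom ℂ) = B' j 0 := rfl
      rw [Polynomial.map_mul, h2, hBj, Finset.mul_sum]
      refine Finset.sum_congr rfl (fun σ _ => ?_)
      simp [mul_assoc]
    rw [Finset.sum_congr rfl (fun j _ => h1 j), Finset.sum_comm]
    refine Finset.sum_congr rfl (fun σ _ => ?_)
    rw [Finset.sum_mul]
  · rw [Polynomial.map_sum]
    have h1 : ∀ j : Fin d, ((C (c j) + X * C (e j))
        * ((comp f d).map (C : ℤ →+* ℤ[X]) * B) j 0).map (Int.castRingHom ℂ)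
        = ∑ σ, C (θ σ) * ((C (c j : ℂ) + X * C (e j : ℂ)) * C (W θ j σ) * E σ ^ 2) := by
      intro j
      have h2 : (((comp f d).map (C : ℤ →+* ℤ[X]) * B) j 0).map (Int.castRingHom ℂ)
          = (cp * B') j 0 := by
        have h3 : ((comp f d).map (C : ℤ →+* ℤ[X]) * B).map Φ = cp * B' := by
          rw [Matrix.map_mul]
          congr 1
          ext x y : 2
          simp [cp, Φ]
        exact congrFun (congrFun h3 j) 0
      rw [Polynomial.map_mul, h2, hCj, Finset.mul_sum]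
      refine Finset.sum_congr rfl (fun σ _ => ?_)
      simp only [Polynomial.map_add, Polynomial.map_mul, Polynomial.map_C, Polynomial.map_X]
      simp only [eq_intCast (Int.castRingHom ℂ)]
      ring
    rw [Finset.sum_congr rfl (fun j _ => h1 j), Finset.sum_comm]
    refine Finset.sum_congr rfl (fun σ _ => ?_)
    rw [Finset.sum_mul, Finset.mul_sum]

end

end Pool.Agent.Lib.Sqf4
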