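import Pool.Agent.Lib.Sqf4.Win2
import Pool.Agent.Lib.Sqf4.PQ
import Pool.Agent.Lib.Sqf4.Int

set_option autoImplicit false

/-!
Window, part 3: the polynomials `P`, `Q` of a window (complex side).
-/

namespace Pool.Agent.Lib.Sqf4

open Polynomial Matrix

noncomputable section

variable {d : ℕ}

/-- `∏_(ρ ≠ σ) (X + z_ρ)^2` -/
def Pi2 (z : Fin d → ℂ) (σ : Fin d) : ℂ[X] := (∏ ρ ∈ Finset.univ.erase σ, (X + C (z ρ))) ^ 2

/-- `∑_j (c_j + X e_j) W_(jσ)` -/
def gg (θ : Fin d → ℂ) (c e : Fin d → ℤ) (σ : Fin d) : ℂ[X] :=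
  ∑ j, (C (c j : ℂ) + X * C (e j : ℂ)) * C (W θ j σ)

lemma dvd_Pi2 (z : Fin d → ℂ) {σ τ : Fin d} (h : τ ≠ σ) : (X + C (z σ)) ^ 2 ∣ Pi2 z τ := by
  unfold Pi2
  apply pow_dvd_pow_of_dvd
  exact Finset.dvd_prod_of_mem _ (Finset.mem_erase.mpr ⟨h.symm, Finset.mem_univ _⟩)

lemma cop_lin {a b : ℂ} (h : a ≠ b) : IsCoprime (X + C a : ℂ[X]) (X + C b) := by
  have h1 : a - b ≠ 0 := sub_ne_zero.mpr h
  refine ⟨C (a - b)⁻¹, - C (a - b)⁻¹, ?_⟩
  have : C (a - b)⁻¹ * (X + C a) + - C (a - b)⁻¹ * (X + C b) = C ((a - b)⁻¹ * (a - b)) := by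
    rw [C_mul, C_sub]
    ring
  rw [this, inv_mul_cancel₀ h1, C_1]

lemma cop_Pi2 {z : Fin d → ℂ} (hz : Function.Injective z) (σ : Fin d) :
    IsCoprime ((X + C (z σ)) ^ 2) (Pi2 z σ) := by
  unfold Pi2
  apply IsCoprime.pow
  apply IsCoprime.prod_right
  intro ρ hρ
  rw [Finset.mem_erase] at hρ
  exact cop_lin (fun h => hρ.1 (hz h).symm)

lemma natDegree_gg (θ : Fin d → ℂ) (c e : Fin d → ℤ) (σ : Fin d) : (gg θ c e σ).natDegree ≤ 1 := by
  unfold gg
  apply Polynomial.natDegree_sum_le_of_forall_le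
  intro j _
  refine (natDegree_mul_C_le _ _).trans ?_
  refine (natDegree_add_le _ _).trans ?_
  apply max_le
  · simp
  · refine (natDegree_mul_C_le _ _).trans ?_
    exact natDegree_X_le

lemma natDegree_Pi2 (z : Fin d → ℂ) (σ : Fin d) : (Pi2 z σ).natDegree ≤ 2 * (d - 1) := by
  unfold Pi2
  refine natDegree_pow_le.trans ?_
  apply Nat.mul_le_mul_left
  refine (natDegree_prod_le _ _).trans ?_
  have h1 : ∀ ρ ∈ Finset.univ.erase σ, (X + C (z ρ) : ℂ[X]).natDegree ≤ 1 := by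
    intro ρ _
    rw [natDegree_X_add_C]
  refine (Finset.sum_le_sum h1).trans ?_
  rw [Finset.sum_const, Finset.card_erase_of_mem (Finset.mem_univ _), Finset.card_univ,
    Fintype.card_fin]
  simp

lemma PQ_natDegree {θ : Fin d → ℂ} (hd : 0 < d) (c e : Fin d → ℤ) (z : Fin d → ℂ) (w : Fin d → ℂ) :
    (∑ σ, C (w σ) * (gg θ c e σ * Pi2 z σ)).natDegree ≤ 2 * d - 1 := by
  apply Polynomial.natDegree_sum_le_of_forall_le
  intro σ _
  refine (natDegree_C_mul_le _ _).trans ?_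
  refine natDegree_mul_le.trans ?_
  have h1 := natDegree_gg θ c e σ
  have h2 := natDegree_Pi2 z σ
  omega

/-- `P ≠ 0` -/
lemma P_ne_zero {θ : Fin d → ℂ} (hθ : Function.Injective θ) {z : Fin d → ℂ}
    (hz : Function.Injective z) (c e : Fin d → ℤ) (h : c ≠ 0 ∨ e ≠ 0) :
    ∑ σ, gg θ c e σ * Pi2 z σ ≠ 0 := by
  classical
  intro h0
  have hg : ∀ σ, gg θ c e σ = 0 := by
    intro σ
    have h1 : (X + C (z σ)) ^ 2 ∣ gg θ c e σ * Pi2 z σ := by
      have h2 : gg θ c e σ * Pi2 z σ = - ∑ τ ∈ Finset.univ.erase σ, gg θ c e τ * Pi2 z τ := by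
        rw [← Finset.add_sum_erase _ _ (Finset.mem_univ σ)] at h0
        linear_combination h0
      rw [h2]
      apply (dvd_neg).mpr
      apply Finset.dvd_sum
      intro τ hτ
      rw [Finset.mem_erase] at hτ
      exact Dvd.dvd.mul_left (dvd_Pi2 z hτ.1) _
    have h3 : (X + C (z σ)) ^ 2 ∣ gg θ c e σ := (cop_Pi2 hz σ).dvd_of_dvd_mul_right h1
    by_contra hne
    have h4 := Polynomial.natDegree_le_of_dvd h3 hne
    rw [natDegree_pow, natDegree_X_add_C] at h4
    have := natDegree_gg θ c e σ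
    omega
  have hc : ∀ σ, ∑ j, (c j : ℂ) * W θ j σ = 0 := by
    intro σ
    have h1 := congrArg (fun p => Polynomial.coeff p 0) (hg σ)
    simp only [gg, Polynomial.finsetSum_coeff, coeff_mul_C, coeff_add, coeff_C_zero, coeff_zero] at h1
    rw [← h1]
    apply Finset.sum_congr rfl
    intro j _
    simp
  have he : ∀ σ, ∑ j, (e j : ℂ) * W θ j σ = 0 := by
    intro σ
    have h1 := congrArg (fun p => Polynomial.coeff p 1) (hg σ)
    simp only [gg, Polynomial.finsetSum_coeff, coeff_mul_C, coeff_add, coeff_zero] at h1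
    rw [← h1]
    apply Finset.sum_congr rfl
    intro j _
    have h8 : (C (c j : ℂ)).coeff 1 = 0 := by rw [coeff_C, if_neg (by norm_num)]
    rw [h8, zero_add, coeff_X_one, one_mul]
  have key : ∀ v : Fin d → ℤ, (∀ σ, ∑ j, (v j : ℂ) * W θ j σ = 0) → v = 0 := by
    intro v hv
    have h1 : Matrix.vecMul (fun j => (v j : ℂ)) (W θ) = 0 := by
      ext σ
      simpa [Matrix.vecMul, dotProduct] using hv σ
    have h2 : Matrix.vecMul (Matrix.vecMul (fun j => (v j : ℂ)) (W θ)) (Matrix.vandermonde θ)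
        = fun j => (v j : ℂ) := by
      rw [Matrix.vecMul_vecMul, W_mul hθ, Matrix.vecMul_one]
    rw [h1, Matrix.zero_vecMul] at h2
    ext j
    have := congrFun h2 j
    simp only [Pi.zero_apply] at this
    exact_mod_cast this.symm
  rcases h with h | h
  · exact h (key c hc)
  · exact h (key e he)

/-- sum of root multiplicities -/
lemma sum_mult_le {z : Fin d → ℂ} (hz : Function.Injective z) (P : ℂ[X]) :
    ∑ σ, P.rootMultiplicity (-z σ) ≤ P.natDegree := by
  classical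
  have h1 : ∑ σ, P.rootMultiplicity (-z σ) = ∑ x ∈ Finset.univ.image (fun σ => -z σ), P.roots.count x := by
    rw [Finset.sum_image]
    · apply Finset.sum_congr rfl
      intro σ _
      rw [count_roots]
    · intro a _ b _ hab
      exact hz (neg_injective hab)
  rw [h1]
  calc ∑ x ∈ Finset.univ.image (fun σ => -z σ), P.roots.count x
      ≤ ∑ x ∈ Finset.univ.image (fun σ => -z σ) ∪ P.roots.toFinset, P.roots.count x :=
        Finset.sum_le_sum_of_subset Finset.subset_union_left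
    _ = Multiset.card P.roots := by
        apply Multiset.sum_count_eq_card
        intro a ha
        exact Finset.mem_union_right _ (Multiset.mem_toFinset.mpr ha)
    _ ≤ P.natDegree := Polynomial.card_roots' P

/-- the interpolation step: if `Q = P Z` then `Z` is bounded -/
lemma Z_bound {θ : Fin d → ℂ} (hd : 0 < d) {z : Fin d → ℂ}
    (c e : Fin d → ℤ) (P Q Z : ℂ[X])
    (hP : P = ∑ σ, gg θ c e σ * Pi2 z σ)
    (hQ : Q = ∑ σ, C (θ σ) * (gg θ c e σ * Pi2 z σ))
    (hP0 : P ≠ 0) (hZ : Q = P * Z) (D R Θ : ℝ) (hD : 0 < D) (hR : 0 ≤ R) (hΘ : ∀ σ, ‖θ σ‖ ≤ Θ)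
    (hΘ0 : 0 ≤ Θ)
    (hsep : ∀ σ ρ, σ ≠ ρ → D ≤ ‖z σ - z ρ‖) (s : ℂ) (hs : ∀ σ, ‖s + z σ‖ ≤ R) :
    ‖Z.eval s‖ ≤ Θ * (1 + 3 * R / D) ^ (2 * d) := by
  classical
  have hz : Function.Injective z := by
    intro σ ρ h
    by_contra hne
    have := hsep σ ρ hne
    rw [h, sub_self, norm_zero] at this
    linarith
  set m : Fin d → ℕ := fun σ => 2 - P.rootMultiplicity (-z σ) with hm
  have hdvd : ∀ σ, (X + C (z σ)) ^ 2 ∣ P * (Z - C (θ σ)) := by
    intro σ
    have h1 : P * (Z - C (θ σ)) = ∑ τ ∈ Finset.univ.erase σ, (C (θ τ) - C (θ σ)) * (gg θ c e τ * Pi2 z τ) := by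
      have h2 : P * (Z - C (θ σ)) = ∑ τ, (C (θ τ) - C (θ σ)) * (gg θ c e τ * Pi2 z τ) := by
        rw [mul_sub, ← hZ, hQ, hP, Finset.sum_mul, ← Finset.sum_sub_distrib]
        apply Finset.sum_congr rfl
        intro τ _
        ring
      rw [h2, ← Finset.add_sum_erase _ _ (Finset.mem_univ σ), sub_self, zero_mul, zero_add]
    rw [h1]
    apply Finset.dvd_sum
    intro τ hτ
    rw [Finset.mem_erase] at hτ
    exact Dvd.dvd.mul_left (Dvd.dvd.mul_left (dvd_Pi2 z hτ.1) _) _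
  have hXz : ∀ σ, (X + C (z σ) : ℂ[X]) = X - C (-z σ) := by
    intro σ
    rw [C_neg, sub_neg_eq_add]
  have hdvd2 : ∀ σ, (X + C (z σ)) ^ (m σ) ∣ Z - C (θ σ) := by
    intro σ
    obtain ⟨P', hP', hnd⟩ := exists_eq_pow_rootMultiplicity_mul_and_not_dvd P hP0 (-z σ)
    set e := P.rootMultiplicity (-z σ) with he
    by_cases h2 : 2 ≤ e
    · have : m σ = 0 := by
        rw [hm]
        simp only
        omega
      rw [this, pow_zero]
      exact one_dvd _
    · push Not at h2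
      have h3 := hdvd σ
      rw [hXz σ] at h3 ⊢
      have h4 : (X - C (-z σ)) ^ e * (X - C (-z σ)) ^ (m σ) ∣ (X - C (-z σ)) ^ e * (P' * (Z - C (θ σ))) := by
        rw [← pow_add]
        have h5 : e + m σ = 2 := by
          rw [hm]
          simp only
          omega
        rw [h5, ← mul_assoc, ← hP']
        exact h3
      have h6 : (X - C (-z σ)) ^ e ≠ 0 := pow_ne_zero _ (X_sub_C_ne_zero _)
      have h7 := (mul_dvd_mul_iff_left h6).mp h4
      exact (prime_X_sub_C (-z σ)).pow_dvd_of_dvd_mul_left _ hnd h7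
  have hval : ∀ σ, 1 ≤ m σ → Z.eval (-z σ) = θ σ := by
    intro σ h1
    have h2 : (X + C (z σ)) ∣ Z - C (θ σ) := (dvd_pow_self _ (by omega)).trans (hdvd2 σ)
    obtain ⟨U, hU⟩ := h2
    have h3 := congrArg (Polynomial.eval (-z σ)) hU
    rw [eval_sub, eval_C, eval_mul, eval_add, eval_X, eval_C, neg_add_cancel, zero_mul] at h3
    exact sub_eq_zero.mp h3
  have hder : ∀ σ, 2 ≤ m σ → Z.derivative.eval (-z σ) = 0 := by
    intro σ h1
    have h2 : (X + C (z σ)) ^ 2 ∣ Z - C (θ σ) := (pow_dvd_pow _ h1).trans (hdvd2 σ)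
    obtain ⟨U, hU⟩ := h2
    have h3 := congrArg (fun p => Polynomial.eval (-z σ) (Polynomial.derivative p)) hU
    simp only [derivative_sub, derivative_C, sub_zero, derivative_mul, derivative_pow, derivative_add,
      derivative_X, eval_add, eval_mul, eval_pow, eval_X, eval_C, neg_add_cancel] at h3
    rw [h3]
    simp
  have hdeg : Z.degree < ((∑ σ, m σ : ℕ) : WithBot ℕ) := by
    by_cases hZ0 : Z = 0
    · rw [hZ0, degree_zero]
      exact WithBot.bot_lt_coe _
    · rw [degree_eq_natDegree hZ0]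
      have h1 : Q.natDegree = P.natDegree + Z.natDegree := by
        rw [hZ, natDegree_mul hP0 hZ0]
      have h2 : Q.natDegree ≤ 2 * d - 1 := by
        rw [hQ]
        exact PQ_natDegree hd c e z θ
      have h3 := sum_mult_le hz P
      have h4 : 2 * d ≤ ∑ σ, m σ + ∑ σ, P.rootMultiplicity (-z σ) := by
        rw [← Finset.sum_add_distrib]
        have h5 : ∀ σ ∈ (Finset.univ : Finset (Fin d)), 2 ≤ m σ + P.rootMultiplicity (-z σ) := by
          intro σ _
          rw [hm]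
          simp only
          omega
        have h6 := Finset.sum_le_sum h5
        rw [Finset.sum_const, Finset.card_univ, Fintype.card_fin] at h6
        have h7 : d • 2 = 2 * d := by rw [smul_eq_mul]; ring
        omega
      have h8 : Z.natDegree < ∑ σ, m σ := by omega
      exact_mod_cast h8
  have hb := int_bd (fun σ => -z σ) D R hD hR
    (by
      intro σ ρ h
      have h1 := hsep σ ρ h
      have h2 : ‖-z σ - -z ρ‖ = ‖z σ - z ρ‖ := by
        rw [← norm_neg]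
        congr 1
        ring
      rw [h2]
      exact h1) s (by
      intro σ
      have := hs σ
      rwa [sub_neg_eq_add]) m (by
      intro σ
      rw [hm]
      simp only
      omega) Θ hΘ0 Z hdeg (by
      intro σ h1
      rw [hval σ h1]
      exact hΘ σ) (by
      intro σ h1
      rw [hder σ h1, norm_zero]
      positivity)
  refine hb.trans ?_
  apply mul_le_mul_of_nonneg_left _ hΘ0
  apply pow_le_pow_right₀
  · have : 0 ≤ 3 * R / D := by positivity
    linarith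
  · have h1 : ∀ σ ∈ (Finset.univ : Finset (Fin d)), m σ ≤ 2 := by
      intro σ _
      rw [hm]
      simp only
      omega
    have h2 := Finset.sum_le_sum h1
    rw [Finset.sum_const, Finset.card_univ, Fintype.card_fin, smul_eq_mul] at h2
    omega

lemma lin_coeff {p : ℂ[X]} {M Zb : ℝ} {w : ℂ} (hM : ∀ i, ‖p.coeff i‖ ≤ M) (hw : ‖w‖ ≤ Zb) (i : ℕ) :
    ‖((X + C w) * p).coeff i‖ ≤ (1 + Zb) * M := by
  have hM0 : 0 ≤ M := (norm_nonneg _).trans (hM 0)
  rw [add_mul, coeff_add, coeff_C_mul]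
  refine (norm_add_le _ _).trans ?_
  have h1 : ‖(X * p).coeff i‖ ≤ M := by
    rcases i with _ | i
    · rw [coeff_X_mul_zero, norm_zero]
      exact hM0
    · rw [coeff_X_mul]
      exact hM i
  have h2 : ‖w * p.coeff i‖ ≤ Zb * M := by
    rw [norm_mul]
    exact mul_le_mul hw (hM i) (norm_nonneg _) ((norm_nonneg _).trans hw)
  linarith

lemma prod_coeff {p : ℂ[X]} {M Zb : ℝ} {z : Fin d → ℂ} (hM : ∀ i, ‖p.coeff i‖ ≤ M)
    (hz : ∀ σ, ‖z σ‖ ≤ Zb) (s : Finset (Fin d)) :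
    ∀ i, ‖((∏ ρ ∈ s, (X + C (z ρ))) * p).coeff i‖ ≤ (1 + Zb) ^ s.card * M := by
  classical
  induction s using Finset.induction_on with
  | empty => simpa using hM
  | insert a s ha ih =>
    intro i
    rw [Finset.prod_insert ha, Finset.card_insert_of_notMem ha, mul_assoc, pow_succ', mul_assoc]
    exact lin_coeff ih (hz a) i

/-- the coefficients of `∑ w_σ g_σ ∏ (X + z_ρ)^2` -/
lemma PQ_coeff {θ : Fin d → ℂ} (c e : Fin d → ℤ) (z w : Fin d → ℂ) (G Wb Zb Θ : ℝ)
    (hG : 0 ≤ G) (hW0 : 0 ≤ Wb) (hZ0 : 0 ≤ Zb) (hΘ0 : 0 ≤ Θ)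
    (hc : ∀ j, |(c j : ℝ)| ≤ G) (he : ∀ j, |(e j : ℝ)| ≤ G)
    (hW : ∀ j σ, ‖W θ j σ‖ ≤ Wb) (hz : ∀ σ, ‖z σ‖ ≤ Zb) (hw : ∀ σ, ‖w σ‖ ≤ Θ) (i : ℕ) :
    ‖(∑ σ, C (w σ) * (gg θ c e σ * Pi2 z σ)).coeff i‖
      ≤ d * (Θ * ((1 + Zb) ^ (2 * d) * (d * (2 * G * Wb)))) := by
  classical
  have hgg : ∀ σ i, ‖(gg θ c e σ).coeff i‖ ≤ d * (2 * G * Wb) := by
    intro σ i
    unfold gg
    rw [finsetSum_coeff]
    refine (norm_sum_le _ _).trans ?_
    have h1 : ∀ j ∈ (Finset.univ : Finset (Fin d)),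
        ‖((C (c j : ℂ) + X * C (e j : ℂ)) * C (W θ j σ)).coeff i‖ ≤ 2 * G * Wb := by
      intro j _
      rw [coeff_mul_C, norm_mul]
      apply mul_le_mul _ (hW j σ) (norm_nonneg _) (by positivity)
      rw [coeff_add]
      refine (norm_add_le _ _).trans ?_
      have h2 : ‖(C (c j : ℂ)).coeff i‖ ≤ G := by
        rw [coeff_C]
        split_ifs
        · rw [Complex.norm_intCast]; exact hc j
        · rw [norm_zero]; exact hG
      have h3 : ‖(X * C (e j : ℂ)).coeff i‖ ≤ G := by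
        rw [mul_comm, coeff_C_mul, coeff_X]
        split_ifs
        · rw [mul_one, Complex.norm_intCast]; exact he j
        · rw [mul_zero, norm_zero]; exact hG
      linarith
    refine (Finset.sum_le_sum h1).trans ?_
    rw [Finset.sum_const, Finset.card_univ, Fintype.card_fin, nsmul_eq_mul]
  rw [finsetSum_coeff]
  refine (norm_sum_le _ _).trans ?_
  have h1 : ∀ σ ∈ (Finset.univ : Finset (Fin d)), ‖(C (w σ) * (gg θ c e σ * Pi2 z σ)).coeff i‖
      ≤ Θ * ((1 + Zb) ^ (2 * d) * (d * (2 * G * Wb))) := by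
    intro σ _
    rw [coeff_C_mul, norm_mul]
    apply mul_le_mul (hw σ) _ (norm_nonneg _) hΘ0
    have h2 : gg θ c e σ * Pi2 z σ = (∏ ρ ∈ Finset.univ.erase σ, (X + C (z ρ))) *
        ((∏ ρ ∈ Finset.univ.erase σ, (X + C (z ρ))) * gg θ c e σ) := by
      unfold Pi2
      ring
    rw [h2]
    refine (prod_coeff (prod_coeff (hgg σ) hz _) hz _ i).trans ?_
    rw [← mul_assoc, ← pow_add]
    apply mul_le_mul_of_nonneg_right _ (by positivity)
    apply pow_le_pow_right₀ (by linarith)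
    have := Finset.card_le_univ (Finset.univ.erase σ)
    rw [Fintype.card_fin] at this
    omega
  refine (Finset.sum_le_sum h1).trans ?_
  rw [Finset.sum_const, Finset.card_univ, Fintype.card_fin, nsmul_eq_mul]

/-- `n P(s) = Q(s)` at a solution satisfying the relation -/
lemma PQ_eval [NeZero d] {θ : Fin d → ℂ} (hθ : Function.Injective θ) {a c e β : Fin d → ℤ}
    {p : ℕ} {n s : ℤ} (hsol : Sol θ p n (a + Pi.single 0 s) β)
    (hrel : ∑ j, (c j + s * e j) * β j = 0) :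
    (n : ℂ) * (∑ σ, gg θ c e σ * Pi2 (al θ a) σ).eval (s : ℂ)
      = (∑ σ, C (θ σ) * (gg θ c e σ * Pi2 (al θ a) σ)).eval (s : ℂ) := by
  classical
  have h1 : (n : ℂ) * (∑ σ, gg θ c e σ * Pi2 (al θ a) σ).eval (s : ℂ)
      - (∑ σ, C (θ σ) * (gg θ c e σ * Pi2 (al θ a) σ)).eval (s : ℂ)
      = ∑ σ, (∑ j, ((c j : ℂ) + s * e j) * W θ j σ) * ((p : ℂ) ^ 2 * al θ β σ) := by
    rw [eval_finsetSum, eval_finsetSum, Finset.mul_sum, ← Finset.sum_sub_distrib]
    apply Finset.sum_congr rfl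
    intro σ _
    have h2 := hsol σ
    simp only [al_add_single] at h2
    rw [h2]
    have h3 : (gg θ c e σ).eval (s : ℂ) = ∑ j, ((c j : ℂ) + s * e j) * W θ j σ := by
      unfold gg
      rw [eval_finsetSum]
      apply Finset.sum_congr rfl
      intro j _
      simp
    have h4 : (Pi2 (al θ a) σ).eval (s : ℂ)
        = (∏ ρ ∈ Finset.univ.erase σ, ((s : ℂ) + al θ a ρ)) ^ 2 := by
      unfold Pi2
      rw [eval_pow, eval_prod]
      congr 1
      apply Finset.prod_congr rfl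
      intro ρ _
      simp
    have h8 : (C (θ σ) * (gg θ c e σ * Pi2 (al θ a) σ)).eval (s : ℂ)
        = θ σ * ((gg θ c e σ).eval (s : ℂ) * (Pi2 (al θ a) σ).eval (s : ℂ)) := by
      rw [eval_mul, eval_mul, eval_C]
    rw [h8, eval_mul, h3, h4]
    ring
  have h5 : ∑ σ, (∑ j, ((c j : ℂ) + s * e j) * W θ j σ) * ((p : ℂ) ^ 2 * al θ β σ)
      = (p : ℂ) ^ 2 * ∑ j, ((c j : ℂ) + s * e j) * (β j : ℂ) := by
    have h6 : ∀ j, (β j : ℂ) = ∑ σ, W θ j σ * al θ β σ := W_al hθ β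
    simp only [h6, Finset.mul_sum, Finset.sum_mul]
    rw [Finset.sum_comm]
    apply Finset.sum_congr rfl
    intro j _
    apply Finset.sum_congr rfl
    intro σ _
    ring
  have h7 : ∑ j, ((c j : ℂ) + s * e j) * (β j : ℂ) = 0 := by
    have : ((∑ j, (c j + s * e j) * β j : ℤ) : ℂ) = 0 := by rw [hrel]; simp
    push_cast at this
    exact this
  rw [h5, h7, mul_zero] at h1
  exact sub_eq_zero.mp h1

end

end Pool.Agent.Lib.Sqf4
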