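import Pool.Agent.Lib.Sqf4.DetN
import Pool.Agent.Lib.Sqf4.Win3
import Pool.Agent.Lib.Sqf4.Herm
import Pool.Agent.Lib.Sqf4.Curve
import Pool.Agent.Lib.Sqf4.Div

set_option autoImplicit false

/-!
Window for all degrees, part 1: the determinant bound with arbitrary columns `s^e β_j`.
-/

namespace Pool.Agent.Lib.Sqf4

open Polynomial Matrix

noncomputable section

variable {d : ℕ}

/-- the bound of a determinant with columns `s^(e c) β_(jc c)`, `N` columns, `E = ∑ e c` -/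
def detB (d N E : ℕ) (C X P H τ : ℝ) : ℝ :=
  (X * H ^ (2 * (d - 1)) / P ^ 2) ^ N * H ^ E *
    (C * ∑ k ∈ Finset.range (N + 1), (1 / X) ^ k * τ ^ (k * (k - 1) / 2 + (N - k) * (N - k - 1) / 2))

theorem detB_mono {d N E : ℕ} {C C' X P H τ : ℝ} (hX : 0 < X) (hP : 0 < P) (hH : 0 < H) (hτ : 0 < τ)
    (h : C ≤ C') : detB d N E C X P H τ ≤ detB d N E C' X P H τ := by
  unfold detB
  have : 0 ≤ ∑ k ∈ Finset.range (N + 1), (1 / X) ^ k *
      τ ^ (k * (k - 1) / 2 + (N - k) * (N - k - 1) / 2) :=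
    Finset.sum_nonneg fun k _ => by positivity
  gcongr

/-- the determinant of `N` solutions of one window, arbitrary columns -/
theorem det_windowN [NeZero d] {ι : Type} [Fintype ι] [DecidableEq ι] {θ : Fin d → ℂ}
    (hθ : Function.Injective θ) (C0 : ℝ) (hC0 : 1 ≤ C0) (e : ι → ℕ) (jc : ι → Fin d) :
    ∃ C : ℝ, 1 ≤ C ∧ ∀ (X P H τ : ℝ), 1 ≤ X → 1 ≤ H → 0 < P →
      0 < τ → τ ≤ 1 →
      ∀ a : Fin d → ℤ, (∀ σ, ‖al θ a σ‖ ≤ C0 * H) →
      ∀ (s n : ι → ℤ) (p : ι → ℕ) (β : ι → (Fin d → ℤ)),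
        (∀ i, |(s i : ℝ)| ≤ τ * H) → (∀ i, |(n i : ℝ)| ≤ X) → (∀ i, P < p i) →
        (∀ i, Sol θ (p i) (n i) (a + Pi.single 0 (s i)) (β i)) →
        |((Matrix.det (Matrix.of fun i c => s i ^ e c * β i (jc c)) : ℤ) : ℝ)|
          ≤ detB d (Fintype.card ι) (∑ c, e c) C X P H τ := by
  classical
  obtain ⟨C1, hC1, hdet⟩ := det_bdN (W θ) θ C0 hC0 e jc
  refine ⟨C1, hC1, ?_⟩
  intro X P H τ hX hH hP hτ0 hτ1 a hz s n p β hs hn hp hsol
  have hX0 : (0 : ℝ) < X := by linarith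
  have hH0 : (0 : ℝ) < H := by linarith
  set A : Matrix ι ι ℤ := Matrix.of fun i c => s i ^ e c * β i (jc c) with hA
  set x : ι → ℝ := fun i => (s i : ℝ) / H with hx
  set y : ι → ℝ := fun i => (n i : ℝ) / X with hy
  set z : Fin d → ℂ := fun ρ => al θ a ρ / (H : ℂ) with hzd
  set B : Matrix ι ι ℂ := Matrix.of fun i c : ι => (x i : ℂ) ^ (e c) *
          ∑ σ, W θ (jc c) σ * ((y i : ℂ) - ((1 / X : ℝ) : ℂ) * θ σ)
            * (∏ ρ ∈ Finset.univ.erase σ, ((x i : ℂ) + z ρ)) ^ 2 with hB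
  have hBbd := hdet z (by
      intro ρ
      rw [hzd]
      simp only [norm_div, Complex.norm_real, Real.norm_eq_abs, abs_of_pos hH0]
      rw [div_le_iff₀ hH0]
      exact hz ρ) (1 / X) τ (by positivity) hτ0.le hτ1 x y
    (by
      intro i
      rw [hx]
      simp only [abs_div, abs_of_pos hH0]
      rw [div_le_iff₀ hH0]
      exact hs i)
    (by
      intro i
      rw [hy]
      simp only [abs_div, abs_of_pos hX0]
      rw [div_le_one hX0]
      exact hn i)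
  rw [← hB] at hBbd
  set r : ι → ℂ := fun i => ((p i : ℂ) ^ 2)⁻¹ * ((X : ℂ) * (H : ℂ) ^ (2 * (d - 1))) with hr
  set c : ι → ℂ := fun j => (H : ℂ) ^ e j with hc
  have hHc : (H : ℂ) ≠ 0 := by exact_mod_cast hH0.ne'
  have hXc : (X : ℂ) ≠ 0 := by exact_mod_cast hX0.ne'
  have hpp : ∀ i, 0 < p i := by
    intro i
    have : (0 : ℝ) < p i := hP.trans (hp i)
    exact_mod_cast this
  have hval : ∀ i j, (β i j : ℂ) = r i * ∑ σ, W θ j σ * ((y i : ℂ) - ((1 / X : ℝ) : ℂ) * θ σ)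
            * (∏ ρ ∈ Finset.univ.erase σ, ((x i : ℂ) + z ρ)) ^ 2 := by
    intro i j
    rw [sol_val hθ (hpp i) (hsol i) j, hr]
    simp only
    rw [mul_assoc]
    congr 1
    rw [Finset.mul_sum]
    apply Finset.sum_congr rfl
    intro σ _
    have h3 : ∏ ρ ∈ Finset.univ.erase σ, ((s i : ℂ) + al θ a ρ)
        = (H : ℂ) ^ (d - 1) * ∏ ρ ∈ Finset.univ.erase σ, ((x i : ℂ) + z ρ) := by
      have h4 : ∀ ρ ∈ Finset.univ.erase σ, ((s i : ℂ) + al θ a ρ) = (H : ℂ) * ((x i : ℂ) + z ρ) := by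
        intro ρ _
        rw [hx, hzd]
        push_cast
        field_simp
      rw [Finset.prod_congr rfl h4, Finset.prod_mul_distrib, Finset.prod_const,
        Finset.card_erase_of_mem (Finset.mem_univ _), Finset.card_univ, Fintype.card_fin]
    rw [h3]
    have h5 : ((n i : ℂ) - θ σ) = (X : ℂ) * ((y i : ℂ) - ((1 / X : ℝ) : ℂ) * θ σ) := by
      rw [hy]
      push_cast
      field_simp
    rw [h5, pow_mul]
    ring
  have hAB : A.map (Int.cast : ℤ → ℂ) = Matrix.of fun i j => r i * (Matrix.of (fun i j => c j * B i j)) i j := by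
    ext i j
    rw [Matrix.map_apply, Matrix.of_apply, Matrix.of_apply]
    rw [hA, hB, hc]
    simp only [Matrix.of_apply]
    have h6 : ((s i ^ e j * β i (jc j) : ℤ) : ℂ) = (s i : ℂ) ^ e j * (β i (jc j) : ℂ) := by push_cast; ring
    have h7 : ((s i : ℤ) : ℂ) = (H : ℂ) * (x i : ℂ) := by
      rw [hx]
      push_cast
      field_simp
    rw [h6, hval i (jc j), h7, mul_pow]
    ring
  have hdetA : ((A.det : ℤ) : ℂ) = (∏ i, r i) * ((∏ j, c j) * B.det) := by
    have h3 : ((A.det : ℤ) : ℂ) = (A.map (Int.cast : ℤ → ℂ)).det := by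
      have := (Int.castRingHom ℂ).map_det A
      simpa [RingHom.mapMatrix_apply] using this
    rw [h3, hAB, Matrix.det_mul_column, Matrix.det_mul_row]
  have hrn : ‖∏ i, r i‖ ≤ (X * H ^ (2 * (d - 1)) / P ^ 2) ^ (Fintype.card ι) := by
    rw [norm_prod]
    have h3 : ∀ i ∈ (Finset.univ : Finset ι), ‖r i‖ ≤ (X * H ^ (2 * (d - 1))) / P ^ 2 := by
      intro i _
      rw [hr]
      simp only [norm_mul, norm_inv, norm_pow, Complex.norm_real, Real.norm_eq_abs, Complex.norm_natCast,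
        abs_of_pos hX0, abs_of_pos hH0]
      rw [div_eq_inv_mul]
      apply mul_le_mul_of_nonneg_right _ (by positivity)
      apply inv_anti₀ (by positivity)
      exact pow_le_pow_left₀ hP.le (hp i).le 2
    refine (Finset.prod_le_prod (fun i _ => norm_nonneg _) h3).trans ?_
    rw [Finset.prod_const, Finset.card_univ]
  have hcn : ‖∏ j, c j‖ = H ^ (∑ j, e j) := by
    rw [hc, Finset.prod_pow_eq_pow_sum]
    simp [abs_of_pos hH0]
  have hnorm : ‖((A.det : ℤ) : ℂ)‖ = |((A.det : ℤ) : ℝ)| := by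
    rw [Complex.norm_intCast]
  rw [← hnorm, hdetA, norm_mul, norm_mul, hcn, detB]
  have h0 : 0 ≤ (X * H ^ (2 * (d - 1)) / P ^ 2) ^ (Fintype.card ι) := by positivity
  calc ‖∏ i, r i‖ * (H ^ (∑ j, e j) * ‖B.det‖)
      ≤ (X * H ^ (2 * (d - 1)) / P ^ 2) ^ (Fintype.card ι) * (H ^ (∑ j, e j) *
        (C1 * ∑ k ∈ Finset.range (Fintype.card ι + 1), (1 / X) ^ k * τ ^ (k * (k - 1) / 2 +
            (Fintype.card ι - k) * (Fintype.card ι - k - 1) / 2))) := by
        apply mul_le_mul hrn _ (by positivity) h0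
        exact mul_le_mul_of_nonneg_left hBbd (by positivity)
    _ = _ := by ring

end

end Pool.Agent.Lib.Sqf4
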