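import Pool.Agent.Lib.Sqf4.AsmC
import Pool.Agent.Lib.Sqf4.Num
import Pool.Agent.Lib.Sqf4.WinN1

set_option autoImplicit false

/-!
Assembly for every degree: the dyadic count from `windowN` (hypothesis `hW`) and `Num`.
-/

namespace Pool.Agent.Lib.Sqf4

open Polynomial Matrix

noncomputable section

variable {d : ℕ}

/-- the statement of `windowN` (one window, every degree) -/
def WindowN (f : ℤ[X]) (d : ℕ) [NeZero d] (θ : Fin d → ℂ) : Prop :=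
  ∀ (C0 : ℝ), 1 ≤ C0 → ∀ (ρ : ℝ), 0 < ρ → ∃ C : ℝ, 1 ≤ C ∧ ∀ (X P H D τ : ℝ),
      1 ≤ X → 1 ≤ H → 1 ≤ P → P ≤ X ^ 2 → H ^ d ≤ C0 * P → 0 < τ → τ ≤ 1 → 0 < D → D ≤ H →
      C ≤ X ^ ρ → C * X ^ ρ ≤ P →
      detB d (4 * d - 2) (d ^ 2 + 2 * d - 2) C X P H τ < 1 →
      detB d (3 * d - 1) ((d ^ 2 + 3 * d - 2) / 2) C X P H τ < (X ^ ρ) ^ ((3 * d - 1).choose 2) →
      ∀ a : Fin d → ℤ, (∀ σ, ‖al θ a σ‖ ≤ C0 * H) →
      (∀ σ ρ', σ ≠ ρ' → D ≤ ‖al θ a σ - al θ a ρ'‖) →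
      ∀ S : Finset (ℤ × ℤ), (∀ x ∈ S, C * (H / D) ^ (2 * d) < (x.2 : ℝ) ∧
          |(x.1 : ℝ)| ≤ τ * H ∧ |(x.2 : ℝ)| ≤ X ∧ ∃ p : ℕ, p.Prime ∧ P < p ∧
            ∃ β, Sol θ p x.2 (a + Pi.single 0 x.1) β) →
      ∃ E : Finset ℤ, (E.card : ℝ) ≤ C ∧ ((S.filter (fun x => x.1 ∉ E)).card : ℝ) ≤ C * X ^ ρ

/-- comparison of `detB` at `H ≤ 4 (2P)^(1/d)` -/
lemma detB_le {N E : ℕ} {C X P H H0 τ : ℝ} (hC : 0 ≤ C) (hX : 0 < X) (hP : 0 < P) (hH : 0 ≤ H)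
    (hτ : 0 < τ) (h : H ≤ 4 * H0) :
    detB d N E C X P H τ ≤ (X * H0 ^ (2 * (d - 1)) / P ^ 2) ^ N * H0 ^ E *
      ((4 ^ (2 * (d - 1) * N + E) * C) * ∑ k ∈ Finset.range (N + 1), (1 / X) ^ k *
        τ ^ (k * (k - 1) / 2 + (N - k) * (N - k - 1) / 2)) := by
  have hH0 : 0 ≤ H0 := by linarith
  unfold detB
  set S := ∑ k ∈ Finset.range (N + 1), (1 / X) ^ k *
        τ ^ (k * (k - 1) / 2 + (N - k) * (N - k - 1) / 2) with hS
  have hS0 : 0 ≤ S := Finset.sum_nonneg (fun k _ => by positivity)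
  have h1 : (X * H ^ (2 * (d - 1)) / P ^ 2) ^ N
      ≤ (4 ^ (2 * (d - 1))) ^ N * (X * H0 ^ (2 * (d - 1)) / P ^ 2) ^ N := by
    rw [← mul_pow]
    apply pow_le_pow_left₀ (by positivity)
    have h2 : H ^ (2 * (d - 1)) ≤ 4 ^ (2 * (d - 1)) * H0 ^ (2 * (d - 1)) := by
      rw [← mul_pow]
      exact pow_le_pow_left₀ hH h _
    rw [mul_div_assoc', div_le_div_iff_of_pos_right (by positivity)]
    calc X * H ^ (2 * (d - 1)) ≤ X * (4 ^ (2 * (d - 1)) * H0 ^ (2 * (d - 1))) :=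
          mul_le_mul_of_nonneg_left h2 hX.le
      _ = 4 ^ (2 * (d - 1)) * (X * H0 ^ (2 * (d - 1))) := by ring
  have h3 : H ^ E ≤ 4 ^ E * H0 ^ E := by
    rw [← mul_pow]
    exact pow_le_pow_left₀ hH h _
  calc (X * H ^ (2 * (d - 1)) / P ^ 2) ^ N * H ^ E * (C * S)
      ≤ ((4 ^ (2 * (d - 1))) ^ N * (X * H0 ^ (2 * (d - 1)) / P ^ 2) ^ N) * (4 ^ E * H0 ^ E) * (C * S) := by
        apply mul_le_mul_of_nonneg_right _ (by positivity)
        exact mul_le_mul h1 h3 (by positivity) (by positivity)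
    _ = _ := by
        have h5 : (4 : ℝ) ^ (2 * (d - 1) * N + E) = (4 ^ (2 * (d - 1))) ^ N * 4 ^ E := by
          rw [pow_add, pow_mul]
        rw [h5]
        generalize (4 : ℝ) ^ (2 * (d - 1)) = q
        ring


/-- THE DYADIC COUNT, every degree. -/
theorem dyadicN_of {f : ℤ[X]} [NeZero d] (hd : 2 ≤ d) {θ : Fin d → ℂ} (h : Rts f d θ)
    (hW : WindowN f d θ) (L : ℕ) (hL : 1 ≤ L) :
    ∃ C : ℝ, 1 ≤ C ∧ ∀ (X P : ℝ), C ≤ X → X ≤ L * P → P ≤ X ^ (1 + 1 / (24 * (d : ℝ))) →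
      ∀ N : Finset ℤ, (∀ n ∈ N, 1 ≤ n ∧ (n : ℝ) ≤ X ∧
        ∃ p : ℕ, p.Prime ∧ P < p ∧ (p : ℝ) ≤ 2 * P ∧ ((p : ℤ) ^ 2 ∣ f.eval n)) →
      (N.card : ℝ) ≤ C * X ^ (1 - 1 / (96 * (d : ℝ) ^ 2)) := by
  classical
  have hd0 : (2 : ℝ) ≤ d := by exact_mod_cast hd
  have hdpos : (0 : ℝ) < d := by linarith
  have hL1 : (1 : ℝ) ≤ L := by exact_mod_cast hL
  obtain ⟨C0, hC0, Cc, hCc, hcore⟩ := dyadic_core hd h L
  set ρ : ℝ := 1 / (8 * (d : ℝ)) with hρ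
  have hρ0 : 0 < ρ := by positivity
  obtain ⟨Cw, hCw, hwin⟩ := hW C0 hC0 ρ hρ0
  set K1 : ℝ := 4 ^ (2 * (d - 1) * (4 * d - 2) + (d ^ 2 + 2 * d - 2)) * Cw with hK1
  set K2 : ℝ := 4 ^ (2 * (d - 1) * (3 * d - 1) + ((d ^ 2 + 3 * d - 2) / 2)) * Cw with hK2
  have hK1' : 1 ≤ K1 := by
    have := one_le_pow₀ (show (1 : ℝ) ≤ 4 by norm_num) (n := 2 * (d - 1) * (4 * d - 2) + (d ^ 2 + 2 * d - 2))
    nlinarith
  have hK2' : 1 ≤ K2 := by
    have := one_le_pow₀ (show (1 : ℝ) ≤ 4 by norm_num) (n := 2 * (d - 1) * (3 * d - 1) + ((d ^ 2 + 3 * d - 2) / 2))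
    nlinarith
  obtain ⟨X1, hX1, hnum1⟩ := num1 d hd K1 L hK1' hL1
  obtain ⟨X2, hX2, hnum2⟩ := num2 d hd K2 L hK2' hL1
  obtain ⟨X3, hX3, hnum3⟩ := num3 d hd (2 * Cc * Cw) (by nlinarith)
  set Q : ℝ := Cw * 4 ^ (2 * d) with hQ
  have hQ1 : 1 ≤ Q := by
    have := one_le_pow₀ (show (1 : ℝ) ≤ 4 by norm_num) (n := 2 * d)
    nlinarith
  -- the final constant
  set Cf : ℝ := X1 + X2 + X3 + Cw ^ (8 * (d : ℝ)) + (L * Cw) ^ (4 : ℝ) + L * Cc + 2 * Q + 4 * Cc + L + 1 with hCf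
  have hL0 : (0 : ℝ) ≤ L := by positivity
  have p1 : (0 : ℝ) ≤ Cw ^ (8 * (d : ℝ)) := by positivity
  have p2 : (0 : ℝ) ≤ (L * Cw) ^ (4 : ℝ) := by positivity
  have p3 : (0 : ℝ) ≤ L * Cc := by positivity
  refine ⟨Cf, by linarith, ?_⟩
  intro X P hX hXP hPX N hN
  have hXone : 1 ≤ X := by linarith
  have hX0 : 0 < X := by linarith
  have hPL : X / L ≤ P := by
    rw [div_le_iff₀ (by linarith)]
    linarith
  have hPcc : Cc ≤ P := by
    have h1 : L * Cc ≤ L * P := by linarith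
    exact le_of_mul_le_mul_left h1 (by linarith)
  have hP1 : 1 ≤ P := by linarith
  have hP0 : 0 < P := by linarith
  have hPX2 : P ≤ X ^ 2 := by
    refine hPX.trans ?_
    rw [← Real.rpow_natCast]
    apply Real.rpow_le_rpow_of_exponent_le hXone
    have : 1 / (24 * (d : ℝ)) ≤ 1 := by
      rw [div_le_one (by positivity)]
      linarith
    push_cast
    linarith
  set R : ℝ := P ^ (1 / (d : ℝ)) with hR
  have hR1 : 1 ≤ R := Real.one_le_rpow hP1 (by positivity)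
  have hRd : R ^ d = P := by
    rw [hR, ← Real.rpow_natCast, ← Real.rpow_mul hP0.le]
    rw [one_div_mul_cancel hdpos.ne', Real.rpow_one]
  set τ : ℝ := X ^ (-(5 / (6 * (d : ℝ)))) with hτ
  have hτ0 : 0 < τ := Real.rpow_pos_of_pos hX0 _
  have hτ1 : τ ≤ 1 := Real.rpow_le_one_of_one_le_of_nonpos hXone (by
    have : (0 : ℝ) ≤ 5 / (6 * (d : ℝ)) := by positivity
    linarith)
  set κ : ℝ := 1 / (4 * (d : ℝ)) with hκ
  set D : ℝ := R * X ^ (-κ) with hD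
  have hXκ0 : 0 < X ^ (-κ) := Real.rpow_pos_of_pos hX0 _
  have hXκ1 : X ^ (-κ) ≤ 1 := Real.rpow_le_one_of_one_le_of_nonpos hXone (by
    have : (0 : ℝ) ≤ κ := by positivity
    linarith)
  have hD0 : 0 < D := by positivity
  have hDR : D ≤ R := by nlinarith
  have hRD : (R / D) ^ (2 * d) = X ^ (1 / 2 : ℝ) := by
    have h1 : R / D = X ^ κ := by
      rw [hD, Real.rpow_neg hX0.le]
      have : X ^ κ ≠ 0 := (Real.rpow_pos_of_pos hX0 _).ne'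
      field_simp
    rw [h1, ← Real.rpow_natCast, ← Real.rpow_mul hX0.le]
    congr 1
    rw [hκ]
    push_cast
    field_simp
    norm_num
  set H0 : ℝ := (2 * P) ^ (1 / (d : ℝ)) with hH0
  have hRH0 : R ≤ H0 := Real.rpow_le_rpow hP0.le (by linarith) (by positivity)
  have hH00 : 0 ≤ H0 := by positivity
  -- window bound
  have hCwX : Cw ≤ X ^ ρ := by
    have h1 : Cw ^ (8 * (d : ℝ)) ≤ X := by linarith
    have h2 := Real.rpow_le_rpow p1 h1 hρ0.le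
    rw [← Real.rpow_mul (by linarith)] at h2
    have h3 : 8 * (d : ℝ) * ρ = 1 := by
      rw [hρ]
      field_simp
    rw [h3, Real.rpow_one] at h2
    exact h2
  have hCwP : Cw * X ^ ρ ≤ P := by
    have h1 : (L * Cw) ^ (4 : ℝ) ≤ X := by linarith
    have h2 : L * Cw ≤ X ^ (1 / 4 : ℝ) := by
      have h3 := Real.rpow_le_rpow p2 h1 (show (0 : ℝ) ≤ 1 / 4 by norm_num)
      rw [← Real.rpow_mul (by positivity)] at h3
      norm_num at h3
      exact h3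
    have h4 : X ^ ρ ≤ X ^ (1 / 2 : ℝ) := by
      apply Real.rpow_le_rpow_of_exponent_le hXone
      rw [hρ, div_le_div_iff₀ (by positivity) (by norm_num)]
      linarith
    have h5 : L * (Cw * X ^ ρ) ≤ X := by
      calc L * (Cw * X ^ ρ) = (L * Cw) * X ^ ρ := by ring
        _ ≤ X ^ (1 / 4 : ℝ) * X ^ (1 / 2 : ℝ) := mul_le_mul h2 h4 (by positivity) (by positivity)
        _ = X ^ (3 / 4 : ℝ) := by
            rw [← Real.rpow_add hX0]
            norm_num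
        _ ≤ X ^ (1 : ℝ) := Real.rpow_le_rpow_of_exponent_le hXone (by norm_num)
        _ = X := Real.rpow_one X
    have h6 : L * (Cw * X ^ ρ) ≤ L * P := h5.trans hXP
    exact le_of_mul_le_mul_left h6 (by linarith)
  have hwin' : ∀ H : ℝ, 2 * R < H → H ≤ 4 * R → H ^ d ≤ C0 * P →
        ∀ a : Fin d → ℤ, (∀ σ, ‖al θ a σ‖ ≤ C0 * H) →
        (∀ σ ρ, σ ≠ ρ → D ≤ ‖al θ a σ - al θ a ρ‖) →
        ∀ S : Finset (ℤ × ℤ), (∀ x ∈ S, Cw * (H / D) ^ (2 * d) < (x.2 : ℝ) ∧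
          |(x.1 : ℝ)| ≤ τ * H ∧ |(x.2 : ℝ)| ≤ X ∧ ∃ p : ℕ, p.Prime ∧ P < p ∧ (p : ℝ) ≤ 2 * P ∧
            ∃ β, Sol θ p x.2 (a + Pi.single 0 x.1) β) →
        ∃ E : Finset ℤ, (E.card : ℝ) ≤ Cw ∧ ((S.filter (fun x => x.1 ∉ E)).card : ℝ) ≤ Cw * X ^ ρ := by
    intro H hH1 hH2 hH3 a ha hsep S hS
    have hH0' : H ≤ 4 * H0 := by linarith
    refine hwin X P H D τ hXone (by linarith) hP1 hPX2 hH3 hτ0 hτ1 hD0 (by linarith) hCwX hCwP ?_ ?_
      a ha hsep S ?_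
    · refine lt_of_le_of_lt (detB_le (by linarith) hX0 hP0 (by linarith) hτ0 hH0') ?_
      have h1 := hnum1 X (by linarith) P hPL hPX
      have h2 : 2 * (d - 1) = 2 * d - 2 := by omega
      rw [h2]
      rw [hK1, h2] at h1
      exact h1
    · refine lt_of_le_of_lt (detB_le (by linarith) hX0 hP0 (by linarith) hτ0 hH0') ?_
      have h1 := hnum2 X (by linarith) P hPL hPX
      have h2 : 2 * (d - 1) = 2 * d - 2 := by omega
      rw [h2]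
      rw [hK2, h2] at h1
      rw [← Real.rpow_natCast (X ^ ρ), ← Real.rpow_mul hX0.le]
      exact h1
    · intro x hx
      obtain ⟨h1, h2, h3, p, hp, hPp, hp2, β, hβ⟩ := hS x hx
      exact ⟨h1, h2, h3, p, hp, hPp, β, hβ⟩
  -- split according to the size of n
  set N1 : Finset ℤ := N.filter (fun n : ℤ => (n : ℝ) ≤ Q * X ^ (1 / 2 : ℝ)) with hN1
  set N2 : Finset ℤ := N.filter (fun n : ℤ => ¬ ((n : ℝ) ≤ Q * X ^ (1 / 2 : ℝ))) with hN2
  have hsplit : N.card = N1.card + N2.card := by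
    rw [hN1, hN2]
    exact (Finset.card_filter_add_card_filter_not _).symm
  have hη : (0 : ℝ) < 1 / (96 * (d : ℝ) ^ 2) := by positivity
  have hη2 : 1 / (96 * (d : ℝ) ^ 2) ≤ 1 / 384 := by
    apply one_div_le_one_div_of_le (by norm_num)
    nlinarith
  have hN1c : (N1.card : ℝ) ≤ Q * X ^ (1 - 1 / (96 * (d : ℝ) ^ 2)) := by
    have h1 : N1 ⊆ Finset.Icc (1 : ℤ) ⌊Q * X ^ (1 / 2 : ℝ)⌋₊ := by
      intro n hn
      rw [hN1, Finset.mem_filter] at hn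
      rw [Finset.mem_Icc]
      refine ⟨(hN n hn.1).1, ?_⟩
      have h2 : ((n.toNat : ℕ) : ℤ) = n := Int.toNat_of_nonneg (by have := (hN n hn.1).1; omega)
      have h3 : ((n.toNat : ℕ) : ℝ) = (n : ℝ) := by exact_mod_cast congrArg (Int.cast : ℤ → ℝ) h2
      have h4 : n.toNat ≤ ⌊Q * X ^ (1 / 2 : ℝ)⌋₊ := Nat.le_floor (by rw [h3]; exact hn.2)
      omega
    have h2 := Finset.card_le_card h1
    rw [Int.card_Icc] at h2
    have h3 : (N1.card : ℝ) ≤ (⌊Q * X ^ (1 / 2 : ℝ)⌋₊ : ℝ) := by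
      have : N1.card ≤ ⌊Q * X ^ (1 / 2 : ℝ)⌋₊ := by omega
      exact_mod_cast this
    refine h3.trans ((Nat.floor_le (by positivity)).trans ?_)
    apply mul_le_mul_of_nonneg_left _ (by linarith)
    apply Real.rpow_le_rpow_of_exponent_le hXone
    linarith
  have hN2c := hcore X P R D τ (Cw * X ^ ρ) Cw Cw hXone hXP hPcc hR1 hRd hτ0 hτ1 hD0 hDR
    (by positivity) (by linarith) (by linarith) hwin' N2 (by
      intro n hn
      rw [hN2, Finset.mem_filter] at hn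
      obtain ⟨h1, h2, h3⟩ := hN n hn.1
      refine ⟨h1, h2, ?_, h3⟩
      rw [hRD]
      have := hn.2
      push Not at this
      exact this)
  have hXρ1 : 1 ≤ X ^ ρ := Real.one_le_rpow hXone hρ0.le
  have hRd1 : R ^ (d - 1) ≤ H0 ^ (d - 1) := pow_le_pow_left₀ (by linarith) hRH0 _
  have hnum3' := hnum3 X (by linarith) P hP1 hPX
  rw [← hτ, ← hH0] at hnum3'
  have hXe : 1 ≤ X ^ (1 / (8 * (d : ℝ)) + 1 / (96 * (d : ℝ) ^ 2)) :=
    Real.one_le_rpow hXone (by positivity)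
  have h1τ : 1 ≤ 1 / τ := by
    rw [le_div_iff₀ hτ0]
    linarith
  have hmain : Cc * ((Cw * X ^ ρ + Cw) * R ^ (d - 1) / τ) ≤ X ^ (1 - 1 / (96 * (d : ℝ) ^ 2)) := by
    refine le_trans ?_ hnum3'
    have h3 : X ^ ρ ≤ X ^ (1 / (8 * (d : ℝ)) + 1 / (96 * (d : ℝ) ^ 2)) :=
      Real.rpow_le_rpow_of_exponent_le hXone (by rw [hρ]; linarith)
    have h4 : Cw * X ^ ρ + Cw ≤ 2 * Cw * X ^ (1 / (8 * (d : ℝ)) + 1 / (96 * (d : ℝ) ^ 2)) := by
      nlinarith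
    have h5 : (1 : ℝ) / τ ≤ 1 / τ + 1 := by linarith
    have h6 : 0 < 1 / τ := by positivity
    calc Cc * ((Cw * X ^ ρ + Cw) * R ^ (d - 1) / τ)
        = (Cc * (Cw * X ^ ρ + Cw)) * (R ^ (d - 1) * (1 / τ)) := by ring
      _ ≤ (Cc * (2 * Cw * X ^ (1 / (8 * (d : ℝ)) + 1 / (96 * (d : ℝ) ^ 2)))) *
          (H0 ^ (d - 1) * (1 / τ + 1)) := by
          apply mul_le_mul
          · exact mul_le_mul_of_nonneg_left h4 (by linarith)
          · exact mul_le_mul hRd1 h5 h6.le (by positivity)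
          · positivity
          · positivity
      _ = _ := by ring
  have hsecond : R ^ (d - 1) ≤ X ^ (1 - 1 / (96 * (d : ℝ) ^ 2)) := by
    refine le_trans ?_ hnum3'
    have h4 : 1 ≤ 2 * Cc * Cw := by nlinarith
    have h5 : 1 ≤ 1 / τ + 1 := by linarith
    have h6 : 0 ≤ H0 ^ (d - 1) := by positivity
    calc R ^ (d - 1) ≤ H0 ^ (d - 1) := hRd1
      _ = 1 * H0 ^ (d - 1) * 1 * 1 := by ring
      _ ≤ 2 * Cc * Cw * H0 ^ (d - 1) * (1 / τ + 1) * X ^ (1 / (8 * (d : ℝ)) + 1 / (96 * (d : ℝ) ^ 2)) := by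
          gcongr
  have hthird : R ^ (d - 1) * D ≤ X ^ (1 - 1 / (96 * (d : ℝ) ^ 2)) := by
    have h1 : R ^ (d - 1) * D = P * X ^ (-κ) := by
      rw [hD, ← mul_assoc, ← pow_succ]
      have : d - 1 + 1 = d := by omega
      rw [this, hRd]
    rw [h1]
    calc P * X ^ (-κ) ≤ X ^ (1 + 1 / (24 * (d : ℝ))) * X ^ (-κ) :=
          mul_le_mul_of_nonneg_right hPX hXκ0.le
      _ = X ^ (1 + 1 / (24 * (d : ℝ)) + -κ) := (Real.rpow_add hX0 _ _).symm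
      _ ≤ X ^ (1 - 1 / (96 * (d : ℝ) ^ 2)) := by
          apply Real.rpow_le_rpow_of_exponent_le hXone
          have h2 : 1 / (96 * (d : ℝ) ^ 2) ≤ 1 / (96 * (d : ℝ)) := by
            apply one_div_le_one_div_of_le (by positivity)
            nlinarith
          have h3 : 1 / (24 * (d : ℝ)) = 4 * (1 / (96 * (d : ℝ))) := by
            field_simp
            norm_num
          have h4 : κ = 24 * (1 / (96 * (d : ℝ))) := by
            rw [hκ]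
            field_simp
            norm_num
          have h5 : 0 < 1 / (96 * (d : ℝ)) := by positivity
          rw [h3, h4]
          linarith
  have hY0 : 0 ≤ X ^ (1 - 1 / (96 * (d : ℝ) ^ 2)) := by positivity
  have hN2d : (N2.card : ℝ) ≤ (1 + 2 * Cc) * X ^ (1 - 1 / (96 * (d : ℝ) ^ 2)) := by
    refine hN2c.trans ?_
    have h1 : Cc * ((Cw * X ^ ρ + Cw) * R ^ (d - 1) / τ + R ^ (d - 1) * (D + 1))
        = Cc * ((Cw * X ^ ρ + Cw) * R ^ (d - 1) / τ) + Cc * (R ^ (d - 1) * D) + Cc * R ^ (d - 1) := by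
      ring
    rw [h1]
    have h2 : Cc * (R ^ (d - 1) * D) ≤ Cc * X ^ (1 - 1 / (96 * (d : ℝ) ^ 2)) :=
      mul_le_mul_of_nonneg_left hthird (by linarith)
    have h3 : Cc * R ^ (d - 1) ≤ Cc * X ^ (1 - 1 / (96 * (d : ℝ) ^ 2)) :=
      mul_le_mul_of_nonneg_left hsecond (by linarith)
    linarith
  have hc : (N.card : ℝ) = N1.card + N2.card := by
    rw [hsplit]
    push_cast
    rfl
  rw [hc]
  have hfin : (Q + (1 + 2 * Cc)) * X ^ (1 - 1 / (96 * (d : ℝ) ^ 2)) ≤ Cf * X ^ (1 - 1 / (96 * (d : ℝ) ^ 2)) := by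
    apply mul_le_mul_of_nonneg_right _ hY0
    linarith
  linarith

end

end Pool.Agent.Lib.Sqf4
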