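import Pool.Agent.Lib.Sqf4.PQ

set_option autoImplicit false

/-!
Columns `s^i β_j` for all degrees (MP_8842b2_nt, first range): index type, integral polynomials
`PB_j`, `QB_j` with `p^2 β_j = n PB_j(s) - QB_j(s)`, linear independence on the surface and on
polynomial curves.
-/

namespace Pool.Agent.Lib.Sqf4

open Polynomial

noncomputable section

/-- columns: exponents `0`, `1` (all `j`) and `k + 2`, `k < K`, with `r` chosen coordinates -/
abbrev Col (d K r : ℕ) : Type := Fin d ⊕ Fin d ⊕ (Fin K × Fin r)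

/-- the exponent of a column -/
def ce {d K r : ℕ} : Col d K r → ℕ
  | Sum.inl _ => 0
  | Sum.inr (Sum.inl _) => 1
  | Sum.inr (Sum.inr x) => (x.1 : ℕ) + 2

/-- the coordinate of a column -/
def cj {d K r : ℕ} (jj : Fin r → Fin d) : Col d K r → Fin d
  | Sum.inl j => j
  | Sum.inr (Sum.inl j) => j
  | Sum.inr (Sum.inr x) => jj x.2

theorem ce_le {d K r : ℕ} (c : Col d K r) : ce c ≤ K + 1 := by
  rcases c with j | j | x
  · simp [ce]
  · simp [ce]
  · have := x.1.2
    simp only [ce]; omega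

theorem card_Col (d K r : ℕ) : Fintype.card (Col d K r) = 2 * d + K * r := by
  simp [Col]; ring

theorem sum_ce (d K r : ℕ) : ∑ c : Col d K r, ce c = d + r * ∑ k ∈ Finset.range K, (k + 2) := by
  simp only [Col, Fintype.sum_sum_type, ce]
  rw [Fintype.sum_prod_type]
  simp only [Finset.sum_const_zero, zero_add, Finset.sum_const, Finset.card_univ,
    Fintype.card_fin, smul_eq_mul, mul_one]
  rw [Fin.sum_univ_eq_sum_range (fun k => r * (k + 2)) K, Finset.mul_sum]

/-- the combination of the columns -/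
def comb {d K r : ℕ} (jj : Fin r → Fin d) (A : Fin d → ℤ[X]) (g : Col d K r → ℤ) : ℤ[X] :=
  ∑ c, C (g c) * (X ^ ce c * A (cj jj c))

theorem comb_split {d K r : ℕ} (jj : Fin r → Fin d) (A : Fin d → ℤ[X]) (g : Col d K r → ℤ) :
    comb jj A g = ∑ j, (C (g (Sum.inl j)) + X * C (g (Sum.inr (Sum.inl j)))) * A j
      + ∑ x : Fin K × Fin r, C (g (Sum.inr (Sum.inr x))) * (X ^ ((x.1 : ℕ) + 2) * A (jj x.2)) := by
  simp only [comb, Fintype.sum_sum_type, ce, cj, pow_zero, one_mul, pow_one]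
  rw [← add_assoc, ← Finset.sum_add_distrib]
  congr 1
  refine Finset.sum_congr rfl fun j _ => ?_
  ring

/-- top coefficient of a combination -/
theorem comb_coeff {d K r : ℕ} (jj : Fin r → Fin d) (A : Fin d → ℤ[X]) (D : ℕ)
    (hA : ∀ j, (A j).natDegree ≤ D) (g : Col d K r → ℤ) (k : Fin K)
    (hg : ∀ k' : Fin K, k < k' → ∀ t, g (Sum.inr (Sum.inr (k', t))) = 0) :
    (comb jj A g).coeff (D + k + 2) = ∑ t, g (Sum.inr (Sum.inr (k, t))) * (A (jj t)).coeff D := by
  rw [comb_split, coeff_add, finsetSum_coeff, finsetSum_coeff]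
  have h1 : ∑ j, ((C (g (Sum.inl j)) + X * C (g (Sum.inr (Sum.inl j)))) * A j).coeff (D + k + 2)
      = 0 := by
    refine Finset.sum_eq_zero fun j _ => ?_
    refine coeff_eq_zero_of_natDegree_lt ?_
    have h2 : (C (g (Sum.inl j)) + X * C (g (Sum.inr (Sum.inl j)))).natDegree ≤ 1 := by
      refine (natDegree_add_le _ _).trans (max_le (by simp) ?_)
      refine natDegree_mul_le.trans ?_
      simp [natDegree_X_le]
    have h3 := natDegree_mul_le (p := (C (g (Sum.inl j)) + X * C (g (Sum.inr (Sum.inl j)))))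
      (q := A j)
    have h4 := hA j
    omega
  rw [h1, zero_add, Fintype.sum_prod_type, Finset.sum_eq_single k]
  · refine Finset.sum_congr rfl fun t _ => ?_
    rw [coeff_C_mul, show D + (k : ℕ) + 2 = D + ((k : ℕ) + 2) by ring, coeff_X_pow_mul]
  · intro k' _ hk'
    refine Finset.sum_eq_zero fun t _ => ?_
    rcases lt_or_gt_of_ne hk' with h | h
    · rw [coeff_C_mul]
      rw [coeff_eq_zero_of_natDegree_lt, mul_zero]
      have h3 := natDegree_mul_le (p := (X : ℤ[X]) ^ ((k' : ℕ) + 2)) (q := A (jj t))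
      rw [natDegree_X_pow] at h3
      have h4 := hA (jj t)
      have h5 : (k' : ℕ) < k := h
      show (X ^ ((k' : ℕ) + 2) * A (jj t)).natDegree < _
      omega
    · rw [hg k' h t]; simp
  · intro h; exact absurd (Finset.mem_univ k) h

/-- downward induction -/
theorem elim_top {K r : ℕ} (g : Fin K → Fin r → ℤ)
    (H : ∀ k, (∀ k', k < k' → ∀ t, g k' t = 0) → ∀ t, g k t = 0) : ∀ k t, g k t = 0 := by
  have : ∀ m : ℕ, ∀ k : Fin K, K ≤ (k : ℕ) + 1 + m → ∀ t, g k t = 0 := by
    intro m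
    induction m with
    | zero =>
      intro k hk
      refine H k fun k' hk' => ?_
      have h1 : (k : ℕ) < k' := hk'
      have h2 := k'.2
      omega
    | succ m ih =>
      intro k hk
      refine H k fun k' hk' => ?_
      have h1 : (k : ℕ) < k' := hk'
      exact ih k' (by omega)
  intro k
  exact this K k (by omega)

/-- if the combination has no level `≥ 2` part -/
theorem comb_level_one {d K r : ℕ} (jj : Fin r → Fin d) (A : Fin d → ℤ[X]) (g : Col d K r → ℤ)
    (hg : ∀ k t, g (Sum.inr (Sum.inr (k, t))) = 0) :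
    comb jj A g = ∑ j, (C (g (Sum.inl j)) + X * C (g (Sum.inr (Sum.inl j)))) * A j := by
  rw [comb_split, Finset.sum_eq_zero (s := (Finset.univ : Finset (Fin K × Fin r))), add_zero]
  rintro ⟨k, t⟩ _
  rw [hg k t]; simp

theorem col_eq_zero {d K r : ℕ} (g : Col d K r → ℤ) (h0 : ∀ j, g (Sum.inl j) = 0)
    (h1 : ∀ j, g (Sum.inr (Sum.inl j)) = 0) (h2 : ∀ k t, g (Sum.inr (Sum.inr (k, t))) = 0) :
    g = 0 := by
  funext c
  rcases c with j | j | ⟨k, t⟩
  · exact h0 j
  · exact h1 j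
  · exact h2 k t

/-- INDEPENDENCE ON A CURVE.  If the `2d` polynomials `A_j`, `X A_j` are linearly independent then
for some `j0` all the columns `(i, j0)`, `i ≥ 2`, can be added. -/
theorem curve_indep {d : ℕ} [NeZero d] (A : Fin d → ℤ[X])
    (h1 : ∀ c e : Fin d → ℤ, ∑ j, (C (c j) + X * C (e j)) * A j = 0 → c = 0 ∧ e = 0) :
    ∃ j0 : Fin d, ∀ (K : ℕ) (g : Col d K 1 → ℤ), comb (fun _ => j0) A g = 0 → g = 0 := by
  obtain ⟨j0, -, hj0⟩ := Finset.exists_max_image (Finset.univ : Finset (Fin d))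
    (fun j => (A j).natDegree) ⟨0, Finset.mem_univ _⟩
  refine ⟨j0, fun K g hg => ?_⟩
  have hA0 : A j0 ≠ 0 := by
    intro h0
    have h2 := (h1 (Pi.single j0 1) 0 (by
      rw [Finset.sum_eq_single j0]
      · rw [h0, mul_zero]
      · intro j _ hj
        simp [Pi.single_eq_of_ne hj]
      · intro h; exact absurd (Finset.mem_univ _) h)).1
    have h3 := congrFun h2 j0
    simp at h3
  have hz : ∀ k t, g (Sum.inr (Sum.inr (k, t))) = 0 := by
    refine elim_top (fun k t => g (Sum.inr (Sum.inr (k, t)))) fun k hk t => ?_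
    have h2 := comb_coeff (fun _ : Fin 1 => j0) A (A j0).natDegree
      (fun j => hj0 j (Finset.mem_univ _)) g k hk
    rw [hg, coeff_zero, Fin.sum_univ_one] at h2
    have h3 : (A j0).coeff (A j0).natDegree ≠ 0 := by
      rw [coeff_natDegree]; exact leadingCoeff_ne_zero.2 hA0
    rcases mul_eq_zero.1 h2.symm with h | h
    · rw [Subsingleton.elim t 0]; exact h
    · exact absurd h h3
  rw [comb_level_one _ _ _ hz] at hg
  obtain ⟨h2, h3⟩ := h1 _ _ hg
  exact col_eq_zero g (fun j => congrFun h2 j) (fun j => congrFun h3 j) hz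

/-- the two special coordinates `0`, `1` -/
def jj2 {d : ℕ} (hd : 2 ≤ d) : Fin 2 → Fin d := fun t => ⟨t, by have := t.2; omega⟩

/-- INDEPENDENCE ON THE SURFACE, from the level one independence and the top coefficients. -/
theorem surf_indep {d : ℕ} (hd : 2 ≤ d) (PB QB : Fin d → ℤ[X]) (D : ℕ)
    (hP : ∀ j, (PB j).natDegree ≤ D) (hQ : ∀ j, (QB j).natDegree ≤ D)
    (hP0 : ∀ j : Fin d, (PB j).coeff D = if (j : ℕ) = 0 then 1 else 0)
    (hQ0 : ∀ j : Fin d, (QB j).coeff D = if (j : ℕ) = 1 then 1 else 0)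
    (h1 : ∀ c e : Fin d → ℤ, ∑ j, (C (c j) + X * C (e j)) * PB j = 0 → c = 0 ∧ e = 0)
    (K : ℕ) (g : Col d K 2 → ℤ) (hgP : comb (jj2 hd) PB g = 0) (hgQ : comb (jj2 hd) QB g = 0) :
    g = 0 := by
  have hz : ∀ k t, g (Sum.inr (Sum.inr (k, t))) = 0 := by
    refine elim_top (fun k t => g (Sum.inr (Sum.inr (k, t)))) fun k hk => ?_
    have h2 := comb_coeff (jj2 hd) PB D hP g k hk
    have h3 := comb_coeff (jj2 hd) QB D hQ g k hk
    rw [hgP, coeff_zero, Fin.sum_univ_two, hP0, hP0] at h2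
    rw [hgQ, coeff_zero, Fin.sum_univ_two, hQ0, hQ0] at h3
    simp [jj2] at h2 h3
    intro t
    fin_cases t
    · exact h2.symm
    · exact h3.symm
  rw [comb_level_one _ _ _ hz] at hgP
  obtain ⟨h2, h3⟩ := h1 _ _ hgP
  exact col_eq_zero g (fun j => congrFun h2 j) (fun j => congrFun h3 j) hz

end

end Pool.Agent.Lib.Sqf4
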