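import Mathlib

set_option autoImplicit false

/-!
Basic definitions for the first range `p in [X, X^(1+c)]` of the squarefree sieve
(MP_8842b2_nt): `f` monic irreducible of degree `d`, roots `θ σ`, elements
`a_0 + a_1 θ + ... + a_(d-1) θ^(d-1)` given by their coordinates `a : Fin d → ℤ`.
-/

namespace Pool.Agent.Lib.Sqf4

open Polynomial Matrix

noncomputable section

/-- the companion matrix of the monic polynomial `f` of degree `d` -/
def comp (f : ℤ[X]) (d : ℕ) : Matrix (Fin d) (Fin d) ℤ := Matrix.of fun i j =>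
  if (j : ℕ) + 1 = d then - f.coeff i else if (i : ℕ) = (j : ℕ) + 1 then 1 else 0

/-- the matrix of multiplication by `a_0 + a_1 θ + ... ` -/
def mm (f : ℤ[X]) {d : ℕ} (a : Fin d → ℤ) : Matrix (Fin d) (Fin d) ℤ :=
  ∑ j, a j • (comp f d) ^ (j : ℕ)

/-- the conjugates `α_σ = a_0 + a_1 θ_σ + ...` -/
def al {d : ℕ} (θ : Fin d → ℂ) (a : Fin d → ℤ) (σ : Fin d) : ℂ :=
  ∑ j, (a j : ℂ) * θ σ ^ (j : ℕ)

/-- `f` is monic irreducible of degree `d` with roots `θ σ`. -/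
structure Rts (f : ℤ[X]) (d : ℕ) (θ : Fin d → ℂ) : Prop where
  monic : f.Monic
  deg : f.natDegree = d
  irr : Irreducible f
  root : ∀ σ, (f.map (Int.castRingHom ℂ)).eval (θ σ) = 0
  inj : Function.Injective θ

/-- the relation `p^2 β = (n - θ) (α*)^2`, `α* = N(α)/α`, in all conjugates. -/
def Sol {d : ℕ} (θ : Fin d → ℂ) (p : ℕ) (n : ℤ) (a β : Fin d → ℤ) : Prop :=
  ∀ σ, (p : ℂ) ^ 2 * al θ β σ
    = ((n : ℂ) - θ σ) * (∏ ρ ∈ Finset.univ.erase σ, al θ a ρ) ^ 2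

/-- the inverse Vandermonde matrix: `β_j = ∑ σ, W j σ * β(θ_σ)` -/
def W {d : ℕ} (θ : Fin d → ℂ) : Matrix (Fin d) (Fin d) ℂ := (Matrix.vandermonde θ)⁻¹

/-- the exponent `C(k,2) + C(2d-k,2)` -/
def ek (d k : ℕ) : ℕ := k * (k - 1) / 2 + (2 * d - k) * (2 * d - k - 1) / 2

end

end Pool.Agent.Lib.Sqf4
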