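import Pool.Agent.Lib.Sqf4.Defs

set_option autoImplicit false

namespace Pool.Agent.Lib.Sqf4

open Polynomial

noncomputable section

private lemma Det_expand {n ι : Type*} [Fintype n] [DecidableEq n] [DecidableEq ι]
    (S : Finset ι) (c : n → ι → ℂ) (G : ι → n → ℂ) :
    Matrix.det (Matrix.of fun i col => ∑ m ∈ S, c i m * G m col) =
      ∑ r ∈ (Fintype.piFinset (fun _ : n => S)).filter (fun r => Function.Injective r),
        (∏ i, c i (r i)) * Matrix.det (Matrix.of fun i col => G (r i) col) := by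
  classical
  have h1 : ∀ M : Matrix n n ℂ,
      M.det = (Matrix.detRowAlternating (n := n) (R := ℂ)).toMultilinearMap M := fun _ => rfl
  rw [h1]
  have h2 : (Matrix.of fun i col => ∑ m ∈ S, c i m * G m col) =
      (fun i : n => ∑ m ∈ S, (c i m • G m : n → ℂ)) := by
    funext i col
    simp [Finset.sum_apply]
  rw [h2, MultilinearMap.map_sum_finset, Finset.sum_filter]
  refine Finset.sum_congr rfl ?_
  intro r _
  have h3 : (Matrix.detRowAlternating (n := n) (R := ℂ)).toMultilinearMap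
      (fun i => c i (r i) • G (r i)) =
      (∏ i, c i (r i)) * Matrix.det (Matrix.of fun i col => G (r i) col) := by
    rw [MultilinearMap.map_smul_univ, smul_eq_mul]
    rfl
  rw [h3]
  by_cases h : Function.Injective r
  · rw [if_pos h]
  · rw [if_neg h]
    have : ∃ j k, r j = r k ∧ j ≠ k := by
      unfold Function.Injective at h
      push Not at h
      exact h
    obtain ⟨j, k, h4, h5⟩ := this
    rw [Matrix.det_zero_of_row_eq h5 (by funext col; simp [h4]), mul_zero]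

private lemma Det_coeff_bd {ι : Type*} (s : Finset ι) (z : ι → ℂ) (C0 : ℝ) (hC0 : 1 ≤ C0)
    (hz : ∀ ρ ∈ s, ‖z ρ‖ ≤ C0) (R : ℂ[X]) (B : ℝ) (hR : ∀ m, ‖R.coeff m‖ ≤ B) :
    ∀ m, ‖((∏ ρ ∈ s, (X + C (z ρ))) * R).coeff m‖ ≤ (1 + C0) ^ s.card * B := by
  classical
  have hB : 0 ≤ B := (norm_nonneg _).trans (hR 0)
  induction s using Finset.induction_on with
  | empty => intro m; simpa using hR m
  | insert a s ha ih =>
    intro m
    have ih' := ih (fun ρ hρ => hz ρ (Finset.mem_insert_of_mem hρ))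
    rw [Finset.prod_insert ha, Finset.card_insert_of_notMem ha, mul_assoc, add_mul,
      Polynomial.coeff_add, Polynomial.coeff_C_mul]
    set Q := (∏ ρ ∈ s, (X + C (z ρ))) * R with hQ
    have h0 : 0 ≤ (1 + C0) ^ s.card * B := by positivity
    have h1 : ‖(X * Q).coeff m‖ ≤ (1 + C0) ^ s.card * B := by
      cases m with
      | zero => rw [Polynomial.coeff_X_mul_zero, norm_zero]; exact h0
      | succ m => rw [Polynomial.coeff_X_mul]; exact ih' m
    have h2 : ‖z a * Q.coeff m‖ ≤ C0 * ((1 + C0) ^ s.card * B) := by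
      rw [norm_mul]
      exact mul_le_mul (hz a (Finset.mem_insert_self a s)) (ih' m) (norm_nonneg _) (by linarith)
    calc ‖(X * Q).coeff m + z a * Q.coeff m‖ ≤ ‖(X * Q).coeff m‖ + ‖z a * Q.coeff m‖ :=
          norm_add_le _ _
      _ ≤ (1 + C0) ^ s.card * B + C0 * ((1 + C0) ^ s.card * B) := add_le_add h1 h2
      _ = (1 + C0) ^ (s.card + 1) * B := by ring

private lemma Det_sum_ge (T : Finset ℕ) : T.card * (T.card - 1) / 2 ≤ ∑ x ∈ T, x := by
  classical
  have h2 : ∑ x ∈ T, x = ∑ i : Fin T.card, T.orderEmbOfFin rfl i := by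
    rw [← Finset.sum_coe_sort T (fun x => x)]
    refine (Fintype.sum_equiv (T.orderIsoOfFin rfl).toEquiv _ _ ?_).symm
    intro i
    rfl
  have h3 : ∀ i : Fin T.card, (i : ℕ) ≤ T.orderEmbOfFin rfl i := by
    intro i
    obtain ⟨i, hi⟩ := i
    induction i with
    | zero => exact Nat.zero_le _
    | succ k ih =>
      have h4 := ih (by omega)
      have h5 : T.orderEmbOfFin rfl ⟨k, by omega⟩ < T.orderEmbOfFin rfl ⟨k + 1, hi⟩ :=
        (T.orderEmbOfFin rfl).strictMono (by simp [Fin.lt_def])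
      simp only at h4 ⊢
      omega
  rw [h2, ← Finset.sum_range_id, ← Fin.sum_univ_eq_sum_range (fun i => i) T.card]
  exact Finset.sum_le_sum (fun i _ => h3 i)

private lemma Det_norm_le {n : Type*} [Fintype n] [DecidableEq n] (M : Matrix n n ℂ) (B : ℝ)
    (h : ∀ i j, ‖M i j‖ ≤ B) :
    ‖M.det‖ ≤ ((Fintype.card n).factorial : ℝ) * B ^ (Fintype.card n) := by
  rw [Matrix.det_apply]
  refine (norm_sum_le _ _).trans ?_
  have h1 : ∀ σ : Equiv.Perm n, ‖(Equiv.Perm.sign σ : ℤˣ) • ∏ i, M (σ i) i‖ ≤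
      B ^ (Fintype.card n) := by
    intro σ
    have h2 : ‖(Equiv.Perm.sign σ : ℤˣ) • ∏ i, M (σ i) i‖ = ‖∏ i, M (σ i) i‖ := by
      rcases Int.units_eq_one_or (Equiv.Perm.sign σ) with h3 | h3
      · rw [h3, one_smul]
      · rw [h3, Units.neg_smul, one_smul, norm_neg]
    rw [h2, norm_prod]
    calc ∏ i, ‖M (σ i) i‖ ≤ ∏ _i : n, B :=
          Finset.prod_le_prod (fun _ _ => norm_nonneg _) (fun i _ => h _ _)
      _ = B ^ (Fintype.card n) := by rw [Finset.prod_const, Finset.card_univ]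
  refine (Finset.sum_le_sum (fun σ _ => h1 σ)).trans ?_
  rw [Finset.sum_const, Finset.card_univ, Fintype.card_perm, nsmul_eq_mul]

/-- product bound for an injective choice -/
private lemma Det_prod_le {d : ℕ} (ν τ : ℝ) (hν : 0 ≤ ν) (hτ : 0 ≤ τ) (hτ1 : τ ≤ 1)
    (r : Fin d ⊕ Fin d → Bool × ℕ) (hr : Function.Injective r) :
    ∏ i, ((if (r i).1 then ν else 1) * τ ^ (r i).2) ≤
      ∑ k ∈ Finset.range (2 * d + 1), ν ^ k * τ ^ ek d k := by
  classical
  set T : Finset (Fin d ⊕ Fin d) := Finset.univ.filter (fun i => (r i).1 = true) with hT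
  set k := T.card with hk
  have hcard : (Finset.univ : Finset (Fin d ⊕ Fin d)).card = 2 * d := by
    rw [Finset.card_univ, Fintype.card_sum, Fintype.card_fin]; ring
  have hk2 : k ≤ 2 * d := by rw [← hcard]; exact Finset.card_filter_le _ _
  have hcT : (Finset.univ.filter (fun i => ¬ (r i).1 = true)).card = 2 * d - k := by
    have h4 := Finset.card_filter_add_card_filter_not
      (s := (Finset.univ : Finset (Fin d ⊕ Fin d))) (fun i => (r i).1 = true)
    rw [hcard] at h4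
    have h5 : T.card + (Finset.univ.filter (fun i => ¬ (r i).1 = true)).card = 2 * d := h4
    omega
  have hinj1 : Set.InjOn (fun i => (r i).2) (T : Set (Fin d ⊕ Fin d)) := by
    intro i hi j hj hij
    apply hr
    have h1 := (Finset.mem_filter.1 hi).2
    have h2 := (Finset.mem_filter.1 hj).2
    exact Prod.ext (h1.trans h2.symm) hij
  have hinj2 : Set.InjOn (fun i => (r i).2)
      ((Finset.univ.filter (fun i => ¬ (r i).1 = true) : Finset (Fin d ⊕ Fin d)) :
        Set (Fin d ⊕ Fin d)) := by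
    intro i hi j hj hij
    apply hr
    have h1 := (Finset.mem_filter.1 hi).2
    have h2 := (Finset.mem_filter.1 hj).2
    rw [Bool.not_eq_true] at h1 h2
    exact Prod.ext (h1.trans h2.symm) hij
  have hs1 : k * (k - 1) / 2 ≤ ∑ i ∈ T, (r i).2 := by
    have h1 := Det_sum_ge (T.image (fun i => (r i).2))
    rw [Finset.card_image_of_injOn hinj1, Finset.sum_image hinj1] at h1
    exact h1
  have hs2 : (2 * d - k) * (2 * d - k - 1) / 2 ≤
      ∑ i ∈ Finset.univ.filter (fun i => ¬ (r i).1 = true), (r i).2 := by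
    have h1 := Det_sum_ge ((Finset.univ.filter (fun i => ¬ (r i).1 = true)).image
      (fun i => (r i).2))
    rw [Finset.card_image_of_injOn hinj2, Finset.sum_image hinj2, hcT] at h1
    exact h1
  have hsum : ek d k ≤ ∑ i, (r i).2 := by
    rw [← Finset.sum_filter_add_sum_filter_not Finset.univ (fun i => (r i).1 = true)]
    exact add_le_add hs1 hs2
  have h1 : ∏ i, ((if (r i).1 then ν else 1) * τ ^ (r i).2) = ν ^ k * τ ^ (∑ i, (r i).2) := by
    rw [Finset.prod_mul_distrib, Finset.prod_pow_eq_pow_sum, Finset.prod_ite, Finset.prod_const,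
      Finset.prod_const_one, mul_one]
  rw [h1]
  have h2 : ν ^ k * τ ^ (∑ i, (r i).2) ≤ ν ^ k * τ ^ ek d k :=
    mul_le_mul_of_nonneg_left (pow_le_pow_of_le_one hτ hτ1 hsum) (by positivity)
  refine h2.trans ?_
  exact Finset.single_le_sum (f := fun k => ν ^ k * τ ^ ek d k)
    (fun _ _ => by positivity) (Finset.mem_range.2 (by omega))

/-- the square of the product, as a polynomial -/
private def Det_P {d : ℕ} (z : Fin d → ℂ) (σ : Fin d) : ℂ[X] :=
  (∏ ρ ∈ Finset.univ.erase σ, (X + C (z ρ))) ^ 2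

private lemma Det_P_eval {d : ℕ} (z : Fin d → ℂ) (σ : Fin d) (x : ℂ) :
    (Det_P z σ).eval x = (∏ ρ ∈ Finset.univ.erase σ, (x + z ρ)) ^ 2 := by
  unfold Det_P
  rw [Polynomial.eval_pow, Polynomial.eval_prod]
  simp

private lemma Det_P_deg {d : ℕ} (z : Fin d → ℂ) (σ : Fin d) :
    (Det_P z σ).natDegree < 2 * d - 1 := by
  classical
  have hd : 0 < d := σ.pos
  unfold Det_P
  have h1 : (∏ ρ ∈ Finset.univ.erase σ, (X + C (z ρ)) : ℂ[X]).natDegree ≤ d - 1 := by
    refine (Polynomial.natDegree_prod_le _ _).trans ?_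
    refine (Finset.sum_le_sum (g := fun _ => 1) (fun ρ _ => ?_)).trans ?_
    · rw [Polynomial.natDegree_X_add_C]
    · rw [Finset.sum_const, Finset.card_erase_of_mem (Finset.mem_univ σ), Finset.card_univ,
        Fintype.card_fin, smul_eq_mul, mul_one]
  have h2 := Polynomial.natDegree_pow_le
    (p := (∏ ρ ∈ Finset.univ.erase σ, (X + C (z ρ)) : ℂ[X])) (n := 2)
  omega

private lemma Det_P_coeff {d : ℕ} (z : Fin d → ℂ) (C0 : ℝ) (hC0 : 1 ≤ C0)
    (hz : ∀ ρ, ‖z ρ‖ ≤ C0) (σ : Fin d) (m : ℕ) :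
    ‖(Det_P z σ).coeff m‖ ≤ (1 + C0) ^ (2 * d) := by
  classical
  unfold Det_P
  have h1 := Det_coeff_bd (Finset.univ.erase σ) z C0 hC0 (fun ρ _ => hz ρ) 1 1 (by
    intro m
    rw [Polynomial.coeff_one]
    split_ifs <;> simp)
  have h2 := Det_coeff_bd (Finset.univ.erase σ) z C0 hC0 (fun ρ _ => hz ρ) _ _ h1 m
  rw [mul_one, mul_one, ← pow_add, ← pow_two] at h2
  refine h2.trans ?_
  apply pow_le_pow_right₀ (by linarith)
  have h3 : (Finset.univ.erase σ).card ≤ d := by
    refine (Finset.card_erase_le).trans ?_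
    rw [Finset.card_univ, Fintype.card_fin]
  omega

/-- THE DETERMINANT OF A WINDOW.  `2d` rows `(b_i, x_i b_i)`, where
`b_(i,j) = ∑ σ, w j σ * (y_i - ν θ_σ) * ∏_(ρ ≠ σ) (x_i + z_ρ)^2`, with `|x_i| ≤ τ ≤ 1`,
`|y_i| ≤ 1`, `|z_ρ| ≤ C0`.  Then the determinant is at most
`C * ∑_k ν^k τ^(C(k,2) + C(2d-k,2))`.

PROOF: `∏_(ρ ≠ σ) (x + z_ρ)^2 = ∑_m φ_(σ,m) x^m` (`m ≤ 2d-2`, coefficients bounded in terms of
`C0` and `d`), so row `i` is `∑_(t ∈ {0,1}, m ≤ 2d-1) c_(i,t,m) G_(t,m)` with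
`c_(i,0,m) = y_i x_i^m`, `c_(i,1,m) = ν x_i^m` and vectors `G_(t,m)` with bounded entries
(depending on `z`, not on `i`).  By multilinearity (`MultilinearMap.map_sum`,
`Matrix.detRowAlternating`) the determinant is the sum over `r : rows → {0,1} × {0..2d-1}` of
`∏_i c_(i, r i) * det (G_(r i))_i`; it vanishes unless `r` is injective; for injective `r` with
`k` rows of type 1 the exponents on the rows of one type are distinct, so
`∑ m_i ≥ C(k,2) + C(2d-k,2)` and `∏ |c| ≤ ν^k τ^(ek d k)`; `|det G| ≤ (2d)! * Cst^(2d)`. -/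
theorem det_bd {d : ℕ} (w : Matrix (Fin d) (Fin d) ℂ) (θ : Fin d → ℂ) (C0 : ℝ)
    (hC0 : 1 ≤ C0) : ∃ C : ℝ, 1 ≤ C ∧
    ∀ (z : Fin d → ℂ) (_ : ∀ ρ, ‖z ρ‖ ≤ C0) (ν τ : ℝ) (_ : 0 ≤ ν) (_ : 0 ≤ τ) (_ : τ ≤ 1)
      (x y : Fin d ⊕ Fin d → ℝ) (_ : ∀ i, |x i| ≤ τ) (_ : ∀ i, |y i| ≤ 1),
      ‖Matrix.det (Matrix.of fun i : Fin d ⊕ Fin d => Sum.elim
          (fun j : Fin d => ∑ σ, w j σ * ((y i : ℂ) - (ν : ℂ) * θ σ)
            * (∏ ρ ∈ Finset.univ.erase σ, ((x i : ℂ) + z ρ)) ^ 2)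
          (fun j : Fin d => (x i : ℂ) * ∑ σ, w j σ * ((y i : ℂ) - (ν : ℂ) * θ σ)
            * (∏ ρ ∈ Finset.univ.erase σ, ((x i : ℂ) + z ρ)) ^ 2))‖
        ≤ C * ∑ k ∈ Finset.range (2 * d + 1), ν ^ k * τ ^ ek d k := by
  classical
  set B : ℝ := 1 + ∑ j, ∑ σ, ‖w j σ‖ * (1 + ‖θ σ‖) * (1 + C0) ^ (2 * d) with hB
  have hB1 : 1 ≤ B := by
    rw [hB]
    have : 0 ≤ ∑ j, ∑ σ, ‖w j σ‖ * (1 + ‖θ σ‖) * (1 + C0) ^ (2 * d) :=
      Finset.sum_nonneg (fun j _ => Finset.sum_nonneg (fun σ _ => by positivity))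
    linarith
  set S : Finset (Bool × ℕ) := Finset.univ ×ˢ Finset.range (2 * d) with hS
  set C : ℝ := 1 + (S.card : ℝ) ^ (Fintype.card (Fin d ⊕ Fin d)) *
    (((Fintype.card (Fin d ⊕ Fin d)).factorial : ℝ) * B ^ (Fintype.card (Fin d ⊕ Fin d))) with hC
  have hC1 : 0 ≤ (S.card : ℝ) ^ (Fintype.card (Fin d ⊕ Fin d)) *
    (((Fintype.card (Fin d ⊕ Fin d)).factorial : ℝ) * B ^ (Fintype.card (Fin d ⊕ Fin d))) := by
    positivity
  refine ⟨C, by rw [hC]; linarith, ?_⟩
  intro z hz ν τ hν hτ hτ1 x y hx hy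
  -- the vectors
  set g : Bool → ℕ → Fin d → ℂ := fun t m j =>
    if t then - ∑ σ, w j σ * θ σ * (Det_P z σ).coeff m else ∑ σ, w j σ * (Det_P z σ).coeff m
    with hg
  set G : Bool × ℕ → Fin d ⊕ Fin d → ℂ := fun tm => Sum.elim (fun j => g tm.1 tm.2 j)
    (fun j => if tm.2 = 0 then 0 else g tm.1 (tm.2 - 1) j) with hG
  set c : Fin d ⊕ Fin d → Bool × ℕ → ℂ := fun i tm =>
    (if tm.1 then (ν : ℂ) else (y i : ℂ)) * (x i : ℂ) ^ tm.2 with hc
  -- bound of the vectors
  have hgB : ∀ t m j, ‖g t m j‖ ≤ B := by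
    intro t m j
    have h1 : ∀ u : Fin d → ℂ, (∀ σ, ‖u σ‖ ≤ 1 + ‖θ σ‖) →
        ‖∑ σ, w j σ * u σ * (Det_P z σ).coeff m‖ ≤ B := by
      intro u hu
      refine (norm_sum_le _ _).trans ?_
      have h2 : ∑ σ, ‖w j σ * u σ * (Det_P z σ).coeff m‖ ≤
          ∑ σ, ‖w j σ‖ * (1 + ‖θ σ‖) * (1 + C0) ^ (2 * d) := by
        refine Finset.sum_le_sum (fun σ _ => ?_)
        rw [norm_mul, norm_mul]
        exact mul_le_mul (mul_le_mul_of_nonneg_left (hu σ) (norm_nonneg _))
          (Det_P_coeff z C0 hC0 hz σ m) (norm_nonneg _) (by positivity)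
      have h3 : ∑ σ, ‖w j σ‖ * (1 + ‖θ σ‖) * (1 + C0) ^ (2 * d) ≤
          ∑ j, ∑ σ, ‖w j σ‖ * (1 + ‖θ σ‖) * (1 + C0) ^ (2 * d) :=
        Finset.single_le_sum (f := fun j => ∑ σ, ‖w j σ‖ * (1 + ‖θ σ‖) * (1 + C0) ^ (2 * d))
          (fun j _ => Finset.sum_nonneg (fun σ _ => by positivity)) (Finset.mem_univ j)
      rw [hB]
      linarith
    rw [hg]
    simp only
    split_ifs
    · rw [norm_neg]
      exact h1 θ (fun σ => by linarith)
    · have h4 := h1 (fun _ => 1) (fun σ => by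
        rw [norm_one]; linarith [norm_nonneg (θ σ)])
      simpa using h4
  have hGB : ∀ tm col, ‖G tm col‖ ≤ B := by
    intro tm col
    rw [hG]
    rcases col with j | j
    · exact hgB _ _ _
    · simp only [Sum.elim_inr]
      split_ifs
      · rw [norm_zero]; linarith
      · exact hgB _ _ _
  -- expansion of the entries
  have hexp : ∀ i j, ∑ σ, w j σ * ((y i : ℂ) - (ν : ℂ) * θ σ)
      * (∏ ρ ∈ Finset.univ.erase σ, ((x i : ℂ) + z ρ)) ^ 2 =
      ∑ m ∈ Finset.range (2 * d - 1), ((y i : ℂ) * g false m j + (ν : ℂ) * g true m j) *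
        (x i : ℂ) ^ m := by
    intro i j
    have h1 : ∀ σ, (∏ ρ ∈ Finset.univ.erase σ, ((x i : ℂ) + z ρ)) ^ 2 =
        ∑ m ∈ Finset.range (2 * d - 1), (Det_P z σ).coeff m * (x i : ℂ) ^ m := by
      intro σ
      rw [← Det_P_eval]
      exact Polynomial.eval_eq_sum_range' (Det_P_deg z σ) _
    simp only [h1, Finset.mul_sum]
    rw [Finset.sum_comm]
    refine Finset.sum_congr rfl ?_
    intro m _
    simp only [hg, Bool.false_eq_true, if_false, if_true]
    rw [Finset.mul_sum, ← Finset.sum_neg_distrib, Finset.mul_sum, ← Finset.sum_add_distrib,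
      Finset.sum_mul]
    refine Finset.sum_congr rfl ?_
    intro σ _
    ring
  have hmat : (Matrix.of fun i : Fin d ⊕ Fin d => Sum.elim
          (fun j : Fin d => ∑ σ, w j σ * ((y i : ℂ) - (ν : ℂ) * θ σ)
            * (∏ ρ ∈ Finset.univ.erase σ, ((x i : ℂ) + z ρ)) ^ 2)
          (fun j : Fin d => (x i : ℂ) * ∑ σ, w j σ * ((y i : ℂ) - (ν : ℂ) * θ σ)
            * (∏ ρ ∈ Finset.univ.erase σ, ((x i : ℂ) + z ρ)) ^ 2)) =
      (Matrix.of fun i col => ∑ m ∈ S, c i m * G m col) := by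
    ext i col
    have hd : 0 < d := by
      rcases i with i | i <;> exact i.pos
    have hr : Finset.range (2 * d) = Finset.range ((2 * d - 1) + 1) := by
      congr 1; omega
    rcases col with j | j
    · simp only [Matrix.of_apply, Sum.elim_inl]
      rw [hexp, hS, Finset.sum_product_right, hr, Finset.sum_range_succ]
      have h0 : ∑ t : Bool, c i (t, 2 * d - 1) * G (t, 2 * d - 1) (Sum.inl j) = 0 := by
        have h1 : ∀ σ, (Det_P z σ).coeff (2 * d - 1) = 0 := fun σ =>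
          Polynomial.coeff_eq_zero_of_natDegree_lt (Det_P_deg z σ)
        simp [hG, hg, h1]
      rw [h0, add_zero]
      refine Finset.sum_congr rfl ?_
      intro m _
      rw [Fintype.sum_bool]
      simp only [hc, hG, Sum.elim_inl, if_true, Bool.false_eq_true, if_false]
      ring
    · simp only [Matrix.of_apply, Sum.elim_inr]
      rw [hexp, hS, Finset.sum_product_right, hr, Finset.sum_range_succ', Finset.mul_sum]
      have h0 : ∑ t : Bool, c i (t, 0) * G (t, 0) (Sum.inr j) = 0 := by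
        simp [hG]
      rw [h0, add_zero]
      refine Finset.sum_congr rfl ?_
      intro m _
      rw [Fintype.sum_bool]
      simp only [hc, hG, Sum.elim_inr, if_true, Bool.false_eq_true, if_false,
        Nat.add_eq_zero_iff, one_ne_zero, and_false, Nat.add_sub_cancel]
      ring
  rw [hmat, Det_expand]
  set V := ∑ k ∈ Finset.range (2 * d + 1), ν ^ k * τ ^ ek d k with hV
  have hV0 : 0 ≤ V := Finset.sum_nonneg (fun k _ => by positivity)
  refine (norm_sum_le _ _).trans ?_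
  have hterm : ∀ r ∈ (Fintype.piFinset (fun _ : Fin d ⊕ Fin d => S)).filter
      (fun r => Function.Injective r),
      ‖(∏ i, c i (r i)) * Matrix.det (Matrix.of fun i col => G (r i) col)‖ ≤
        V * (((Fintype.card (Fin d ⊕ Fin d)).factorial : ℝ) *
          B ^ (Fintype.card (Fin d ⊕ Fin d))) := by
    intro r hr
    have hinj := (Finset.mem_filter.1 hr).2
    rw [norm_mul, norm_prod]
    refine mul_le_mul ?_ (Det_norm_le _ B (fun i col => hGB _ _)) (norm_nonneg _) hV0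
    refine le_trans ?_ (Det_prod_le ν τ hν hτ hτ1 r hinj)
    refine Finset.prod_le_prod (fun _ _ => norm_nonneg _) (fun i _ => ?_)
    rw [hc]
    simp only
    rw [norm_mul, norm_pow]
    have h1 : ‖(x i : ℂ)‖ ≤ τ := by rw [Complex.norm_real]; exact hx i
    have h2 : ‖(if (r i).1 = true then (ν : ℂ) else (y i : ℂ))‖ ≤ if (r i).1 then ν else 1 := by
      split_ifs
      · rw [Complex.norm_real, Real.norm_of_nonneg hν]
      · rw [Complex.norm_real]; exact hy i
    have h3 : 0 ≤ (if (r i).1 then ν else 1 : ℝ) := by split_ifs <;> linarith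
    exact mul_le_mul h2 (pow_le_pow_left₀ (norm_nonneg _) h1 _) (by positivity) h3
  refine (Finset.sum_le_sum hterm).trans ?_
  rw [Finset.sum_const, nsmul_eq_mul]
  have hcardle : (((Fintype.piFinset (fun _ : Fin d ⊕ Fin d => S)).filter
      (fun r => Function.Injective r)).card : ℝ) ≤
      (S.card : ℝ) ^ (Fintype.card (Fin d ⊕ Fin d)) := by
    have h12 := Finset.card_filter_le (Fintype.piFinset (fun _ : Fin d ⊕ Fin d => S))
      (fun r => Function.Injective r)
    rw [Fintype.card_piFinset, Finset.prod_const, Finset.card_univ] at h12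
    exact_mod_cast h12
  have hpos : 0 ≤ ((Fintype.card (Fin d ⊕ Fin d)).factorial : ℝ) *
      B ^ (Fintype.card (Fin d ⊕ Fin d)) := by positivity
  calc _ ≤ (S.card : ℝ) ^ (Fintype.card (Fin d ⊕ Fin d)) *
        (V * (((Fintype.card (Fin d ⊕ Fin d)).factorial : ℝ) *
          B ^ (Fintype.card (Fin d ⊕ Fin d)))) :=
        mul_le_mul_of_nonneg_right hcardle (mul_nonneg hV0 hpos)
    _ = ((S.card : ℝ) ^ (Fintype.card (Fin d ⊕ Fin d)) *
        (((Fintype.card (Fin d ⊕ Fin d)).factorial : ℝ) *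
          B ^ (Fintype.card (Fin d ⊕ Fin d)))) * V := by ring
    _ ≤ C * V := by
        apply mul_le_mul_of_nonneg_right _ hV0
        rw [hC]; linarith

end

end Pool.Agent.Lib.Sqf4
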