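import Pool.Agent.Lib.Sqf4.Defs

set_option autoImplicit false

namespace Pool.Agent.Lib.Sqf4

open Polynomial

noncomputable section

private lemma DetN_expand {n ι : Type*} [Fintype n] [DecidableEq n] [DecidableEq ι]
    (S : Finset ι) (c : n → ι → ℂ) (G : ι → n → ℂ) :
    Matrix.det (Matrix.of fun i col => ∑ m ∈ S, c i m * G m col) =
      ∑ r ∈ (Fintype.piFinset (fun _ : n => S)).filter (fun r => Function.Injective r),
        (∏ i, c i (r i)) * Matrix.det (Matrix.of fun i col => G (r i) col) := by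
  classical
  have h1 : ∀ M : Matrix n n ℂ,
      M.det = (Matrix.detRowAlternating (n := n) (R := ℂ)).toMultilinearMap M := fun _ => rfl
  rw [h1]
  have h2 : (Matrix.of fun i col => ∑ m ∈ S, c i m * G m col) =
      (fun i : n => ∑ m ∈ S, (c i m • G m : n → ℂ)) := by
    funext i col
    simp [Finset.sum_apply]
  rw [h2, MultilinearMap.map_sum_finset, Finset.sum_filter]
  refine Finset.sum_congr rfl ?_
  intro r _
  have h3 : (Matrix.detRowAlternating (n := n) (R := ℂ)).toMultilinearMap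
      (fun i => c i (r i) • G (r i)) =
      (∏ i, c i (r i)) * Matrix.det (Matrix.of fun i col => G (r i) col) := by
    rw [MultilinearMap.map_smul_univ, smul_eq_mul]
    rfl
  rw [h3]
  by_cases h : Function.Injective r
  · rw [if_pos h]
  · rw [if_neg h]
    have : ∃ j k, r j = r k ∧ j ≠ k := by
      unfold Function.Injective at h
      push Not at h
      exact h
    obtain ⟨j, k, h4, h5⟩ := this
    rw [Matrix.det_zero_of_row_eq h5 (by funext col; simp [h4]), mul_zero]

private lemma DetN_coeff_bd {ι : Type*} (s : Finset ι) (z : ι → ℂ) (C0 : ℝ) (hC0 : 1 ≤ C0)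
    (hz : ∀ ρ ∈ s, ‖z ρ‖ ≤ C0) (R : ℂ[X]) (B : ℝ) (hR : ∀ m, ‖R.coeff m‖ ≤ B) :
    ∀ m, ‖((∏ ρ ∈ s, (X + C (z ρ))) * R).coeff m‖ ≤ (1 + C0) ^ s.card * B := by
  classical
  have hB : 0 ≤ B := (norm_nonneg _).trans (hR 0)
  induction s using Finset.induction_on with
  | empty => intro m; simpa using hR m
  | insert a s ha ih =>
    intro m
    have ih' := ih (fun ρ hρ => hz ρ (Finset.mem_insert_of_mem hρ))
    rw [Finset.prod_insert ha, Finset.card_insert_of_notMem ha, mul_assoc, add_mul,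
      Polynomial.coeff_add, Polynomial.coeff_C_mul]
    set Q := (∏ ρ ∈ s, (X + C (z ρ))) * R with hQ
    have h0 : 0 ≤ (1 + C0) ^ s.card * B := by positivity
    have h1 : ‖(X * Q).coeff m‖ ≤ (1 + C0) ^ s.card * B := by
      cases m with
      | zero => rw [Polynomial.coeff_X_mul_zero, norm_zero]; exact h0
      | succ m => rw [Polynomial.coeff_X_mul]; exact ih' m
    have h2 : ‖z a * Q.coeff m‖ ≤ C0 * ((1 + C0) ^ s.card * B) := by
      rw [norm_mul]
      exact mul_le_mul (hz a (Finset.mem_insert_self a s)) (ih' m) (norm_nonneg _) (by linarith)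
    calc ‖(X * Q).coeff m + z a * Q.coeff m‖ ≤ ‖(X * Q).coeff m‖ + ‖z a * Q.coeff m‖ :=
          norm_add_le _ _
      _ ≤ (1 + C0) ^ s.card * B + C0 * ((1 + C0) ^ s.card * B) := add_le_add h1 h2
      _ = (1 + C0) ^ (s.card + 1) * B := by ring

private lemma DetN_sum_ge (T : Finset ℕ) : T.card * (T.card - 1) / 2 ≤ ∑ x ∈ T, x := by
  classical
  have h2 : ∑ x ∈ T, x = ∑ i : Fin T.card, T.orderEmbOfFin rfl i := by
    rw [← Finset.sum_coe_sort T (fun x => x)]
    refine (Fintype.sum_equiv (T.orderIsoOfFin rfl).toEquiv _ _ ?_).symm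
    intro i
    rfl
  have h3 : ∀ i : Fin T.card, (i : ℕ) ≤ T.orderEmbOfFin rfl i := by
    intro i
    obtain ⟨i, hi⟩ := i
    induction i with
    | zero => exact Nat.zero_le _
    | succ k ih =>
      have h4 := ih (by omega)
      have h5 : T.orderEmbOfFin rfl ⟨k, by omega⟩ < T.orderEmbOfFin rfl ⟨k + 1, hi⟩ :=
        (T.orderEmbOfFin rfl).strictMono (by simp [Fin.lt_def])
      simp only at h4 ⊢
      omega
  rw [h2, ← Finset.sum_range_id, ← Fin.sum_univ_eq_sum_range (fun i => i) T.card]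
  exact Finset.sum_le_sum (fun i _ => h3 i)

private lemma DetN_norm_le {n : Type*} [Fintype n] [DecidableEq n] (M : Matrix n n ℂ) (B : ℝ)
    (h : ∀ i j, ‖M i j‖ ≤ B) :
    ‖M.det‖ ≤ ((Fintype.card n).factorial : ℝ) * B ^ (Fintype.card n) := by
  rw [Matrix.det_apply]
  refine (norm_sum_le _ _).trans ?_
  have h1 : ∀ σ : Equiv.Perm n, ‖(Equiv.Perm.sign σ : ℤˣ) • ∏ i, M (σ i) i‖ ≤
      B ^ (Fintype.card n) := by
    intro σ
    have h2 : ‖(Equiv.Perm.sign σ : ℤˣ) • ∏ i, M (σ i) i‖ = ‖∏ i, M (σ i) i‖ := by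
      rcases Int.units_eq_one_or (Equiv.Perm.sign σ) with h3 | h3
      · rw [h3, one_smul]
      · rw [h3, Units.neg_smul, one_smul, norm_neg]
    rw [h2, norm_prod]
    calc ∏ i, ‖M (σ i) i‖ ≤ ∏ _i : n, B :=
          Finset.prod_le_prod (fun _ _ => norm_nonneg _) (fun i _ => h _ _)
      _ = B ^ (Fintype.card n) := by rw [Finset.prod_const, Finset.card_univ]
  refine (Finset.sum_le_sum (fun σ _ => h1 σ)).trans ?_
  rw [Finset.sum_const, Finset.card_univ, Fintype.card_perm, nsmul_eq_mul]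

/-- product bound for an injective choice -/
private lemma DetN_prod_le {ι : Type*} [Fintype ι] [DecidableEq ι] (ν τ : ℝ) (hν : 0 ≤ ν)
    (hτ : 0 ≤ τ) (hτ1 : τ ≤ 1) (r : ι → Bool × ℕ) (hr : Function.Injective r) :
    ∏ i, ((if (r i).1 then ν else 1) * τ ^ (r i).2) ≤
      ∑ k ∈ Finset.range (Fintype.card ι + 1), ν ^ k * τ ^ (k * (k - 1) / 2 +
        (Fintype.card ι - k) * (Fintype.card ι - k - 1) / 2) := by
  classical
  set T : Finset ι := Finset.univ.filter (fun i => (r i).1 = true) with hT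
  set k := T.card with hk
  have hcard : (Finset.univ : Finset ι).card = Fintype.card ι := Finset.card_univ
  have hk2 : k ≤ Fintype.card ι := by rw [← hcard]; exact Finset.card_filter_le _ _
  have hcT : (Finset.univ.filter (fun i => ¬ (r i).1 = true)).card = Fintype.card ι - k := by
    have h4 := Finset.card_filter_add_card_filter_not
      (s := (Finset.univ : Finset ι)) (fun i => (r i).1 = true)
    rw [hcard] at h4
    have h5 : T.card + (Finset.univ.filter (fun i => ¬ (r i).1 = true)).card =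
      Fintype.card ι := h4
    omega
  have hinj1 : Set.InjOn (fun i => (r i).2) (T : Set ι) := by
    intro i hi j hj hij
    apply hr
    have h1 := (Finset.mem_filter.1 hi).2
    have h2 := (Finset.mem_filter.1 hj).2
    exact Prod.ext (h1.trans h2.symm) hij
  have hinj2 : Set.InjOn (fun i => (r i).2)
      ((Finset.univ.filter (fun i => ¬ (r i).1 = true) : Finset ι) : Set ι) := by
    intro i hi j hj hij
    apply hr
    have h1 := (Finset.mem_filter.1 hi).2
    have h2 := (Finset.mem_filter.1 hj).2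
    rw [Bool.not_eq_true] at h1 h2
    exact Prod.ext (h1.trans h2.symm) hij
  have hs1 : k * (k - 1) / 2 ≤ ∑ i ∈ T, (r i).2 := by
    have h1 := DetN_sum_ge (T.image (fun i => (r i).2))
    rw [Finset.card_image_of_injOn hinj1, Finset.sum_image hinj1] at h1
    exact h1
  have hs2 : (Fintype.card ι - k) * (Fintype.card ι - k - 1) / 2 ≤
      ∑ i ∈ Finset.univ.filter (fun i => ¬ (r i).1 = true), (r i).2 := by
    have h1 := DetN_sum_ge ((Finset.univ.filter (fun i => ¬ (r i).1 = true)).image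
      (fun i => (r i).2))
    rw [Finset.card_image_of_injOn hinj2, Finset.sum_image hinj2, hcT] at h1
    exact h1
  have hsum : k * (k - 1) / 2 + (Fintype.card ι - k) * (Fintype.card ι - k - 1) / 2 ≤
      ∑ i, (r i).2 := by
    rw [← Finset.sum_filter_add_sum_filter_not Finset.univ (fun i => (r i).1 = true)]
    exact add_le_add hs1 hs2
  have h1 : ∏ i, ((if (r i).1 then ν else 1) * τ ^ (r i).2) = ν ^ k * τ ^ (∑ i, (r i).2) := by
    rw [Finset.prod_mul_distrib, Finset.prod_pow_eq_pow_sum, Finset.prod_ite, Finset.prod_const,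
      Finset.prod_const_one, mul_one]
  rw [h1]
  have h2 : ν ^ k * τ ^ (∑ i, (r i).2) ≤ ν ^ k * τ ^ (k * (k - 1) / 2 +
      (Fintype.card ι - k) * (Fintype.card ι - k - 1) / 2) :=
    mul_le_mul_of_nonneg_left (pow_le_pow_of_le_one hτ hτ1 hsum) (by positivity)
  refine h2.trans ?_
  exact Finset.single_le_sum (f := fun k => ν ^ k * τ ^ (k * (k - 1) / 2 +
      (Fintype.card ι - k) * (Fintype.card ι - k - 1) / 2))
    (fun _ _ => by positivity) (Finset.mem_range.2 (by omega))

/-- the square of the product, as a polynomial -/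
private def DetN_P {d : ℕ} (z : Fin d → ℂ) (σ : Fin d) : ℂ[X] :=
  (∏ ρ ∈ Finset.univ.erase σ, (X + C (z ρ))) ^ 2

private lemma DetN_P_eval {d : ℕ} (z : Fin d → ℂ) (σ : Fin d) (x : ℂ) :
    (DetN_P z σ).eval x = (∏ ρ ∈ Finset.univ.erase σ, (x + z ρ)) ^ 2 := by
  unfold DetN_P
  rw [Polynomial.eval_pow, Polynomial.eval_prod]
  simp

private lemma DetN_P_deg {d : ℕ} (z : Fin d → ℂ) (σ : Fin d) :
    (DetN_P z σ).natDegree < 2 * d - 1 := by
  classical
  have hd : 0 < d := σ.pos
  unfold DetN_P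
  have h1 : (∏ ρ ∈ Finset.univ.erase σ, (X + C (z ρ)) : ℂ[X]).natDegree ≤ d - 1 := by
    refine (Polynomial.natDegree_prod_le _ _).trans ?_
    refine (Finset.sum_le_sum (g := fun _ => 1) (fun ρ _ => ?_)).trans ?_
    · rw [Polynomial.natDegree_X_add_C]
    · rw [Finset.sum_const, Finset.card_erase_of_mem (Finset.mem_univ σ), Finset.card_univ,
        Fintype.card_fin, smul_eq_mul, mul_one]
  have h2 := Polynomial.natDegree_pow_le
    (p := (∏ ρ ∈ Finset.univ.erase σ, (X + C (z ρ)) : ℂ[X])) (n := 2)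
  omega

private lemma DetN_P_coeff {d : ℕ} (z : Fin d → ℂ) (C0 : ℝ) (hC0 : 1 ≤ C0)
    (hz : ∀ ρ, ‖z ρ‖ ≤ C0) (σ : Fin d) (m : ℕ) :
    ‖(DetN_P z σ).coeff m‖ ≤ (1 + C0) ^ (2 * d) := by
  classical
  unfold DetN_P
  have h1 := DetN_coeff_bd (Finset.univ.erase σ) z C0 hC0 (fun ρ _ => hz ρ) 1 1 (by
    intro m
    rw [Polynomial.coeff_one]
    split_ifs <;> simp)
  have h2 := DetN_coeff_bd (Finset.univ.erase σ) z C0 hC0 (fun ρ _ => hz ρ) _ _ h1 m
  rw [mul_one, mul_one, ← pow_add, ← pow_two] at h2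
  refine h2.trans ?_
  apply pow_le_pow_right₀ (by linarith)
  have h3 : (Finset.univ.erase σ).card ≤ d := by
    refine (Finset.card_erase_le).trans ?_
    rw [Finset.card_univ, Fintype.card_fin]
  omega

/-- THE DETERMINANT OF A WINDOW, general columns.  Rows `i : ι`, columns `c : ι`, entry
`x_i^(e c) * ∑ σ, w (jc c) σ * (y_i - ν θ_σ) * ∏_(ρ ≠ σ) (x_i + z_ρ)^2`, with `|x_i| ≤ τ ≤ 1`,
`|y_i| ≤ 1`, `|z_ρ| ≤ C0`, `N = card ι`.  Then the determinant is at most
`C * ∑_(k ≤ N) ν^k τ^(C(k,2) + C(N-k,2))`. -/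
theorem det_bdN {d : ℕ} {ι : Type*} [Fintype ι] [DecidableEq ι]
    (w : Matrix (Fin d) (Fin d) ℂ) (θ : Fin d → ℂ) (C0 : ℝ)
    (hC0 : 1 ≤ C0) (e : ι → ℕ) (jc : ι → Fin d) : ∃ C : ℝ, 1 ≤ C ∧
    ∀ (z : Fin d → ℂ) (_ : ∀ ρ, ‖z ρ‖ ≤ C0) (ν τ : ℝ) (_ : 0 ≤ ν) (_ : 0 ≤ τ) (_ : τ ≤ 1)
      (x y : ι → ℝ) (_ : ∀ i, |x i| ≤ τ) (_ : ∀ i, |y i| ≤ 1),
      ‖Matrix.det (Matrix.of fun i c : ι => (x i : ℂ) ^ (e c) *
          ∑ σ, w (jc c) σ * ((y i : ℂ) - (ν : ℂ) * θ σ)
            * (∏ ρ ∈ Finset.univ.erase σ, ((x i : ℂ) + z ρ)) ^ 2)‖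
        ≤ C * ∑ k ∈ Finset.range (Fintype.card ι + 1), ν ^ k * τ ^ (k * (k - 1) / 2 +
            (Fintype.card ι - k) * (Fintype.card ι - k - 1) / 2) := by
  classical
  set B : ℝ := 1 + ∑ j, ∑ σ, ‖w j σ‖ * (1 + ‖θ σ‖) * (1 + C0) ^ (2 * d) with hB
  have hB1 : 1 ≤ B := by
    rw [hB]
    have : 0 ≤ ∑ j, ∑ σ, ‖w j σ‖ * (1 + ‖θ σ‖) * (1 + C0) ^ (2 * d) :=
      Finset.sum_nonneg (fun j _ => Finset.sum_nonneg (fun σ _ => by positivity))
    linarith
  set E : ℕ := Finset.univ.sup e with hE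
  have hEle : ∀ c, e c ≤ E := fun c => Finset.le_sup (f := e) (Finset.mem_univ c)
  set S : Finset (Bool × ℕ) := Finset.univ ×ˢ Finset.range (2 * d + E) with hS
  set C : ℝ := 1 + (S.card : ℝ) ^ (Fintype.card ι) *
    (((Fintype.card ι).factorial : ℝ) * B ^ (Fintype.card ι)) with hC
  have hC1 : 0 ≤ (S.card : ℝ) ^ (Fintype.card ι) *
    (((Fintype.card ι).factorial : ℝ) * B ^ (Fintype.card ι)) := by
    positivity
  refine ⟨C, by rw [hC]; linarith, ?_⟩
  intro z hz ν τ hν hτ hτ1 x y hx hy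
  -- the polynomials
  set A : Bool → Fin d → ℂ[X] := fun t j =>
    ∑ σ, Polynomial.C (w j σ * (if t then - θ σ else 1)) * DetN_P z σ with hA
  set G : Bool × ℕ → ι → ℂ := fun tm c => (X ^ (e c) * A tm.1 (jc c)).coeff tm.2 with hG
  set c : ι → Bool × ℕ → ℂ := fun i tm =>
    (if tm.1 then (ν : ℂ) else (y i : ℂ)) * (x i : ℂ) ^ tm.2 with hc
  have hAB : ∀ t j m, ‖(A t j).coeff m‖ ≤ B := by
    intro t j m
    rw [hA]
    simp only [Polynomial.finsetSum_coeff, Polynomial.coeff_C_mul]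
    refine (norm_sum_le _ _).trans ?_
    have h2 : ∑ σ, ‖w j σ * (if t then - θ σ else 1) * (DetN_P z σ).coeff m‖ ≤
        ∑ σ, ‖w j σ‖ * (1 + ‖θ σ‖) * (1 + C0) ^ (2 * d) := by
      refine Finset.sum_le_sum (fun σ _ => ?_)
      rw [norm_mul, norm_mul]
      refine mul_le_mul (mul_le_mul_of_nonneg_left ?_ (norm_nonneg _))
        (DetN_P_coeff z C0 hC0 hz σ m) (norm_nonneg _) (by positivity)
      split_ifs
      · rw [norm_neg]; linarith
      · rw [norm_one]; linarith [norm_nonneg (θ σ)]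
    have h3 : ∑ σ, ‖w j σ‖ * (1 + ‖θ σ‖) * (1 + C0) ^ (2 * d) ≤
        ∑ j, ∑ σ, ‖w j σ‖ * (1 + ‖θ σ‖) * (1 + C0) ^ (2 * d) :=
      Finset.single_le_sum (f := fun j => ∑ σ, ‖w j σ‖ * (1 + ‖θ σ‖) * (1 + C0) ^ (2 * d))
        (fun j _ => Finset.sum_nonneg (fun σ _ => by positivity)) (Finset.mem_univ j)
    rw [hB]
    linarith
  have hGB : ∀ tm col, ‖G tm col‖ ≤ B := by
    intro tm col
    rw [hG]
    simp only [Polynomial.coeff_X_pow_mul']
    split_ifs
    · exact hAB _ _ _
    · rw [norm_zero]; linarith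
  have hmat : (Matrix.of fun i c : ι => (x i : ℂ) ^ (e c) *
          ∑ σ, w (jc c) σ * ((y i : ℂ) - (ν : ℂ) * θ σ)
            * (∏ ρ ∈ Finset.univ.erase σ, ((x i : ℂ) + z ρ)) ^ 2) =
      (Matrix.of fun i col => ∑ m ∈ S, c i m * G m col) := by
    ext i col
    simp only [Matrix.of_apply]
    have h5 : ∀ t, ∑ m ∈ Finset.range (2 * d + E), (x i : ℂ) ^ m * G (t, m) col =
        (x i : ℂ) ^ (e col) * ∑ σ, w (jc col) σ * (if t then - θ σ else 1) *
          (∏ ρ ∈ Finset.univ.erase σ, ((x i : ℂ) + z ρ)) ^ 2 := by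
      intro t
      have h6 : (X ^ (e col) * A t (jc col)).eval (x i : ℂ) = (x i : ℂ) ^ (e col) *
          ∑ σ, w (jc col) σ * (if t then - θ σ else 1) *
          (∏ ρ ∈ Finset.univ.erase σ, ((x i : ℂ) + z ρ)) ^ 2 := by
        rw [hA]
        simp only [Polynomial.eval_mul, Polynomial.eval_pow, Polynomial.eval_X,
          Polynomial.eval_finsetSum, Polynomial.eval_C, DetN_P_eval]
      rw [← h6]
      have h7 : (X ^ (e col) * A t (jc col)).natDegree < 2 * d + E := by
        have h1 := Polynomial.natDegree_mul_le (p := (X ^ (e col) : ℂ[X])) (q := A t (jc col))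
        have h2 := Polynomial.natDegree_X_pow_le (R := ℂ) (e col)
        have h4 := hEle col
        have h8 : (A t (jc col)).natDegree < 2 * d := by
          have h9 : (A t (jc col)).natDegree ≤ 2 * d - 1 := by
            rw [hA]
            refine Polynomial.natDegree_sum_le_of_forall_le _ _ (fun σ _ => ?_)
            exact (Polynomial.natDegree_C_mul_le _ _).trans (by
              have := DetN_P_deg z σ
              omega)
          have := (jc col).pos
          omega
        omega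
      rw [Polynomial.eval_eq_sum_range' h7]
      refine Finset.sum_congr rfl (fun m _ => ?_)
      rw [mul_comm]
    rw [hS, Finset.sum_product, Fintype.sum_bool]
    have h8 : ∀ t : Bool, ∑ m ∈ Finset.range (2 * d + E), c i (t, m) * G (t, m) col =
        (if t then (ν : ℂ) else (y i : ℂ)) *
          ((x i : ℂ) ^ (e col) * ∑ σ, w (jc col) σ * (if t then - θ σ else 1) *
          (∏ ρ ∈ Finset.univ.erase σ, ((x i : ℂ) + z ρ)) ^ 2) := by
      intro t
      rw [← h5 t, Finset.mul_sum]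
      refine Finset.sum_congr rfl (fun m _ => ?_)
      rw [hc]
      simp only
      ring
    rw [h8, h8]
    simp only [if_true, Bool.false_eq_true, if_false]
    simp only [Finset.mul_sum]
    rw [← Finset.sum_add_distrib]
    refine Finset.sum_congr rfl (fun σ _ => ?_)
    ring
  rw [hmat, DetN_expand]
  set V := ∑ k ∈ Finset.range (Fintype.card ι + 1), ν ^ k * τ ^ (k * (k - 1) / 2 +
            (Fintype.card ι - k) * (Fintype.card ι - k - 1) / 2) with hV
  have hV0 : 0 ≤ V := Finset.sum_nonneg (fun k _ => by positivity)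
  refine (norm_sum_le _ _).trans ?_
  have hterm : ∀ r ∈ (Fintype.piFinset (fun _ : ι => S)).filter
      (fun r => Function.Injective r),
      ‖(∏ i, c i (r i)) * Matrix.det (Matrix.of fun i col => G (r i) col)‖ ≤
        V * (((Fintype.card ι).factorial : ℝ) * B ^ (Fintype.card ι)) := by
    intro r hr
    have hinj := (Finset.mem_filter.1 hr).2
    rw [norm_mul, norm_prod]
    refine mul_le_mul ?_ (DetN_norm_le _ B (fun i col => hGB _ _)) (norm_nonneg _) hV0
    refine le_trans ?_ (DetN_prod_le ν τ hν hτ hτ1 r hinj)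
    refine Finset.prod_le_prod (fun _ _ => norm_nonneg _) (fun i _ => ?_)
    rw [hc]
    simp only
    rw [norm_mul, norm_pow]
    have h1 : ‖(x i : ℂ)‖ ≤ τ := by rw [Complex.norm_real]; exact hx i
    have h2 : ‖(if (r i).1 = true then (ν : ℂ) else (y i : ℂ))‖ ≤ if (r i).1 then ν else 1 := by
      split_ifs
      · rw [Complex.norm_real, Real.norm_of_nonneg hν]
      · rw [Complex.norm_real]; exact hy i
    have h3 : 0 ≤ (if (r i).1 then ν else 1 : ℝ) := by split_ifs <;> linarith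
    exact mul_le_mul h2 (pow_le_pow_left₀ (norm_nonneg _) h1 _) (by positivity) h3
  refine (Finset.sum_le_sum hterm).trans ?_
  rw [Finset.sum_const, nsmul_eq_mul]
  have hcardle : (((Fintype.piFinset (fun _ : ι => S)).filter
      (fun r => Function.Injective r)).card : ℝ) ≤
      (S.card : ℝ) ^ (Fintype.card ι) := by
    have h12 := Finset.card_filter_le (Fintype.piFinset (fun _ : ι => S))
      (fun r => Function.Injective r)
    rw [Fintype.card_piFinset, Finset.prod_const, Finset.card_univ] at h12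
    exact_mod_cast h12
  calc _ ≤ (S.card : ℝ) ^ (Fintype.card ι) *
        (V * (((Fintype.card ι).factorial : ℝ) * B ^ (Fintype.card ι))) :=
        mul_le_mul_of_nonneg_right hcardle (mul_nonneg hV0 (by positivity))
    _ = ((S.card : ℝ) ^ (Fintype.card ι) *
        (((Fintype.card ι).factorial : ℝ) * B ^ (Fintype.card ι))) * V := by ring
    _ ≤ C * V := by
        apply mul_le_mul_of_nonneg_right _ hV0
        rw [hC]; linarith

end

end Pool.Agent.Lib.Sqf4
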