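import Pool.Agent.Lib.SQF4.TailMul

set_option autoImplicit false

/-!
# First range (MP_8842b2_nt): from one dyadic block and one monic irreducible polynomial to
every polynomial which is separable over `Q`.
-/

namespace Pool.Agent.Lib.Sqf4

open Polynomial Finset

/-- the dyadic input: `f` monic irreducible of degree `d ≥ 2`, `n` in `[1, X]`,
`P < p ≤ 2P`, `X / L ≤ P ≤ X^(1+1/(24d))` -/
def DyadicN : Prop := ∀ f : ℤ[X], f.Monic → Irreducible f → 2 ≤ f.natDegree → ∀ L : ℝ, 1 ≤ L →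
  ∃ C : ℝ, 1 ≤ C ∧ ∀ X P : ℝ, C ≤ X → X ≤ L * P →
    P ≤ X ^ (1 + 1 / (24 * (f.natDegree : ℝ))) →
    ∀ N : Finset ℤ, (∀ n ∈ N, 1 ≤ n ∧ (n : ℝ) ≤ X ∧
      ∃ p : ℕ, p.Prime ∧ P < p ∧ (p : ℝ) ≤ 2 * P ∧ (p : ℤ) ^ 2 ∣ f.eval n) →
    (N.card : ℝ) ≤ C * X ^ (1 - 1 / (96 * (f.natDegree : ℝ) ^ 2))

/-- few `n` with `|n| ≤ X` such that `p^2 ∣ f(n)` for a prime `p` with `X / L ≤ p ≤ X^(1+c)` -/
def FewN (f : ℤ[X]) (L c η : ℝ) : Prop :=
  ∃ C : ℝ, 1 ≤ C ∧ ∀ X : ℝ, 1 ≤ X →
    ∀ N : Finset ℤ, (∀ n ∈ N, |(n : ℝ)| ≤ X ∧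
      ∃ p : ℕ, p.Prime ∧ X ≤ L * p ∧ (p : ℝ) ≤ X ^ (1 + c) ∧ (p : ℤ) ^ 2 ∣ f.eval n) →
    (N.card : ℝ) ≤ C * X ^ (1 - η)

lemma FewN.mono {f : ℤ[X]} {L c η c' η' : ℝ} (hc : c' ≤ c) (hη : η' ≤ η)
    (h : FewN f L c η) : FewN f L c' η' := by
  obtain ⟨C, hC, h⟩ := h
  refine ⟨C, hC, ?_⟩
  intro X hX N hN
  have h1 := h X hX N (by
    intro n hn
    obtain ⟨ha, p, hp, hpL, hpX, hpd⟩ := hN n hn
    exact ⟨ha, p, hp, hpL, hpX.trans (Real.rpow_le_rpow_of_exponent_le hX (by linarith)), hpd⟩)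
  refine h1.trans ?_
  exact mul_le_mul_of_nonneg_left (Real.rpow_le_rpow_of_exponent_le hX (by linarith))
    (by linarith)

/-- the trivial bound -/
private lemma LastN_triv (X : ℝ) (hX : 1 ≤ X) (N : Finset ℤ) (h : ∀ n ∈ N, |(n : ℝ)| ≤ X) :
    (N.card : ℝ) ≤ 3 * X := by
  have h1 : N ⊆ Finset.Icc (-(⌊X⌋)) ⌊X⌋ := by
    intro n hn
    have h2 := abs_le.1 (h n hn)
    rw [Finset.mem_Icc]
    constructor
    · have h3 : -n ≤ ⌊X⌋ := by
        apply Int.le_floor.2
        push_cast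
        linarith
      omega
    · exact Int.le_floor.2 h2.2
  have h2 := Finset.card_le_card h1
  rw [Int.card_Icc] at h2
  have h3 : 0 ≤ ⌊X⌋ := Int.floor_nonneg.2 (by linarith)
  have h4 : ((⌊X⌋ + 1 - -⌊X⌋).toNat : ℝ) = 2 * (⌊X⌋ : ℝ) + 1 := by
    have h5 : ((⌊X⌋ + 1 - -⌊X⌋).toNat : ℤ) = 2 * ⌊X⌋ + 1 := by omega
    have h6 := congrArg (Int.cast : ℤ → ℝ) h5
    push_cast at h6
    exact h6
  have h5 : (N.card : ℝ) ≤ ((⌊X⌋ + 1 - -⌊X⌋).toNat : ℝ) := by exact_mod_cast h2
  have h6 := Int.floor_le X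
  linarith

/-- it suffices to treat large `X` -/
private lemma LastN_large (f : ℤ[X]) (L : ℝ) (c η C X0 : ℝ) (hη1 : η ≤ 1)
    (h : ∀ X : ℝ, 1 ≤ X → X0 ≤ X →
    ∀ N : Finset ℤ, (∀ n ∈ N, |(n : ℝ)| ≤ X ∧
      ∃ p : ℕ, p.Prime ∧ X ≤ L * p ∧ (p : ℝ) ≤ X ^ (1 + c) ∧ (p : ℤ) ^ 2 ∣ f.eval n) →
    (N.card : ℝ) ≤ C * X ^ (1 - η)) : FewN f L c η := by
  refine ⟨max 1 (max C (3 * X0)), le_max_left _ _, ?_⟩
  intro X hX N hN
  have hXp : 1 ≤ X ^ (1 - η) := Real.one_le_rpow hX (by linarith)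
  rcases le_or_gt X0 X with h1 | h1
  · refine (h X hX h1 N hN).trans ?_
    exact mul_le_mul_of_nonneg_right ((le_max_left _ _).trans (le_max_right _ _)) (by positivity)
  · have h2 := LastN_triv X hX N (fun n hn => (hN n hn).1)
    calc (N.card : ℝ) ≤ 3 * X0 := by linarith
      _ ≤ max 1 (max C (3 * X0)) := (le_max_right _ _).trans (le_max_right _ _)
      _ ≤ max 1 (max C (3 * X0)) * X ^ (1 - η) :=
          le_mul_of_one_le_right (le_trans zero_le_one (le_max_left _ _)) hXp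

/-- dyadic sum, positive `n` -/
private lemma LastN_pos (hD : DyadicN) (f : ℤ[X]) (hm : f.Monic) (hi : Irreducible f)
    (hd : 2 ≤ f.natDegree) (L : ℝ) (hL : 1 ≤ L) :
    ∃ C : ℝ, 1 ≤ C ∧ ∀ X : ℝ, C ≤ X →
    ∀ N : Finset ℤ, (∀ n ∈ N, 1 ≤ n ∧ (n : ℝ) ≤ X ∧
      ∃ p : ℕ, p.Prime ∧ X ≤ L * p ∧ (p : ℝ) ≤ X ^ (1 + 1 / (24 * (f.natDegree : ℝ))) ∧
        (p : ℤ) ^ 2 ∣ f.eval n) →
    (N.card : ℝ) ≤ C * X ^ (1 - 1 / (192 * (f.natDegree : ℝ) ^ 2)) := by
  classical
  obtain ⟨C0, hC0, h⟩ := hD f hm hi hd (2 * L) (by linarith)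
  have hd0 : (2 : ℝ) ≤ f.natDegree := by exact_mod_cast hd
  set c : ℝ := 1 / (24 * (f.natDegree : ℝ)) with hcdef
  have hc : 0 < c := by positivity
  set η1 : ℝ := 1 / (96 * (f.natDegree : ℝ) ^ 2) with hη1
  set η : ℝ := 1 / (192 * (f.natDegree : ℝ) ^ 2) with hη
  have hηη : η1 = 2 * η := by
    rw [hη, hη1]
    field_simp
    norm_num
  have hηp : 0 < η := by positivity
  have hlog2 : 0 < Real.log 2 := Real.log_pos (by norm_num)
  set D : ℝ := (1 + c) / (η * Real.log 2) + 2 with hDd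
  have hD0 : 0 < D := by positivity
  refine ⟨C0 * max 1 D, ?_, ?_⟩
  · calc (1 : ℝ) = 1 * 1 := by ring
      _ ≤ C0 * max 1 D := mul_le_mul hC0 (le_max_left _ _) (by norm_num) (by linarith)
  intro X hXC N hN
  have hXC0 : C0 ≤ X := by
    refine le_trans ?_ hXC
    exact le_mul_of_one_le_right (by linarith) (le_max_left _ _)
  have hX1 : 1 ≤ X := le_trans hC0 hXC0
  have hX0 : 0 < X := by linarith
  have hch : ∀ n ∈ N, ∃ p : ℕ, p.Prime ∧ X ≤ L * p ∧ (p : ℝ) ≤ X ^ (1 + c) ∧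
      (p : ℤ) ^ 2 ∣ f.eval n := fun n hn => (hN n hn).2.2
  choose! p hp hpL hpX hpd using hch
  set k : ℤ → ℕ := fun n => Nat.clog 2 (p n) with hk
  have hk1 : ∀ n ∈ N, (2 : ℝ) ^ (k n - 1) < p n ∧ (p n : ℝ) ≤ 2 * (2 : ℝ) ^ (k n - 1) ∧
      1 ≤ k n := by
    intro n hn
    have h1 : 1 < p n := (hp n hn).one_lt
    have h2 : 1 ≤ k n := Nat.clog_pos (by norm_num) (by omega)
    have h3 : 2 ^ (k n - 1) < p n := by
      have := Nat.pow_pred_clog_lt_self (b := 2) (by norm_num) h1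
      simpa [hk, Nat.pred_eq_sub_one] using this
    have h4 : p n ≤ 2 ^ (k n) := Nat.le_pow_clog (by norm_num) _
    refine ⟨by exact_mod_cast h3, ?_, h2⟩
    have h5 : (2 : ℝ) * 2 ^ (k n - 1) = 2 ^ (k n) := by
      rw [← pow_succ']
      congr 1
      omega
    rw [h5]
    exact_mod_cast h4
  -- every fibre is small
  set B : ℕ := ⌊C0 * X ^ (1 - η1)⌋₊ with hB
  have hfib : ∀ j ∈ N.image k, (N.filter (fun n => k n = j)).card ≤ B := by
    intro j hj
    obtain ⟨n0, hn0, hj0⟩ := Finset.mem_image.1 hj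
    have h1 := hk1 n0 hn0
    rw [hj0] at h1
    apply Nat.le_floor
    have h2 := h X ((2 : ℝ) ^ (j - 1)) hXC0 (by
      have := hpL n0 hn0
      nlinarith [h1.2.1]) (h1.1.le.trans (hpX n0 hn0)) (N.filter (fun n => k n = j)) (by
      intro n hn
      obtain ⟨hnN, hnj⟩ := Finset.mem_filter.1 hn
      have h3 := hk1 n hnN
      rw [hnj] at h3
      exact ⟨(hN n hnN).1, (hN n hnN).2.1, p n, hp n hnN, h3.1, h3.2.1, hpd n hnN⟩)
    exact h2
  have hcard := Finset.card_le_mul_card_image (f := k) N B hfib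
  -- the number of blocks
  have himg : N.image k ⊆ Finset.range (⌊(1 + c) * Real.log X / Real.log 2⌋₊ + 2) := by
    intro j hj
    obtain ⟨n0, hn0, hj0⟩ := Finset.mem_image.1 hj
    have h1 := hk1 n0 hn0
    rw [hj0] at h1
    rw [Finset.mem_range]
    have h2 : (2 : ℝ) ^ (j - 1) ≤ X ^ (1 + c) := h1.1.le.trans (hpX n0 hn0)
    have h3 : ((j - 1 : ℕ) : ℝ) * Real.log 2 ≤ (1 + c) * Real.log X := by
      have := Real.log_le_log (by positivity) h2
      rwa [Real.log_pow, Real.log_rpow hX0] at this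
    have h4 : ((j - 1 : ℕ) : ℝ) ≤ (1 + c) * Real.log X / Real.log 2 := by
      rw [le_div_iff₀ hlog2]; exact h3
    have h5 := Nat.le_floor h4
    omega
  have hblocks : ((N.image k).card : ℝ) ≤ D * X ^ η := by
    have h1 := Finset.card_le_card himg
    rw [Finset.card_range] at h1
    have hlog : 0 ≤ Real.log X := Real.log_nonneg hX1
    have h2 : ((⌊(1 + c) * Real.log X / Real.log 2⌋₊ + 2 : ℕ) : ℝ) ≤
        (1 + c) * Real.log X / Real.log 2 + 2 := by
      push_cast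
      have := Nat.floor_le (a := (1 + c) * Real.log X / Real.log 2) (by positivity)
      linarith
    have h3 : Real.log X ≤ X ^ η / η := Real.log_le_rpow_div hX0.le hηp
    have h4 : (1 + c) * Real.log X / Real.log 2 ≤ (1 + c) / (η * Real.log 2) * X ^ η := by
      have h5 : (1 + c) * Real.log X / Real.log 2 ≤ (1 + c) * (X ^ η / η) / Real.log 2 := by
        apply div_le_div_of_nonneg_right _ hlog2.le
        exact mul_le_mul_of_nonneg_left h3 (by linarith)
      refine h5.trans (le_of_eq ?_)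
      field_simp
    have h6 : 1 ≤ X ^ η := Real.one_le_rpow hX1 hηp.le
    have h7 : ((N.image k).card : ℝ) ≤
        ((⌊(1 + c) * Real.log X / Real.log 2⌋₊ + 2 : ℕ) : ℝ) := by exact_mod_cast h1
    rw [hDd, add_mul]
    linarith
  have hBle : (B : ℝ) ≤ C0 * X ^ (1 - η1) := Nat.floor_le (by positivity)
  calc (N.card : ℝ) ≤ (B : ℝ) * ((N.image k).card : ℝ) := by exact_mod_cast hcard
    _ ≤ (C0 * X ^ (1 - η1)) * (D * X ^ η) :=
        mul_le_mul hBle hblocks (by positivity) (by positivity)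
    _ = (C0 * D) * X ^ (1 - η) := by
        have : X ^ (1 - η) = X ^ (1 - η1) * X ^ η := by
          rw [← Real.rpow_add hX0]
          congr 1
          rw [hηη]
          ring
        rw [this]
        ring
    _ ≤ (C0 * max 1 D) * X ^ (1 - η) := by
        apply mul_le_mul_of_nonneg_right _ (by positivity)
        exact mul_le_mul_of_nonneg_left (le_max_right _ _) (by linarith)

/-- monic irreducible, both signs -/
private lemma LastN_monic (hD : DyadicN) (f : ℤ[X]) (hm : f.Monic) (hi : Irreducible f)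
    (hd : 2 ≤ f.natDegree) (L : ℝ) (hL : 1 ≤ L) :
    FewN f L (1 / (24 * (f.natDegree : ℝ))) (1 / (192 * (f.natDegree : ℝ) ^ 2)) := by
  classical
  set g : ℤ[X] := (-1) ^ f.natDegree * f.comp (-X) with hg
  have hgm : g.Monic := hm.neg_one_pow_natDegree_mul_comp_neg_X
  have hcomp : Irreducible (f.comp (-X)) := by
    have h1 : f.comp (-X) = (algEquivAevalNegX (R := ℤ)) f := by
      rw [algEquivAevalNegX_apply, Polynomial.comp, Polynomial.aeval_def]
      rfl
    rw [h1]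
    exact (MulEquiv.irreducible_iff (algEquivAevalNegX (R := ℤ)).toMulEquiv).2 hi
  have hgi : Irreducible g := by
    rw [hg]
    exact (irreducible_isUnit_mul ((isUnit_one.neg).pow _)).2 hcomp
  have hge : ∀ n : ℤ, g.eval n = (-1) ^ f.natDegree * f.eval (-n) := by
    intro n
    rw [hg]
    simp
  have hgf : g.natDegree = f.natDegree := by
    have h2 : (f.comp (-X)).natDegree = f.natDegree := by
      rw [Polynomial.natDegree_comp, Polynomial.natDegree_neg, Polynomial.natDegree_X, mul_one]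
    rcases neg_one_pow_eq_or ℤ[X] f.natDegree with h3 | h3
    · rw [hg, h3, one_mul, h2]
    · rw [hg, h3, neg_one_mul, Polynomial.natDegree_neg, h2]
  obtain ⟨C1, hC1, h1⟩ := LastN_pos hD f hm hi hd L hL
  obtain ⟨C2, hC2, h2⟩ := LastN_pos hD g hgm hgi (by omega) L hL
  rw [hgf] at h2
  have hd0 : (2 : ℝ) ≤ f.natDegree := by exact_mod_cast hd
  set c : ℝ := 1 / (24 * (f.natDegree : ℝ)) with hcdef
  set η : ℝ := 1 / (192 * (f.natDegree : ℝ) ^ 2) with hη
  have hη1 : η ≤ 1 := by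
    rw [hη, div_le_one (by positivity)]
    nlinarith
  refine LastN_large f L c η (C1 + C2 + 1) (max C1 C2) hη1 ?_
  intro X hX1 hX N hN
  have hX0 : 0 < X := by linarith
  have hXC1 : C1 ≤ X := (le_max_left _ _).trans hX
  have hXC2 : C2 ≤ X := (le_max_right _ _).trans hX
  set N1 := N.filter (fun n => 1 ≤ n) with hN1
  set N2 := (N.filter (fun n => n ≤ -1)).image (fun n => -n) with hN2
  have hb1 : (N1.card : ℝ) ≤ C1 * X ^ (1 - η) := by
    apply h1 X hXC1
    intro n hn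
    obtain ⟨hnN, hn1⟩ := Finset.mem_filter.1 hn
    obtain ⟨ha, p, hp, hpL, hpX, hpd⟩ := hN n hnN
    exact ⟨hn1, (le_abs_self _).trans ha, p, hp, hpL, hpX, hpd⟩
  have hb2 : (N2.card : ℝ) ≤ C2 * X ^ (1 - η) := by
    apply h2 X hXC2
    intro m hmm
    obtain ⟨n, hn, rfl⟩ := Finset.mem_image.1 hmm
    obtain ⟨hnN, hn1⟩ := Finset.mem_filter.1 hn
    obtain ⟨ha, p, hp, hpL, hpX, hpd⟩ := hN n hnN
    refine ⟨by omega, ?_, p, hp, hpL, hpX, ?_⟩
    · push_cast
      exact (neg_le_abs _).trans ha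
    · rw [hge, neg_neg]
      exact Dvd.dvd.mul_left hpd _
  have hcard : N.card ≤ N1.card + N2.card + 1 := by
    have h3 : N2.card = (N.filter (fun n => n ≤ -1)).card :=
      Finset.card_image_of_injective _ neg_injective
    have h4 : N ⊆ (N1 ∪ N.filter (fun n => n ≤ -1)) ∪ {0} := by
      intro n hn
      simp only [Finset.mem_union, Finset.mem_singleton, hN1, Finset.mem_filter]
      rcases lt_trichotomy n 0 with h5 | h5 | h5
      · exact Or.inl (Or.inr ⟨hn, by omega⟩)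
      · exact Or.inr h5
      · exact Or.inl (Or.inl ⟨hn, by omega⟩)
    have h5 := Finset.card_le_card h4
    have h6 := Finset.card_union_le (N1 ∪ N.filter (fun n => n ≤ -1)) {0}
    have h7 := Finset.card_union_le N1 (N.filter (fun n => n ≤ -1))
    rw [Finset.card_singleton] at h6
    omega
  have hcard' : (N.card : ℝ) ≤ N1.card + N2.card + 1 := by exact_mod_cast hcard
  have he3 : 1 ≤ X ^ (1 - η) := Real.one_le_rpow hX1 (by linarith)
  rw [add_mul, add_mul]
  linarith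

/-- the integral normalisation of an irreducible polynomial is irreducible -/
private lemma LastN_norm_irr (g : ℤ[X]) (hi : Irreducible g) (hd : 2 ≤ g.natDegree) :
    Irreducible g.integralNormalization := by
  have hg0 : g ≠ 0 := hi.ne_zero
  have hl0 : g.leadingCoeff ≠ 0 := Polynomial.leadingCoeff_ne_zero.2 hg0
  have hprim : g.IsPrimitive := hi.isPrimitive (by omega)
  have hgQ : Irreducible (g.map (Int.castRingHom ℚ)) :=
    (IsPrimitive.Int.irreducible_iff_irreducible_map_cast hprim).1 hi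
  have hmon : g.integralNormalization.Monic := monic_integralNormalization hg0
  rw [hmon.irreducible_iff_irreducible_map_fraction_map (K := ℚ)]
  set l : ℚ := (g.leadingCoeff : ℚ) with hl
  have hlq : l ≠ 0 := by rw [hl]; exact_mod_cast hl0
  have : Invertible l := invertibleOfNonzero hlq
  have h1 := integralNormalization_eval₂_leadingCoeff_mul (p := g) (by omega)
    ((Polynomial.C : ℚ →+* ℚ[X]).comp (Int.castRingHom ℚ)) (X : ℚ[X])
  have h2 : (algEquivCMulXAddC l 0) (g.integralNormalization.map (algebraMap ℤ ℚ)) =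
      Polynomial.C (l ^ (g.natDegree - 1)) * g.map (Int.castRingHom ℚ) := by
    rw [algEquivCMulXAddC_apply, Polynomial.aeval_def, Polynomial.eval₂_map]
    have h4 : (algebraMap ℚ ℚ[X]).comp (algebraMap ℤ ℚ) =
        (Polynomial.C : ℚ →+* ℚ[X]).comp (Int.castRingHom ℚ) := by
      ext; simp
    have h5 : (Polynomial.C l * X + Polynomial.C 0 : ℚ[X]) =
        ((Polynomial.C : ℚ →+* ℚ[X]).comp (Int.castRingHom ℚ)) g.leadingCoeff * X := by
      rw [map_zero, add_zero]
      rfl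
    rw [h4, h5, h1]
    congr 1
    rw [map_pow]
    rfl
  have h3 : Irreducible (Polynomial.C (l ^ (g.natDegree - 1)) * g.map (Int.castRingHom ℚ)) := by
    exact (irreducible_isUnit_mul ((isUnit_iff_ne_zero.2 (pow_ne_zero _ hlq)).map
      (Polynomial.C : ℚ →+* ℚ[X]))).2 hgQ
  rw [← h2] at h3
  exact (MulEquiv.irreducible_iff (algEquivCMulXAddC l 0).toMulEquiv).1 h3

/-- irreducible of degree `≥ 2`, any leading coefficient -/
private lemma LastN_irr (hD : DyadicN) (g : ℤ[X]) (hi : Irreducible g) (hd : 2 ≤ g.natDegree)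
    (L : ℝ) (hL : 1 ≤ L) :
    FewN g L (1 / (24 * (g.natDegree : ℝ))) (1 / (192 * (g.natDegree : ℝ) ^ 2)) := by
  classical
  have hg0 : g ≠ 0 := hi.ne_zero
  have hl0 : g.leadingCoeff ≠ 0 := Polynomial.leadingCoeff_ne_zero.2 hg0
  set l : ℤ := g.leadingCoeff with hl
  set A : ℝ := |(l : ℝ)| with hA
  have hA1 : 1 ≤ A := by
    rw [hA, ← Int.cast_abs]
    exact_mod_cast Int.one_le_abs hl0
  obtain ⟨C, hC, h⟩ := LastN_monic hD g.integralNormalization
    (monic_integralNormalization hg0) (LastN_norm_irr g hi hd)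
    (by rw [natDegree_integralNormalization]; exact hd) (A * L)
    (by nlinarith)
  rw [natDegree_integralNormalization] at h
  have hd0 : (2 : ℝ) ≤ g.natDegree := by exact_mod_cast hd
  set c : ℝ := 1 / (24 * (g.natDegree : ℝ)) with hcdef
  have hc : 0 < c := by positivity
  set η : ℝ := 1 / (192 * (g.natDegree : ℝ) ^ 2) with hηdef
  have hη : 0 < η := by positivity
  refine ⟨C * A, by nlinarith, ?_⟩
  intro X hX N hN
  have hX0 : 0 < X := by linarith
  have hAX : X ≤ A * X := by nlinarith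
  have h1 := h (A * X) (by linarith) (N.image (fun n => l * n)) (by
    intro m hm
    obtain ⟨n, hn, rfl⟩ := Finset.mem_image.1 hm
    obtain ⟨ha, p, hp, hpL, hpX, hpd⟩ := hN n hn
    refine ⟨?_, p, hp, ?_, ?_, ?_⟩
    · push_cast
      rw [abs_mul]
      exact mul_le_mul_of_nonneg_left ha (abs_nonneg _)
    · calc A * X ≤ A * (L * p) := mul_le_mul_of_nonneg_left hpL (by linarith)
        _ = A * L * p := by ring
    · exact hpX.trans (Real.rpow_le_rpow hX0.le hAX (by linarith))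
    · have h2 := integralNormalization_eval₂_leadingCoeff_mul (p := g) (by omega)
        (RingHom.id ℤ) n
      simp only [RingHom.id_apply] at h2
      rw [Polynomial.eval₂_id, Polynomial.eval₂_id] at h2
      rw [h2]
      exact Dvd.dvd.mul_left hpd _)
  rw [Finset.card_image_of_injective _ (fun a b hab => by
    exact mul_left_cancel₀ hl0 hab)] at h1
  refine h1.trans ?_
  rw [Real.mul_rpow (by linarith) hX0.le]
  have h2 : A ^ (1 - η) ≤ A := by
    calc A ^ (1 - η) ≤ A ^ (1 : ℝ) := Real.rpow_le_rpow_of_exponent_le hA1 (by linarith)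
      _ = A := Real.rpow_one A
  have h3 : 0 ≤ X ^ (1 - η) := by positivity
  calc C * (A ^ (1 - η) * X ^ (1 - η)) ≤ C * (A * X ^ (1 - η)) := by
        apply mul_le_mul_of_nonneg_left _ (by linarith)
        exact mul_le_mul_of_nonneg_right h2 h3
    _ = C * A * X ^ (1 - η) := by ring

/-- degree one -/
private lemma LastN_lin (g : ℤ[X]) (hd : g.natDegree = 1) (L : ℝ) (hL : 1 ≤ L) (c : ℝ) :
    FewN g L c (1 / 2) := by
  classical
  set a : ℤ := g.coeff 1 with ha
  set b : ℤ := g.coeff 0 with hb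
  have ha0 : a ≠ 0 := by
    have : g.leadingCoeff ≠ 0 := by
      rw [Polynomial.leadingCoeff_ne_zero]
      intro h
      rw [h] at hd
      simp at hd
    rwa [Polynomial.leadingCoeff, hd] at this
  have hge : ∀ n : ℤ, g.eval n = a * n + b := by
    intro n
    rw [Polynomial.eval_eq_sum_range, hd, Finset.sum_range_succ, Finset.sum_range_one]
    simp
    ring
  set X0 : ℝ := (|(a : ℝ)| + |(b : ℝ)|) * L ^ 2 + 1 with hX0
  refine LastN_large g L c (1 / 2) 1 X0 (by norm_num) ?_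
  intro X hX1 hX N hN
  have hXp : 1 ≤ X ^ ((1 : ℝ) - 1 / 2) := Real.one_le_rpow hX1 (by norm_num)
  have hzero : ∀ n ∈ N, a * n + b = 0 := by
    intro n hn
    obtain ⟨hab, p, hp, hpL, hpX, hpd⟩ := hN n hn
    rw [hge] at hpd
    by_contra hne
    have h1 := Int.le_of_dvd (abs_pos.2 hne) ((dvd_abs _ _).2 hpd)
    have h2 : ((p : ℝ)) ^ 2 ≤ |(a : ℝ) * n + b| := by exact_mod_cast h1
    have h3 : |(a : ℝ) * n + b| ≤ |(a : ℝ)| * X + |(b : ℝ)| := by
      refine (abs_add_le _ _).trans ?_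
      rw [abs_mul]
      have := mul_le_mul_of_nonneg_left hab (abs_nonneg (a : ℝ))
      linarith
    have h4 : X ^ 2 ≤ L ^ 2 * (p : ℝ) ^ 2 := by
      rw [← mul_pow]
      exact pow_le_pow_left₀ (by linarith) hpL 2
    have h5 : L ^ 2 * (p : ℝ) ^ 2 ≤ L ^ 2 * (|(a : ℝ)| * X + |(b : ℝ)|) :=
      mul_le_mul_of_nonneg_left (h2.trans h3) (by positivity)
    have h6 : L ^ 2 * (|(a : ℝ)| * X + |(b : ℝ)|) ≤ (X0 - 1) * X := by
      rw [hX0]
      have h7 : L ^ 2 * |(b : ℝ)| ≤ L ^ 2 * |(b : ℝ)| * X :=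
        le_mul_of_one_le_right (by positivity) hX1
      nlinarith
    nlinarith
  have hcard : N.card ≤ 1 := by
    rw [Finset.card_le_one]
    intro m hm n hn
    have h1 := hzero m hm
    have h2 := hzero n hn
    have h3 : a * (m - n) = 0 := by linarith
    rcases mul_eq_zero.1 h3 with h4 | h4
    · exact absurd h4 ha0
    · omega
  have : (N.card : ℝ) ≤ 1 := by exact_mod_cast hcard
  linarith

/-- constants -/
private lemma LastN_const (g : ℤ[X]) (hg : g ≠ 0) (hd : g.natDegree = 0) (L : ℝ) (hL : 1 ≤ L)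
    (c : ℝ) : FewN g L c (1 / 2) := by
  classical
  set b : ℤ := g.coeff 0 with hb
  have hgb : g = C b := Polynomial.eq_C_of_natDegree_eq_zero hd
  have hb0 : b ≠ 0 := by
    intro h
    rw [h, map_zero] at hgb
    exact hg hgb
  refine LastN_large g L c (1 / 2) 1 (|(b : ℝ)| * L ^ 2 + 1) (by norm_num) ?_
  intro X hX1 hX N hN
  have hXp : 1 ≤ X ^ ((1 : ℝ) - 1 / 2) := Real.one_le_rpow hX1 (by norm_num)
  have hN0 : N = ∅ := by
    rw [Finset.eq_empty_iff_forall_notMem]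
    intro n hn
    obtain ⟨hab, p, hp, hpL, hpX, hpd⟩ := hN n hn
    rw [hgb, Polynomial.eval_C] at hpd
    have h1 := Int.le_of_dvd (abs_pos.2 hb0) ((dvd_abs _ _).2 hpd)
    have h2 : ((p : ℝ)) ^ 2 ≤ |(b : ℝ)| := by exact_mod_cast h1
    have h4 : X ^ 2 ≤ L ^ 2 * (p : ℝ) ^ 2 := by
      rw [← mul_pow]
      exact pow_le_pow_left₀ (by linarith) hpL 2
    have h5 : L ^ 2 * (p : ℝ) ^ 2 ≤ L ^ 2 * |(b : ℝ)| :=
      mul_le_mul_of_nonneg_left h2 (by positivity)
    nlinarith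
  rw [hN0, Finset.card_empty, Nat.cast_zero]
  linarith

/-- products of coprime factors -/
private lemma LastN_mul (g h a b : ℤ[X]) (R : ℤ) (hR : R ≠ 0) (hab : a * g + b * h = C R)
    (L c η : ℝ) (hL : 1 ≤ L) (hη1 : η ≤ 1) (hg : FewN g L c η) (hh : FewN h L c η) :
    FewN (g * h) L c η := by
  classical
  obtain ⟨C1, hC1, h1⟩ := hg
  obtain ⟨C2, hC2, h2⟩ := hh
  refine LastN_large (g * h) L c η (C1 + C2) (|(R : ℝ)| * L + 1) hη1 ?_
  intro X hX1 hX N hN
  have hX0 : 0 < X := by linarith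
  have hLX : ∀ p : ℕ, p.Prime → X ≤ L * p → ¬ (p : ℤ) ∣ R := by
    intro p hp hpL hd
    have h3 := Int.le_of_dvd (abs_pos.2 hR) ((dvd_abs _ _).2 hd)
    have h4 : (p : ℝ) ≤ |(R : ℝ)| := by exact_mod_cast h3
    have h5 : L * (p : ℝ) ≤ L * |(R : ℝ)| := mul_le_mul_of_nonneg_left h4 (by linarith)
    linarith
  set N1 := N.filter (fun n => ∃ p : ℕ, p.Prime ∧ X ≤ L * p ∧ (p : ℝ) ≤ X ^ (1 + c) ∧
    (p : ℤ) ^ 2 ∣ g.eval n) with hN1
  set N2 := N.filter (fun n => ∃ p : ℕ, p.Prime ∧ X ≤ L * p ∧ (p : ℝ) ≤ X ^ (1 + c) ∧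
    (p : ℤ) ^ 2 ∣ h.eval n) with hN2
  have hsub : N ⊆ N1 ∪ N2 := by
    intro n hn
    obtain ⟨ha, p, hp, hpL, hpX, hpd⟩ := hN n hn
    have hnR := hLX p hp hpL
    have hpp : Prime (p : ℤ) := Nat.prime_iff_prime_int.1 hp
    rw [Polynomial.eval_mul] at hpd
    have hbez : a.eval n * g.eval n + b.eval n * h.eval n = R := by
      have := congrArg (Polynomial.eval n) hab
      simpa using this
    by_cases h3 : (p : ℤ) ∣ g.eval n
    · have h4 : ¬ (p : ℤ) ∣ h.eval n := by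
        intro h5
        apply hnR
        rw [← hbez]
        exact dvd_add (Dvd.dvd.mul_left h3 _) (Dvd.dvd.mul_left h5 _)
      have h5 : (p : ℤ) ^ 2 ∣ g.eval n := by
        have h6 : IsCoprime ((p : ℤ) ^ 2) (h.eval n) :=
          IsCoprime.pow_left ((Prime.coprime_iff_not_dvd hpp).2 h4)
        exact h6.dvd_of_dvd_mul_right hpd
      exact Finset.mem_union_left _ (Finset.mem_filter.2 ⟨hn, p, hp, hpL, hpX, h5⟩)
    · have h5 : (p : ℤ) ^ 2 ∣ h.eval n := by
        have h6 : IsCoprime ((p : ℤ) ^ 2) (g.eval n) :=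
          IsCoprime.pow_left ((Prime.coprime_iff_not_dvd hpp).2 h3)
        exact h6.dvd_of_dvd_mul_left hpd
      exact Finset.mem_union_right _ (Finset.mem_filter.2 ⟨hn, p, hp, hpL, hpX, h5⟩)
  have hb1 : (N1.card : ℝ) ≤ C1 * X ^ (1 - η) := by
    apply h1 X hX1
    intro n hn
    obtain ⟨hnN, p, hp, hpL, hpX, hpd⟩ := Finset.mem_filter.1 hn
    exact ⟨(hN n hnN).1, p, hp, hpL, hpX, hpd⟩
  have hb2 : (N2.card : ℝ) ≤ C2 * X ^ (1 - η) := by
    apply h2 X hX1
    intro n hn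
    obtain ⟨hnN, p, hp, hpL, hpX, hpd⟩ := Finset.mem_filter.1 hn
    exact ⟨(hN n hnN).1, p, hp, hpL, hpX, hpd⟩
  have hcard : (N.card : ℝ) ≤ N1.card + N2.card := by
    exact_mod_cast (Finset.card_le_card hsub).trans (Finset.card_union_le _ _)
  rw [add_mul]
  linarith

/-- an irreducible factor of positive degree -/
private lemma LastN_factor (f : ℤ[X]) (hd : 1 ≤ f.natDegree) :
    ∃ g : ℤ[X], Irreducible g ∧ 1 ≤ g.natDegree ∧ g ∣ f := by
  have hp : f.primPart.IsPrimitive := f.isPrimitive_primPart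
  have hpd : f.primPart.natDegree = f.natDegree := f.natDegree_primPart
  have hnu : ¬ IsUnit f.primPart := by
    intro h
    have := Polynomial.natDegree_eq_zero_of_isUnit h
    omega
  obtain ⟨g, hgi, hgd⟩ := WfDvdMonoid.exists_irreducible_factor hnu hp.ne_zero
  refine ⟨g, hgi, ?_, hgd.trans f.primPart_dvd⟩
  by_contra hcon
  have h0 : g.natDegree = 0 := by omega
  have hgC := Polynomial.eq_C_of_natDegree_eq_zero h0
  rw [hgC] at hgd
  have h1 := hp _ hgd
  apply hgi.not_isUnit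
  rw [hgC]
  exact h1.map C

/-- **every separable polynomial** of degree `≤ D` -/
theorem fewN_of_separable (hD : DyadicN) (f : ℤ[X])
    (hsep : (f.map (Int.castRingHom ℚ)).Separable) (D : ℕ) (hD1 : 1 ≤ D) (hfD : f.natDegree ≤ D)
    (L : ℝ) (hL : 1 ≤ L) :
    FewN f L (1 / (24 * (D : ℝ))) (1 / (192 * (D : ℝ) ^ 2)) := by
  have hDr : (1 : ℝ) ≤ D := by exact_mod_cast hD1
  have hη2 : 1 / (192 * (D : ℝ) ^ 2) ≤ 1 / 2 := by
    apply one_div_le_one_div_of_le (by norm_num)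
    nlinarith
  obtain ⟨n, hn⟩ : ∃ n, f.natDegree ≤ n := ⟨_, le_rfl⟩
  induction n generalizing f with
  | zero =>
    have hf0 : f ≠ 0 := by
      rintro rfl
      rw [Polynomial.map_zero] at hsep
      exact not_separable_zero hsep
    exact (LastN_const f hf0 (by omega) L hL _).mono le_rfl hη2
  | succ n ih =>
    have hf0 : f ≠ 0 := by
      rintro rfl
      rw [Polynomial.map_zero] at hsep
      exact not_separable_zero hsep
    by_cases h0 : f.natDegree = 0
    · exact (LastN_const f hf0 h0 L hL _).mono le_rfl hη2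
    · obtain ⟨g, hgi, hgd, h, hgh⟩ := LastN_factor f (by omega)
      have hh0 : h ≠ 0 := by
        rintro rfl
        rw [mul_zero] at hgh
        exact hf0 hgh
      have hdeg : f.natDegree = g.natDegree + h.natDegree := by
        rw [hgh, Polynomial.natDegree_mul hgi.ne_zero hh0]
      have hsep' : (g.map (Int.castRingHom ℚ) * h.map (Int.castRingHom ℚ)).Separable := by
        rw [← Polynomial.map_mul, ← hgh]
        exact hsep
      have hcop : IsCoprime (g.map (Int.castRingHom ℚ)) (h.map (Int.castRingHom ℚ)) :=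
        hsep'.isCoprime
      obtain ⟨a, b, R, hR, hab⟩ := Pool.Agent.SQF4.bezout_of_isCoprime g h hcop
      have hfh : FewN h L (1 / (24 * (D : ℝ))) (1 / (192 * (D : ℝ) ^ 2)) :=
        ih h hsep'.of_mul_right (by omega) (by omega)
      have hfg : FewN g L (1 / (24 * (D : ℝ))) (1 / (192 * (D : ℝ) ^ 2)) := by
        rcases Nat.lt_or_ge g.natDegree 2 with h1 | h1
        · exact (LastN_lin g (by omega) L hL _).mono le_rfl hη2
        · have hgr : (2 : ℝ) ≤ g.natDegree := by exact_mod_cast h1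
          have hgD : (g.natDegree : ℝ) ≤ D := by
            have : g.natDegree ≤ D := by omega
            exact_mod_cast this
          refine (LastN_irr hD g hgi h1 L hL).mono ?_ ?_
          · apply one_div_le_one_div_of_le (by positivity)
            linarith
          · apply one_div_le_one_div_of_le (by positivity)
            have := pow_le_pow_left₀ (by linarith) hgD 2
            linarith
      rw [hgh]
      exact LastN_mul g h a b R hR hab L _ _ hL (by linarith) hfg hfh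

end Pool.Agent.Lib.Sqf4
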