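import Pool.Agent.Lib.Sqf4.AsmN0
import Pool.Agent.Lib.Sqf4.LastN

set_option autoImplicit false

/-!
# First range (MP_8842b2_nt): from `WindowN` to `DyadicN`.
-/

namespace Pool.Agent.Lib.Sqf4

open Polynomial

/-- the dyadic count in the form used by `LastN`, from the window theorem. -/
theorem dyadicN_of_windowN
    (hW : ∀ (f : ℤ[X]) (d : ℕ) [NeZero d] (θ : Fin d → ℂ), 2 ≤ d → Rts f d θ → WindowN f d θ) :
    DyadicN := by
  intro f hf hirr hd L hL
  have : NeZero f.natDegree := ⟨by omega⟩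
  obtain ⟨θ, hθ⟩ := exists_rts f hf hirr
  obtain ⟨C, hC, h⟩ := dyadicN_of hd hθ (hW f f.natDegree θ hd hθ) ⌈L⌉₊
    (by have := Nat.le_ceil L; by_contra hcon; have h0 : ⌈L⌉₊ = 0 := by omega
        rw [h0] at this; norm_num at this; linarith)
  refine ⟨C, hC, fun X P hCX hXL hP N hN => ?_⟩
  have hP0 : 0 < P := by
    by_contra hcon
    push Not at hcon
    have : L * P ≤ 0 := mul_nonpos_of_nonneg_of_nonpos (by linarith) hcon
    linarith
  refine h X P hCX (hXL.trans ?_) hP N hN
  exact mul_le_mul_of_nonneg_right (Nat.le_ceil L) hP0.le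

end Pool.Agent.Lib.Sqf4
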