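import Pool.Agent.Lib.Sqf4.LastN

set_option autoImplicit false

/-!
# First range (MP_8842b2_nt): squarefree polynomials, the tail criterion and the density.
-/

namespace Pool.Agent.Lib.Sqf4

open Polynomial Finset Filter Topology
open Pool.Agent.SQF4 (tailCount TailSmall goodCount loc density_of_tail)

/-- every nonzero rational polynomial is associated to an integer primitive one -/
private lemma LastT_prim (q : ℚ[X]) (hq : q ≠ 0) : ∃ r : ℤ[X], r.IsPrimitive ∧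
    Associated (r.map (Int.castRingHom ℚ)) q := by
  obtain ⟨D, hD0, hD⟩ := IsLocalization.integerNormalization_spec (nonZeroDivisors ℤ) q
  set s := IsLocalization.integerNormalization (nonZeroDivisors ℤ) q with hs
  have hDz : (D : ℤ) ≠ 0 := nonZeroDivisors.ne_zero hD0
  have hmap : s.map (Int.castRingHom ℚ) = C ((D : ℤ) : ℚ) * q := by
    have : s.map (algebraMap ℤ ℚ) = D • q := hD
    have h2 : (algebraMap ℤ ℚ) = Int.castRingHom ℚ := rfl
    rw [← h2, this]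
    ext i
    simp
  have hs0 : s ≠ 0 := by
    intro h
    rw [h, Polynomial.map_zero] at hmap
    have h1 : (C ((D : ℤ) : ℚ) : ℚ[X]) ≠ 0 := by
      rw [Ne, Polynomial.C_eq_zero]
      exact_mod_cast hDz
    exact (mul_ne_zero h1 hq) hmap.symm
  refine ⟨s.primPart, s.isPrimitive_primPart, ?_⟩
  have hc0 : s.content ≠ 0 := by
    rw [Ne, Polynomial.content_eq_zero_iff]; exact hs0
  have h1 : s.map (Int.castRingHom ℚ) =
      C ((s.content : ℤ) : ℚ) * s.primPart.map (Int.castRingHom ℚ) := by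
    conv_lhs => rw [s.eq_C_content_mul_primPart]
    rw [Polynomial.map_mul, Polynomial.map_C]
    rfl
  have u1 : IsUnit (C ((s.content : ℤ) : ℚ) : ℚ[X]) :=
    (isUnit_iff_ne_zero.2 (by exact_mod_cast hc0)).map C
  have u2 : IsUnit (C ((D : ℤ) : ℚ) : ℚ[X]) :=
    (isUnit_iff_ne_zero.2 (by exact_mod_cast hDz)).map C
  have h3 : Associated (s.primPart.map (Int.castRingHom ℚ)) (s.map (Int.castRingHom ℚ)) := by
    rw [h1]
    exact (associated_unit_mul_left _ _ u1).symm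
  have h4 : Associated (s.map (Int.castRingHom ℚ)) q := by
    rw [hmap]
    exact associated_unit_mul_left _ _ u2
  exact h3.trans h4

/-- a squarefree integer polynomial is separable over `Q` -/
theorem separable_of_squarefree (f : ℤ[X]) (hf : Squarefree f) :
    (f.map (Int.castRingHom ℚ)).Separable := by
  rw [PerfectField.separable_iff_squarefree]
  intro q hq
  have hf0 : f ≠ 0 := hf.ne_zero
  have hfm : f.map (Int.castRingHom ℚ) ≠ 0 := by
    rw [Ne, Polynomial.map_eq_zero_iff (Int.cast_injective)]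
    exact hf0
  have hq0 : q ≠ 0 := by
    rintro rfl
    rw [mul_zero, zero_dvd_iff] at hq
    exact hfm hq
  obtain ⟨r, hr, hrq⟩ := LastT_prim q hq0
  have h1 : (r * r).map (Int.castRingHom ℚ) ∣ f.map (Int.castRingHom ℚ) := by
    rw [Polynomial.map_mul]
    exact (mul_dvd_mul hrq.dvd hrq.dvd).trans hq
  have h2 : r * r ∣ f := (IsPrimitive.Int.dvd_iff_map_cast_dvd_map_cast _ _ (hr.mul hr)).2 h1
  have h3 : IsUnit r := hf r h2
  have h4 : IsUnit (r.map (Int.castRingHom ℚ)) := h3.map (mapRingHom (Int.castRingHom ℚ))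
  exact hrq.isUnit h4

/-- **The first range.** `f` squarefree of degree `≤ D`: at most `C X^(1-1/(192 D^2))` integers
`n`, `|n| ≤ X`, have `p^2 ∣ f(n)` for a prime `p` with `X ≤ p ≤ X^(1+1/(24 D))`. -/
theorem first_range (hD : DyadicN) (D : ℕ) (hD1 : 1 ≤ D) (f : ℤ[X]) (hfD : f.natDegree ≤ D)
    (hf : Squarefree f) : ∃ C : ℝ, ∀ X : ℝ, 1 ≤ X → ∀ N : Finset ℤ,
      (∀ n ∈ N, |(n : ℝ)| ≤ X ∧ ∃ p : ℕ, p.Prime ∧ X ≤ p ∧
        (p : ℝ) ≤ X ^ (1 + 1 / (24 * (D : ℝ))) ∧ (p : ℤ) ^ 2 ∣ f.eval n) →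
      (N.card : ℝ) ≤ C * X ^ (1 - 1 / (192 * (D : ℝ) ^ 2)) := by
  obtain ⟨C, _, h⟩ := fewN_of_separable hD f (separable_of_squarefree f hf) D hD1 hfD 1 le_rfl
  refine ⟨C, fun X hX N hN => h X hX N ?_⟩
  intro n hn
  obtain ⟨ha, p, hp, hpL, hpX, hpd⟩ := hN n hn
  exact ⟨ha, p, hp, by rw [one_mul]; exact hpL, hpX, hpd⟩

/-- number of `n` in `[1, N]` such that `p ^ 2 ∣ f n` for some prime `p > N^(1+c)` -/
noncomputable def tailC (f : ℤ[X]) (c : ℝ) (N : ℕ) : ℕ :=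
  Nat.card {n : ℕ // 1 ≤ n ∧ n ≤ N ∧ ∃ p : ℕ, p.Prime ∧ (N : ℝ) ^ (1 + c) < p ∧
    (p : ℤ) ^ 2 ∣ f.eval (n : ℤ)}

/-- **The tail criterion** may be restricted to `p > N^(1+1/(24 D))`. -/
theorem tailSmall_of_tailC (hD : DyadicN) (D : ℕ) (hD1 : 1 ≤ D) (f : ℤ[X])
    (hfD : f.natDegree ≤ D) (hf : (f.map (Int.castRingHom ℚ)).Separable)
    (ht : Tendsto (fun N : ℕ => (tailC f (1 / (24 * (D : ℝ))) N : ℝ) / N) atTop (𝓝 0)) :
    TailSmall f := by
  classical
  obtain ⟨C, hC, h⟩ := fewN_of_separable hD f hf D hD1 hfD 1 le_rfl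
  set c : ℝ := 1 / (24 * (D : ℝ)) with hc
  set η : ℝ := 1 / (192 * (D : ℝ) ^ 2) with hη
  have hDr : (1 : ℝ) ≤ D := by exact_mod_cast hD1
  have hηp : 0 < η := by positivity
  have h0 : Tendsto (fun N : ℕ => (tailC f c N : ℝ) / N + C * (N : ℝ) ^ (-η)) atTop (𝓝 0) := by
    have h1 : Tendsto (fun N : ℕ => (N : ℝ) ^ (-η)) atTop (𝓝 0) :=
      (tendsto_rpow_neg_atTop hηp).comp tendsto_natCast_atTop_atTop
    simpa using ht.add (h1.const_mul C)
  refine squeeze_zero' (Eventually.of_forall (fun N => by positivity)) ?_ h0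
  filter_upwards [eventually_ge_atTop 1] with N hN
  have hN1 : (1 : ℝ) ≤ N := by exact_mod_cast hN
  have hN0 : (0 : ℝ) < N := by linarith
  set A : Finset ℕ := (Finset.Ioc 0 N).filter (fun n : ℕ =>
      ∃ p : ℕ, p.Prime ∧ N < p ∧ (p : ℤ) ^ 2 ∣ f.eval (n : ℤ)) with hA
  set B : Finset ℕ := (Finset.Ioc 0 N).filter (fun n : ℕ =>
      ∃ p : ℕ, p.Prime ∧ (N : ℝ) ^ (1 + c) < p ∧ (p : ℤ) ^ 2 ∣ f.eval (n : ℤ)) with hB
  set E : Finset ℕ := (Finset.Ioc 0 N).filter (fun n : ℕ =>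
      ∃ p : ℕ, p.Prime ∧ N < p ∧ (p : ℝ) ≤ (N : ℝ) ^ (1 + c) ∧ (p : ℤ) ^ 2 ∣ f.eval (n : ℤ)) with hE
  have cA : tailCount f N = A.card := by
    refine Nat.subtype_card _ ?_
    intro n
    simp only [hA, Finset.mem_filter, Finset.mem_Ioc]
    constructor
    · rintro ⟨⟨h1, h2⟩, h3⟩; exact ⟨h1, h2, h3⟩
    · rintro ⟨h1, h2, h3⟩; exact ⟨⟨h1, h2⟩, h3⟩
  have cB : tailC f c N = B.card := by
    refine Nat.subtype_card _ ?_
    intro n
    simp only [hB, Finset.mem_filter, Finset.mem_Ioc]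
    constructor
    · rintro ⟨⟨h1, h2⟩, h3⟩; exact ⟨h1, h2, h3⟩
    · rintro ⟨h1, h2, h3⟩; exact ⟨⟨h1, h2⟩, h3⟩
  have hsub : A ⊆ B ∪ E := by
    intro n hn
    obtain ⟨hn1, p, hp, hNp, hpd⟩ := Finset.mem_filter.1 hn
    rcases lt_or_ge ((N : ℝ) ^ (1 + c)) (p : ℝ) with h1 | h1
    · exact Finset.mem_union_left _ (Finset.mem_filter.2 ⟨hn1, p, hp, h1, hpd⟩)
    · exact Finset.mem_union_right _ (Finset.mem_filter.2 ⟨hn1, p, hp, hNp, h1, hpd⟩)
  have hEb : (E.card : ℝ) ≤ C * (N : ℝ) ^ (1 - η) := by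
    have h1 := h N hN1 (E.image (fun n : ℕ => (n : ℤ))) (by
      intro m hm
      obtain ⟨n, hn, rfl⟩ := Finset.mem_image.1 hm
      obtain ⟨hn1, p, hp, hNp, hpX, hpd⟩ := Finset.mem_filter.1 hn
      obtain ⟨h2, h3⟩ := Finset.mem_Ioc.1 hn1
      refine ⟨?_, p, hp, ?_, hpX, hpd⟩
      · rw [Int.cast_natCast, Nat.abs_cast]
        exact_mod_cast h3
      · rw [one_mul]
        exact_mod_cast hNp.le)
    rwa [Finset.card_image_of_injective _ (fun a b hab => by exact_mod_cast hab)] at h1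
  have hcard : (A.card : ℝ) ≤ B.card + E.card := by
    exact_mod_cast (Finset.card_le_card hsub).trans (Finset.card_union_le _ _)
  rw [cA, cB]
  have h2 : (A.card : ℝ) / N ≤ (B.card + C * (N : ℝ) ^ (1 - η)) / N :=
    div_le_div_of_nonneg_right (by linarith) hN0.le
  refine h2.trans (le_of_eq ?_)
  rw [add_div, mul_div_assoc]
  congr 2
  rw [show (-η) = (1 - η) - 1 by ring, Real.rpow_sub_one hN0.ne']

/-- **Density.** If `p^2 ∣ f(n)` with a prime `p > N^(1+1/(24 D))` for only `o(N)` of the `n ≤ N`,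
then the density of `n` with `f(n)/d_f` squarefree is the Euler product. -/
theorem density_of_tailC (hD : DyadicN) (D : ℕ) (hD1 : 1 ≤ D) (f : ℤ[X])
    (hfD : f.natDegree ≤ D) (hf : Squarefree f)
    (ht : Tendsto (fun N : ℕ => (tailC f (1 / (24 * (D : ℝ))) N : ℝ) / N) atTop (𝓝 0)) (δ : ℕ)
    (hδ : ∀ n : ℤ, (∀ v : ℤ, n ∣ f.eval v) ↔ n ∣ (δ : ℤ)) :
    Tendsto (fun N : ℕ => (goodCount f δ N : ℝ) / N) atTop
      (𝓝 (∏' p : Nat.Primes, loc f δ p)) :=
  density_of_tail f (separable_of_squarefree f hf) δ hδ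
    (tailSmall_of_tailC hD D hD1 f hfD (separable_of_squarefree f hf) ht)

end Pool.Agent.Lib.Sqf4
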