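import Pool.Agent.Lib.Sqf4.PQ
import Pool.Agent.Lib.Sqf4.Cols

set_option autoImplicit false

/-!
The integral polynomials `PB_j`, `QB_j` of a window and their properties
(MP_8842b2_nt, first range, all degrees).
-/

namespace Pool.Agent.Lib.Sqf4

open Polynomial Matrix

noncomputable section

/-- `∏_(ρ ≠ σ) (X + z_ρ)` -/
def Psi {d : ℕ} (z : Fin d → ℂ) (σ : Fin d) : ℂ[X] :=
  ∏ ρ ∈ Finset.univ.erase σ, (X + C (z ρ))

theorem Psi_monic {d : ℕ} (z : Fin d → ℂ) (σ : Fin d) : (Psi z σ).Monic :=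
  monic_prod_of_monic _ _ fun ρ _ => monic_X_add_C _

theorem Psi_natDegree {d : ℕ} (z : Fin d → ℂ) (σ : Fin d) : (Psi z σ).natDegree = d - 1 := by
  rw [Psi, natDegree_prod_of_monic _ _ fun ρ _ => monic_X_add_C _]
  simp [Finset.card_erase_of_mem]

theorem Psi_eval {d : ℕ} (z : Fin d → ℂ) (σ : Fin d) (s : ℂ) :
    (Psi z σ).eval s = ∏ ρ ∈ Finset.univ.erase σ, (s + z ρ) := by
  rw [Psi, eval_prod]; simp

theorem vdet_ne {d : ℕ} {θ : Fin d → ℂ} (h : Function.Injective θ) :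
    IsUnit (Matrix.vandermonde θ).det :=
  (Matrix.det_vandermonde_ne_zero_iff.2 h).isUnit

/-- `W` times Vandermonde -/
theorem W_sum {d : ℕ} {θ : Fin d → ℂ} (h : Function.Injective θ) (j k : Fin d) :
    ∑ σ, W θ j σ * θ σ ^ (k : ℕ) = if j = k then 1 else 0 := by
  have h1 : W θ * Matrix.vandermonde θ = 1 := Matrix.nonsing_inv_mul _ (vdet_ne h)
  have h2 := congrFun (congrFun h1 j) k
  rw [Matrix.mul_apply, Matrix.one_apply] at h2
  simpa [Matrix.vandermonde_apply] using h2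

/-- Vandermonde times `W` -/
theorem V_sum {d : ℕ} {θ : Fin d → ℂ} (h : Function.Injective θ) (σ ρ : Fin d) :
    ∑ j : Fin d, θ σ ^ (j : ℕ) * W θ j ρ = if σ = ρ then 1 else 0 := by
  have h1 : Matrix.vandermonde θ * W θ = 1 := Matrix.mul_nonsing_inv _ (vdet_ne h)
  have h2 := congrFun (congrFun h1 σ) ρ
  rw [Matrix.mul_apply, Matrix.one_apply] at h2
  simpa [Matrix.vandermonde_apply] using h2

/-- `β_j = ∑ W_jσ β_σ` -/
theorem W_al_sum {d : ℕ} {θ : Fin d → ℂ} (h : Function.Injective θ) (β : Fin d → ℤ) (j : Fin d) :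
    ∑ σ, W θ j σ * al θ β σ = (β j : ℂ) := by
  have h1 : ∀ σ, W θ j σ * al θ β σ = ∑ k, (β k : ℂ) * (W θ j σ * θ σ ^ (k : ℕ)) := by
    intro σ
    rw [al, Finset.mul_sum]
    exact Finset.sum_congr rfl fun k _ => by ring
  rw [Finset.sum_congr rfl fun σ _ => h1 σ, Finset.sum_comm]
  have h2 : ∀ k, ∑ σ, (β k : ℂ) * (W θ j σ * θ σ ^ (k : ℕ)) = if j = k then (β k : ℂ) else 0 := by
    intro k
    rw [← Finset.mul_sum, W_sum h]
    split_ifs <;> simp
  rw [Finset.sum_congr rfl fun k _ => h2 k]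
  simp

/-- if `∑_j c_j W_jσ = 0` for all `σ` then `c = 0` -/
theorem W_inj {d : ℕ} {θ : Fin d → ℂ} (h : Function.Injective θ) (c : Fin d → ℤ)
    (hc : ∀ σ, ∑ j, (c j : ℂ) * W θ j σ = 0) : c = 0 := by
  funext k
  have h1 : ∑ σ, (∑ j, (c j : ℂ) * W θ j σ) * θ σ ^ (k : ℕ) = (c k : ℂ) := by
    have h2 : ∀ σ, (∑ j, (c j : ℂ) * W θ j σ) * θ σ ^ (k : ℕ)
        = ∑ j, (c j : ℂ) * (W θ j σ * θ σ ^ (k : ℕ)) := by
      intro σ
      rw [Finset.sum_mul]
      exact Finset.sum_congr rfl fun j _ => by ring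
    rw [Finset.sum_congr rfl fun σ _ => h2 σ, Finset.sum_comm]
    have h3 : ∀ j, ∑ σ, (c j : ℂ) * (W θ j σ * θ σ ^ (k : ℕ)) = if j = k then (c j : ℂ) else 0 := by
      intro j
      rw [← Finset.mul_sum, W_sum h]
      split_ifs <;> simp
    rw [Finset.sum_congr rfl fun j _ => h3 j]
    simp
  rw [Finset.sum_eq_zero fun σ _ => by rw [hc σ, zero_mul]] at h1
  exact_mod_cast h1.symm

/-- shift of the first coordinate -/
theorem al_shift {d : ℕ} [NeZero d] (θ : Fin d → ℂ) (a : Fin d → ℤ) (s : ℤ) (σ : Fin d) :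
    al θ (a + Pi.single 0 s) σ = (s : ℂ) + al θ a σ := by
  simp only [al, Pi.add_apply, Int.cast_add, add_mul, Finset.sum_add_distrib]
  rw [add_comm]
  congr 1
  rw [Finset.sum_eq_single (0 : Fin d)]
  · simp
  · intro j _ hj
    simp [Pi.single_eq_of_ne hj]
  · intro h; exact absurd (Finset.mem_univ _) h

/-- THE POLYNOMIALS OF A WINDOW. -/
structure PBQB {d : ℕ} (θ : Fin d → ℂ) (a : Fin d → ℤ) (PB QB : Fin d → ℤ[X]) : Prop where
  P : ∀ j, (PB j).map (Int.castRingHom ℂ) = ∑ σ, C (W θ j σ) * Psi (al θ a) σ ^ 2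
  Q : ∀ j, (QB j).map (Int.castRingHom ℂ) = ∑ σ, C (θ σ) * (C (W θ j σ) * Psi (al θ a) σ ^ 2)

theorem exists_PBQB {f : ℤ[X]} {d : ℕ} [NeZero d] {θ : Fin d → ℂ} (h : Rts f d θ)
    (a : Fin d → ℤ) : ∃ PB QB : Fin d → ℤ[X], PBQB θ a PB QB := by
  have key := fun j : Fin d => exists_PQ h a (Pi.single j 1) 0
  choose PB QB h1 h2 using key
  have h3 : ∀ j σ, (∑ i, (C ((Pi.single j (1 : ℤ) : Fin d → ℤ) i : ℂ) + X * C (((0 : Fin d → ℤ) i : ℤ) : ℂ))
      * C (W θ i σ)) = (C (W θ j σ) : ℂ[X]) := by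
    intro j σ
    rw [Finset.sum_eq_single j]
    · simp
    · intro i _ hi
      simp [Pi.single_eq_of_ne hi]
    · intro hh; exact absurd (Finset.mem_univ _) hh
  refine ⟨PB, QB, ⟨fun j => ?_, fun j => ?_⟩⟩
  · rw [h1 j]
    refine Finset.sum_congr rfl fun σ _ => ?_
    rw [h3, Psi]
  · rw [h2 j]
    refine Finset.sum_congr rfl fun σ _ => ?_
    rw [h3, Psi]

variable {d : ℕ} {θ : Fin d → ℂ} {a : Fin d → ℤ} {PB QB : Fin d → ℤ[X]}

theorem Psi_sq_coeff (z : Fin d → ℂ) (σ : Fin d) : (Psi z σ ^ 2).coeff (2 * (d - 1)) = 1 := by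
  have h1 := ((Psi_monic z σ).pow 2).coeff_natDegree
  rwa [(Psi_monic z σ).natDegree_pow, Psi_natDegree] at h1

theorem Psi_sq_natDegree (z : Fin d → ℂ) (σ : Fin d) : (Psi z σ ^ 2).natDegree = 2 * (d - 1) := by
  rw [(Psi_monic z σ).natDegree_pow, Psi_natDegree]

theorem natDegree_map_int (P : ℤ[X]) : (P.map (Int.castRingHom ℂ)).natDegree = P.natDegree :=
  natDegree_map_eq_of_injective (RingHom.injective_int _) P

theorem PBQB.natDegree_P (h : PBQB θ a PB QB) (j : Fin d) : (PB j).natDegree ≤ 2 * (d - 1) := by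
  rw [← natDegree_map_int, h.P j]
  refine natDegree_sum_le_of_forall_le _ _ fun σ _ => ?_
  exact (natDegree_C_mul_le _ _).trans (Psi_sq_natDegree _ σ).le

theorem PBQB.natDegree_Q (h : PBQB θ a PB QB) (j : Fin d) : (QB j).natDegree ≤ 2 * (d - 1) := by
  rw [← natDegree_map_int, h.Q j]
  refine natDegree_sum_le_of_forall_le _ _ fun σ _ => ?_
  exact (natDegree_C_mul_le _ _).trans ((natDegree_C_mul_le _ _).trans (Psi_sq_natDegree _ σ).le)

theorem PBQB.coeff_P (h : PBQB θ a PB QB) (hθ : Function.Injective θ) (j : Fin d) :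
    (PB j).coeff (2 * (d - 1)) = if (j : ℕ) = 0 then 1 else 0 := by
  have h1 : (((PB j).coeff (2 * (d - 1)) : ℤ) : ℂ) = if (j : ℕ) = 0 then 1 else 0 := by
    have h2 : (((PB j).coeff (2 * (d - 1)) : ℤ) : ℂ)
        = ((PB j).map (Int.castRingHom ℂ)).coeff (2 * (d - 1)) := by
      rw [coeff_map]; rfl
    rw [h2, h.P j, finsetSum_coeff]
    have h3 : ∀ σ, (C (W θ j σ) * Psi (al θ a) σ ^ 2).coeff (2 * (d - 1)) = W θ j σ * θ σ ^ 0 := by
      intro σ
      rw [coeff_C_mul, Psi_sq_coeff, pow_zero]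
    rw [Finset.sum_congr rfl fun σ _ => h3 σ]
    have hd : 0 < d := j.pos
    have h4 := W_sum hθ j ⟨0, hd⟩
    simp only at h4
    rw [h4]
    simp [Fin.ext_iff]
  split_ifs at h1 ⊢ <;> exact_mod_cast h1

theorem PBQB.coeff_Q (h : PBQB θ a PB QB) (hθ : Function.Injective θ) (hd : 2 ≤ d) (j : Fin d) :
    (QB j).coeff (2 * (d - 1)) = if (j : ℕ) = 1 then 1 else 0 := by
  have h1 : (((QB j).coeff (2 * (d - 1)) : ℤ) : ℂ) = if (j : ℕ) = 1 then 1 else 0 := by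
    have h2 : (((QB j).coeff (2 * (d - 1)) : ℤ) : ℂ)
        = ((QB j).map (Int.castRingHom ℂ)).coeff (2 * (d - 1)) := by
      rw [coeff_map]; rfl
    rw [h2, h.Q j, finsetSum_coeff]
    have h3 : ∀ σ, (C (θ σ) * (C (W θ j σ) * Psi (al θ a) σ ^ 2)).coeff (2 * (d - 1))
        = W θ j σ * θ σ ^ 1 := by
      intro σ
      rw [coeff_C_mul, coeff_C_mul, Psi_sq_coeff, pow_one]; ring
    rw [Finset.sum_congr rfl fun σ _ => h3 σ]
    have h4 := W_sum hθ j ⟨1, hd⟩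
    simp only at h4
    rw [h4]
    simp [Fin.ext_iff]
  split_ifs at h1 ⊢ <;> exact_mod_cast h1

/-- the basic relation `p^2 β_j = n PB_j(s) - QB_j(s)` -/
theorem PBQB.rel [NeZero d] (h : PBQB θ a PB QB) (hθ : Function.Injective θ) {p : ℕ} {n s : ℤ}
    {β : Fin d → ℤ} (hS : Sol θ p n (a + Pi.single 0 s) β) (j : Fin d) :
    (p : ℤ) ^ 2 * β j = n * (PB j).eval s - (QB j).eval s := by
  have h1 : ((p : ℂ)) ^ 2 * (β j : ℂ) = (n : ℂ) * (((PB j).eval s : ℤ) : ℂ)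
      - (((QB j).eval s : ℤ) : ℂ) := by
    have hP : (((PB j).eval s : ℤ) : ℂ) = ((PB j).map (Int.castRingHom ℂ)).eval (s : ℂ) := by
      rw [Polynomial.eval_intCast_map]; simp
    have hQ : (((QB j).eval s : ℤ) : ℂ) = ((QB j).map (Int.castRingHom ℂ)).eval (s : ℂ) := by
      rw [Polynomial.eval_intCast_map]; simp
    rw [hP, hQ, h.P j, h.Q j, eval_finsetSum, eval_finsetSum, ← W_al_sum hθ β j, Finset.mul_sum,
      Finset.mul_sum, ← Finset.sum_sub_distrib]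
    refine Finset.sum_congr rfl fun σ _ => ?_
    have h2 := hS σ
    rw [Finset.prod_congr rfl fun ρ _ => al_shift θ a s ρ] at h2
    rw [eval_mul, eval_C, eval_pow, Psi_eval, eval_mul, eval_C, eval_mul, eval_C, eval_pow,
      Psi_eval]
    linear_combination (W θ j σ) * h2
  exact_mod_cast h1

/-- complex form of a level one combination -/
theorem PBQB.comb_P (h : PBQB θ a PB QB) (c e : Fin d → ℤ) :
    (∑ j, (C (c j) + X * C (e j)) * PB j).map (Int.castRingHom ℂ)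
      = ∑ σ, (C (∑ j, (c j : ℂ) * W θ j σ) + X * C (∑ j, (e j : ℂ) * W θ j σ))
        * Psi (al θ a) σ ^ 2 := by
  rw [Polynomial.map_sum]
  have h1 : ∀ j, ((C (c j) + X * C (e j)) * PB j).map (Int.castRingHom ℂ)
      = ∑ σ, (C (c j : ℂ) + X * C (e j : ℂ)) * (C (W θ j σ) * Psi (al θ a) σ ^ 2) := by
    intro j
    rw [Polynomial.map_mul, h.P j, Finset.mul_sum]
    simp
  rw [Finset.sum_congr rfl fun j _ => h1 j, Finset.sum_comm]
  refine Finset.sum_congr rfl fun σ _ => ?_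
  rw [map_sum, map_sum, Finset.mul_sum, ← Finset.sum_add_distrib, Finset.sum_mul]
  refine Finset.sum_congr rfl fun j _ => ?_
  rw [C_mul, C_mul]; ring

theorem PBQB.comb_Q (h : PBQB θ a PB QB) (c e : Fin d → ℤ) :
    (∑ j, (C (c j) + X * C (e j)) * QB j).map (Int.castRingHom ℂ)
      = ∑ σ, C (θ σ) * ((C (∑ j, (c j : ℂ) * W θ j σ) + X * C (∑ j, (e j : ℂ) * W θ j σ))
        * Psi (al θ a) σ ^ 2) := by
  rw [Polynomial.map_sum]
  have h1 : ∀ j, ((C (c j) + X * C (e j)) * QB j).map (Int.castRingHom ℂ)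
      = ∑ σ, (C (c j : ℂ) + X * C (e j : ℂ)) * (C (θ σ) * (C (W θ j σ) * Psi (al θ a) σ ^ 2)) := by
    intro j
    rw [Polynomial.map_mul, h.Q j, Finset.mul_sum]
    simp
  rw [Finset.sum_congr rfl fun j _ => h1 j, Finset.sum_comm]
  refine Finset.sum_congr rfl fun σ _ => ?_
  rw [map_sum, map_sum, Finset.mul_sum, ← Finset.sum_add_distrib, Finset.sum_mul, Finset.mul_sum]
  refine Finset.sum_congr rfl fun j _ => ?_
  rw [C_mul, C_mul]; ring

theorem Psi_coprime {z : Fin d → ℂ} (hz : Function.Injective z) (σ : Fin d) :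
    IsCoprime ((X + C (z σ)) ^ 2) (Psi z σ ^ 2) := by
  refine IsCoprime.pow ?_
  refine IsCoprime.prod_right fun ρ hρ => ?_
  have h1 : z σ ≠ z ρ := fun hh => (Finset.ne_of_mem_erase hρ) (hz hh).symm
  have h2 : (X + C (z σ) : ℂ[X]) = X - C (- z σ) := by simp
  have h3 : (X + C (z ρ) : ℂ[X]) = X - C (- z ρ) := by simp
  rw [h2, h3]
  exact isCoprime_X_sub_C_of_isUnit_sub (by
    rw [isUnit_iff_ne_zero]; intro hh; apply h1; linear_combination - hh)

theorem Psi_dvd {z : Fin d → ℂ} {σ ρ : Fin d} (h : ρ ≠ σ) :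
    (X + C (z σ)) ^ 2 ∣ Psi z ρ ^ 2 := by
  refine pow_dvd_pow_of_dvd ?_ 2
  exact Finset.dvd_prod_of_mem _ (Finset.mem_erase.2 ⟨h.symm, Finset.mem_univ _⟩)

theorem lin_natDegree (u v : ℂ) : (C u + X * C v : ℂ[X]).natDegree ≤ 1 := by
  refine (natDegree_add_le _ _).trans (max_le (by simp) ?_)
  refine natDegree_mul_le.trans ?_
  simp

theorem lin_coeff_zero {u v : ℂ} (h : (C u + X * C v : ℂ[X]) = 0) : u = 0 := by
  have h3 := congrArg (fun P : ℂ[X] => P.coeff 0) h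
  simpa using h3

theorem lin_coeff_one {u v : ℂ} (h : (C u + X * C v : ℂ[X]) = 0) : v = 0 := by
  have h3 := congrArg (fun P : ℂ[X] => P.coeff 1) h
  simpa [coeff_C] using h3

/-- LEVEL ONE INDEPENDENCE on the surface -/
theorem PBQB.level_one (h : PBQB θ a PB QB) (hθ : Function.Injective θ)
    (hz : Function.Injective (al θ a)) (c e : Fin d → ℤ)
    (h0 : ∑ j, (C (c j) + X * C (e j)) * PB j = 0) : c = 0 ∧ e = 0 := by
  have h1 := h.comb_P c e
  rw [h0, Polynomial.map_zero] at h1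
  have h2 : ∀ σ, (C (∑ j, (c j : ℂ) * W θ j σ) + X * C (∑ j, (e j : ℂ) * W θ j σ) : ℂ[X]) = 0 := by
    intro σ
    by_contra hne
    have h3 : (X + C (al θ a σ)) ^ 2 ∣
        (C (∑ j, (c j : ℂ) * W θ j σ) + X * C (∑ j, (e j : ℂ) * W θ j σ))
          * Psi (al θ a) σ ^ 2 := by
      rw [← Finset.add_sum_erase _ _ (Finset.mem_univ σ)] at h1
      have h4 : (C (∑ j, (c j : ℂ) * W θ j σ) + X * C (∑ j, (e j : ℂ) * W θ j σ))
          * Psi (al θ a) σ ^ 2 = - ∑ ρ ∈ Finset.univ.erase σ,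
            (C (∑ j, (c j : ℂ) * W θ j ρ) + X * C (∑ j, (e j : ℂ) * W θ j ρ))
              * Psi (al θ a) ρ ^ 2 := by
        linear_combination - h1
      rw [h4, dvd_neg]
      refine Finset.dvd_sum fun ρ hρ => ?_
      exact Dvd.dvd.mul_left (Psi_dvd (Finset.ne_of_mem_erase hρ)) _
    have h4 := (Psi_coprime hz σ).dvd_of_dvd_mul_right h3
    have h5 := natDegree_le_of_dvd h4 hne
    rw [(monic_X_add_C _).natDegree_pow, natDegree_X_add_C] at h5
    have h6 : (C (∑ j, (c j : ℂ) * W θ j σ) + X * C (∑ j, (e j : ℂ) * W θ j σ) : ℂ[X]).natDegree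
        ≤ 1 := lin_natDegree _ _
    omega
  constructor
  · exact W_inj hθ c fun σ => lin_coeff_zero (h2 σ)
  · exact W_inj hθ e fun σ => lin_coeff_one (h2 σ)

end

end Pool.Agent.Lib.Sqf4
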