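import Mathlib

set_option autoImplicit false

/-!
A prime of size about `Q` not dividing a given integer of size `< Q^T`.
-/

namespace Pool.Agent.Lib.Sqf4

theorem exists_good_prime (T : ℕ) (Q : ℝ) (hQ : 1 ≤ Q) (c : ℤ) (hc : c ≠ 0)
    (hcQ : |(c : ℝ)| < Q ^ T) :
    ∃ q : ℕ, q.Prime ∧ Q ≤ q ∧ (q : ℝ) ≤ 2 ^ (T + 1) * Q ∧ ¬ ((q : ℤ) ∣ c) := by
  classical
  have hQ0 : 0 < Q := by linarith
  have key : ∀ n : ℕ, ∃ m : ℕ, n ≠ 0 → (m.Prime ∧ n < m ∧ m ≤ 2 * n) := by
    intro n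
    by_cases hn : n = 0
    · exact ⟨0, fun h => absurd hn h⟩
    · obtain ⟨p, h1, h2, h3⟩ := Nat.exists_prime_lt_and_le_two_mul n hn
      exact ⟨p, fun _ => ⟨h1, h2, h3⟩⟩
  choose g hg using key
  set f : ℕ → ℕ := fun n => g^[n] ⌈Q⌉₊ with hf
  have hf0 : f 0 = ⌈Q⌉₊ := rfl
  have hfs : ∀ n, f (n + 1) = g (f n) := by
    intro n
    simp only [hf, Function.iterate_succ_apply']
  have hfpos : ∀ n, f n ≠ 0 := by
    intro n
    induction n with
    | zero =>
      rw [hf0]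
      exact (Nat.ceil_pos.2 hQ0).ne'
    | succ n ih =>
      rw [hfs]
      have := (hg _ ih).2.1
      omega
  have hfprime : ∀ n, (f (n + 1)).Prime := fun n => by rw [hfs]; exact (hg _ (hfpos n)).1
  have hflt : ∀ n, f n < f (n + 1) := fun n => by rw [hfs]; exact (hg _ (hfpos n)).2.1
  have hfle : ∀ n, f (n + 1) ≤ 2 * f n := fun n => by rw [hfs]; exact (hg _ (hfpos n)).2.2
  have hmono : StrictMono f := strictMono_nat_of_lt_succ hflt
  have hub : ∀ n, (f n : ℝ) ≤ 2 ^ (n + 1) * Q := by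
    intro n
    induction n with
    | zero =>
      rw [hf0]
      have := (Nat.ceil_lt_add_one hQ0.le).le
      simp only [zero_add, pow_one]
      linarith
    | succ n ih =>
      have h1 : (f (n + 1) : ℝ) ≤ 2 * f n := by exact_mod_cast hfle n
      calc (f (n + 1) : ℝ) ≤ 2 * f n := h1
        _ ≤ 2 * (2 ^ (n + 1) * Q) := by linarith
        _ = 2 ^ (n + 1 + 1) * Q := by ring
  have hlb : ∀ n, Q ≤ f n := by
    intro n
    have h1 : Q ≤ f 0 := by rw [hf0]; exact Nat.le_ceil Q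
    have h2 : (f 0 : ℝ) ≤ f n := by exact_mod_cast hmono.monotone (Nat.zero_le n)
    linarith
  by_contra hcon
  push Not at hcon
  set s : Finset ℕ := (Finset.range T).image fun i => f (i + 1) with hs
  have hinj : Set.InjOn (fun i => f (i + 1)) (Finset.range T : Set ℕ) := by
    intro i _ j _ hij
    have := hmono.injective hij
    omega
  have hcard : s.card = T := by
    rw [hs, Finset.card_image_of_injOn hinj, Finset.card_range]
  have hdvd : ∀ p ∈ s, p ∣ c.natAbs := by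
    intro p hp
    obtain ⟨i, hi, rfl⟩ := Finset.mem_image.1 hp
    have hi' := Finset.mem_range.1 hi
    have h1 := hcon (f (i + 1)) (hfprime i) (hlb _) (by
      refine (hub _).trans ?_
      have : (2 : ℝ) ^ (i + 1 + 1) ≤ 2 ^ (T + 1) := pow_le_pow_right₀ (by norm_num) (by omega)
      nlinarith)
    exact Int.natCast_dvd.1 h1
  have hprod : ∏ p ∈ s, p ∣ c.natAbs :=
    Finset.prod_primes_dvd _ (fun p hp => by
      obtain ⟨i, -, rfl⟩ := Finset.mem_image.1 hp
      exact (hfprime i).prime) hdvd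
  have h1 := Nat.le_of_dvd (Int.natAbs_pos.2 hc) hprod
  have h2 : Q ^ T ≤ ((∏ p ∈ s, p : ℕ) : ℝ) := by
    rw [← hcard, Nat.cast_prod, ← Finset.prod_const]
    refine Finset.prod_le_prod (fun _ _ => hQ0.le) ?_
    intro p hp
    obtain ⟨i, -, rfl⟩ := Finset.mem_image.1 hp
    exact hlb _
  have h3 : ((∏ p ∈ s, p : ℕ) : ℝ) ≤ (c.natAbs : ℝ) := by exact_mod_cast h1
  have h4 : (c.natAbs : ℝ) = |(c : ℝ)| := by
    rw [Nat.cast_natAbs]; push_cast; rfl
  linarith

end Pool.Agent.Lib.Sqf4
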