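import Pool.Agent.Lib.Sqf4.Win3
import Pool.Agent.Lib.Sqf4.Div

set_option autoImplicit false

/-!
Window, final part: the number of solutions of one window.
-/

namespace Pool.Agent.Lib.Sqf4

open Polynomial Matrix

noncomputable section

variable {d : ℕ}

theorem window {f : ℤ[X]} [NeZero d] {θ : Fin d → ℂ} (h : Rts f d θ) (C0 : ℝ) (hC0 : 1 ≤ C0)
    (ε : ℝ) (hε : 0 < ε) :
    ∃ C : ℝ, 1 ≤ C ∧ ∀ (X P H D τ : ℝ), 1 ≤ X → 1 ≤ H → 1 ≤ P → P ≤ X ^ 2 →
      H ^ d ≤ C0 * P → 0 < τ → τ ≤ 1 → 0 < D → D ≤ H →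
      (∀ k ∈ Finset.range (2 * d + 1), C * (X ^ (2 * d - k) * τ ^ ek d k) ≤ P ^ 3) →
      ∀ a : Fin d → ℤ, (∀ σ, ‖al θ a σ‖ ≤ C0 * H) →
      (∀ σ ρ, σ ≠ ρ → D ≤ ‖al θ a σ - al θ a ρ‖) →
      ∀ S : Finset (ℤ × ℤ), (∀ x ∈ S, C * (H / D) ^ (2 * d) < (x.2 : ℝ) ∧
        ∃ β, WSol θ X P H τ a x.1 x.2 β) →
      ∃ E : Finset ℤ, E.card ≤ 2 * d ∧
        ((S.filter (fun x => x.1 ∉ E)).card : ℝ) ≤ C * X ^ ε := by
  classical
  have hd0 : 0 < d := Nat.pos_of_ne_zero (NeZero.ne d)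
  have hθ := h.inj
  obtain ⟨C1, hC1, B, hrel⟩ := rel_window hθ C0 hC0
  set Wb : ℝ := ∑ j, ∑ σ, ‖W θ j σ‖ with hWb
  set Θ : ℝ := ∑ σ, ‖θ σ‖ with hΘ
  have hWb0 : 0 ≤ Wb := Finset.sum_nonneg (fun _ _ => Finset.sum_nonneg (fun _ _ => norm_nonneg _))
  have hΘ0 : 0 ≤ Θ := Finset.sum_nonneg (fun _ _ => norm_nonneg _)
  have hWle : ∀ j σ, ‖W θ j σ‖ ≤ Wb := by
    intro j σ
    rw [hWb]
    refine le_trans ?_ (Finset.single_le_sum (f := fun j => ∑ σ, ‖W θ j σ‖)
      (fun _ _ => Finset.sum_nonneg (fun _ _ => norm_nonneg _)) (Finset.mem_univ j))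
    exact Finset.single_le_sum (f := fun σ => ‖W θ j σ‖) (fun _ _ => norm_nonneg _) (Finset.mem_univ σ)
  have hΘle : ∀ σ, ‖θ σ‖ ≤ Θ := fun σ =>
    Finset.single_le_sum (f := fun σ => ‖θ σ‖) (fun _ _ => norm_nonneg _) (Finset.mem_univ σ)
  set ε' : ℝ := ε / (4 * d + B + 1) with hε'
  have hε'0 : 0 < ε' := by positivity
  obtain ⟨C2, hC2, hdiv⟩ := div_count (2 * d) ε' hε'0
  set C5 : ℝ := 1 + d * ((1 + Θ) * ((2 * C0 * C0) ^ (2 * d) * (d * (2 * C1 * Wb)))) with hC5
  have hC5' : 1 ≤ C5 := by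
    have : 0 ≤ d * ((1 + Θ) * ((2 * C0 * C0) ^ (2 * d) * (d * (2 * C1 * Wb)))) := by positivity
    linarith
  set Cf : ℝ := max C1 (max ((1 + Θ) * (4 + 3 * C0) ^ (2 * d)) (C2 * C5 ^ ε')) with hCf
  have hCf1 : C1 ≤ Cf := le_max_left _ _
  have hCf2 : (1 + Θ) * (4 + 3 * C0) ^ (2 * d) ≤ Cf := (le_max_left _ _).trans (le_max_right _ _)
  have hCf3 : C2 * C5 ^ ε' ≤ Cf := (le_max_right _ _).trans (le_max_right _ _)
  refine ⟨Cf, hC1.trans hCf1, ?_⟩
  intro X P H D τ hX hH hP hPX hHP hτ0 hτ1 hD0 hDH hnum a hz hsep S hS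
  have hX0 : (0 : ℝ) < X := by linarith
  have hH0 : (0 : ℝ) < H := by linarith
  have hHX : H ≤ C0 * X ^ 2 := by
    have h1 : H ≤ H ^ d := le_self_pow₀ hH hd0.ne'
    calc H ≤ H ^ d := h1
      _ ≤ C0 * P := hHP
      _ ≤ C0 * X ^ 2 := by gcongr
  obtain ⟨g, hg0, hg1, hg2⟩ := hrel X P H τ hX hH hP hPX hHP hτ0 hτ1
    (fun k hk => le_trans (mul_le_mul_of_nonneg_right hCf1 (by positivity)) (hnum k hk)) a hz
  set c : Fin d → ℤ := fun j => g (Sum.inl j) with hc
  set e : Fin d → ℤ := fun j => g (Sum.inr j) with he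
  have hce : c ≠ 0 ∨ e ≠ 0 := by
    by_contra hcon
    push Not at hcon
    apply hg0
    ext j
    rcases j with j | j
    · exact congrFun hcon.1 j
    · exact congrFun hcon.2 j
  obtain ⟨Pz, Qz, hPm, hQm⟩ := exists_PQ h a c e
  have hPm' : Pz.map (Int.castRingHom ℂ) = ∑ σ, gg θ c e σ * Pi2 (al θ a) σ := hPm
  have hQm' : Qz.map (Int.castRingHom ℂ) = ∑ σ, C (θ σ) * (gg θ c e σ * Pi2 (al θ a) σ) := hQm
  have hzinj : Function.Injective (al θ a) := by
    intro σ ρ hσρ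
    by_contra hne
    have := hsep σ ρ hne
    rw [hσρ, sub_self, norm_zero] at this
    linarith
  have hPc0 : ∑ σ, gg θ c e σ * Pi2 (al θ a) σ ≠ 0 := P_ne_zero hθ hzinj c e hce
  have hPz0 : Pz ≠ 0 := by
    rintro rfl
    rw [Polynomial.map_zero] at hPm'
    exact hPc0 hPm'.symm
  have hinj : Function.Injective (Int.castRingHom ℂ) := RingHom.injective_int _
  have hPdeg : Pz.natDegree ≤ 2 * d - 1 := by
    rw [← Polynomial.natDegree_map_eq_of_injective hinj, hPm']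
    have := PQ_natDegree (θ := θ) hd0 c e (al θ a) (fun _ => 1)
    simpa using this
  have hQdeg : Qz.natDegree ≤ 2 * d - 1 := by
    rw [← Polynomial.natDegree_map_eq_of_injective hinj, hQm']
    exact PQ_natDegree (θ := θ) hd0 c e (al θ a) θ
  -- values
  have hval : ∀ x ∈ S, x.2 * Pz.eval x.1 = Qz.eval x.1 := by
    intro x hx
    obtain ⟨-, β, hβ⟩ := hS x hx
    have h1 := hg2 x.1 x.2 β hβ
    obtain ⟨-, -, p, hp, hsol⟩ := hβ
    have h2 := PQ_eval hθ (c := c) (e := e) hsol h1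
    rw [← hPm', ← hQm'] at h2
    have h3 : ∀ R : ℤ[X], (R.map (Int.castRingHom ℂ)).eval ((x.1 : ℤ) : ℂ) = ((R.eval x.1 : ℤ) : ℂ) := by
      intro R
      have := Polynomial.eval_map_apply (Int.castRingHom ℂ) (p := R) x.1
      simpa using this
    rw [h3, h3] at h2
    exact_mod_cast h2
  refine ⟨Pz.roots.toFinset, ?_, ?_⟩
  · refine (Multiset.toFinset_card_le _).trans ((Polynomial.card_roots' _).trans ?_)
    omega
  have hmemE : ∀ s : ℤ, s ∉ Pz.roots.toFinset → Pz.eval s ≠ 0 := by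
    intro s hs h0
    apply hs
    rw [Multiset.mem_toFinset, Polynomial.mem_roots hPz0]
    exact h0
  by_cases hdvd : Pz.map (Int.castRingHom ℚ) ∣ Qz.map (Int.castRingHom ℚ)
  · -- polynomial case: no solutions
    obtain ⟨Z, hZ⟩ := hdvd
    have hempty : S.filter (fun x => x.1 ∉ Pz.roots.toFinset) = ∅ := by
      rw [Finset.filter_eq_empty_iff]
      intro x hx hxE
      have hne := hmemE x.1 hxE
      have hmapC : ∀ R : ℤ[X], (R.map (Int.castRingHom ℚ)).map (algebraMap ℚ ℂ) = R.map (Int.castRingHom ℂ) := by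
        intro R
        rw [Polynomial.map_map]
        congr 1
      have hZc : Qz.map (Int.castRingHom ℂ) = Pz.map (Int.castRingHom ℂ) * Z.map (algebraMap ℚ ℂ) := by
        rw [← hmapC, hZ, Polynomial.map_mul, hmapC]
      have hb := Z_bound hd0 c e _ _ (Z.map (algebraMap ℚ ℂ)) hPm' hQm'
        (by rw [hPm']; exact hPc0) hZc D ((1 + C0) * H) Θ hD0 (by positivity) hΘle hΘ0 hsep
        (x.1 : ℂ) (by
          intro σ
          refine (norm_add_le _ _).trans ?_
          rw [Complex.norm_intCast]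
          obtain ⟨-, β, hβ, -, -⟩ := hS x hx
          have h1 : |(x.1 : ℝ)| ≤ H := hβ.trans (by nlinarith)
          have h2 := hz σ
          linarith)
      have h3 : ∀ R : ℤ[X], (R.map (Int.castRingHom ℂ)).eval ((x.1 : ℤ) : ℂ) = ((R.eval x.1 : ℤ) : ℂ) := by
        intro R
        have := Polynomial.eval_map_apply (Int.castRingHom ℂ) (p := R) x.1
        simpa using this
      have h4 : (Z.map (algebraMap ℚ ℂ)).eval ((x.1 : ℤ) : ℂ) = (x.2 : ℂ) := by
        have h5 := congrArg (Polynomial.eval ((x.1 : ℤ) : ℂ)) hZc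
        rw [eval_mul, h3, h3, ← hval x hx] at h5
        have h6 : ((Pz.eval x.1 : ℤ) : ℂ) ≠ 0 := by exact_mod_cast hne
        push_cast at h5
        have h7 : ((Pz.eval x.1 : ℤ) : ℂ) * ((x.2 : ℂ) - (Z.map (algebraMap ℚ ℂ)).eval ((x.1 : ℤ) : ℂ)) = 0 := by
          linear_combination h5
        rcases mul_eq_zero.mp h7 with h8 | h8
        · exact absurd h8 h6
        · exact (sub_eq_zero.mp h8).symm
      rw [h4, Complex.norm_intCast] at hb
      have h5 := (hS x hx).1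
      have h6 : (1 : ℝ) ≤ H / D := by
        rw [le_div_iff₀ hD0]
        linarith
      have h7 : 1 + 3 * ((1 + C0) * H) / D ≤ (4 + 3 * C0) * (H / D) := by
        have : 3 * ((1 + C0) * H) / D = (3 + 3 * C0) * (H / D) := by ring
        rw [this]
        nlinarith
      have h8 : (1 + 3 * ((1 + C0) * H) / D) ^ (2 * d) ≤ ((4 + 3 * C0) * (H / D)) ^ (2 * d) :=
        pow_le_pow_left₀ (by positivity) h7 _
      have h9 : |(x.2 : ℝ)| ≤ Cf * (H / D) ^ (2 * d) := by
        calc |(x.2 : ℝ)| ≤ Θ * (1 + 3 * ((1 + C0) * H) / D) ^ (2 * d) := hb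
          _ ≤ (1 + Θ) * ((4 + 3 * C0) * (H / D)) ^ (2 * d) := by
              apply mul_le_mul (by linarith) h8 (by positivity) (by positivity)
          _ = ((1 + Θ) * (4 + 3 * C0) ^ (2 * d)) * (H / D) ^ (2 * d) := by
              rw [mul_pow]
              ring
          _ ≤ Cf * (H / D) ^ (2 * d) := mul_le_mul_of_nonneg_right hCf2 (by positivity)
      have := le_abs_self (x.2 : ℝ)
      linarith
    rw [hempty, Finset.card_empty]
    push_cast
    have : 0 < X ^ ε := Real.rpow_pos_of_pos hX0 _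
    have : 1 ≤ Cf := hC1.trans hCf1
    positivity
  · -- divisor case
    set K : ℝ := C5 * X ^ (4 * d + B) with hK
    have hXB : (1 : ℝ) ≤ X ^ (4 * d + B) := one_le_pow₀ hX
    have hK1 : 1 ≤ K := by rw [hK]; nlinarith
    have hG : ∀ j, |(c j : ℝ)| ≤ C1 * X ^ B := fun j => hg1 _
    have hG' : ∀ j, |(e j : ℝ)| ≤ C1 * X ^ B := fun j => hg1 _
    have hcoef : ∀ (w : Fin d → ℂ), (∀ σ, ‖w σ‖ ≤ 1 + Θ) → ∀ i,
        ‖(∑ σ, C (w σ) * (gg θ c e σ * Pi2 (al θ a) σ)).coeff i‖ ≤ K := by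
      intro w hw i
      refine (PQ_coeff c e (al θ a) w (C1 * X ^ B) Wb (C0 * H) (1 + Θ) (by positivity) hWb0
        (by positivity) (by linarith) hG hG' hWle hz hw i).trans ?_
      have h1 : (1 + C0 * H) ^ (2 * d) ≤ (2 * C0 * C0) ^ (2 * d) * X ^ (4 * d) := by
        have h2 : 1 + C0 * H ≤ 2 * C0 * C0 * X ^ 2 := by
          have h3 : C0 * H ≤ C0 * (C0 * X ^ 2) := mul_le_mul_of_nonneg_left hHX (by linarith)
          have h4 : (1 : ℝ) ≤ C0 * C0 * X ^ 2 := by
            have : (1 : ℝ) ≤ X ^ 2 := one_le_pow₀ hX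
            nlinarith [mul_le_mul hC0 hC0 (by norm_num) (by linarith)]
          nlinarith
        calc (1 + C0 * H) ^ (2 * d) ≤ (2 * C0 * C0 * X ^ 2) ^ (2 * d) :=
              pow_le_pow_left₀ (by positivity) h2 _
          _ = (2 * C0 * C0) ^ (2 * d) * X ^ (4 * d) := by
              rw [mul_pow, ← pow_mul X]
              congr 2
              ring
      calc (d : ℝ) * ((1 + Θ) * ((1 + C0 * H) ^ (2 * d) * (d * (2 * (C1 * X ^ B) * Wb))))
          ≤ (d : ℝ) * ((1 + Θ) * (((2 * C0 * C0) ^ (2 * d) * X ^ (4 * d)) * (d * (2 * (C1 * X ^ B) * Wb)))) := by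
            gcongr
        _ = (d * ((1 + Θ) * ((2 * C0 * C0) ^ (2 * d) * (d * (2 * C1 * Wb))))) * X ^ (4 * d + B) := by
            rw [pow_add X]
            ring
        _ ≤ K := by
            rw [hK]
            apply mul_le_mul_of_nonneg_right _ (by positivity)
            rw [hC5]
            linarith
    have hPco : ∀ i, |(Pz.coeff i : ℝ)| ≤ K := by
      intro i
      have h1 := hcoef (fun _ => 1) (by intro σ; simp; linarith) i
      simp only [map_one, one_mul] at h1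
      rw [← hPm', coeff_map] at h1
      have h2 : ‖(Int.castRingHom ℂ) (Pz.coeff i)‖ = |(Pz.coeff i : ℝ)| := by
        simp [Complex.norm_intCast]
      rwa [h2] at h1
    have hQco : ∀ i, |(Qz.coeff i : ℝ)| ≤ K := by
      intro i
      have h1 := hcoef θ (by intro σ; have := hΘle σ; linarith) i
      rw [← hQm', coeff_map] at h1
      have h2 : ‖(Int.castRingHom ℂ) (Qz.coeff i)‖ = |(Qz.coeff i : ℝ)| := by
        simp [Complex.norm_intCast]
      rwa [h2] at h1
    have hmain := hdiv Pz Qz K hK1 (by omega) (by omega) hPco hQco hPz0 hdvd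
      ((S.filter (fun x => x.1 ∉ Pz.roots.toFinset)).image Prod.fst) (by
        intro s hs
        rw [Finset.mem_image] at hs
        obtain ⟨x, hx, rfl⟩ := hs
        rw [Finset.mem_filter] at hx
        refine ⟨hmemE _ hx.2, ?_⟩
        rw [← hval x hx.1]
        exact Dvd.intro_left _ rfl)
    have hcard : ((S.filter (fun x => x.1 ∉ Pz.roots.toFinset)).image Prod.fst).card
        = (S.filter (fun x => x.1 ∉ Pz.roots.toFinset)).card := by
      apply Finset.card_image_of_injOn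
      intro x hx y hy hxy
      rw [Finset.mem_coe, Finset.mem_filter] at hx hy
      have h1 := hval x hx.1
      have h2 := hval y hy.1
      have hne := hmemE _ hx.2
      have hxy' : x.1 = y.1 := hxy
      rw [← hxy', ← h1] at h2
      have h3 : y.2 = x.2 := mul_right_cancel₀ hne h2
      exact Prod.ext hxy' h3.symm
    rw [hcard] at hmain
    refine hmain.trans ?_
    have hKe : K ^ ε' ≤ C5 ^ ε' * X ^ ε := by
      rw [hK, Real.mul_rpow (by linarith) (by positivity)]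
      apply mul_le_mul_of_nonneg_left _ (by positivity)
      rw [← Real.rpow_natCast, ← Real.rpow_mul hX0.le]
      apply Real.rpow_le_rpow_of_exponent_le hX
      rw [hε']
      push_cast
      rw [mul_div_assoc', div_le_iff₀ (by positivity)]
      nlinarith
    calc C2 * K ^ ε' ≤ C2 * (C5 ^ ε' * X ^ ε) := mul_le_mul_of_nonneg_left hKe (by linarith)
      _ = (C2 * C5 ^ ε') * X ^ ε := by ring
      _ ≤ Cf * X ^ ε := mul_le_mul_of_nonneg_right hCf3 (by positivity)

end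

end Pool.Agent.Lib.Sqf4
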