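import Pool.Agent.Lib.Sqf4.Det
import Pool.Agent.Lib.Sqf4.Sieg

set_option autoImplicit false

/-!
Window, part 1: the determinant of `2d` solutions of one window vanishes, hence there is a
common linear relation.
-/

namespace Pool.Agent.Lib.Sqf4

open Polynomial Matrix

noncomputable section

variable {d : ℕ}

lemma W_mul {θ : Fin d → ℂ} (hθ : Function.Injective θ) : W θ * Matrix.vandermonde θ = 1 := by
  have h := Matrix.det_vandermonde_ne_zero_iff.mpr hθ
  exact Matrix.nonsing_inv_mul _ (isUnit_iff_ne_zero.mpr h)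

lemma mul_W {θ : Fin d → ℂ} (hθ : Function.Injective θ) : Matrix.vandermonde θ * W θ = 1 := by
  have h := Matrix.det_vandermonde_ne_zero_iff.mpr hθ
  exact Matrix.mul_nonsing_inv _ (isUnit_iff_ne_zero.mpr h)

lemma W_al {θ : Fin d → ℂ} (hθ : Function.Injective θ) (β : Fin d → ℤ) (j : Fin d) :
    (β j : ℂ) = ∑ σ, W θ j σ * al θ β σ := by
  have h1 : (W θ).mulVec ((Matrix.vandermonde θ).mulVec fun j => (β j : ℂ)) = fun j => (β j : ℂ) := by
    rw [Matrix.mulVec_mulVec, W_mul hθ, Matrix.one_mulVec]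
  have h2 := congrFun h1 j
  rw [← h2]
  simp only [Matrix.mulVec, dotProduct, al, Matrix.vandermonde_apply]
  apply Finset.sum_congr rfl
  intro σ _
  congr 1
  apply Finset.sum_congr rfl
  intro i _
  ring

lemma al_add_single [NeZero d] (θ : Fin d → ℂ) (a : Fin d → ℤ) (s : ℤ) (σ : Fin d) :
    al θ (a + Pi.single 0 s) σ = (s : ℂ) + al θ a σ := by
  unfold al
  have h1 : ∀ j : Fin d, (((a + Pi.single (0 : Fin d) s : Fin d → ℤ) j : ℤ) : ℂ) * θ σ ^ (j : ℕ)
      = (a j : ℂ) * θ σ ^ (j : ℕ) + (if j = 0 then (s : ℂ) else 0) := by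
    intro j
    rw [Pi.add_apply]
    by_cases hj : j = 0
    · subst hj
      simp
    · rw [Pi.single_eq_of_ne hj]
      simp [hj]
  rw [Finset.sum_congr rfl (fun j _ => h1 j), Finset.sum_add_distrib, add_comm]
  simp

/-- the value of `β_j` at a solution of a window -/
lemma sol_val [NeZero d] {θ : Fin d → ℂ} (hθ : Function.Injective θ) {p : ℕ} (hp : 0 < p)
    {n s : ℤ} {a β : Fin d → ℤ} (h : Sol θ p n (a + Pi.single 0 s) β) (j : Fin d) :
    (β j : ℂ) = ((p : ℂ) ^ 2)⁻¹ * ∑ σ, W θ j σ * ((n : ℂ) - θ σ)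
      * (∏ ρ ∈ Finset.univ.erase σ, ((s : ℂ) + al θ a ρ)) ^ 2 := by
  have hp0 : (p : ℂ) ^ 2 ≠ 0 := pow_ne_zero _ (by exact_mod_cast hp.ne')
  rw [W_al hθ β j, Finset.mul_sum]
  apply Finset.sum_congr rfl
  intro σ _
  have h1 := h σ
  simp only [al_add_single] at h1
  have h2 : al θ β σ = ((p : ℂ) ^ 2)⁻¹ * (((n : ℂ) - θ σ)
      * (∏ ρ ∈ Finset.univ.erase σ, ((s : ℂ) + al θ a ρ)) ^ 2) := by
    rw [← h1, inv_mul_cancel_left₀ hp0]
  rw [h2]
  ring

/-- the vector `(β, s β)` -/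
def vec2 (s : ℤ) (β : Fin d → ℤ) : Fin d ⊕ Fin d → ℤ := Sum.elim β (fun j => s * β j)

/-- the determinant of `2d` solutions of one window is zero -/
theorem det_window [NeZero d] {θ : Fin d → ℂ} (hθ : Function.Injective θ) (C0 : ℝ) (hC0 : 1 ≤ C0) :
    ∃ C : ℝ, 1 ≤ C ∧ ∀ (X P H τ : ℝ), 1 ≤ X → 1 ≤ H → 0 < P → H ^ d ≤ C0 * P →
      0 < τ → τ ≤ 1 →
      (∀ k ∈ Finset.range (2 * d + 1), C * (X ^ (2 * d - k) * τ ^ ek d k) ≤ P ^ 3) →
      ∀ a : Fin d → ℤ, (∀ σ, ‖al θ a σ‖ ≤ C0 * H) →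
      ∀ (s n : Fin d ⊕ Fin d → ℤ) (p : Fin d ⊕ Fin d → ℕ) (β : Fin d ⊕ Fin d → (Fin d → ℤ)),
        (∀ i, |(s i : ℝ)| ≤ τ * H) → (∀ i, |(n i : ℝ)| ≤ X) → (∀ i, P < p i) →
        (∀ i, Sol θ (p i) (n i) (a + Pi.single 0 (s i)) (β i)) →
        Matrix.det (Matrix.of fun i => vec2 (s i) (β i)) = 0 := by
  classical
  obtain ⟨C1, hC1, hdet⟩ := det_bd (W θ) θ C0 hC0
  have hd0 : 0 < d := Nat.pos_of_ne_zero (NeZero.ne d)
  refine ⟨(2 * d + 2) * (C1 * C0 ^ (4 * d - 3)), ?_, ?_⟩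
  · have h1 : (1 : ℝ) ≤ C1 * C0 ^ (4 * d - 3) := by
      have := one_le_pow₀ hC0 (n := 4 * d - 3)
      nlinarith
    have h2 : (0 : ℝ) ≤ d := by positivity
    nlinarith
  intro X P H τ hX hH hP hHP hτ0 hτ1 hnum a hz s n p β hs hn hp hsol
  have hX0 : (0 : ℝ) < X := by linarith
  have hH0 : (0 : ℝ) < H := by linarith
  set A : Matrix (Fin d ⊕ Fin d) (Fin d ⊕ Fin d) ℤ := Matrix.of fun i => vec2 (s i) (β i) with hA
  by_contra hne
  have h1 : (1 : ℝ) ≤ ‖((A.det : ℤ) : ℂ)‖ := by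
    rw [Complex.norm_intCast]
    have : (1 : ℤ) ≤ |A.det| := Int.one_le_abs hne
    have h2 : ((1 : ℤ) : ℝ) ≤ ((|A.det| : ℤ) : ℝ) := by exact_mod_cast this
    simpa using h2
  set x : Fin d ⊕ Fin d → ℝ := fun i => (s i : ℝ) / H with hx
  set y : Fin d ⊕ Fin d → ℝ := fun i => (n i : ℝ) / X with hy
  set z : Fin d → ℂ := fun ρ => al θ a ρ / (H : ℂ) with hzd
  set B : Matrix (Fin d ⊕ Fin d) (Fin d ⊕ Fin d) ℂ :=
    Matrix.of fun i : Fin d ⊕ Fin d => Sum.elim
          (fun j : Fin d => ∑ σ, W θ j σ * ((y i : ℂ) - ((1 / X : ℝ) : ℂ) * θ σ)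
            * (∏ ρ ∈ Finset.univ.erase σ, ((x i : ℂ) + z ρ)) ^ 2)
          (fun j : Fin d => (x i : ℂ) * ∑ σ, W θ j σ * ((y i : ℂ) - ((1 / X : ℝ) : ℂ) * θ σ)
            * (∏ ρ ∈ Finset.univ.erase σ, ((x i : ℂ) + z ρ)) ^ 2) with hB
  have hBbd := hdet z (by
      intro ρ
      rw [hzd]
      simp only [norm_div, Complex.norm_real, Real.norm_eq_abs, abs_of_pos hH0]
      rw [div_le_iff₀ hH0]
      exact hz ρ) (1 / X) τ (by positivity) hτ0.le hτ1 x y
    (by
      intro i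
      rw [hx]
      simp only [abs_div, abs_of_pos hH0]
      rw [div_le_iff₀ hH0]
      exact hs i)
    (by
      intro i
      rw [hy]
      simp only [abs_div, abs_of_pos hX0]
      rw [div_le_one hX0]
      exact hn i)
  rw [← hB] at hBbd
  set r : Fin d ⊕ Fin d → ℂ := fun i => ((p i : ℂ) ^ 2)⁻¹ * ((X : ℂ) * (H : ℂ) ^ (2 * (d - 1))) with hr
  set c : Fin d ⊕ Fin d → ℂ := Sum.elim (fun _ => (1 : ℂ)) (fun _ => (H : ℂ)) with hc
  have hHc : (H : ℂ) ≠ 0 := by exact_mod_cast hH0.ne'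
  have hXc : (X : ℂ) ≠ 0 := by exact_mod_cast hX0.ne'
  have hpp : ∀ i, 0 < p i := by
    intro i
    have : (0 : ℝ) < p i := hP.trans (hp i)
    exact_mod_cast this
  have hval : ∀ i j, (β i j : ℂ) = r i * ∑ σ, W θ j σ * ((y i : ℂ) - ((1 / X : ℝ) : ℂ) * θ σ)
            * (∏ ρ ∈ Finset.univ.erase σ, ((x i : ℂ) + z ρ)) ^ 2 := by
    intro i j
    rw [sol_val hθ (hpp i) (hsol i) j, hr]
    simp only
    rw [mul_assoc]
    congr 1
    rw [Finset.mul_sum]
    apply Finset.sum_congr rfl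
    intro σ _
    have h3 : ∏ ρ ∈ Finset.univ.erase σ, ((s i : ℂ) + al θ a ρ)
        = (H : ℂ) ^ (d - 1) * ∏ ρ ∈ Finset.univ.erase σ, ((x i : ℂ) + z ρ) := by
      have h4 : ∀ ρ ∈ Finset.univ.erase σ, ((s i : ℂ) + al θ a ρ) = (H : ℂ) * ((x i : ℂ) + z ρ) := by
        intro ρ _
        rw [hx, hzd]
        push_cast
        field_simp
      rw [Finset.prod_congr rfl h4, Finset.prod_mul_distrib, Finset.prod_const,
        Finset.card_erase_of_mem (Finset.mem_univ _), Finset.card_univ, Fintype.card_fin]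
    rw [h3]
    have h5 : ((n i : ℂ) - θ σ) = (X : ℂ) * ((y i : ℂ) - ((1 / X : ℝ) : ℂ) * θ σ) := by
      rw [hy]
      push_cast
      field_simp
    rw [h5, pow_mul]
    ring
  have hAB : A.map (Int.cast : ℤ → ℂ) = Matrix.of fun i j => r i * (Matrix.of (fun i j => c j * B i j)) i j := by
    ext i j
    rw [Matrix.map_apply, Matrix.of_apply, Matrix.of_apply]
    rw [hA, hB, hc]
    rcases j with j | j
    · simp only [Matrix.of_apply, vec2, Sum.elim_inl, one_mul]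
      exact hval i j
    · simp only [Matrix.of_apply, vec2, Sum.elim_inr]
      have h6 : ((s i * β i j : ℤ) : ℂ) = (s i : ℂ) * (β i j : ℂ) := by push_cast; ring
      have h7 : ((s i : ℤ) : ℂ) = (H : ℂ) * (x i : ℂ) := by
        rw [hx]
        push_cast
        field_simp
      rw [h6, hval i j, h7]
      ring
  have hdetA : ((A.det : ℤ) : ℂ) = (∏ i, r i) * ((∏ j, c j) * B.det) := by
    have h3 : ((A.det : ℤ) : ℂ) = (A.map (Int.cast : ℤ → ℂ)).det := by
      have := (Int.castRingHom ℂ).map_det A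
      simpa [RingHom.mapMatrix_apply] using this
    rw [h3, hAB, Matrix.det_mul_column, Matrix.det_mul_row]
  have hrn : ‖∏ i, r i‖ ≤ ((X * H ^ (2 * (d - 1))) / P ^ 2) ^ (2 * d) := by
    rw [norm_prod]
    have h3 : ∀ i ∈ (Finset.univ : Finset (Fin d ⊕ Fin d)), ‖r i‖ ≤ (X * H ^ (2 * (d - 1))) / P ^ 2 := by
      intro i _
      rw [hr]
      simp only [norm_mul, norm_inv, norm_pow, Complex.norm_real, Real.norm_eq_abs, Complex.norm_natCast,
        abs_of_pos hX0, abs_of_pos hH0]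
      rw [div_eq_inv_mul]
      apply mul_le_mul_of_nonneg_right _ (by positivity)
      apply inv_anti₀ (by positivity)
      exact pow_le_pow_left₀ hP.le (hp i).le 2
    refine (Finset.prod_le_prod (fun i _ => norm_nonneg _) h3).trans ?_
    rw [Finset.prod_const, Finset.card_univ, Fintype.card_sum, Fintype.card_fin, ← two_mul]
  have hcn : ‖∏ j, c j‖ = H ^ d := by
    rw [hc, Fintype.prod_sum_type]
    simp [abs_of_pos hH0]
  have hsum : ∑ k ∈ Finset.range (2 * d + 1), (1 / X) ^ k * τ ^ ek d k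
      = (X ^ (2 * d))⁻¹ * ∑ k ∈ Finset.range (2 * d + 1), X ^ (2 * d - k) * τ ^ ek d k := by
    rw [Finset.mul_sum]
    apply Finset.sum_congr rfl
    intro k hk
    rw [Finset.mem_range] at hk
    have h3 : X ^ (2 * d) = X ^ (2 * d - k) * X ^ k := by
      rw [← pow_add]
      congr 1
      omega
    rw [h3, one_div, inv_pow]
    have h4 : X ^ (2 * d - k) ≠ 0 := by positivity
    have h5 : X ^ k ≠ 0 := by positivity
    field_simp
  have hexp : ((X * H ^ (2 * (d - 1))) / P ^ 2) ^ (2 * d) * H ^ d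
      = X ^ (2 * d) * (H ^ d) ^ (4 * d - 3) / P ^ (4 * d) := by
    have h3 : (H ^ (2 * (d - 1))) ^ (2 * d) * H ^ d = (H ^ d) ^ (4 * d - 3) := by
      rw [← pow_mul, ← pow_add, ← pow_mul]
      congr 1
      obtain ⟨e, rfl⟩ : ∃ e, d = e + 1 := ⟨d - 1, by omega⟩
      have : 4 * (e + 1) - 3 = 4 * e + 1 := by omega
      rw [this]
      simp only [Nat.add_sub_cancel]
      ring
    have h4 : (P ^ 2) ^ (2 * d) = P ^ (4 * d) := by
      rw [← pow_mul]
      congr 1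
      ring
    rw [div_pow, mul_pow, ← h3, h4]
    ring
  have hfin : ‖((A.det : ℤ) : ℂ)‖ ≤ C1 * C0 ^ (4 * d - 3) * (P ^ 3)⁻¹ *
      ∑ k ∈ Finset.range (2 * d + 1), X ^ (2 * d - k) * τ ^ ek d k := by
    rw [hdetA, norm_mul, norm_mul, hcn]
    have hS0 : 0 ≤ ∑ k ∈ Finset.range (2 * d + 1), X ^ (2 * d - k) * τ ^ ek d k :=
      Finset.sum_nonneg (fun k _ => by positivity)
    calc ‖∏ i, r i‖ * (H ^ d * ‖B.det‖)
        ≤ ((X * H ^ (2 * (d - 1))) / P ^ 2) ^ (2 * d) * (H ^ d * (C1 * ((X ^ (2 * d))⁻¹ *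
          ∑ k ∈ Finset.range (2 * d + 1), X ^ (2 * d - k) * τ ^ ek d k))) := by
          apply mul_le_mul hrn _ (by positivity) (by positivity)
          apply mul_le_mul_of_nonneg_left _ (by positivity)
          rw [← hsum]
          exact hBbd
      _ = C1 * ((X ^ (2 * d))⁻¹ * (((X * H ^ (2 * (d - 1))) / P ^ 2) ^ (2 * d) * H ^ d)) *
          ∑ k ∈ Finset.range (2 * d + 1), X ^ (2 * d - k) * τ ^ ek d k := by ring
      _ = C1 * ((H ^ d) ^ (4 * d - 3) / P ^ (4 * d)) *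
          ∑ k ∈ Finset.range (2 * d + 1), X ^ (2 * d - k) * τ ^ ek d k := by
          rw [hexp]
          congr 2
          have : X ^ (2 * d) ≠ 0 := by positivity
          field_simp
      _ ≤ C1 * (C0 ^ (4 * d - 3) * (P ^ 3)⁻¹) *
          ∑ k ∈ Finset.range (2 * d + 1), X ^ (2 * d - k) * τ ^ ek d k := by
          apply mul_le_mul_of_nonneg_right _ hS0
          apply mul_le_mul_of_nonneg_left _ (by linarith)
          rw [div_le_iff₀ (by positivity)]
          have h3 : (H ^ d) ^ (4 * d - 3) ≤ (C0 * P) ^ (4 * d - 3) :=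
            pow_le_pow_left₀ (by positivity) hHP _
          refine h3.trans (le_of_eq ?_)
          have h4 : P ^ (4 * d) = P ^ (4 * d - 3) * P ^ 3 := by
            rw [← pow_add]
            congr 1
            omega
          rw [h4, mul_pow]
          have h5 : P ^ 3 ≠ 0 := by positivity
          field_simp
      _ = _ := by ring
  have hlast : C1 * C0 ^ (4 * d - 3) * (P ^ 3)⁻¹ *
      ∑ k ∈ Finset.range (2 * d + 1), X ^ (2 * d - k) * τ ^ ek d k < 1 := by
    have hK0 : 0 < C1 * C0 ^ (4 * d - 3) := by positivity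
    have h3 : ∀ k ∈ Finset.range (2 * d + 1), X ^ (2 * d - k) * τ ^ ek d k
        ≤ P ^ 3 / ((2 * d + 2) * (C1 * C0 ^ (4 * d - 3))) := by
      intro k hk
      rw [le_div_iff₀ (by positivity), mul_comm]
      exact hnum k hk
    have h4 := Finset.sum_le_sum h3
    rw [Finset.sum_const, Finset.card_range, nsmul_eq_mul] at h4
    calc C1 * C0 ^ (4 * d - 3) * (P ^ 3)⁻¹ *
      ∑ k ∈ Finset.range (2 * d + 1), X ^ (2 * d - k) * τ ^ ek d k
        ≤ C1 * C0 ^ (4 * d - 3) * (P ^ 3)⁻¹ * (((2 * d + 1 : ℕ) : ℝ) *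
          (P ^ 3 / ((2 * d + 2) * (C1 * C0 ^ (4 * d - 3))))) := by
          apply mul_le_mul_of_nonneg_left h4 (by positivity)
      _ = (2 * d + 1) / (2 * d + 2) := by
          push_cast
          have h5 : P ^ 3 ≠ 0 := by positivity
          have h6 : (2 * (d : ℝ) + 2) ≠ 0 := by positivity
          have h7 : C1 * C0 ^ (4 * d - 3) ≠ 0 := hK0.ne'
          have h8 : C1 ≠ 0 := left_ne_zero_of_mul h7
          have h9 : C0 ^ (4 * d - 3) ≠ 0 := right_ne_zero_of_mul h7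
          field_simp
      _ < 1 := by
          rw [div_lt_one (by positivity)]
          linarith
  linarith

end

end Pool.Agent.Lib.Sqf4
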