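import Pool.Agent.Lib.Sqf4.Win1

set_option autoImplicit false

/-!
Window, part 2: the common linear relation `∑ (g_j + s g'_j) β_j = 0` of one window.
-/

namespace Pool.Agent.Lib.Sqf4

open Polynomial Matrix

noncomputable section

variable {d : ℕ}

/-- a solution of the window with base `a` -/
def WSol [NeZero d] (θ : Fin d → ℂ) (X P H τ : ℝ) (a : Fin d → ℤ) (s n : ℤ) (β : Fin d → ℤ) : Prop :=
  |(s : ℝ)| ≤ τ * H ∧ |(n : ℝ)| ≤ X ∧ ∃ p : ℕ, P < p ∧ Sol θ p n (a + Pi.single 0 s) β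

/-- size of `β` -/
lemma beta_bound [NeZero d] {θ : Fin d → ℂ} (hθ : Function.Injective θ) (C0 : ℝ) (hC0 : 1 ≤ C0) :
    ∃ C : ℝ, 1 ≤ C ∧ ∀ (X P H τ : ℝ), 1 ≤ X → 1 ≤ H → 1 ≤ P → P ≤ X ^ 2 → H ^ d ≤ C0 * P →
      0 < τ → τ ≤ 1 → ∀ a : Fin d → ℤ, (∀ σ, ‖al θ a σ‖ ≤ C0 * H) →
      ∀ (s n : ℤ) (β : Fin d → ℤ), WSol θ X P H τ a s n β → ∀ j, |(vec2 s β j : ℝ)| ≤ C * X ^ (4 * d + 3) := by
  have hd0 : 0 < d := Nat.pos_of_ne_zero (NeZero.ne d)
  set Wb : ℝ := ∑ j, ∑ σ, ‖W θ j σ‖ with hWb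
  set Θ : ℝ := ∑ σ, ‖θ σ‖ with hΘ
  have hWb0 : 0 ≤ Wb := Finset.sum_nonneg (fun _ _ => Finset.sum_nonneg (fun _ _ => norm_nonneg _))
  have hΘ0 : 0 ≤ Θ := Finset.sum_nonneg (fun _ _ => norm_nonneg _)
  have hWle : ∀ j σ, ‖W θ j σ‖ ≤ Wb := by
    intro j σ
    rw [hWb]
    refine le_trans ?_ (Finset.single_le_sum (f := fun j => ∑ σ, ‖W θ j σ‖)
      (fun _ _ => Finset.sum_nonneg (fun _ _ => norm_nonneg _)) (Finset.mem_univ j))
    exact Finset.single_le_sum (f := fun σ => ‖W θ j σ‖) (fun _ _ => norm_nonneg _) (Finset.mem_univ σ)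
  have hΘle : ∀ σ, ‖θ σ‖ ≤ Θ := fun σ =>
    Finset.single_le_sum (f := fun σ => ‖θ σ‖) (fun _ _ => norm_nonneg _) (Finset.mem_univ σ)
  set C3 : ℝ := (d + 1) * ((1 + Wb) * (1 + Θ) * (2 * C0 * C0) ^ (2 * d)) with hC3
  have hC3' : 1 ≤ C3 := by
    have h1 : (1 : ℝ) ≤ (2 * C0 * C0) ^ (2 * d) := one_le_pow₀ (by nlinarith)
    have h2 : (1 : ℝ) ≤ (1 + Wb) * (1 + Θ) := by nlinarith [mul_nonneg hWb0 hΘ0]
    have h3 : (1 : ℝ) ≤ (1 + Wb) * (1 + Θ) * (2 * C0 * C0) ^ (2 * d) := by nlinarith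
    have h4 : (0 : ℝ) ≤ d := by positivity
    rw [hC3]
    nlinarith
  refine ⟨C0 * C3, by nlinarith, ?_⟩
  intro X P H τ hX hH hP hPX hHP hτ0 hτ1 a hz s n β hsol
  obtain ⟨hs, hn, p, hp, hsol⟩ := hsol
  have hX0 : (0 : ℝ) < X := by linarith
  have hH0 : (0 : ℝ) < H := by linarith
  have hHX : H ≤ C0 * X ^ 2 := by
    have h1 : H ≤ H ^ d := le_self_pow₀ hH hd0.ne'
    calc H ≤ H ^ d := h1
      _ ≤ C0 * P := hHP
      _ ≤ C0 * X ^ 2 := by gcongr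
  have hsH : |(s : ℝ)| ≤ H := hs.trans (by nlinarith)
  have hp0 : 0 < p := by
    have : (0 : ℝ) < p := by linarith
    exact_mod_cast this
  have hp1 : (1 : ℝ) ≤ p := by exact_mod_cast hp0
  have hprod : ∀ σ, ‖∏ ρ ∈ Finset.univ.erase σ, ((s : ℂ) + al θ a ρ)‖ ≤ (2 * C0 * H) ^ (d - 1) := by
    intro σ
    rw [norm_prod]
    have h1 : ∀ ρ ∈ Finset.univ.erase σ, ‖((s : ℂ) + al θ a ρ)‖ ≤ 2 * C0 * H := by
      intro ρ _
      refine (norm_add_le _ _).trans ?_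
      rw [Complex.norm_intCast]
      have := hz ρ
      nlinarith
    refine (Finset.prod_le_prod (fun _ _ => norm_nonneg _) h1).trans ?_
    rw [Finset.prod_const, Finset.card_erase_of_mem (Finset.mem_univ _), Finset.card_univ,
      Fintype.card_fin]
  have h2CH : (1 : ℝ) ≤ 2 * C0 * H := by nlinarith
  have hbig : (2 * C0 * H) ^ (d - 1) ≤ (2 * C0 * C0 * X ^ 2) ^ d := by
    have h1 : (2 * C0 * H) ^ (d - 1) ≤ (2 * C0 * H) ^ d := pow_le_pow_right₀ h2CH (by omega)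
    refine h1.trans (pow_le_pow_left₀ (by positivity) ?_ _)
    nlinarith
  have hβ : ∀ j, |(β j : ℝ)| ≤ C3 * X ^ (4 * d) * X := by
    intro j
    have h1 := sol_val hθ hp0 hsol j
    have h2 : |(β j : ℝ)| = ‖(β j : ℂ)‖ := by rw [Complex.norm_intCast]
    rw [h2, h1, norm_mul]
    have h3 : ‖((p : ℂ) ^ 2)⁻¹‖ ≤ 1 := by
      rw [norm_inv, norm_pow, Complex.norm_natCast]
      apply inv_le_one_of_one_le₀
      exact one_le_pow₀ hp1
    have h4 : ‖∑ σ, W θ j σ * ((n : ℂ) - θ σ)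
        * (∏ ρ ∈ Finset.univ.erase σ, ((s : ℂ) + al θ a ρ)) ^ 2‖
        ≤ d * (Wb * ((1 + Θ) * X) * ((2 * C0 * C0 * X ^ 2) ^ d) ^ 2) := by
      refine (norm_sum_le _ _).trans ?_
      have h5 : ∀ σ ∈ (Finset.univ : Finset (Fin d)), ‖W θ j σ * ((n : ℂ) - θ σ)
        * (∏ ρ ∈ Finset.univ.erase σ, ((s : ℂ) + al θ a ρ)) ^ 2‖
          ≤ Wb * ((1 + Θ) * X) * ((2 * C0 * C0 * X ^ 2) ^ d) ^ 2 := by
        intro σ _
        rw [norm_mul, norm_mul, norm_pow]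
        apply mul_le_mul
        · apply mul_le_mul (hWle j σ) _ (norm_nonneg _) hWb0
          refine (norm_sub_le _ _).trans ?_
          rw [Complex.norm_intCast]
          have := hΘle σ
          nlinarith
        · exact pow_le_pow_left₀ (norm_nonneg _) ((hprod σ).trans hbig) 2
        · positivity
        · positivity
      refine (Finset.sum_le_sum h5).trans ?_
      rw [Finset.sum_const, Finset.card_univ, Fintype.card_fin, nsmul_eq_mul]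
    calc ‖((p : ℂ) ^ 2)⁻¹‖ * ‖∑ σ, W θ j σ * ((n : ℂ) - θ σ)
        * (∏ ρ ∈ Finset.univ.erase σ, ((s : ℂ) + al θ a ρ)) ^ 2‖
        ≤ 1 * (d * (Wb * ((1 + Θ) * X) * ((2 * C0 * C0 * X ^ 2) ^ d) ^ 2)) :=
          mul_le_mul h3 h4 (norm_nonneg _) (by norm_num)
      _ = (d * (Wb * (1 + Θ) * (2 * C0 * C0) ^ (2 * d))) * X ^ (4 * d) * X := by
          have h6 : ((2 * C0 * C0 * X ^ 2) ^ d) ^ 2 = (2 * C0 * C0) ^ (2 * d) * X ^ (4 * d) := by
            rw [← pow_mul, mul_pow, ← pow_mul]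
            congr 2 <;> ring
          rw [h6]
          ring
      _ ≤ C3 * X ^ (4 * d) * X := by
          have h7 : d * (Wb * (1 + Θ) * (2 * C0 * C0) ^ (2 * d)) ≤ C3 := by
            rw [hC3]
            have h8 : (0 : ℝ) ≤ (1 + Θ) * (2 * C0 * C0) ^ (2 * d) := by positivity
            have h9 : (0 : ℝ) ≤ d := by positivity
            have h10 : Wb * (1 + Θ) * (2 * C0 * C0) ^ (2 * d)
              ≤ (1 + Wb) * (1 + Θ) * (2 * C0 * C0) ^ (2 * d) := by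
              nlinarith
            have h11 : (0 : ℝ) ≤ (1 + Wb) * (1 + Θ) * (2 * C0 * C0) ^ (2 * d) := by positivity
            nlinarith
          gcongr
  have hXX : ∀ j, |(β j : ℝ)| ≤ C3 * X ^ (4 * d + 1) := by
    intro j
    refine (hβ j).trans (le_of_eq ?_)
    rw [pow_succ]
    ring
  intro j
  rcases j with j | j
  · simp only [vec2, Sum.elim_inl]
    refine (hXX j).trans ?_
    have h1 : X ^ (4 * d + 1) ≤ X ^ (4 * d + 3) := pow_le_pow_right₀ hX (by omega)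
    have h2 : C3 ≤ C0 * C3 := by nlinarith
    have h3 : 0 ≤ X ^ (4 * d + 1) := by positivity
    nlinarith
  · simp only [vec2, Sum.elim_inr]
    push_cast
    rw [abs_mul]
    calc |(s : ℝ)| * |(β j : ℝ)| ≤ (C0 * X ^ 2) * (C3 * X ^ (4 * d + 1)) :=
          mul_le_mul (hsH.trans hHX) (hXX j) (abs_nonneg _) (by positivity)
      _ = C0 * C3 * X ^ (4 * d + 3) := by
          have : 4 * d + 3 = 2 + (4 * d + 1) := by ring
          rw [this, pow_add X 2]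
          ring

/-- the common relation of a window -/
theorem rel_window [NeZero d] {θ : Fin d → ℂ} (hθ : Function.Injective θ) (C0 : ℝ) (hC0 : 1 ≤ C0) :
    ∃ C : ℝ, 1 ≤ C ∧ ∃ B : ℕ, ∀ (X P H τ : ℝ), 1 ≤ X → 1 ≤ H → 1 ≤ P → P ≤ X ^ 2 →
      H ^ d ≤ C0 * P → 0 < τ → τ ≤ 1 →
      (∀ k ∈ Finset.range (2 * d + 1), C * (X ^ (2 * d - k) * τ ^ ek d k) ≤ P ^ 3) →
      ∀ a : Fin d → ℤ, (∀ σ, ‖al θ a σ‖ ≤ C0 * H) →
      ∃ g : Fin d ⊕ Fin d → ℤ, g ≠ 0 ∧ (∀ j, |(g j : ℝ)| ≤ C * X ^ B) ∧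
        ∀ (s n : ℤ) (β : Fin d → ℤ), WSol θ X P H τ a s n β →
          ∑ j, ((g (Sum.inl j)) + s * g (Sum.inr j)) * β j = 0 := by
  classical
  have hd0 : 0 < d := Nat.pos_of_ne_zero (NeZero.ne d)
  haveI : Nonempty (Fin d ⊕ Fin d) := ⟨Sum.inl 0⟩
  obtain ⟨C1, hC1, hdet⟩ := det_window hθ C0 hC0
  obtain ⟨C2, hC2, hbd⟩ := beta_bound hθ C0 hC0
  refine ⟨max C1 ((4 * d * C2) ^ (2 * d)), le_trans hC1 (le_max_left _ _), (4 * d + 3) * (2 * d), ?_⟩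
  intro X P H τ hX hH hP hPX hHP hτ0 hτ1 hnum a hz
  have hX0 : (0 : ℝ) < X := by linarith
  set K : ℕ := ⌈C2 * X ^ (4 * d + 3)⌉₊ with hK
  have hKX : 1 ≤ C2 * X ^ (4 * d + 3) := by
    have := one_le_pow₀ hX (n := 4 * d + 3)
    nlinarith
  have hK1 : 1 ≤ K := by
    rw [hK]
    exact Nat.one_le_ceil_iff.mpr (by linarith)
  have hK2 : (K : ℝ) ≤ 2 * C2 * X ^ (4 * d + 3) := by
    have h1 := (Nat.ceil_lt_add_one (by linarith : 0 ≤ C2 * X ^ (4 * d + 3))).le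
    rw [← hK] at h1
    linarith
  set S : Set (Fin d ⊕ Fin d → ℤ) := {v | ∃ s n β, WSol θ X P H τ a s n β ∧ v = vec2 s β} with hS
  obtain ⟨g, hg0, hg1, hg2⟩ := exists_rel K hK1 S (by
      rintro v ⟨s, n, β, hs, rfl⟩ j
      have h1 := hbd X P H τ hX hH hP hPX hHP hτ0 hτ1 a hz s n β hs j
      have h2 : |(vec2 s β j : ℝ)| ≤ K := h1.trans (Nat.le_ceil _)
      have h3 : ((|vec2 s β j| : ℤ) : ℝ) ≤ ((K : ℤ) : ℝ) := by
        push_cast
        exact h2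
      exact_mod_cast h3)
    (by
      intro v hv
      choose s n β hs hv' using hv
      have h1 : (Matrix.of v : Matrix (Fin d ⊕ Fin d) (Fin d ⊕ Fin d) ℤ)
          = Matrix.of fun i => vec2 (s i) (β i) := by
        ext i j
        rw [Matrix.of_apply, Matrix.of_apply, hv' i]
      rw [h1]
      choose hs1 hs2 p hp1 hp2 using hs
      refine hdet X P H τ hX hH (by linarith) hHP hτ0 hτ1 ?_ a hz s n p β hs1 hs2 hp1 hp2
      intro k hk
      refine le_trans ?_ (hnum k hk)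
      exact mul_le_mul_of_nonneg_right (le_max_left _ _) (by positivity))
  refine ⟨g, hg0, ?_, ?_⟩
  · intro j
    have h1 := hg1 j
    have h2 : ((|g j| : ℤ) : ℝ) ≤ (((((Fintype.card (Fin d ⊕ Fin d) * K : ℕ) : ℤ)
        ^ Fintype.card (Fin d ⊕ Fin d) : ℤ)) : ℝ) := by exact_mod_cast h1
    rw [Fintype.card_sum, Fintype.card_fin, ← two_mul] at h2
    push_cast at h2
    refine h2.trans ?_
    calc (2 * (d : ℝ) * K) ^ (2 * d) ≤ (2 * (d : ℝ) * (2 * C2 * X ^ (4 * d + 3))) ^ (2 * d) := by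
          gcongr
      _ = (4 * d * C2) ^ (2 * d) * X ^ ((4 * d + 3) * (2 * d)) := by
          rw [pow_mul X, ← mul_pow]
          congr 1
          ring
      _ ≤ max C1 ((4 * d * C2) ^ (2 * d)) * X ^ ((4 * d + 3) * (2 * d)) :=
          mul_le_mul_of_nonneg_right (le_max_right _ _) (by positivity)
  · intro s n β hs
    have h1 := hg2 (vec2 s β) ⟨s, n, β, hs, rfl⟩
    rw [Fintype.sum_sum_type, ← Finset.sum_add_distrib] at h1
    rw [← h1]
    apply Finset.sum_congr rfl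
    intro j _
    simp only [vec2, Sum.elim_inl, Sum.elim_inr]
    ring

end

end Pool.Agent.Lib.Sqf4
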