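import Pool.Agent.Lib.Sqf4.WinN3

set_option autoImplicit false

/-!
Window for all degrees, final part.
-/

namespace Pool.Agent.Lib.Sqf4

open Polynomial Matrix

noncomputable section

variable {d : ℕ}

/-- a solution of the window with base `a`, with a prime `p > P` -/
def WSolP [NeZero d] (θ : Fin d → ℂ) (X P H τ : ℝ) (a : Fin d → ℤ) (s n : ℤ) (β : Fin d → ℤ) :
    Prop :=
  |(s : ℝ)| ≤ τ * H ∧ |(n : ℝ)| ≤ X ∧ ∃ p : ℕ, p.Prime ∧ P < p ∧ Sol θ p n (a + Pi.single 0 s) β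

theorem WSolP.toWSol [NeZero d] {θ : Fin d → ℂ} {X P H τ : ℝ} {a : Fin d → ℤ} {s n : ℤ}
    {β : Fin d → ℤ} (h : WSolP θ X P H τ a s n β) : WSol θ X P H τ a s n β :=
  ⟨h.1, h.2.1, h.2.2.imp fun _ hp => hp.2⟩

/-- level one independence of the polynomials `F_j = Z0 PB_j - c0 QB_j` of a curve -/
theorem F_level {θ : Fin d → ℂ} {a : Fin d → ℤ} {PB QB : Fin d → ℤ[X]} (hPB : PBQB θ a PB QB)
    (hθ : Function.Injective θ) (D H C0 Θ : ℝ) (hD0 : 0 < D) (hDH : D ≤ H) (hC0 : 1 ≤ C0)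
    (hΘ0 : 0 ≤ Θ) (hΘle : ∀ σ, ‖θ σ‖ ≤ Θ)
    (hsep : ∀ σ ρ, σ ≠ ρ → D ≤ ‖al θ a σ - al θ a ρ‖) (Z0 : ℤ[X]) (c0 : ℤ) (hc0 : c0 ≠ 0)
    (s n : ℤ) (hcurve : c0 * n = Z0.eval s) (hs : ∀ σ, ‖(s : ℂ) + al θ a σ‖ ≤ (1 + C0) * H)
    (hbig : (1 + Θ) * (4 + 3 * C0) ^ (2 * d) * (H / D) ^ (2 * d) < (n : ℝ))
    (c e : Fin d → ℤ) (hce : ∑ j, (C (c j) + X * C (e j)) * (Z0 * PB j - C c0 * QB j) = 0) :
    c = 0 ∧ e = 0 := by
  have hH0 : 0 < H := by linarith
  by_contra hne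
  have h1 : Z0 * (∑ j, (C (c j) + X * C (e j)) * PB j)
      = C c0 * ∑ j, (C (c j) + X * C (e j)) * QB j := by
    rw [← sub_eq_zero, ← hce, Finset.mul_sum, Finset.mul_sum, ← Finset.sum_sub_distrib]
    refine Finset.sum_congr rfl fun j _ => ?_
    ring
  have h2 := congrArg (Polynomial.map (Int.castRingHom ℂ)) h1
  rw [Polynomial.map_mul, Polynomial.map_mul, Polynomial.map_C] at h2
  obtain ⟨cc, hcc⟩ : ∃ cc : ℂ, cc = (Int.castRingHom ℂ) c0 := ⟨_, rfl⟩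
  rw [← hcc] at h2
  have hc0' : cc ≠ 0 := by
    intro h3
    apply hc0
    have : ((c0 : ℤ) : ℂ) = 0 := by rw [hcc] at h3; simpa using h3
    exact_mod_cast this
  have key : ∀ PM QM ZM : ℂ[X], ZM * PM = C cc * QM → PM * (C cc⁻¹ * ZM) = QM := by
    intro PM QM ZM hh
    have e1 : PM * (C cc⁻¹ * ZM) = C cc⁻¹ * (ZM * PM) := by ring
    rw [e1, hh, ← mul_assoc, ← C_mul, inv_mul_cancel₀ hc0', C_1, one_mul]
  have hb := hPB.herm hθ D ((1 + C0) * H) Θ hD0 (by positivity) hΘ0 hsep hΘle c e hne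
    (C cc⁻¹ * Z0.map (Int.castRingHom ℂ)) (key _ _ _ h2)
    (s : ℂ) hs
  have h4 : (C cc⁻¹ * Z0.map (Int.castRingHom ℂ)).eval (s : ℂ) = (n : ℂ) := by
    rw [eval_mul, eval_C, Polynomial.eval_intCast_map, Int.cast_id, ← hcurve, map_mul, ← mul_assoc,
      ← hcc, inv_mul_cancel₀ hc0', one_mul]
    rfl
  rw [h4, Complex.norm_intCast] at hb
  have h6 : (1 : ℝ) ≤ H / D := by
    rw [le_div_iff₀ hD0]
    linarith
  have h7 : 1 + 3 * ((1 + C0) * H) / D ≤ (4 + 3 * C0) * (H / D) := by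
    have : 3 * ((1 + C0) * H) / D = (3 + 3 * C0) * (H / D) := by ring
    rw [this]
    nlinarith
  have h8 : (1 + 3 * ((1 + C0) * H) / D) ^ (2 * d) ≤ ((4 + 3 * C0) * (H / D)) ^ (2 * d) :=
    pow_le_pow_left₀ (by positivity) h7 _
  have h9 : |(n : ℝ)| ≤ (1 + Θ) * (4 + 3 * C0) ^ (2 * d) * (H / D) ^ (2 * d) := by
    calc |(n : ℝ)| ≤ Θ * (1 + 3 * ((1 + C0) * H) / D) ^ (2 * d) := hb
      _ ≤ (1 + Θ) * ((4 + 3 * C0) * (H / D)) ^ (2 * d) := by
          apply mul_le_mul (by linarith) h8 (by positivity) (by positivity)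
      _ = ((1 + Θ) * (4 + 3 * C0) ^ (2 * d)) * (H / D) ^ (2 * d) := by
          rw [mul_pow]
          ring
  have := le_abs_self (n : ℝ)
  linarith

/-- THE CURVE CASE of a window. -/
theorem curve_case [NeZero d] (hd : 2 ≤ d) {θ : Fin d → ℂ} (hθ : Function.Injective θ)
    (C0 : ℝ) (hC0 : 1 ≤ C0) : ∃ C : ℝ, 1 ≤ C ∧
    ∀ (X P H D τ Q : ℝ), 1 ≤ X → 1 ≤ H → 1 ≤ P → 0 < τ → τ ≤ 1 → 0 < D → D ≤ H → 1 ≤ Q →
      detB d (3 * d - 1) ((d ^ 2 + 3 * d - 2) / 2) C X P H τ < Q ^ ((3 * d - 1).choose 2) →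
      ∀ a : Fin d → ℤ, (∀ σ, ‖al θ a σ‖ ≤ C0 * H) →
      (∀ σ ρ, σ ≠ ρ → D ≤ ‖al θ a σ - al θ a ρ‖) →
      ∀ (PB QB : Fin d → ℤ[X]), PBQB θ a PB QB →
      ∀ (M : ℕ) (Z0 : ℤ[X]) (c0 : ℤ), c0 ≠ 0 → Z0.natDegree ≤ M →
      ∀ q : ℕ, q.Prime → Q ≤ q → (q : ℝ) ≤ P → ¬ ((q : ℤ) ∣ c0) →
      ∀ S : Finset (ℤ × ℤ), (∀ x ∈ S, C * (H / D) ^ (2 * d) < (x.2 : ℝ) ∧
        c0 * x.2 = Z0.eval x.1 ∧ ∃ β, WSolP θ X P H τ a x.1 x.2 β) →
      S.card ≤ q * (d + M + 2 * (d - 1)) := by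
  classical
  have hd0 : 0 < d := by omega
  have hCj := fun j0 : Fin d => det_windowN (ι := Col d (d - 1) 1) hθ C0 hC0 ce
    (cj (fun _ => j0))
  choose Cj hCj1 hCj2 using hCj
  set Θ : ℝ := ∑ σ, ‖θ σ‖ with hΘ
  have hΘ0 : 0 ≤ Θ := Finset.sum_nonneg (fun _ _ => norm_nonneg _)
  have hΘle : ∀ σ, ‖θ σ‖ ≤ Θ := fun σ =>
    Finset.single_le_sum (f := fun σ => ‖θ σ‖) (fun _ _ => norm_nonneg _) (Finset.mem_univ σ)
  have hCj0 : ∀ j, 0 ≤ Cj j := fun j => by linarith [hCj1 j]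
  have hCjle : ∀ j, Cj j ≤ ∑ j, Cj j := fun j =>
    Finset.single_le_sum (f := Cj) (fun j _ => hCj0 j) (Finset.mem_univ j)
  have hsum0 : 0 ≤ ∑ j, Cj j := Finset.sum_nonneg fun j _ => hCj0 j
  have hΘb : (0 : ℝ) ≤ (1 + Θ) * (4 + 3 * C0) ^ (2 * d) := by positivity
  set Cf : ℝ := 1 + ∑ j, Cj j + (1 + Θ) * (4 + 3 * C0) ^ (2 * d) with hCf
  refine ⟨Cf, by rw [hCf]; linarith, ?_⟩
  intro X P H D τ Q hX hH hP hτ0 hτ1 hD0 hDH hQ hnum a hz hsep PB QB hPB M Z0 c0 hc0 hZdeg q hq hQq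
    hqP hqc S hS
  by_cases hSe : S = ∅
  · rw [hSe]; simp
  obtain ⟨x0, hx0⟩ := Finset.nonempty_iff_ne_empty.2 hSe
  have hX0 : (0 : ℝ) < X := by linarith
  have hH0 : (0 : ℝ) < H := by linarith
  -- the polynomials of the curve
  set F : Fin d → ℤ[X] := fun j => Z0 * PB j - C c0 * QB j with hF
  have hFdeg : ∀ j, (F j).natDegree ≤ M + 2 * (d - 1) := by
    intro j
    refine (natDegree_sub_le _ _).trans (max_le ?_ ?_)
    · refine natDegree_mul_le.trans ?_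
      have := hPB.natDegree_P j
      omega
    · refine (natDegree_C_mul_le _ _).trans ?_
      have := hPB.natDegree_Q j
      omega
  have hlevel : ∀ c e : Fin d → ℤ,
      ∑ j, (C (c j) + Polynomial.X * C (e j)) * F j = 0 → c = 0 ∧ e = 0 := by
    obtain ⟨hbig, hcurve, hβx⟩ := hS x0 hx0
    refine F_level hPB hθ D H C0 Θ hD0 hDH hC0 hΘ0 hΘle hsep Z0 c0 hc0 x0.1 x0.2 hcurve ?_ ?_
    · intro σ
      refine (norm_add_le _ _).trans ?_
      rw [Complex.norm_intCast]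
      obtain ⟨β, hβ, -, -⟩ := hβx
      have h1 : |(x0.1 : ℝ)| ≤ H := hβ.trans (by nlinarith)
      have h2 := hz σ
      linarith
    · refine lt_of_le_of_lt ?_ hbig
      refine mul_le_mul_of_nonneg_right ?_ (by positivity)
      rw [hCf]; linarith
  obtain ⟨j0, hind⟩ := curve_indep F hlevel
  -- choose the data
  have hdata : ∀ s : ℤ, ∃ (n : ℤ) (p : ℕ) (β : Fin d → ℤ), s ∈ S.image Prod.fst →
      ((s, n) ∈ S ∧ |(s : ℝ)| ≤ τ * H ∧ |(n : ℝ)| ≤ X ∧ p.Prime ∧ P < p ∧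
        Sol θ p n (a + Pi.single 0 s) β) := by
    intro s
    by_cases hs : s ∈ S.image Prod.fst
    · obtain ⟨x, hx, hxs⟩ := Finset.mem_image.1 hs
      obtain ⟨-, -, β, h1, h2, p, h3, h4, h5⟩ := hS x hx
      subst hxs
      exact ⟨x.2, p, β, fun _ => ⟨hx, h1, h2, h3, h4, h5⟩⟩
    · exact ⟨0, 0, 0, fun h => absurd h hs⟩
  choose n p β hdat using hdata
  have hdet2 := hCj2 j0 X P H τ hX hH (by linarith) hτ0 hτ1 a hz
  have hcount := curve_count (ι := Col d (d - 1) 1) (d + M + 2 * (d - 1)) q hq.pos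
    (fun c => Polynomial.X ^ ce c * F (cj (fun _ => j0) c))
    (by
      intro c
      refine natDegree_mul_le.trans ?_
      rw [natDegree_X_pow]
      have h1 := hFdeg (cj (fun _ => j0) c)
      have h2 := ce_le c
      omega)
    (fun g hg => hind (d - 1) g hg)
    (S.image Prod.fst)
    (fun s c => s ^ ce c * β s (cj (fun _ => j0) c))
    (fun s => c0 * (p s : ℤ) ^ 2)
    (by
      intro s hs
      obtain ⟨-, -, -, hp, hPp, -⟩ := hdat s hs
      have h1 : IsCoprime c0 (q : ℤ) := by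
        rw [isCoprime_comm]
        exact (Nat.prime_iff_prime_int.1 hq).coprime_iff_not_dvd.2 hqc
      have h2 : IsCoprime ((p s : ℤ)) (q : ℤ) := by
        rw [Nat.isCoprime_iff_coprime]
        rw [Nat.coprime_primes hp hq]
        intro h3
        rw [h3] at hPp
        linarith
      exact h1.mul_left h2.pow_left)
    (by
      intro s hs c
      obtain ⟨hmem, -, -, -, -, hsol⟩ := hdat s hs
      have h1 := hPB.rel hθ hsol (cj (fun _ => j0) c)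
      have h2 := (hS _ hmem).2.1
      simp only at h2
      rw [eval_mul, eval_pow, eval_X]
      simp only [hF, eval_sub, eval_mul, eval_C]
      rw [← h2]
      linear_combination (c0 * s ^ ce c) * h1)
    (by
      intro s hs
      have h1 := hdet2 s (fun i => n (s i)) (fun i => p (s i)) (fun i => β (s i))
        (fun i => (hdat _ (hs i)).2.1) (fun i => (hdat _ (hs i)).2.2.1)
        (fun i => (hdat _ (hs i)).2.2.2.2.1) (fun i => (hdat _ (hs i)).2.2.2.2.2)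
      have hN : 2 * d + (d - 1) * 1 = 3 * d - 1 := by omega
      have hE : d + 1 * ∑ k ∈ Finset.range (d - 1), (k + 2) = (d ^ 2 + 3 * d - 2) / 2 := by
        obtain ⟨m, rfl⟩ : ∃ m, d = m + 1 := ⟨d - 1, by omega⟩
        simp only [Nat.add_sub_cancel]
        have h3 : ∀ m : ℕ, 2 * ∑ k ∈ Finset.range m, (k + 2) = m * (m + 3) := by
          intro m
          induction m with
          | zero => simp
          | succ m ih => rw [Finset.sum_range_succ, mul_add, ih]; ring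
        have h4 := h3 m
        have h5 : (m + 1) ^ 2 + 3 * (m + 1) - 2 = 2 * (m + 1) + m * (m + 3) := by
          have : (m + 1) ^ 2 + 3 * (m + 1) = 2 * (m + 1) + m * (m + 3) + 2 := by ring
          omega
        omega
      rw [card_Col, sum_ce, hN, hE] at h1
      have h2 := detB_mono (d := d) (N := 3 * d - 1) (E := (d ^ 2 + 3 * d - 2) / 2) hX0
        (by linarith : 0 < P) hH0 hτ0 (show Cj j0 ≤ Cf by
          rw [hCf]; linarith [hCjle j0])
      have h3 : Q ^ ((3 * d - 1).choose 2) ≤ (q : ℝ) ^ ((3 * d - 1).choose 2) :=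
        pow_le_pow_left₀ (by linarith) hQq _
      have h4 := ((h1.trans h2).trans_lt hnum).trans_le h3
      rw [card_Col, hN]
      have h6 : ((|Matrix.det (Matrix.of fun i c => s i ^ ce c * β (s i) (cj (fun _ => j0) c))| : ℤ) : ℝ)
          < (((q : ℤ) ^ ((3 * d - 1).choose 2) : ℤ) : ℝ) := by
        rw [Int.cast_abs]
        push_cast
        push_cast at h4
        exact h4
      exact_mod_cast h6)
  have hcard : (S.image Prod.fst).card = S.card := by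
    apply Finset.card_image_of_injOn
    intro x hx y hy hxy
    have h1 := (hS x hx).2.1
    have h2 := (hS y hy).2.1
    have hxy' : x.1 = y.1 := hxy
    rw [← hxy', ← h1] at h2
    exact Prod.ext hxy' (mul_left_cancel₀ hc0 h2).symm
  rw [hcard] at hcount
  exact hcount

end

end Pool.Agent.Lib.Sqf4
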