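import Pool.Agent.Lib.Sqf4.WinN1
import Pool.Agent.Lib.Sqf4.Prm

set_option autoImplicit false

/-!
Window for all degrees, part 2: the common linear relation.
-/

namespace Pool.Agent.Lib.Sqf4

open Polynomial Matrix

noncomputable section

variable {d : ℕ}

/-- the vector of the columns `s^i β_j` -/
def vecN {K r : ℕ} (jj : Fin r → Fin d) (s : ℤ) (β : Fin d → ℤ) : Col d K r → ℤ :=
  fun c => s ^ ce c * β (cj jj c)

/-- size of the columns -/
theorem vecN_bound [NeZero d] {θ : Fin d → ℂ} (hθ : Function.Injective θ) (C0 : ℝ) (hC0 : 1 ≤ C0)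
    (K : ℕ) : ∃ C : ℝ, 1 ≤ C ∧ ∃ B : ℕ, ∀ (X P H τ : ℝ), 1 ≤ X → 1 ≤ H → 1 ≤ P → P ≤ X ^ 2 →
      H ^ d ≤ C0 * P → 0 < τ → τ ≤ 1 → ∀ a : Fin d → ℤ, (∀ σ, ‖al θ a σ‖ ≤ C0 * H) →
      ∀ (r : ℕ) (jj : Fin r → Fin d) (s n : ℤ) (β : Fin d → ℤ), WSol θ X P H τ a s n β →
        ∀ c : Col d K r, |(vecN jj s β c : ℝ)| ≤ C * X ^ B := by
  have hd0 : 0 < d := Nat.pos_of_ne_zero (NeZero.ne d)
  obtain ⟨C2, hC2, hbd⟩ := beta_bound hθ C0 hC0
  refine ⟨C0 ^ (K + 1) * C2, one_le_mul_of_one_le_of_one_le (one_le_pow₀ hC0) hC2,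
    2 * (K + 1) + (4 * d + 3), ?_⟩
  intro X P H τ hX hH hP hPX hHP hτ0 hτ1 a hz r jj s n β hs c
  have hX0 : (0 : ℝ) < X := by linarith
  have hHX : H ≤ C0 * X ^ 2 := by
    have h1 : H ≤ H ^ d := le_self_pow₀ hH hd0.ne'
    calc H ≤ H ^ d := h1
      _ ≤ C0 * P := hHP
      _ ≤ C0 * X ^ 2 := by gcongr
  have hsX : |(s : ℝ)| ≤ C0 * X ^ 2 := (hs.1.trans (by nlinarith)).trans hHX
  have h1X : 1 ≤ C0 * X ^ 2 := one_le_mul_of_one_le_of_one_le hC0 (one_le_pow₀ hX)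
  have hb := hbd X P H τ hX hH hP hPX hHP hτ0 hτ1 a hz s n β hs (Sum.inl (cj jj c))
  simp only [vec2, Sum.elim_inl] at hb
  simp only [vecN]
  push_cast
  rw [abs_mul, abs_pow]
  calc |(s : ℝ)| ^ ce c * |(β (cj jj c) : ℝ)|
      ≤ (C0 * X ^ 2) ^ (K + 1) * (C2 * X ^ (4 * d + 3)) := by
        apply mul_le_mul _ hb (abs_nonneg _) (by positivity)
        exact (pow_le_pow_left₀ (abs_nonneg _) hsX _).trans (pow_le_pow_right₀ h1X (ce_le c))
    _ = C0 ^ (K + 1) * C2 * X ^ (2 * (K + 1) + (4 * d + 3)) := by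
        rw [mul_pow, ← pow_mul, pow_add]; ring

/-- the common relation of a window, columns of all levels -/
theorem rel_windowN [NeZero d] (hd : 2 ≤ d) {θ : Fin d → ℂ} (hθ : Function.Injective θ) (C0 : ℝ)
    (hC0 : 1 ≤ C0) (K : ℕ) :
    ∃ C : ℝ, 1 ≤ C ∧ ∃ B : ℕ, ∀ (X P H τ : ℝ), 1 ≤ X → 1 ≤ H → 1 ≤ P → P ≤ X ^ 2 →
      H ^ d ≤ C0 * P → 0 < τ → τ ≤ 1 →
      detB d (2 * d + K * 2) (d + 2 * ∑ k ∈ Finset.range K, (k + 2)) C X P H τ < 1 →
      ∀ a : Fin d → ℤ, (∀ σ, ‖al θ a σ‖ ≤ C0 * H) →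
      ∃ g : Col d K 2 → ℤ, g ≠ 0 ∧ (∀ j, |(g j : ℝ)| ≤ C * X ^ B) ∧
        ∀ (s n : ℤ) (β : Fin d → ℤ), WSol θ X P H τ a s n β →
          ∑ c, g c * vecN (jj2 hd) s β c = 0 := by
  classical
  have : Nonempty (Col d K 2) := ⟨Sum.inl 0⟩
  obtain ⟨C1, hC1, hdet⟩ := det_windowN (ι := Col d K 2) hθ C0 hC0 ce (cj (jj2 hd))
  obtain ⟨C2, hC2, B, hbd⟩ := vecN_bound hθ C0 hC0 K
  set N : ℕ := 2 * d + K * 2 with hN
  refine ⟨max C1 ((N * (2 * C2)) ^ N), le_trans hC1 (le_max_left _ _), B * N, ?_⟩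
  intro X P H τ hX hH hP hPX hHP hτ0 hτ1 hnum a hz
  have hX0 : (0 : ℝ) < X := by linarith
  set Kb : ℕ := ⌈C2 * X ^ B⌉₊ with hKb
  have hKX : 1 ≤ C2 * X ^ B := one_le_mul_of_one_le_of_one_le hC2 (one_le_pow₀ hX)
  have hK1 : 1 ≤ Kb := by
    rw [hKb]
    exact Nat.one_le_ceil_iff.mpr (by linarith)
  have hK2 : (Kb : ℝ) ≤ 2 * C2 * X ^ B := by
    have h1 := (Nat.ceil_lt_add_one (by linarith : 0 ≤ C2 * X ^ B)).le
    rw [← hKb] at h1
    linarith
  set S : Set (Col d K 2 → ℤ) := {v | ∃ s n β, WSol θ X P H τ a s n β ∧ v = vecN (jj2 hd) s β}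
    with hS
  obtain ⟨g, hg0, hg1, hg2⟩ := exists_rel Kb hK1 S (by
      rintro v ⟨s, n, β, hs, rfl⟩ j
      have h1 := hbd X P H τ hX hH hP hPX hHP hτ0 hτ1 a hz 2 (jj2 hd) s n β hs j
      have h2 : |(vecN (jj2 hd) s β j : ℝ)| ≤ Kb := h1.trans (Nat.le_ceil _)
      have h3 : ((|vecN (jj2 hd) s β j| : ℤ) : ℝ) ≤ ((Kb : ℤ) : ℝ) := by
        push_cast
        exact h2
      exact_mod_cast h3)
    (by
      intro v hv
      choose s n β hs hv' using hv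
      have h1 : (Matrix.of v : Matrix (Col d K 2) (Col d K 2) ℤ)
          = Matrix.of fun i c => s i ^ ce c * β i (cj (jj2 hd) c) := by
        ext i j
        rw [Matrix.of_apply, Matrix.of_apply, hv' i]
        rfl
      rw [h1]
      choose hs1 hs2 p hp1 hp2 using hs
      have h2 := hdet X P H τ hX hH (by linarith) hτ0 hτ1 a hz s n p β hs1 hs2 hp1 hp2
      rw [card_Col, sum_ce] at h2
      have h3 := detB_mono (d := d) (N := 2 * d + K * 2) (E := d + 2 * ∑ k ∈ Finset.range K, (k + 2))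
        hX0 (by linarith : 0 < P) (by linarith : 0 < H) hτ0 (le_max_left C1 ((N * (2 * C2)) ^ N))
      have h4 := (h2.trans h3).trans_lt hnum
      have h5 : |Matrix.det (Matrix.of fun i c => s i ^ ce c * β i (cj (jj2 hd) c))| < 1 := by
        have h6 : ((|Matrix.det (Matrix.of fun i c => s i ^ ce c * β i (cj (jj2 hd) c))| : ℤ) : ℝ)
            < ((1 : ℤ) : ℝ) := by
          rw [Int.cast_abs, Int.cast_one]
          exact h4
        exact_mod_cast h6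
      exact Int.abs_lt_one_iff.1 h5)
  refine ⟨g, hg0, ?_, ?_⟩
  · intro j
    have h1 := hg1 j
    have h2 : ((|g j| : ℤ) : ℝ) ≤ (((((Fintype.card (Col d K 2) * Kb : ℕ) : ℤ)
        ^ Fintype.card (Col d K 2) : ℤ)) : ℝ) := by exact_mod_cast h1
    rw [card_Col, ← hN] at h2
    push_cast at h2
    refine h2.trans ?_
    calc ((N : ℝ) * Kb) ^ N ≤ ((N : ℝ) * (2 * C2 * X ^ B)) ^ N := by
          gcongr
      _ = (N * (2 * C2)) ^ N * X ^ (B * N) := by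
          rw [pow_mul X, ← mul_pow]
          congr 1
          ring
      _ ≤ max C1 ((N * (2 * C2)) ^ N) * X ^ (B * N) :=
          mul_le_mul_of_nonneg_right (le_max_right _ _) (by positivity)
  · intro s n β hs
    exact hg2 _ ⟨s, n, β, hs, rfl⟩

/-- value of a combination at an integer -/
theorem comb_eval {K r : ℕ} (jj : Fin r → Fin d) (A : Fin d → ℤ[X]) (g : Col d K r → ℤ) (s : ℤ) :
    (comb jj A g).eval s = ∑ c, g c * (s ^ ce c * (A (cj jj c)).eval s) := by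
  rw [comb, eval_finsetSum]
  exact Finset.sum_congr rfl fun c _ => by simp

/-- the relation as `n P(s) = Q(s)` -/
theorem rel_eval [NeZero d] {θ : Fin d → ℂ} {a : Fin d → ℤ} {PB QB : Fin d → ℤ[X]}
    (h : PBQB θ a PB QB) (hθ : Function.Injective θ) {K r : ℕ} (jj : Fin r → Fin d)
    (g : Col d K r → ℤ) {p : ℕ} {n s : ℤ} {β : Fin d → ℤ}
    (hS : Sol θ p n (a + Pi.single 0 s) β) (hg : ∑ c, g c * vecN jj s β c = 0) :
    n * (comb jj PB g).eval s = (comb jj QB g).eval s := by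
  rw [comb_eval, comb_eval]
  have h1 : ∑ c, g c * (s ^ ce c * (n * (PB (cj jj c)).eval s - (QB (cj jj c)).eval s)) = 0 := by
    have h2 : ∀ c : Col d K r, g c * (s ^ ce c * (n * (PB (cj jj c)).eval s
        - (QB (cj jj c)).eval s)) = (p : ℤ) ^ 2 * (g c * vecN jj s β c) := by
      intro c
      rw [← h.rel hθ hS (cj jj c), vecN]; ring
    rw [Finset.sum_congr rfl fun c _ => h2 c, ← Finset.mul_sum, hg, mul_zero]
  rw [Finset.mul_sum]
  rw [← sub_eq_zero, ← Finset.sum_sub_distrib, ← h1]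
  exact Finset.sum_congr rfl fun c _ => by ring

/-- degree of a combination -/
theorem comb_natDegree {K r : ℕ} (jj : Fin r → Fin d) (A : Fin d → ℤ[X]) (D : ℕ)
    (hA : ∀ j, (A j).natDegree ≤ D) (g : Col d K r → ℤ) :
    (comb jj A g).natDegree ≤ K + 1 + D := by
  refine natDegree_sum_le_of_forall_le _ _ fun c _ => ?_
  refine (natDegree_C_mul_le _ _).trans (natDegree_mul_le.trans ?_)
  rw [natDegree_X_pow]
  have := hA (cj jj c)
  have := ce_le c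
  omega

end

end Pool.Agent.Lib.Sqf4
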