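import Pool.Agent.Lib.Sqf4.WinN2

set_option autoImplicit false

/-!
Window for all degrees, part 3: coefficient bounds, Gauss lemma, the curve case.
-/

namespace Pool.Agent.Lib.Sqf4

open Polynomial Matrix

noncomputable section

variable {d : ℕ}

theorem Psi_sq_coeff_bd (z : Fin d → ℂ) (Zb : ℝ) (hZ : 0 ≤ Zb) (hz : ∀ σ, ‖z σ‖ ≤ Zb) (σ : Fin d)
    (i : ℕ) : ‖(Psi z σ ^ 2).coeff i‖ ≤ (1 + Zb) ^ (2 * d) := by
  classical
  have h1 : Psi z σ ^ 2 = (∏ ρ ∈ Finset.univ.erase σ, (X + C (z ρ))) *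
      ((∏ ρ ∈ Finset.univ.erase σ, (X + C (z ρ))) * 1) := by
    rw [Psi]; ring
  rw [h1]
  have h0 : ∀ i, ‖(1 : ℂ[X]).coeff i‖ ≤ 1 := by
    intro i
    rw [coeff_one]
    split_ifs <;> simp
  refine (prod_coeff (prod_coeff h0 hz _) hz _ i).trans ?_
  rw [mul_one, ← pow_add]
  apply pow_le_pow_right₀ (by linarith)
  have := Finset.card_le_univ (Finset.univ.erase σ)
  rw [Fintype.card_fin] at this
  omega

theorem PBQB.coeff_P_bd {θ : Fin d → ℂ} {a : Fin d → ℤ} {PB QB : Fin d → ℤ[X]}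
    (h : PBQB θ a PB QB) (Wb Zb : ℝ) (hZ : 0 ≤ Zb) (hz : ∀ σ, ‖al θ a σ‖ ≤ Zb)
    (hW0 : 0 ≤ Wb) (hW : ∀ j σ, ‖W θ j σ‖ ≤ Wb) (j : Fin d) (i : ℕ) :
    |((PB j).coeff i : ℝ)| ≤ d * (Wb * (1 + Zb) ^ (2 * d)) := by
  have h1 : |((PB j).coeff i : ℝ)| = ‖((PB j).map (Int.castRingHom ℂ)).coeff i‖ := by
    rw [coeff_map]; simp [Complex.norm_intCast]
  rw [h1, h.P j, finsetSum_coeff]
  refine (norm_sum_le _ _).trans ?_
  have h2 : ∀ σ ∈ (Finset.univ : Finset (Fin d)), ‖(C (W θ j σ) * Psi (al θ a) σ ^ 2).coeff i‖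
      ≤ Wb * (1 + Zb) ^ (2 * d) := by
    intro σ _
    rw [coeff_C_mul, norm_mul]
    exact mul_le_mul (hW j σ) (Psi_sq_coeff_bd _ Zb hZ hz σ i) (norm_nonneg _) hW0
  refine (Finset.sum_le_sum h2).trans ?_
  rw [Finset.sum_const, Finset.card_univ, Fintype.card_fin, nsmul_eq_mul]

theorem PBQB.coeff_Q_bd {θ : Fin d → ℂ} {a : Fin d → ℤ} {PB QB : Fin d → ℤ[X]}
    (h : PBQB θ a PB QB) (Wb Zb Θ : ℝ) (hZ : 0 ≤ Zb) (hz : ∀ σ, ‖al θ a σ‖ ≤ Zb)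
    (hW0 : 0 ≤ Wb) (hW : ∀ j σ, ‖W θ j σ‖ ≤ Wb) (hΘ0 : 0 ≤ Θ) (hΘ : ∀ σ, ‖θ σ‖ ≤ Θ)
    (j : Fin d) (i : ℕ) :
    |((QB j).coeff i : ℝ)| ≤ d * (Θ * (Wb * (1 + Zb) ^ (2 * d))) := by
  have h1 : |((QB j).coeff i : ℝ)| = ‖((QB j).map (Int.castRingHom ℂ)).coeff i‖ := by
    rw [coeff_map]; simp [Complex.norm_intCast]
  rw [h1, h.Q j, finsetSum_coeff]
  refine (norm_sum_le _ _).trans ?_
  have h2 : ∀ σ ∈ (Finset.univ : Finset (Fin d)),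
      ‖(C (θ σ) * (C (W θ j σ) * Psi (al θ a) σ ^ 2)).coeff i‖
      ≤ Θ * (Wb * (1 + Zb) ^ (2 * d)) := by
    intro σ _
    rw [coeff_C_mul, coeff_C_mul, norm_mul, norm_mul]
    refine mul_le_mul (hΘ σ) ?_ (by positivity) hΘ0
    exact mul_le_mul (hW j σ) (Psi_sq_coeff_bd _ Zb hZ hz σ i) (norm_nonneg _) hW0
  refine (Finset.sum_le_sum h2).trans ?_
  rw [Finset.sum_const, Finset.card_univ, Fintype.card_fin, nsmul_eq_mul]

theorem comb_coeff_bd {K r : ℕ} (jj : Fin r → Fin d) (A : Fin d → ℤ[X]) (g : Col d K r → ℤ)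
    (G M : ℝ) (hG0 : 0 ≤ G) (hM0 : 0 ≤ M) (hg : ∀ c, |(g c : ℝ)| ≤ G)
    (hA : ∀ j i, |((A j).coeff i : ℝ)| ≤ M) (i : ℕ) :
    |((comb jj A g).coeff i : ℝ)| ≤ (2 * d + K * r : ℕ) * (G * M) := by
  rw [comb, finsetSum_coeff]
  push_cast
  refine (Finset.abs_sum_le_sum_abs _ _).trans ?_
  have h1 : ∀ c ∈ (Finset.univ : Finset (Col d K r)),
      |((C (g c) * (X ^ ce c * A (cj jj c))).coeff i : ℝ)| ≤ G * M := by
    intro c _
    rw [coeff_C_mul, coeff_X_pow_mul', Int.cast_mul, abs_mul]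
    refine mul_le_mul (hg c) ?_ (abs_nonneg _) hG0
    split_ifs
    · exact hA _ _
    · simpa using hM0
  refine (Finset.sum_le_sum h1).trans ?_
  rw [Finset.sum_const, Finset.card_univ, card_Col, nsmul_eq_mul]
  push_cast
  exact le_rfl

/-- Gauss: `P ∣ Q` over `ℚ` implies `P.primPart ∣ Q` over `ℤ` -/
theorem primPart_dvd (P Q : ℤ[X])
    (h : P.map (Int.castRingHom ℚ) ∣ Q.map (Int.castRingHom ℚ)) : P.primPart ∣ Q := by
  have h1 : P.primPart.map (Int.castRingHom ℚ) ∣ P.map (Int.castRingHom ℚ) := by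
    conv_rhs => rw [P.eq_C_content_mul_primPart]
    rw [Polynomial.map_mul]
    exact dvd_mul_left _ _
  exact (IsPrimitive.Int.dvd_iff_map_cast_dvd_map_cast P.primPart Q P.isPrimitive_primPart).2
    (h1.trans h)

end

end Pool.Agent.Lib.Sqf4
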