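import Pool.Agent.Lib.Sqf4.WinN
import Pool.Agent.Lib.Sqf4.AsmN0

set_option autoImplicit false

/-!
Window for all degrees: `WindowN` holds.
-/

namespace Pool.Agent.Lib.Sqf4

open Polynomial Matrix

noncomputable section

variable {d : ℕ}

theorem E1_eq (hd : 2 ≤ d) :
    d + 2 * ∑ k ∈ Finset.range (d - 1), (k + 2) = d ^ 2 + 2 * d - 2 := by
  obtain ⟨m, rfl⟩ : ∃ m, d = m + 1 := ⟨d - 1, by omega⟩
  simp only [Nat.add_sub_cancel]
  have h3 : ∀ m : ℕ, 2 * ∑ k ∈ Finset.range m, (k + 2) = m * (m + 3) := by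
    intro m
    induction m with
    | zero => simp
    | succ m ih => rw [Finset.sum_range_succ, mul_add, ih]; ring
  have h4 := h3 m
  have h5 : (m + 1) ^ 2 + 2 * (m + 1) - 2 = (m + 1) + m * (m + 3) := by
    have : (m + 1) ^ 2 + 2 * (m + 1) = (m + 1) + m * (m + 3) + 2 := by ring
    omega
  omega

/-- the divisor case of a window, abstractly -/
theorem div_case (D : ℕ) (ρ : ℝ) (hρ : 0 < ρ) (C5 : ℝ) (hC5 : 1 ≤ C5) (B5 : ℕ) :
    ∃ C : ℝ, 1 ≤ C ∧ ∀ (Xr : ℝ), 1 ≤ Xr → ∀ (P Q : ℤ[X]), P.natDegree ≤ D → Q.natDegree ≤ D →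
      (∀ i, |(P.coeff i : ℝ)| ≤ C5 * Xr ^ B5) → (∀ i, |(Q.coeff i : ℝ)| ≤ C5 * Xr ^ B5) →
      P ≠ 0 → ¬ (P.map (Int.castRingHom ℚ) ∣ Q.map (Int.castRingHom ℚ)) →
      ∀ S : Finset ℤ, (∀ s ∈ S, P.eval s ≠ 0 ∧ P.eval s ∣ Q.eval s) →
        (S.card : ℝ) ≤ C * Xr ^ ρ := by
  obtain ⟨C2, hC2, hdiv⟩ := div_count D (ρ / (B5 + 1)) (by positivity)
  refine ⟨C2 * C5 ^ (ρ / (B5 + 1)), one_le_mul_of_one_le_of_one_le hC2
    (Real.one_le_rpow hC5 (by positivity)), ?_⟩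
  intro Xr hX P Q hPd hQd hPc hQc hP0 hnd S hS
  have hX0 : 0 < Xr := by linarith
  have h1 := hdiv P Q (C5 * Xr ^ B5) (one_le_mul_of_one_le_of_one_le hC5 (one_le_pow₀ hX)) hPd hQd
    hPc hQc hP0 hnd S hS
  refine h1.trans ?_
  rw [Real.mul_rpow (by linarith) (by positivity), mul_assoc]
  refine mul_le_mul_of_nonneg_left ?_ (by linarith)
  refine mul_le_mul_of_nonneg_left ?_ (by positivity)
  rw [← Real.rpow_natCast, ← Real.rpow_mul hX0.le]
  apply Real.rpow_le_rpow_of_exponent_le hX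
  rw [mul_div_assoc', div_le_iff₀ (by positivity)]
  nlinarith

theorem windowN {f : ℤ[X]} [NeZero d] (hd : 2 ≤ d) {θ : Fin d → ℂ} (h : Rts f d θ) :
    WindowN f d θ := by
  classical
  intro C0 hC0 ρ hρ
  have hd0 : 0 < d := by omega
  have hθ := h.inj
  obtain ⟨C1, hC1, B1, hrel⟩ := rel_windowN hd hθ C0 hC0 (d - 1)
  obtain ⟨C3, hC3, hcurve⟩ := curve_case hd hθ C0 hC0
  set Wb : ℝ := ∑ j, ∑ σ, ‖W θ j σ‖ with hWb
  set Θ : ℝ := ∑ σ, ‖θ σ‖ with hΘ
  have hWb0 : 0 ≤ Wb := Finset.sum_nonneg (fun _ _ => Finset.sum_nonneg (fun _ _ => norm_nonneg _))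
  have hΘ0 : 0 ≤ Θ := Finset.sum_nonneg (fun _ _ => norm_nonneg _)
  have hWle : ∀ j σ, ‖W θ j σ‖ ≤ Wb := by
    intro j σ
    rw [hWb]
    refine le_trans ?_ (Finset.single_le_sum (f := fun j => ∑ σ, ‖W θ j σ‖)
      (fun _ _ => Finset.sum_nonneg (fun _ _ => norm_nonneg _)) (Finset.mem_univ j))
    exact Finset.single_le_sum (f := fun σ => ‖W θ j σ‖) (fun _ _ => norm_nonneg _) (Finset.mem_univ σ)
  have hΘle : ∀ σ, ‖θ σ‖ ≤ Θ := fun σ =>
    Finset.single_le_sum (f := fun σ => ‖θ σ‖) (fun _ _ => norm_nonneg _) (Finset.mem_univ σ)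
  -- coefficient bound of `P`, `Q`
  set N1 : ℕ := 2 * d + (d - 1) * 2 with hN1
  set Kc : ℝ := d * ((1 + Θ) * (Wb * (2 * C0 * C0) ^ (2 * d))) with hKc
  have hKc0 : 0 ≤ Kc := by positivity
  set C5 : ℝ := 1 + N1 * (C1 * Kc) with hC5
  have hC5' : 1 ≤ C5 := by
    have : 0 ≤ N1 * (C1 * Kc) := by positivity
    linarith
  set B5 : ℕ := 4 * d + B1 with hB5
  set Dg : ℕ := (d - 1) + 1 + 2 * (d - 1) with hDg
  obtain ⟨C2, hC2, hdiv⟩ := div_case Dg ρ hρ C5 hC5' B5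
  -- number of primes
  obtain ⟨T, hT⟩ : ∃ T : ℕ, (B5 : ℝ) + ρ ≤ ρ * T := by
    obtain ⟨T, hT⟩ := exists_nat_ge (((B5 : ℝ) + ρ) / ρ)
    refine ⟨T, ?_⟩
    rw [div_le_iff₀ hρ] at hT
    linarith
  set M : ℕ := d + Dg + 2 * (d - 1) with hM
  set Cf : ℝ := C1 + C3 + Dg + C5 + 1 + C2 + 2 ^ (T + 1) * (1 + M) with hCf
  have h2T : (1 : ℝ) ≤ 2 ^ (T + 1) := one_le_pow₀ (by norm_num)
  have hM0 : (0 : ℝ) ≤ M := Nat.cast_nonneg _
  have hDg0 : (0 : ℝ) ≤ Dg := Nat.cast_nonneg _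
  have h2TM : (0 : ℝ) ≤ 2 ^ (T + 1) * (1 + M) := by positivity
  have hCf1 : C1 ≤ Cf := by rw [hCf]; linarith
  have hCf3 : C3 ≤ Cf := by rw [hCf]; linarith
  have hCfD : (Dg : ℝ) ≤ Cf := by rw [hCf]; linarith
  have hCf5 : C5 < Cf := by rw [hCf]; linarith
  have hCf2 : C2 ≤ Cf := by rw [hCf]; linarith
  have hCfT : 2 ^ (T + 1) * (1 + (M : ℝ)) ≤ Cf := by rw [hCf]; linarith
  have hCfT2 : (2 : ℝ) ^ (T + 1) ≤ Cf := by
    refine le_trans ?_ hCfT
    nlinarith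
  refine ⟨Cf, hC1.trans hCf1, ?_⟩
  intro Xr P H D τ hX hH hP hPX hHP hτ0 hτ1 hD0 hDH hCX hCXP hnum1 hnum2 a hz hsep S hS
  have hX0 : (0 : ℝ) < Xr := by linarith
  have hH0 : (0 : ℝ) < H := by linarith
  have hP0r : (0 : ℝ) < P := by linarith
  have hHX : H ≤ C0 * Xr ^ 2 := by
    have h1 : H ≤ H ^ d := le_self_pow₀ hH hd0.ne'
    calc H ≤ H ^ d := h1
      _ ≤ C0 * P := hHP
      _ ≤ C0 * Xr ^ 2 := by gcongr
  have hHD : (1 : ℝ) ≤ H / D := by
    rw [le_div_iff₀ hD0]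
    linarith
  -- the relation
  obtain ⟨g, hg0, hg1, hg2⟩ := hrel Xr P H τ hX hH hP hPX hHP hτ0 hτ1 (by
      rw [E1_eq hd]
      have h1 : N1 = 4 * d - 2 := by omega
      rw [h1]
      exact (detB_mono hX0 hP0r hH0 hτ0 hCf1).trans_lt hnum1) a hz
  obtain ⟨PB, QB, hPB⟩ := exists_PBQB h a
  have hzinj : Function.Injective (al θ a) := by
    intro σ ρ' hσρ
    by_contra hne
    have := hsep σ ρ' hne
    rw [hσρ, sub_self, norm_zero] at this
    linarith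
  set Pz : ℤ[X] := comb (jj2 hd) PB g with hPz
  set Qz : ℤ[X] := comb (jj2 hd) QB g with hQz
  have hPQ : ¬ (Pz = 0 ∧ Qz = 0) := by
    rintro ⟨h1, h2⟩
    exact hg0 (surf_indep hd PB QB (2 * (d - 1)) hPB.natDegree_P hPB.natDegree_Q
      (hPB.coeff_P hθ) (hPB.coeff_Q hθ hd) (hPB.level_one hθ hzinj) (d - 1) g h1 h2)
  have hPdeg : Pz.natDegree ≤ Dg := comb_natDegree _ _ _ hPB.natDegree_P g
  have hQdeg : Qz.natDegree ≤ Dg := comb_natDegree _ _ _ hPB.natDegree_Q g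
  have hval : ∀ x ∈ S, x.2 * Pz.eval x.1 = Qz.eval x.1 := by
    intro x hx
    obtain ⟨-, h1, h2, p, hp, hPp, β, hβ⟩ := hS x hx
    exact rel_eval hPB hθ (jj2 hd) g hβ (hg2 x.1 x.2 β ⟨h1, h2, p, hPp, hβ⟩)
  by_cases hPz0 : Pz = 0
  · have hQz0 : Qz ≠ 0 := fun h => hPQ ⟨hPz0, h⟩
    refine ⟨Qz.roots.toFinset, ?_, ?_⟩
    · have h1 : Qz.roots.toFinset.card ≤ Dg :=
        (Multiset.toFinset_card_le _).trans ((Polynomial.card_roots' _).trans hQdeg)
      refine le_trans ?_ hCfD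
      exact_mod_cast h1
    · have hempty : S.filter (fun x => x.1 ∉ Qz.roots.toFinset) = ∅ := by
        rw [Finset.filter_eq_empty_iff]
        intro x hx hxE
        apply hxE
        rw [Multiset.mem_toFinset, Polynomial.mem_roots hQz0, IsRoot.def, ← hval x hx, hPz0,
          eval_zero, mul_zero]
      rw [hempty, Finset.card_empty, Nat.cast_zero]
      have : 0 < Xr ^ ρ := Real.rpow_pos_of_pos hX0 _
      have : 1 ≤ Cf := hC1.trans hCf1
      positivity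
  have hXρ0 : 0 < Xr ^ ρ := Real.rpow_pos_of_pos hX0 _
  have hXρ1 : 1 ≤ Xr ^ ρ := Real.one_le_rpow hX hρ.le
  refine ⟨Pz.roots.toFinset, ?_, ?_⟩
  · have h1 : Pz.roots.toFinset.card ≤ Dg :=
      (Multiset.toFinset_card_le _).trans ((Polynomial.card_roots' _).trans hPdeg)
    refine le_trans ?_ hCfD
    exact_mod_cast h1
  have hmemE : ∀ s : ℤ, s ∉ Pz.roots.toFinset → Pz.eval s ≠ 0 := by
    intro s hs h0
    apply hs
    rw [Multiset.mem_toFinset, Polynomial.mem_roots hPz0]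
    exact h0
  -- coefficients
  have h1Z : (1 + C0 * H) ^ (2 * d) ≤ (2 * C0 * C0) ^ (2 * d) * Xr ^ (4 * d) := by
    have h2 : 1 + C0 * H ≤ 2 * C0 * C0 * Xr ^ 2 := by
      have h3 : C0 * H ≤ C0 * (C0 * Xr ^ 2) := mul_le_mul_of_nonneg_left hHX (by linarith)
      have h4 : (1 : ℝ) ≤ C0 * C0 * Xr ^ 2 := by
        have : (1 : ℝ) ≤ Xr ^ 2 := one_le_pow₀ hX
        nlinarith [mul_le_mul hC0 hC0 (by norm_num) (by linarith)]
      nlinarith
    calc (1 + C0 * H) ^ (2 * d) ≤ (2 * C0 * C0 * Xr ^ 2) ^ (2 * d) :=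
          pow_le_pow_left₀ (by positivity) h2 _
      _ = (2 * C0 * C0) ^ (2 * d) * Xr ^ (4 * d) := by
          rw [mul_pow, ← pow_mul Xr]
          congr 2
          ring
  have hPBc : ∀ j i, |((PB j).coeff i : ℝ)| ≤ Kc * Xr ^ (4 * d) := by
    intro j i
    refine (hPB.coeff_P_bd Wb (C0 * H) (by positivity) hz hWb0 hWle j i).trans ?_
    have h2 : (d : ℝ) * (Wb * (1 + C0 * H) ^ (2 * d))
        ≤ d * ((1 + Θ) * (Wb * ((2 * C0 * C0) ^ (2 * d) * Xr ^ (4 * d)))) := by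
      apply mul_le_mul_of_nonneg_left _ (by positivity)
      have h3 : Wb * (1 + C0 * H) ^ (2 * d) ≤ Wb * ((2 * C0 * C0) ^ (2 * d) * Xr ^ (4 * d)) :=
        mul_le_mul_of_nonneg_left h1Z hWb0
      have h4 : 0 ≤ Wb * ((2 * C0 * C0) ^ (2 * d) * Xr ^ (4 * d)) := by positivity
      nlinarith
    refine h2.trans (le_of_eq ?_)
    rw [hKc]; ring
  have hQBc : ∀ j i, |((QB j).coeff i : ℝ)| ≤ Kc * Xr ^ (4 * d) := by
    intro j i
    refine (hPB.coeff_Q_bd Wb (C0 * H) Θ (by positivity) hz hWb0 hWle hΘ0 hΘle j i).trans ?_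
    have h2 : (d : ℝ) * (Θ * (Wb * (1 + C0 * H) ^ (2 * d)))
        ≤ d * ((1 + Θ) * (Wb * ((2 * C0 * C0) ^ (2 * d) * Xr ^ (4 * d)))) := by
      apply mul_le_mul_of_nonneg_left _ (by positivity)
      have h3 : Wb * (1 + C0 * H) ^ (2 * d) ≤ Wb * ((2 * C0 * C0) ^ (2 * d) * Xr ^ (4 * d)) :=
        mul_le_mul_of_nonneg_left h1Z hWb0
      have h4 : 0 ≤ Wb * (1 + C0 * H) ^ (2 * d) := by positivity
      calc Θ * (Wb * (1 + C0 * H) ^ (2 * d)) ≤ (1 + Θ) * (Wb * (1 + C0 * H) ^ (2 * d)) := by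
            nlinarith
        _ ≤ (1 + Θ) * (Wb * ((2 * C0 * C0) ^ (2 * d) * Xr ^ (4 * d))) :=
            mul_le_mul_of_nonneg_left h3 (by positivity)
    refine h2.trans (le_of_eq ?_)
    rw [hKc]; ring
  have hcombc : ∀ A : Fin d → ℤ[X], (∀ j i, |((A j).coeff i : ℝ)| ≤ Kc * Xr ^ (4 * d)) →
      ∀ i, |((comb (jj2 hd) A g).coeff i : ℝ)| ≤ C5 * Xr ^ B5 := by
    intro A hA i
    refine (comb_coeff_bd (jj2 hd) A g (C1 * Xr ^ B1) (Kc * Xr ^ (4 * d)) (by positivity)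
      (by positivity) hg1 hA i).trans ?_
    rw [← hN1, hC5, hB5]
    have h2 : (N1 : ℝ) * (C1 * Xr ^ B1 * (Kc * Xr ^ (4 * d)))
        = (N1 * (C1 * Kc)) * Xr ^ (4 * d + B1) := by rw [pow_add]; ring
    rw [h2]
    apply mul_le_mul_of_nonneg_right _ (by positivity)
    linarith
  have hPco : ∀ i, |(Pz.coeff i : ℝ)| ≤ C5 * Xr ^ B5 := hcombc PB hPBc
  have hQco : ∀ i, |(Qz.coeff i : ℝ)| ≤ C5 * Xr ^ B5 := hcombc QB hQBc
  by_cases hdvd : Pz.map (Int.castRingHom ℚ) ∣ Qz.map (Int.castRingHom ℚ)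
  · -- curve case
    obtain ⟨Z0, hZ0⟩ := primPart_dvd Pz Qz hdvd
    have hc0 : Pz.content ≠ 0 := by
      rw [Ne, content_eq_zero_iff]; exact hPz0
    have hPpp : Pz = C Pz.content * Pz.primPart := Pz.eq_C_content_mul_primPart
    have hZdeg : Z0.natDegree ≤ Dg := by
      by_cases hZz : Z0 = 0
      · rw [hZz, natDegree_zero]; exact Nat.zero_le _
      · have h1 : Qz.natDegree = Pz.primPart.natDegree + Z0.natDegree := by
          rw [hZ0, natDegree_mul (primPart_ne_zero _) hZz]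
        omega
    have hcont : |(Pz.content : ℝ)| < (Xr ^ ρ) ^ T := by
      have h1 : |(Pz.content : ℝ)| ≤ C5 * Xr ^ B5 := by
        have h2 : Pz.content ∣ Pz.leadingCoeff := content_dvd_coeff _
        have h3 : |Pz.content| ≤ |Pz.leadingCoeff| :=
          Int.le_of_dvd (abs_pos.2 (leadingCoeff_ne_zero.2 hPz0)) ((abs_dvd_abs _ _).2 h2)
        have h4 : |(Pz.content : ℝ)| ≤ |(Pz.leadingCoeff : ℝ)| := by exact_mod_cast h3
        exact h4.trans (hPco _)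
      have h2 : Xr ^ ((B5 : ℝ) + ρ) ≤ (Xr ^ ρ) ^ T := by
        rw [← Real.rpow_natCast (Xr ^ ρ) T, ← Real.rpow_mul hX0.le]
        exact Real.rpow_le_rpow_of_exponent_le hX hT
      have h3 : C5 * Xr ^ B5 < Xr ^ ((B5 : ℝ) + ρ) := by
        rw [Real.rpow_add hX0, Real.rpow_natCast, mul_comm (Xr ^ B5)]
        exact mul_lt_mul_of_pos_right (hCf5.trans_le hCX) (by positivity)
      linarith
    obtain ⟨q, hq, hQq, hqle, hqc⟩ := exists_good_prime T (Xr ^ ρ) hXρ1 Pz.content hc0 hcont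
    have hqP : (q : ℝ) ≤ P := by
      refine (hqle.trans ?_).trans hCXP
      exact mul_le_mul_of_nonneg_right hCfT2 hXρ0.le
    have hcc := hcurve Xr P H D τ (Xr ^ ρ) hX hH hP hτ0 hτ1 hD0 hDH hXρ1
      ((detB_mono hX0 hP0r hH0 hτ0 hCf3).trans_lt hnum2) a hz hsep PB QB hPB Dg Z0 Pz.content hc0
      hZdeg q hq hQq hqP hqc (S.filter (fun x => x.1 ∉ Pz.roots.toFinset)) (by
        intro x hx
        rw [Finset.mem_filter] at hx
        obtain ⟨hbig, h1, h2, p, hp, hPp, β, hβ⟩ := hS x hx.1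
        refine ⟨?_, ?_, β, h1, h2, p, hp, hPp, hβ⟩
        · refine lt_of_le_of_lt ?_ hbig
          exact mul_le_mul_of_nonneg_right hCf3 (by positivity)
        · have hv := hval x hx.1
          have hne := hmemE _ hx.2
          have hPe : Pz.eval x.1 = Pz.content * Pz.primPart.eval x.1 := by
            conv_lhs => rw [hPpp]
            rw [eval_mul, eval_C]
          have hne2 : Pz.primPart.eval x.1 ≠ 0 := by
            intro h0; apply hne; rw [hPe, h0, mul_zero]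
          rw [hPe, hZ0, eval_mul] at hv
          have h9 : Pz.primPart.eval x.1 * (Pz.content * x.2)
              = Pz.primPart.eval x.1 * Z0.eval x.1 := by linear_combination hv
          exact mul_left_cancel₀ hne2 h9)
    have h1 : ((S.filter (fun x => x.1 ∉ Pz.roots.toFinset)).card : ℝ) ≤ q * M := by
      exact_mod_cast hcc
    refine h1.trans ?_
    calc (q : ℝ) * M ≤ (2 ^ (T + 1) * Xr ^ ρ) * M := mul_le_mul_of_nonneg_right hqle hM0
      _ = (2 ^ (T + 1) * M) * Xr ^ ρ := by ring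
      _ ≤ Cf * Xr ^ ρ := by
        apply mul_le_mul_of_nonneg_right _ hXρ0.le
        refine le_trans ?_ hCfT
        nlinarith
  · -- divisor case
    have hmain := hdiv Xr hX Pz Qz hPdeg hQdeg hPco hQco hPz0 hdvd
      ((S.filter (fun x => x.1 ∉ Pz.roots.toFinset)).image Prod.fst) (by
        intro s hs
        rw [Finset.mem_image] at hs
        obtain ⟨x, hx, rfl⟩ := hs
        rw [Finset.mem_filter] at hx
        refine ⟨hmemE _ hx.2, ?_⟩
        rw [← hval x hx.1]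
        exact Dvd.intro_left _ rfl)
    have hcard : ((S.filter (fun x => x.1 ∉ Pz.roots.toFinset)).image Prod.fst).card
        = (S.filter (fun x => x.1 ∉ Pz.roots.toFinset)).card := by
      apply Finset.card_image_of_injOn
      intro x hx y hy hxy
      rw [Finset.mem_coe, Finset.mem_filter] at hx hy
      have h1 := hval x hx.1
      have h2 := hval y hy.1
      have hne := hmemE _ hx.2
      have hxy' : x.1 = y.1 := hxy
      rw [← hxy', ← h1] at h2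
      have h3 : y.2 = x.2 := mul_right_cancel₀ hne h2
      exact Prod.ext hxy' h3.symm
    rw [hcard] at hmain
    exact hmain.trans (mul_le_mul_of_nonneg_right hCf2 hXρ0.le)

end

end Pool.Agent.Lib.Sqf4
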